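import Mathlib

/-!
# H47E: the elliptic Lindemann-Weierstrass theorem for wp and zeta in the CM case. Basic definitions.

See `PROOF.md`.
-/

set_option autoImplicit false

namespace H47E

open PowerSeries

/-! ## The formal series of the curve `y ^ 2 = x ^ 3 + a x ^ 2 + c x` (PROOF.md, section 1) -/

/-- The formal series `t = - x / y`, `v = 1 / (- y t)`, `g = w - 1 / t`, `rho = U / t` in the uniformising
parameter (argument of the Weierstrass functions) of the curve `y ^ 2 = x ^ 3 + a x ^ 2 + c x`. -/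
structure Ser (k : Type) [Field k] (a c : k) where
  /-- `- x / y` -/
  t : k⟦X⟧
  /-- `s / t`, where `s = - 1 / y` -/
  v : k⟦X⟧
  /-- `w - 1 / t` -/
  g : k⟦X⟧
  /-- `U / t` -/
  rho : k⟦X⟧
  t0 : constantCoeff t = 0
  g0 : constantCoeff g = 0
  rho0 : constantCoeff rho = 1
  hv : v = t ^ 2 * (1 + C a * v + C c * v ^ 2)
  ht : d⁄dX k t = 1 - C a * t ^ 2 - 2 * C c * t ^ 2 * v
  hg : d⁄dX k g = -(C c * v)
  hrho : d⁄dX k rho = rho * (g + C a * t + 2 * C c * t * v)

namespace Ser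

variable {k : Type} [Field k] {a c : k} (S : Ser k a c)

/-- `xi = t ^ 2 x` -/
noncomputable def xi : k⟦X⟧ := 1 - C a * S.t ^ 2 - C c * S.t ^ 2 * S.v

/-- `U`, an entire function with `U' = U w` (a Weierstrass sigma function up to a factor) -/
noncomputable def U : k⟦X⟧ := S.rho * S.t

/-- `U ^ 2 x` -/
noncomputable def X : k⟦X⟧ := S.rho ^ 2 * S.xi

/-- `U ^ 3 y` -/
noncomputable def Y : k⟦X⟧ := -(S.rho ^ 3 * S.xi)

/-- `U w` -/
noncomputable def Z : k⟦X⟧ := S.rho * (1 + S.t * S.g)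

/-- Transport along an embedding. -/
noncomputable def map {k' : Type} [Field k'] (σ : k →+* k') : Ser k' (σ a) (σ c) where
  t := PowerSeries.map σ S.t
  v := PowerSeries.map σ S.v
  g := PowerSeries.map σ S.g
  rho := PowerSeries.map σ S.rho
  t0 := by rw [← coeff_zero_eq_constantCoeff_apply, coeff_map, coeff_zero_eq_constantCoeff_apply, S.t0, map_zero]
  g0 := by rw [← coeff_zero_eq_constantCoeff_apply, coeff_map, coeff_zero_eq_constantCoeff_apply, S.g0, map_zero]
  rho0 := by rw [← coeff_zero_eq_constantCoeff_apply, coeff_map, coeff_zero_eq_constantCoeff_apply, S.rho0, map_one]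
  hv := by
    have := congrArg (PowerSeries.map σ) S.hv
    simpa using this
  ht := by
    have h : d⁄dX k' (PowerSeries.map σ S.t) = PowerSeries.map σ (d⁄dX k S.t) := by
      ext i; simp [coeff_derivative]
    rw [h, S.ht]; simp only [map_sub, map_mul, map_pow, map_one, map_ofNat, PowerSeries.map_C]
  hg := by
    have h : d⁄dX k' (PowerSeries.map σ S.g) = PowerSeries.map σ (d⁄dX k S.g) := by
      ext i; simp [coeff_derivative]
    rw [h, S.hg]; simp
  hrho := by
    have h : d⁄dX k' (PowerSeries.map σ S.rho) = PowerSeries.map σ (d⁄dX k S.rho) := by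
      ext i; simp [coeff_derivative]
    rw [h, S.hrho]; simp only [map_add, map_mul, map_ofNat, PowerSeries.map_C]

end Ser

/-! ## Growth -/

/-- The coefficients are at most `C ^ (i + 1) / sqrt (i!)`. -/
def AG (F : ℂ⟦X⟧) : Prop := ∃ B : ℝ, ∀ i : ℕ, ‖coeff i F‖ ≤ B ^ (i + 1) / Real.sqrt (i.factorial)

/-- The value at `z` of the entire function with the given power series. -/
noncomputable def val (F : ℂ⟦X⟧) (z : ℂ) : ℂ := ∑' i : ℕ, coeff i F * z ^ i

/-- The Taylor series at `z₀` of the entire function with the given power series. -/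
noncomputable def taylor (z₀ : ℂ) (F : ℂ⟦X⟧) : ℂ⟦X⟧ :=
  PowerSeries.mk fun i => ∑' l : ℕ, ((l + i).choose i : ℂ) * coeff (l + i) F * z₀ ^ l

/-- `f (p u)`. -/
noncomputable def sc {k : Type} [CommRing k] (p : k) (f : k⟦X⟧) : k⟦X⟧ := PowerSeries.mk fun i => p ^ i * coeff i f

/-! ## Denominators -/

section Den

open NumberField

variable (K : Type) [Field K] [NumberField K]

/-- `M ^ (B (i + 1)) i! f_i` is integral and divisible by `q ^ (i / q - k)` for all `q` in `Q`. -/
def PD (M : ℕ) (Q : Set ℕ) (k : ℕ) (f : K⟦X⟧) : Prop :=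
  ∃ B : ℕ, ∀ i : ℕ, ∃ b : 𝓞 K, algebraMap (𝓞 K) K b = (M : K) ^ (B * (i + 1)) * (i.factorial : K) * coeff i f ∧
    ∀ q ∈ Q, ((q : 𝓞 K) ^ (i / q - k)) ∣ b

open Classical in
/-- The set `Q` has at least half of the primes in the sense of Mertens. -/
def Half (Q : Set ℕ) : Prop :=
  (∀ q ∈ Q, q.Prime) ∧ ∀ ε : ℝ, 0 < ε → ∃ B : ℝ, ∀ N : ℕ, 1 ≤ N →
    (1 / 2 - ε) * Real.log N - B ≤ ∑ q ∈ (Finset.range (N + 1)).filter (fun q => q ∈ Q), Real.log q / q

/-- Complex multiplication of the curve `y ^ 2 = x ^ 3 + a x ^ 2 + c x`: a rational function `R = NN / DD` with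
`f R' ^ 2 = α ^ 2 f(R)`, `α` a non-real quadratic integer. -/
structure CMData (a c : K) where
  /-- the multiplier -/
  α : K
  /-- the trace -/
  A₀ : ℤ
  /-- the norm -/
  B₀ : ℤ
  /-- numerator -/
  NN : Polynomial K
  /-- denominator -/
  DD : Polynomial K
  quad : α ^ 2 - (A₀ : K) * α + (B₀ : K) = 0
  disc : A₀ ^ 2 - 4 * B₀ < 0
  ne : Polynomial.derivative NN * DD - NN * Polynomial.derivative DD ≠ 0
  eqn : (Polynomial.X ^ 3 + Polynomial.C a * Polynomial.X ^ 2 + Polynomial.C c * Polynomial.X) *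
      (Polynomial.derivative NN * DD - NN * Polynomial.derivative DD) ^ 2 =
    Polynomial.C (α ^ 2) * DD * (NN ^ 3 + Polynomial.C a * NN ^ 2 * DD + Polynomial.C c * NN * DD ^ 2)

/-- A sequence of common denominators with the growth `(i!) ^ (1 / 2 + eps)`. -/
structure Dens (d : ℕ → ℕ) : Prop where
  pos : ∀ i, 0 < d i
  dvd : ∀ i j, i ≤ j → d i ∣ d j
  growth : ∀ ε : ℝ, 0 < ε → ∃ B : ℝ, ∀ i : ℕ, Real.log (d i) ≤ (1 / 2 + ε) * i * Real.log (i + 1) + B * (i + 1)

/-- `d` is a sequence of denominators of the coefficients of `f`. -/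
def HasDen (d : ℕ → ℕ) (f : K⟦X⟧) : Prop := ∀ i : ℕ, IsIntegral ℤ ((d i : K) * coeff i f)

end Den

end H47E
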