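import Pool.Agent.Lib.H47E.Defs
import Pool.Agent.Lib.H35P.A9
import Pool.Agent.Lib.H35LW.C6E

/-!
# H47E, module C: the formal series, their growth, the link with the Weierstrass functions (PROOF.md, sections 1, 2, 3)
-/

set_option autoImplicit false

namespace H47E

open PowerSeries

/-! ## 1. Existence and uniqueness -/

/-- C1. -/
theorem ser_exists (k : Type) [Field k] [CharZero k] (a c : k) : Nonempty (Ser k a c) := by
  exact H35LW.ser_exists (k := k) (a := a) (c := c)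

/-- C1. -/
theorem ser_unique {k : Type} [Field k] [CharZero k] {a c : k} (S S' : Ser k a c) :
    S.t = S'.t ∧ S.v = S'.v ∧ S.g = S'.g ∧ S.rho = S'.rho := by
  exact H35LW.ser_unique S S'

/-! ## 2. Growth -/

/-- C2. -/
theorem ag_main (a c : ℂ) (S : Ser ℂ a c) : AG S.U ∧ AG S.X ∧ AG S.Y ∧ AG S.Z := by
  exact H35LW.ag_main S

/-- C2'. -/
theorem AG.add {F G : ℂ⟦X⟧} (hF : AG F) (hG : AG G) : AG (F + G) := by
  exact H35LW.AG.add hF hG

/-- C2'. -/
theorem AG.mul {F G : ℂ⟦X⟧} (hF : AG F) (hG : AG G) : AG (F * G) := by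
  exact H35LW.AG.mul hF hG

/-- C2'. -/
theorem AG.const (z : ℂ) : AG (C z) := by
  exact H35LW.AG.const z

/-- C2'. -/
theorem AG.sc {F : ℂ⟦X⟧} (hF : AG F) (p : ℂ) : AG (sc p F) := by
  exact H35LW.AG.sc hF p

/-- C2'. -/
theorem val_mul {F G : ℂ⟦X⟧} (hF : AG F) (hG : AG G) (z : ℂ) : val (F * G) z = val F z * val G z := by
  exact H35LW.val_mul hF hG z

/-- C2'. -/
theorem val_add {F G : ℂ⟦X⟧} (hF : AG F) (hG : AG G) (z : ℂ) : val (F + G) z = val F z + val G z := by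
  exact H35LW.val_add hF hG z

/-- C2'. -/
theorem val_sc {F : ℂ⟦X⟧} (hF : AG F) (p z : ℂ) : val (sc p F) z = val F (p * z) := by
  exact H35LW.val_sc p z

/-- C2'. The Taylor series of an entire function: its coefficients are the derivatives. -/
theorem taylor_coeff {F : ℂ⟦X⟧} (hF : AG F) (z₀ : ℂ) (i : ℕ) :
    coeff i (taylor z₀ F) = iteratedDeriv i (val F) z₀ / (i.factorial : ℂ) := by
  exact H35LW.taylor_coeff hF z₀ i

/-- C2'. -/
theorem val_differentiable {F : ℂ⟦X⟧} (hF : AG F) : Differentiable ℂ (val F) := by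
  exact H35LW.val_differentiable hF

/-! ## 3. The Weierstrass functions -/

variable (L : PeriodPair)

/-- `x = wp - e` -/
noncomputable def xf (e z : ℂ) : ℂ := L.weierstrassP z - e

/-- `y = wp' / 2` -/
noncomputable def yf (z : ℂ) : ℂ := L.derivWeierstrassP z / 2

/-- `w = zeta + e z` -/
noncomputable def wf (e z : ℂ) : ℂ := H35P.A5_z L z + e * z

/-- `e` is a root of the cubic, and the curve is `y ^ 2 = x ^ 3 + a x ^ 2 + c x`. -/
structure Norm (e a c : ℂ) : Prop where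
  root : 4 * e ^ 3 - L.g₂ * e - L.g₃ = 0
  ha : a = 3 * e
  hc : c = 3 * e ^ 2 - L.g₂ / 4

variable {L}

/-- C3. -/
theorem link_U {e a c : ℂ} (N : Norm L e a c) (S : Ser ℂ a c) {z : ℂ} (hz : z ∉ L.lattice) : val S.U z ≠ 0 := by
  exact (H35LW.link N.root N.ha N.hc S hz).1

/-- C3. -/
theorem link_X {e a c : ℂ} (N : Norm L e a c) (S : Ser ℂ a c) {z : ℂ} (hz : z ∉ L.lattice) :
    val S.X z = val S.U z ^ 2 * xf L e z := by
  exact (H35LW.link N.root N.ha N.hc S hz).2.X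

/-- C3. -/
theorem link_Y {e a c : ℂ} (N : Norm L e a c) (S : Ser ℂ a c) {z : ℂ} (hz : z ∉ L.lattice) :
    val S.Y z = val S.U z ^ 3 * yf L z := by
  exact (H35LW.link N.root N.ha N.hc S hz).2.Y

/-- C3. -/
theorem link_Z {e a c : ℂ} (N : Norm L e a c) (S : Ser ℂ a c) {z : ℂ} (hz : z ∉ L.lattice) :
    val S.Z z = val S.U z * wf L e z := by
  exact (H35LW.link N.root N.ha N.hc S hz).2.Z

/-- The curve is nonsingular. -/
theorem norm_disc {e a c : ℂ} (N : Norm L e a c) : c ≠ 0 ∧ a ^ 2 ≠ 4 * c := by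
  exact H35LW.norm_disc N.root N.ha N.hc

/-- The curve. -/
theorem curve {e a c : ℂ} (N : Norm L e a c) {z : ℂ} (hz : z ∉ L.lattice) :
    yf L z ^ 2 = xf L e z ^ 3 + a * xf L e z ^ 2 + c * xf L e z := by
  exact H35LW.curve N.root N.ha N.hc hz

/-- The derivatives. -/
theorem x_deriv (e : ℂ) {z : ℂ} (hz : z ∉ L.lattice) : HasDerivAt (xf L e) (2 * yf L z) z := by
  exact H35LW.x_deriv e hz

/-- The derivatives. -/
theorem y_deriv {e a c : ℂ} (N : Norm L e a c) {z : ℂ} (hz : z ∉ L.lattice) :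
    HasDerivAt (yf L) (3 * xf L e z ^ 2 + 2 * a * xf L e z + c) z := by
  exact H35LW.y_deriv N.ha N.hc hz

/-- The derivatives. -/
theorem w_deriv (e : ℂ) {z : ℂ} (hz : z ∉ L.lattice) : HasDerivAt (wf L e) (-xf L e z) z := by
  exact H35LW.w_deriv e hz

/-- `x` vanishes only at a half period. -/
theorem x_ne {e a c : ℂ} (N : Norm L e a c) {z : ℂ} (hz : 2 * z ∉ L.lattice) : xf L e z ≠ 0 := by
  exact H35LW.x_ne N.root N.ha N.hc hz

end H47E
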