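import Pool.Agent.Lib.H47E.Defs
import Pool.Agent.Lib.H57LW.Aat

/-!
# H47E, module A: the abstract arithmetic theorem (PROOF.md, section 8)
-/

set_option autoImplicit false

namespace H47E

open PowerSeries

/-- The values `θ b` lie in the `K`-span (via `ι`) of at most `ℓ` of them. -/
def SpanDim {K : Type} [Field K] (ι : K →+* ℂ) {bx : Type} (θ : bx → ℂ) (ℓ : ℕ) : Prop :=
  ∃ B : Finset bx, B.card ≤ ℓ ∧ ∀ b, ∃ κ : bx → K, θ b = ∑ b' ∈ B, ι (κ b') * θ b'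

/-- The rows of coefficients. -/
noncomputable def row {K : Type} [Field K] {lam kap bx : Type} [Fintype lam]
    (H : kap → lam → bx → K⟦X⟧) {D₀ : ℕ} (p : Fin D₀ → lam → ℤ) (m : ℕ) (κ : kap) (i : ℕ) : bx → K :=
  fun b => coeff i (∑ a : Fin D₀, ∑ l : lam, C (p a l : K) * (C (m : K) + X) ^ (a : ℕ) * H κ l b)

/-- The abstract arithmetic theorem. -/
theorem aat {K : Type} [Field K] [NumberField K] (ι : K →+* ℂ) {lam kap bx : Type} [Fintype lam] [Fintype kap]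
    [Fintype bx] [DecidableEq bx] (b₀ : bx)
    (Psa Psp : lam → K⟦X⟧) (Xi₀ : K⟦X⟧) (hXi₀ : Xi₀ ≠ 0) (hPs : ∀ l, Psa l = Xi₀ * Psp l)
    (Ha Hp : kap → lam → bx → K⟦X⟧) (Xi : K⟦X⟧) (hXi : Xi ≠ 0) (hH : ∀ κ l b, Ha κ l b = Xi * Hp κ l b)
    (agP : ∀ (σ : K →+* ℂ) l, AG (PowerSeries.map σ (Psa l)))
    (agH : ∀ (σ : K →+* ℂ) κ l b, AG (PowerSeries.map σ (Ha κ l b)))
    (d : ℕ → ℕ) (hd : Dens d) (denP : ∀ l, HasDen K d (Psp l)) (denH : ∀ κ l b, HasDen K d (Hp κ l b))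
    (m₀ : ℕ) (hm₀ : 1 ≤ m₀) (θ : ℕ → bx → ℂ) (hθ : ∀ m, θ m b₀ = 1) (ℓ : ℕ)
    (hℓ : ∀ m, 1 ≤ m → m ≤ m₀ → SpanDim ι (θ m) ℓ)
    (link : ∀ m, 1 ≤ m → m ≤ m₀ → ∀ κ, ∃ Th : ℂ⟦X⟧, (∃ B : ℝ, ∀ i, ‖coeff i Th‖ ≤ B ^ (i + 1)) ∧
      ∀ l, ∑ b, C (θ m b) * PowerSeries.map ι (Ha κ l b) = Th * taylor (m : ℂ) (PowerSeries.map ι (Psa l)))
    (T Nt : ℕ)
    (zeh : ∀ (D₀ : ℕ) (p : Fin D₀ → lam → ℤ), p ≠ 0 → ∃ m, 1 ≤ m ∧ m ≤ m₀ ∧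
      (Pi.single b₀ 1 : bx → K) ∈ Submodule.span K {r | ∃ κ i, i ≤ T + D₀ * Nt / m₀ ∧ r = row Hp p m κ i})
    (num₁ : 64 * Module.finrank ℚ K * Nt ≤ m₀ * Fintype.card lam)
    (num₂ : 10000 * Module.finrank ℚ K ^ 2 * (ℓ + 1) ≤ Fintype.card lam) : False := by
  refine Pool.Agent.H57LW.main ι b₀ Psa Psp Xi₀ hXi₀ hPs Ha Hp Xi hXi hH agP agH d
    ⟨hd.pos, hd.dvd, hd.growth⟩ (fun i l => denP l i) (fun i κ l b => denH κ l b i) m₀ ℓ T Nt hm₀ θ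
    (fun m _ _ => hθ m)
    (fun m h1 h2 => Pool.Agent.H57LW.few_of_spanDim ι (θ m) b₀ (by rw [hθ]; exact one_ne_zero) ℓ (hℓ m h1 h2))
    ?_ ?_ num₁ num₂
  · intro m h1 h2 κ
    obtain ⟨Th, h3, h4⟩ := link m h1 h2 κ
    refine ⟨Th, h3, fun l => ?_⟩
    rw [← Pool.Agent.H57LW.taylor_eq, ← h4 l]
    exact Finset.sum_congr rfl fun b _ => mul_comm _ _
  · intro D p hp
    obtain ⟨m, h1, h2, h3⟩ := zeh D p hp
    refine ⟨m, h1, h2, ?_⟩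
    have e : {r : bx → K | ∃ κ i, i ≤ T + D * Nt / m₀ ∧ r = row Hp p m κ i} =
        {v | ∃ κ i, i ≤ T + D * Nt / m₀ ∧ v = fun b => coeff i (Pool.Agent.H57LW.RS m (fun l => Hp κ l b) p)} := by
      ext r
      constructor
      · rintro ⟨κ, i, hi, rfl⟩
        refine ⟨κ, i, hi, ?_⟩
        funext b
        unfold row
        rw [Pool.Agent.H57LW.row_eq (fun l => Hp κ l b) p m]
      · rintro ⟨κ, i, hi, rfl⟩
        refine ⟨κ, i, hi, ?_⟩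
        funext b
        unfold row
        rw [Pool.Agent.H57LW.row_eq (fun l => Hp κ l b) p m]
    rw [e] at h3
    exact h3

end H47E
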