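import Pool.Agent.Lib.H47E.Defs
import Pool.Agent.Lib.H55L.B11

/-!
# H47E, module B: denominators (PROOF.md, section 4)

The proofs are in `Lib/H55L`: `B0`, `B01` (the q-curvature of the invariant derivation is zero when multiplication by `al` is inert at `q`),
`B02`, `B03` (power series), `B04`, `B05`, `B07` (good primes), `B06` (link with the series of the curve), `B08` (closure), `B09` (denominators),
`B10`, `B11` (half of the primes are inert).
-/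

set_option autoImplicit false

namespace H47E

open PowerSeries NumberField

variable {K : Type} [Field K] [NumberField K]

/-- B1 + B4. -/
theorem pd_main (a c : 𝓞 K) (_hc : c ≠ 0) (_hac : a ^ 2 ≠ 4 * c) (D : CMData K (a : K) (c : K)) (S : Ser K (a : K) (c : K))
    (M₀ : ℕ) (hM₀ : 0 < M₀) :
    ∃ M : ℕ, 0 < M ∧ M₀ ∣ M ∧ ∃ Q : Set ℕ, Half Q ∧ PD K M Q 0 S.t ∧ PD K M Q 0 S.v ∧ PD K M Q 1 S.g :=
  H55L.pd_main a c D S M₀ hM₀

/-- B2. -/
theorem PD.add {M : ℕ} {Q : Set ℕ} {k l : ℕ} {f g : K⟦X⟧} (hf : PD K M Q k f) (hg : PD K M Q l g) :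
    PD K M Q (max k l) (f + g) := H55L.pd_add hf hg

/-- B2. -/
theorem PD.mul {M : ℕ} (_hM : 0 < M) {Q : Set ℕ} (hQ : ∀ q ∈ Q, q.Prime) {k l : ℕ} {f g : K⟦X⟧} (hf : PD K M Q k f)
    (hg : PD K M Q l g) : PD K M Q (k + l) (f * g) := H55L.pd_mul hQ hf hg

/-- B2. -/
theorem PD.mono {M : ℕ} {Q : Set ℕ} {k l : ℕ} (h : k ≤ l) {f : K⟦X⟧} (hf : PD K M Q k f) : PD K M Q l f := H55L.pd_mono h hf

/-- B2: constants with denominators dividing a power of `M`. -/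
theorem PD.const {M : ℕ} {Q : Set ℕ} {x : K} {j : ℕ} (hx : IsIntegral ℤ ((M : K) ^ j * x)) : PD K M Q 0 (C x) := H55L.pd_const hx

/-- B2: `f (p u)`. -/
theorem PD.sc {M : ℕ} {Q : Set ℕ} {k : ℕ} {f : K⟦X⟧} (hf : PD K M Q k f) {x : K} {j : ℕ}
    (hx : IsIntegral ℤ ((M : K) ^ j * x)) : PD K M Q k (sc x f) := H55L.pd_sc hf hx

/-- B3: common denominators of finitely many series. -/
theorem pd_dens {M : ℕ} (hM : 0 < M) {Q : Set ℕ} (hQ : Half Q) (k : ℕ) {ι : Type} [Finite ι] (f : ι → K⟦X⟧)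
    (hf : ∀ i, PD K M Q k (f i)) : ∃ d : ℕ → ℕ, Dens d ∧ ∀ i, HasDen K d (f i) := H55L.pd_dens hM hQ k f hf

end H47E
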