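import Pool.Agent.Lib.H47E.C
import Pool.Agent.Lib.H16LW.D0
import Pool.Agent.Lib.H16LW.K4
import Pool.Agent.Lib.H16LW.U1
import Pool.Agent.Lib.H16LW.V4
import Pool.Agent.Lib.H16LW.E6
import Pool.Agent.Lib.H16LW.T4

/-!
# H47E, module D: density of the one-parameter group, CM data, transfer (PROOF.md, sections 7, 10)
-/

set_option autoImplicit false

namespace H47E

variable {L : PeriodPair}

/-- Density of the one-parameter group in the CM case. -/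
theorem density (hL : CM L) {n : ℕ} (p : Fin n → ℂ) (hp : KInd L p) (v τ : Fin n → ℂ) (ε : ℝ) (hε : 0 < ε) (R : ℝ) :
    ∃ u : ℂ, R < ‖u‖ ∧ ∀ j, ∃ l ∈ L.lattice, ‖v j + p j * u - τ j - l‖ < ε := by
  exact H16LW.density' L hL p hp v τ ε hε R

/-- Uniformisation. -/
theorem unif {e a c : ℂ} (N : Norm L e a c) (x₀ y₀ : ℂ) (h : y₀ ^ 2 = x₀ ^ 3 + a * x₀ ^ 2 + c * x₀) :
    ∃ v : ℂ, v ∉ L.lattice ∧ xf L e v = x₀ ∧ yf L v = y₀ := by
  exact H16LW.unif' N x₀ y₀ h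

/-- D1: a `del`-stable ideal which contains the equations of the curves and an element which does not vanish identically
is the unit ideal. -/
theorem dsimple {K : Type} [Field K] [NumberField K] (ι : K →+* ℂ) (hL : CM L) {e : ℂ} {a c : K} (N : Norm L e (ι a) (ι c))
    {n : ℕ} (p : Fin n → K) (hp : KInd L (fun j => ι (p j)))
    (J : Ideal (MvPolynomial (Option (Fin n × Fin 2)) K)) (hJ : ∀ f ∈ J, dS a c p f ∈ J)
    (hc : ∀ j, MvPolynomial.X (some (j, 1)) ^ 2 - (MvPolynomial.X (some (j, 0)) ^ 3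
      + MvPolynomial.C a * MvPolynomial.X (some (j, 0)) ^ 2 + MvPolynomial.C c * MvPolynomial.X (some (j, 0))) ∈ J)
    (Q : MvPolynomial (Option (Fin n × Fin 2)) K) (hQ : Q ∈ J) (z₀ : ℂ) (v : Fin n → ℂ) (hv : ∀ j, v j ∉ L.lattice)
    (hQ' : evS ι L e z₀ v Q ≠ 0) : (1 : MvPolynomial (Option (Fin n × Fin 2)) K) ∈ J := by
  exact H16LW.dsimple' ι hL N p hp J hJ hc Q hQ z₀ v hv hQ'

/-- D2: a number field which contains given algebraic numbers and the CM data. -/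
theorem cm_exists (hL : CM L) {e a c : ℂ} (N : Norm L e a c) (F : Finset ℂ) (hF : ∀ x ∈ F, IsAlgebraic ℚ x)
    (ha : a ∈ F) (hc : c ∈ F) :
    ∃ (K : IntermediateField ℚ ℂ) (_ : NumberField K) (hFK : ∀ x ∈ F, x ∈ K),
      Nonempty (CMData K (⟨a, hFK a ha⟩ : K) (⟨c, hFK c hc⟩ : K)) := by
  exact H16LW.cm_exists' hL N F hF ha hc

/-- D4: transfer of an algebraic relation from `p` to `m p`. -/
theorem transfer {K : Type} [Field K] (ι : K →+* ℂ) {e : ℂ} {a c : K} (N : Norm L e (ι a) (ι c)) {n : ℕ} (p : Fin n → ℂ) (m₀ : ℕ)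
    (hp : ∀ j, ∀ m : ℕ, 1 ≤ m → m ≤ m₀ → 2 * (m : ℂ) * p j ∉ L.lattice)
    (Q : MvPolynomial (Fin n × Fin 2) K) (hQ : Q ≠ 0)
    (h : MvPolynomial.eval₂ ι (fun i : Fin n × Fin 2 => if i.2 = 0 then xf L e (p i.1) else wf L e (p i.1)) Q = 0)
    (m : ℕ) (hm : 1 ≤ m) (hm' : m ≤ m₀) :
    ∃ Q' : MvPolynomial (Fin n × Fin 2) K, Q' ≠ 0 ∧
      MvPolynomial.eval₂ ι (fun i : Fin n × Fin 2 => if i.2 = 0 then xf L e (m * p i.1) else wf L e (m * p i.1)) Q' = 0 := by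
  exact H16LW.transfer' ι N p m₀ hp Q hQ h m hm hm'

end H47E
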