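import Pool.Agent.Lib.H47E.Defs

/-!
# H47E, module E: the ring (PROOF.md, section 5). Definitions.

`LL n a c k` is the ring `k[x_j, xb_j, yt_j, w_j] / (x_j xb_j = c, yt_j ^ 2 = x_j + xb_j + a)`: `xb = c / x`, `yt = y / x`,
`y ^ 2 = x ^ 3 + a x ^ 2 + c x`.
-/

set_option autoImplicit false

namespace H47E

open MvPolynomial

/-! ## The ring -/

section Ring

variable (n : ℕ) {K : Type} [Field K] (a c : K) (k : Type) [CommRing k] [Algebra K k]

/-- The relations. -/
noncomputable def relI : Ideal (MvPolynomial (Fin n × Fin 4) k) :=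
  Ideal.span {r | ∃ j : Fin n, r = X (j, 0) * X (j, 1) - C (algebraMap K k c) ∨
    r = X (j, 2) ^ 2 - (X (j, 0) + X (j, 1) + C (algebraMap K k a))}

/-- The ring. -/
abbrev LL : Type := MvPolynomial (Fin n × Fin 4) k ⧸ relI n a c k

variable {n}

/-- `x_j` -/
noncomputable def gx (j : Fin n) : LL n a c k := Ideal.Quotient.mk _ (X (j, 0))

/-- `xb_j = c / x_j` -/
noncomputable def gb (j : Fin n) : LL n a c k := Ideal.Quotient.mk _ (X (j, 1))

/-- `yt_j = y_j / x_j` -/
noncomputable def gt (j : Fin n) : LL n a c k := Ideal.Quotient.mk _ (X (j, 2))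

/-- `w_j` -/
noncomputable def gw (j : Fin n) : LL n a c k := Ideal.Quotient.mk _ (X (j, 3))

/-- `y_j = x_j yt_j` -/
noncomputable def gy (j : Fin n) : LL n a c k := gx a c k j * gt a c k j

theorem rel_c (j : Fin n) : gx a c k j * gb a c k j = algebraMap K (LL n a c k) c := by
  have h : (X (j, 0) * X (j, 1) - C (algebraMap K k c) : MvPolynomial (Fin n × Fin 4) k) ∈ relI n a c k :=
    Ideal.subset_span ⟨j, Or.inl rfl⟩
  have h2 := Ideal.Quotient.eq_zero_iff_mem.2 h
  rw [map_sub, map_mul, sub_eq_zero] at h2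
  exact h2

theorem rel_a (j : Fin n) : gt a c k j ^ 2 = gx a c k j + gb a c k j + algebraMap K (LL n a c k) a := by
  have h : (X (j, 2) ^ 2 - (X (j, 0) + X (j, 1) + C (algebraMap K k a)) : MvPolynomial (Fin n × Fin 4) k) ∈ relI n a c k :=
    Ideal.subset_span ⟨j, Or.inr rfl⟩
  have h2 := Ideal.Quotient.eq_zero_iff_mem.2 h
  rw [map_sub, map_pow, map_add, map_add, sub_eq_zero] at h2
  exact h2

/-- The curve. -/
theorem rel_y (j : Fin n) : gy a c k j ^ 2 = gx a c k j ^ 3 + algebraMap K (LL n a c k) a * gx a c k j ^ 2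
    + algebraMap K (LL n a c k) c * gx a c k j := by
  unfold gy
  linear_combination gx a c k j ^ 2 * rel_a a c k j + gx a c k j * rel_c a c k j

/-- Universal property: a ring homomorphism from the images of the variables. -/
noncomputable def llift {T : Type} [CommRing T] (φ : k →+* T) (f : Fin n × Fin 4 → T)
    (h1 : ∀ j, f (j, 0) * f (j, 1) = φ (algebraMap K k c))
    (h2 : ∀ j, f (j, 2) ^ 2 = f (j, 0) + f (j, 1) + φ (algebraMap K k a)) : LL n a c k →+* T :=
  Ideal.Quotient.lift (relI n a c k) (eval₂Hom φ f) (by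
    intro r hr
    refine Submodule.span_induction (p := fun r _ => eval₂Hom φ f r = 0) ?_ (map_zero _) ?_ ?_ hr
    · rintro r ⟨j, rfl | rfl⟩
      · simp [h1 j]
      · simp [h2 j]
    · intro x y _ _ hx hy
      rw [map_add, hx, hy, add_zero]
    · intro x y _ hy
      rw [smul_eq_mul, map_mul, hy, mul_zero])

/-- Base change. -/
noncomputable def bc {k' : Type} [CommRing k'] [Algebra K k'] (φ : k →ₐ[K] k') : LL n a c k →+* LL n a c k' :=
  llift a c k ((algebraMap k' (LL n a c k')).comp (φ : k →+* k'))
    (fun i => Ideal.Quotient.mk _ (X i))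
    (fun j => by
      have := rel_c a c k' j
      rw [IsScalarTower.algebraMap_apply K k' (LL n a c k')] at this
      rw [RingHom.comp_apply, RingHom.coe_coe, AlgHom.commutes]
      exact this)
    (fun j => by
      have := rel_a a c k' j
      rw [IsScalarTower.algebraMap_apply K k' (LL n a c k')] at this
      rw [RingHom.comp_apply, RingHom.coe_coe, AlgHom.commutes]
      exact this)

/-- The translation by the point `(0, 0)` in the directions of `I`: `x ↔ xb`, `yt ↦ - yt`, `w ↦ w + yt`. -/
noncomputable def tau (I : Finset (Fin n)) : LL n a c k →+* LL n a c k :=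
  llift a c k (algebraMap k (LL n a c k))
    (fun i => if i.1 ∈ I then (match i.2 with
      | 0 => gb a c k i.1
      | 1 => gx a c k i.1
      | 2 => -gt a c k i.1
      | 3 => gw a c k i.1 + gt a c k i.1) else Ideal.Quotient.mk _ (X i))
    (fun j => by
      have h := rel_c a c k j
      rw [IsScalarTower.algebraMap_apply K k (LL n a c k)] at h
      by_cases hj : j ∈ I
      · simp only [hj, if_true]
        rw [mul_comm, h]
      · simp only [hj, if_false]
        exact h)
    (fun j => by
      have h := rel_a a c k j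
      rw [IsScalarTower.algebraMap_apply K k (LL n a c k)] at h
      by_cases hj : j ∈ I
      · simp only [hj, if_true]
        have h3 : (-gt a c k j) ^ 2 = gt a c k j ^ 2 := by ring
        rw [h3, h]; ring
      · simp only [hj, if_false]
        exact h)

end Ring

/-! ## Indices -/

/-- The index `(i, e, κ)` of the basis element `x ^ i yt ^ e w ^ κ` (`xb ^ (- i)` for `i < 0`). -/
abbrev Ix : Type := ℤ × Fin 2 × ℕ

/-- The weight (the order of the pole at the origin, `w` counted once). -/
def wt (i : Ix) : ℤ := 2 * i.1 + (i.2.1 : ℕ) + i.2.2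

/-- Type A: regular outside the origin. -/
def tA (i : Ix) : Prop := ((i.2.1 : ℕ) : ℤ) ≤ i.1

/-- The degree in the `w_j`. -/
def wd {n : ℕ} (I : Fin n → Ix) : ℕ := ∑ j, (I j).2.2

section Mon

variable {n : ℕ} {K : Type} [Field K] (a c : K) (k : Type) [CommRing k] [Algebra K k]

/-- The basis elements in one direction. -/
noncomputable def mon1 (j : Fin n) (i : Ix) : LL n a c k :=
  (if 0 ≤ i.1 then gx a c k j ^ i.1.toNat else gb a c k j ^ (-i.1).toNat) * gt a c k j ^ (i.2.1 : ℕ) * gw a c k j ^ i.2.2

/-- The basis elements. -/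
noncomputable def mon (I : Fin n → Ix) : LL n a c k := ∏ j, mon1 a c k j (I j)

end Mon

/-! ## Types and filtrations (abstract) -/

/-- The four types. -/
inductive Ty
  | A
  | B
  | L
  | G

/-- The condition in one direction. -/
def ok1 (s : Ty) (d : ℤ) (i : Ix) : Prop :=
  match s with
  | Ty.A => tA i
  | Ty.B => wt i ≤ d
  | Ty.L => True
  | Ty.G => tA i ∧ wt i ≤ d

/-- The condition on indices. -/
def okI {n : ℕ} (s : Fin n → Ty) (d : ℤ) (κ : ℕ) (I : Fin n → Ix) : Prop := wd I ≤ κ ∧ ∀ j, ok1 (s j) d (I j)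

section Abs

variable {n : ℕ} {k M : Type} [CommRing k] [CommRing M] [Algebra k M]

/-- The elements all whose coordinates have indices with `okI`. -/
def MS (b : Module.Basis (Fin n → Ix) k M) (s : Fin n → Ty) (d : ℤ) (κ : ℕ) : Submodule k M where
  carrier := {m | ∀ I, b.repr m I ≠ 0 → okI s d κ I}
  add_mem' := by
    intro x y hx hy I hI
    by_cases h : b.repr x I = 0
    · by_cases h' : b.repr y I = 0
      · exact absurd (by rw [map_add, Finsupp.add_apply, h, h', add_zero]) hI
      · exact hy I h'
    · exact hx I h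
  zero_mem' := by
    intro I hI
    exact absurd (by simp) hI
  smul_mem' := by
    intro r x hx I hI
    refine hx I fun h => hI ?_
    rw [map_smul, Finsupp.smul_apply, h, smul_zero]

/-- The product rule: weights and degrees add, type A is preserved. -/
structure GoodB (b : Module.Basis (Fin n → Ix) k M) : Prop where
  one : b (fun _ => (0, 0, 0)) = 1
  mul : ∀ I I' J : Fin n → Ix, b.repr (b I * b I') J ≠ 0 →
    wd J ≤ wd I + wd I' ∧ (∀ j, wt (J j) ≤ wt (I j) + wt (I' j)) ∧ ∀ j, tA (I j) → tA (I' j) → tA (J j)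

end Abs

end H47E
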