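import Pool.Agent.Lib.H47E.E0

/-!
# H47E, chunk E1f: the product of two monomials in one direction
-/

set_option autoImplicit false

namespace H47E

open MvPolynomial

variable {n : ℕ} {K : Type} [Field K] (a c : K) (k : Type) [CommRing k] [Algebra K k] {R : Subring K}

/-- powers of `x`, with `xb` for negative exponents -/
noncomputable def e1fXp (j : Fin n) (m : ℤ) : LL n a c k :=
  if 0 ≤ m then gx a c k j ^ m.toNat else gb a c k j ^ (-m).toNat

theorem e1f_mon (j : Fin n) (m : ℤ) (e : Fin 2) (κ : ℕ) :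
    mon1 a c k j (m, e, κ) = e1fXp a c k j m * gt a c k j ^ (e : ℕ) * gw a c k j ^ κ := rfl

theorem e1f_nat (j : Fin n) (p q : ℕ) :
    ∃ l : ℕ, gx a c k j ^ p * gb a c k j ^ q = algebraMap K (LL n a c k) c ^ l * e1fXp a c k j ((p : ℤ) - q) := by
  rcases le_total q p with h | h
  · refine ⟨q, ?_⟩
    have h1 : (0 : ℤ) ≤ (p : ℤ) - q := by omega
    have h2 : ((p : ℤ) - q).toNat = p - q := by omega
    unfold e1fXp
    rw [if_pos h1, h2, ← rel_c a c k j, mul_pow]
    obtain ⟨r, rfl⟩ := Nat.exists_eq_add_of_le h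
    rw [Nat.add_sub_cancel_left, pow_add]
    ring
  · rcases eq_or_lt_of_le h with h0 | h0
    · refine ⟨p, ?_⟩
      subst h0
      have h1 : (0 : ℤ) ≤ (p : ℤ) - p := by omega
      have h2 : ((p : ℤ) - p).toNat = 0 := by omega
      unfold e1fXp
      rw [if_pos h1, h2, ← rel_c a c k j, mul_pow, pow_zero, mul_one]
    · refine ⟨p, ?_⟩
      have h1 : ¬ (0 : ℤ) ≤ (p : ℤ) - q := by omega
      have h2 : (-((p : ℤ) - q)).toNat = q - p := by omega
      unfold e1fXp
      rw [if_neg h1, h2, ← rel_c a c k j, mul_pow]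
      obtain ⟨r, rfl⟩ := Nat.exists_eq_add_of_le h
      rw [Nat.add_sub_cancel_left, pow_add]
      ring

theorem e1f_xp (j : Fin n) (m m' : ℤ) :
    ∃ l : ℕ, e1fXp a c k j m * e1fXp a c k j m' = algebraMap K (LL n a c k) c ^ l * e1fXp a c k j (m + m') := by
  by_cases h1 : 0 ≤ m
  · by_cases h2 : 0 ≤ m'
    · refine ⟨0, ?_⟩
      have h3 : (m + m').toNat = m.toNat + m'.toNat := by omega
      unfold e1fXp
      rw [if_pos h1, if_pos h2, if_pos (add_nonneg h1 h2), h3, pow_add, pow_zero, one_mul]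
    · obtain ⟨l, hl⟩ := e1f_nat a c k j m.toNat (-m').toNat
      refine ⟨l, ?_⟩
      have h3 : ((m.toNat : ℕ) : ℤ) - ((-m').toNat : ℕ) = m + m' := by omega
      rw [h3] at hl
      rw [← hl]
      unfold e1fXp
      rw [if_pos h1, if_neg h2]
  · by_cases h2 : 0 ≤ m'
    · obtain ⟨l, hl⟩ := e1f_nat a c k j m'.toNat (-m).toNat
      refine ⟨l, ?_⟩
      have h3 : ((m'.toNat : ℕ) : ℤ) - ((-m).toNat : ℕ) = m + m' := by omega
      rw [h3] at hl
      rw [← hl]
      unfold e1fXp
      rw [if_neg h1, if_pos h2, mul_comm]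
    · refine ⟨0, ?_⟩
      have h4 : ¬ 0 ≤ m + m' := by omega
      have h3 : (-(m + m')).toNat = (-m).toNat + (-m').toNat := by omega
      unfold e1fXp
      rw [if_neg h1, if_neg h2, if_neg h4, h3, pow_add, pow_zero, one_mul]

theorem e1f_one (j : Fin n) : e1fXp a c k j 1 = gx a c k j := by
  unfold e1fXp
  rw [if_pos (by norm_num), show (1 : ℤ).toNat = 1 from rfl, pow_one]

theorem e1f_neg (j : Fin n) : e1fXp a c k j (-1) = gb a c k j := by
  unfold e1fXp
  rw [if_neg (by norm_num), show (-(-1 : ℤ)).toNat = 1 from rfl, pow_one]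

theorem e1f_smul {S : Set (LL n a c k)} {u : K} (hu : u ∈ R) {z : LL n a c k} (hz : z ∈ Submodule.span R S) :
    algebraMap K (LL n a c k) u * z ∈ Submodule.span R S := by
  have h1 := Submodule.smul_mem (Submodule.span R S) (⟨u, hu⟩ : R) hz
  have h2 : algebraMap K (LL n a c k) u * z = (⟨u, hu⟩ : R) • z := (Algebra.smul_def u z).symm
  rw [h2]
  exact h1

/-- The product of two monomials in one direction.

Proof. Let `i = (i₁, e₁, κ₁)`, `i' = (i₂, e₂, κ₂)`. First: `mon1 (i₁, 0, 0) * mon1 (i₂, 0, 0) = c ^ l • mon1 (i₁ + i₂, 0, 0)` for some `l`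
(`x xb = c`, cases on the signs). `w ^ κ₁ * w ^ κ₂ = w ^ (κ₁ + κ₂)`. `yt ^ e₁ * yt ^ e₂` is `1`, `yt` or `yt ^ 2 = x + xb + a`; in the last case
(`e₁ = e₂ = 1`) the product is `c ^ l • (x ^ [i₁ + i₂]) (x + xb + a) w ^ (κ₁ + κ₂)` where `x ^ [i] = mon1 (i, 0, 0)`, a combination of the
monomials with first index `i₁ + i₂ + 1`, `i₁ + i₂ - 1`, `i₁ + i₂` (coefficients powers of `c`, and `a` times powers of `c`), `e = 0`, of
weights `≤ 2 (i₁ + i₂ + 1) + κ₁ + κ₂ = wt i + wt i'`; if both are of type A then `i₁, i₂ ≥ 1`, so the first indices are `≥ 1 ≥ 0`. -/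
theorem e1f_mul1 (ha : a ∈ R) (hc : c ∈ R) (j : Fin n) (i i' : Ix) :
    mon1 a c k j i * mon1 a c k j i' ∈ Submodule.span R (mon1 a c k j '' {i'' | wt i'' ≤ wt i + wt i' ∧
      i''.2.2 = i.2.2 + i'.2.2 ∧ (tA i → tA i' → tA i'')}) := by
  obtain ⟨m, e, κ⟩ := i
  obtain ⟨m', e', κ'⟩ := i'
  obtain ⟨l, hl⟩ := e1f_xp a c k j m m'
  have hcl : ∀ l : ℕ, c ^ l ∈ R := fun l => pow_mem hc l
  have hmul : mon1 a c k j (m, e, κ) * mon1 a c k j (m', e', κ') = algebraMap K (LL n a c k) (c ^ l) *
      (e1fXp a c k j (m + m') * (gt a c k j ^ (e : ℕ) * gt a c k j ^ (e' : ℕ)) * gw a c k j ^ (κ + κ')) := by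
    rw [e1f_mon, e1f_mon, map_pow, pow_add]
    calc e1fXp a c k j m * gt a c k j ^ (e : ℕ) * gw a c k j ^ κ * (e1fXp a c k j m' * gt a c k j ^ (e' : ℕ) * gw a c k j ^ κ')
        = (e1fXp a c k j m * e1fXp a c k j m') * (gt a c k j ^ (e : ℕ) * gt a c k j ^ (e' : ℕ)) *
          (gw a c k j ^ κ * gw a c k j ^ κ') := by ring
      _ = _ := by
        rw [hl]
        ring
  rw [hmul]
  apply e1f_smul a c k (hcl l)
  have he : e = 0 ∨ e = 1 := by
    fin_cases e
    · exact Or.inl rfl
    · exact Or.inr rfl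
  have he' : e' = 0 ∨ e' = 1 := by
    fin_cases e'
    · exact Or.inl rfl
    · exact Or.inr rfl
  have hv0 : ((0 : Fin 2) : ℕ) = 0 := rfl
  have hv1 : ((1 : Fin 2) : ℕ) = 1 := rfl
  rcases he with rfl | rfl
  · rcases he' with rfl | rfl
    · refine Submodule.subset_span ⟨(m + m', 0, κ + κ'), ⟨?_, rfl, ?_⟩, ?_⟩
      · unfold wt
        push_cast
        simp only [hv0]
        linarith
      · unfold tA
        simp only [hv0]
        intro h1 h2
        push_cast at h1 h2 ⊢
        linarith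
      · simp only [e1f_mon, hv0, pow_zero, mul_one]
    · refine Submodule.subset_span ⟨(m + m', 1, κ + κ'), ⟨?_, rfl, ?_⟩, ?_⟩
      · unfold wt
        push_cast
        simp only [hv0, hv1]
        push_cast
        linarith
      · unfold tA
        simp only [hv0, hv1]
        intro h1 h2
        push_cast at h1 h2 ⊢
        linarith
      · rw [e1f_mon, hv0, hv1, pow_zero, one_mul]
  · rcases he' with rfl | rfl
    · refine Submodule.subset_span ⟨(m + m', 1, κ + κ'), ⟨?_, rfl, ?_⟩, ?_⟩
      · unfold wt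
        push_cast
        simp only [hv0, hv1]
        push_cast
        linarith
      · unfold tA
        simp only [hv0, hv1]
        intro h1 h2
        push_cast at h1 h2 ⊢
        linarith
      · rw [e1f_mon, hv0, hv1, pow_zero, mul_one]
    · obtain ⟨l1, hl1⟩ := e1f_xp a c k j (m + m') 1
      obtain ⟨l2, hl2⟩ := e1f_xp a c k j (m + m') (-1)
      rw [e1f_one] at hl1
      rw [e1f_neg] at hl2
      have hexp : e1fXp a c k j (m + m') * (gt a c k j ^ ((1 : Fin 2) : ℕ) * gt a c k j ^ ((1 : Fin 2) : ℕ)) * gw a c k j ^ (κ + κ') =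
          algebraMap K (LL n a c k) (c ^ l1) * mon1 a c k j (m + m' + 1, 0, κ + κ') +
          algebraMap K (LL n a c k) (c ^ l2) * mon1 a c k j (m + m' + -1, 0, κ + κ') +
          algebraMap K (LL n a c k) a * mon1 a c k j (m + m', 0, κ + κ') := by
        rw [e1f_mon, e1f_mon, e1f_mon, hv0, hv1, pow_one, pow_zero, mul_one, mul_one, mul_one, ← pow_two, rel_a, map_pow,
          map_pow]
        calc e1fXp a c k j (m + m') * (gx a c k j + gb a c k j + algebraMap K (LL n a c k) a) * gw a c k j ^ (κ + κ')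
            = (e1fXp a c k j (m + m') * gx a c k j) * gw a c k j ^ (κ + κ') +
              (e1fXp a c k j (m + m') * gb a c k j) * gw a c k j ^ (κ + κ') +
              algebraMap K (LL n a c k) a * (e1fXp a c k j (m + m') * gw a c k j ^ (κ + κ')) := by ring
          _ = _ := by
            rw [hl1, hl2]
            ring
      rw [hexp]
      refine Submodule.add_mem _ (Submodule.add_mem _ (e1f_smul a c k (hcl l1) ?_) (e1f_smul a c k (hcl l2) ?_))
        (e1f_smul a c k ha ?_)
      · refine Submodule.subset_span ⟨(m + m' + 1, 0, κ + κ'), ⟨?_, rfl, ?_⟩, rfl⟩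
        · unfold wt
          push_cast
          simp only [hv0, hv1]
          push_cast
          linarith
        · unfold tA
          simp only [hv0, hv1]
          intro h1 h2
          push_cast at h1 h2 ⊢
          linarith
      · refine Submodule.subset_span ⟨(m + m' + -1, 0, κ + κ'), ⟨?_, rfl, ?_⟩, rfl⟩
        · unfold wt
          push_cast
          simp only [hv0, hv1]
          push_cast
          linarith
        · unfold tA
          simp only [hv0, hv1]
          intro h1 h2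
          push_cast at h1 h2 ⊢
          linarith
      · refine Submodule.subset_span ⟨(m + m', 0, κ + κ'), ⟨?_, rfl, ?_⟩, rfl⟩
        · unfold wt
          push_cast
          simp only [hv0, hv1]
          push_cast
          linarith
        · unfold tA
          simp only [hv0, hv1]
          intro h1 h2
          push_cast at h1 h2 ⊢
          linarith

end H47E
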