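import Pool.Agent.Lib.H47E.E1d
import Pool.Agent.Lib.H47E.E1f

/-!
# H47E, chunk E1g: products of monomials, the monomials generate
-/

set_option autoImplicit false

namespace H47E

open MvPolynomial

variable {n : ℕ} {K : Type} [Field K] (a c : K) (k : Type) [CommRing k] [Algebra K k] {R : Subring K}

/-- The product of two monomials. (`e1d_prod`, `e1f_mul1`, `Finset.prod_mul_distrib`.) -/
theorem e1g_mul (ha : a ∈ R) (hc : c ∈ R) (I I' : Fin n → Ix) :
    mon a c k I * mon a c k I' ∈ Submodule.span R (mon a c k '' {J | ∀ j, wt (J j) ≤ wt (I j) + wt (I' j) ∧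
      (J j).2.2 = (I j).2.2 + (I' j).2.2 ∧ (tA (I j) → tA (I' j) → tA (J j))}) := by
  have h := e1d_prod a c k R (fun j => {i'' | wt i'' ≤ wt (I j) + wt (I' j) ∧
      i''.2.2 = (I j).2.2 + (I' j).2.2 ∧ (tA (I j) → tA (I' j) → tA i'')})
    (fun j => mon1 a c k j (I j) * mon1 a c k j (I' j)) (fun j => e1f_mul1 a c k ha hc j (I j) (I' j))
  rw [Finset.prod_mul_distrib] at h
  exact h

theorem e1g_one : mon a c k (fun _ : Fin n => ((0, 0, 0) : Ix)) = 1 := by
  unfold mon mon1
  simp

theorem e1g_mon1_zero (j : Fin n) : mon1 a c k j ((0, 0, 0) : Ix) = 1 := by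
  unfold mon1
  simp

theorem e1g_upd (j : Fin n) (i : Ix) :
    mon a c k (Function.update (fun _ : Fin n => ((0, 0, 0) : Ix)) j i) = mon1 a c k j i := by
  unfold mon
  rw [Finset.prod_eq_single j]
  · rw [Function.update_self]
  · intro j' _ hj
    rw [Function.update_of_ne hj]
    exact e1g_mon1_zero a c k j'
  · intro h
    exact absurd (Finset.mem_univ j) h

theorem e1g_gen (j : Fin n) (i : Fin 4) : ∃ I : Fin n → Ix,
    (Ideal.Quotient.mk _ (X (j, i)) : LL n a c k) = mon a c k I := by
  fin_cases i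
  · refine ⟨Function.update (fun _ => (0, 0, 0)) j (1, 0, 0), ?_⟩
    rw [e1g_upd]
    unfold mon1 gx
    simp
  · refine ⟨Function.update (fun _ => (0, 0, 0)) j (-1, 0, 0), ?_⟩
    rw [e1g_upd]
    unfold mon1 gb
    simp
  · refine ⟨Function.update (fun _ => (0, 0, 0)) j (0, 1, 0), ?_⟩
    rw [e1g_upd]
    unfold mon1 gt
    simp
  · refine ⟨Function.update (fun _ => (0, 0, 0)) j (0, 0, 1), ?_⟩
    rw [e1g_upd]
    unfold mon1 gw
    simp

/-- The monomials generate `LL n a c k` as a `k`-module.

Proof. Every element is the class of a polynomial: induction (`Ideal.Quotient.mk_surjective`, `MvPolynomial.induction_on`): `C r` is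
`r • mon 0`; sums; products with a variable: the span is closed under multiplication by `mon` of the index which is `(1, 0, 0)`,
`(-1, 0, 0)`, `(0, 1, 0)`, `(0, 0, 1)` in direction `j` and `(0, 0, 0)` elsewhere (these are `x_j`, `xb_j`, `yt_j`, `w_j`), by `e1g_mul` for
`R = ⊤`. -/
theorem e1g_span : Submodule.span k (Set.range (mon a c k : (Fin n → Ix) → LL n a c k)) = ⊤ := by
  set N := Submodule.span k (Set.range (mon a c k : (Fin n → Ix) → LL n a c k)) with hN
  have hle : ∀ (s : Set (LL n a c k)), s ⊆ Set.range (mon a c k : (Fin n → Ix) → LL n a c k) →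
      ∀ x ∈ Submodule.span (⊤ : Subring K) s, x ∈ N := by
    intro s hs x hx
    refine Submodule.span_induction (p := fun x _ => x ∈ N) ?_ ?_ ?_ ?_ hx
    · intro y hy
      exact Submodule.subset_span (hs hy)
    · exact N.zero_mem
    · intro y z _ _ hy hz
      exact N.add_mem hy hz
    · intro r y _ hy
      have e : r • y = algebraMap K k (r : K) • y := (algebraMap_smul k (r : K) y).symm
      rw [e]
      exact N.smul_mem _ hy
  have hmm : ∀ I I' : Fin n → Ix, mon a c k I * mon a c k I' ∈ N := by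
    intro I I'
    refine hle _ ?_ _ (e1g_mul (R := ⊤) a c k (Subring.mem_top a) (Subring.mem_top c) I I')
    exact Set.image_subset_range _ _
  have hmul : ∀ x ∈ N, ∀ I' : Fin n → Ix, x * mon a c k I' ∈ N := by
    intro x hx I'
    refine Submodule.span_induction (p := fun x _ => x * mon a c k I' ∈ N) ?_ ?_ ?_ ?_ hx
    · rintro y ⟨I, rfl⟩
      exact hmm I I'
    · rw [zero_mul]
      exact N.zero_mem
    · intro y z _ _ hy hz
      rw [add_mul]
      exact N.add_mem hy hz
    · intro r y _ hy
      rw [smul_mul_assoc]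
      exact N.smul_mem _ hy
  rw [eq_top_iff]
  rintro x -
  obtain ⟨p, rfl⟩ := Ideal.Quotient.mk_surjective x
  induction p using MvPolynomial.induction_on with
  | C r =>
    have e : (Ideal.Quotient.mk (relI n a c k) (C r) : LL n a c k) = r • mon a c k (fun _ => ((0, 0, 0) : Ix)) := by
      have e2 : (C r : MvPolynomial (Fin n × Fin 4) k) = r • 1 := by rw [smul_eq_C_mul, mul_one]
      rw [e1g_one, e2]
      rfl
    rw [e]
    exact N.smul_mem _ (Submodule.subset_span ⟨_, rfl⟩)
  | add p q hp hq =>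
    rw [map_add]
    exact N.add_mem hp hq
  | mul_X p i hp =>
    obtain ⟨j, i⟩ := i
    obtain ⟨I, hI⟩ := e1g_gen a c k j i
    rw [map_mul, hI]
    exact hmul _ hp I

end H47E
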