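import Pool.Agent.Lib.H47E.E1c
import Pool.Agent.Lib.H47E.E1g

/-!
# H47E, chunk E1: the basis of `LL n a c k`
-/

set_option autoImplicit false

namespace H47E

open MvPolynomial

variable {n : ℕ} {K : Type} [Field K] (a c : K) (k : Type) [CommRing k] [Algebra K k]

/-- e1 aux: coordinates of the span of monomials. -/
theorem e1_span (b : Module.Basis (Fin n → Ix) k (LL n a c k)) (hb : ∀ I, b I = mon a c k I)
    (S : Set (Fin n → Ix)) (x : LL n a c k) (hx : x ∈ Submodule.span (⊤ : Subring K) (mon a c k '' S))
    (J : Fin n → Ix) (hJ : b.repr x J ≠ 0) : J ∈ S := by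
  classical
  have h : ∀ J : Fin n → Ix, b.repr x J ≠ 0 → J ∈ S := by
    refine Submodule.span_induction (p := fun x _ => ∀ J : Fin n → Ix, b.repr x J ≠ 0 → J ∈ S) ?_ ?_ ?_ ?_ hx
    · rintro y ⟨I, hI, rfl⟩ J hJ
      rw [← hb, b.repr_self, Finsupp.single_apply] at hJ
      by_cases h : I = J
      · rw [← h]
        exact hI
      · rw [if_neg h] at hJ
        exact absurd rfl hJ
    · intro J hJ
      rw [map_zero, Finsupp.zero_apply] at hJ
      exact absurd rfl hJ
    · intro y z _ _ hy hz J hJ
      by_cases h : b.repr y J = 0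
      · by_cases h' : b.repr z J = 0
        · exact absurd (by rw [map_add, Finsupp.add_apply, h, h', add_zero]) hJ
        · exact hz J h'
      · exact hy J h
    · intro r y _ hy J hJ
      refine hy J fun h => hJ ?_
      have e : r • y = algebraMap K k (r : K) • y := (algebraMap_smul k (r : K) y).symm
      rw [e, map_smul, Finsupp.smul_apply, h, smul_zero]
  exact h J hJ

/-- The basis. (`Module.Basis.mk` with `e1c_li`, `e1g_span`; the product rule from `e1g_mul` for `R = ⊤`, the `⊤`-span is contained in
the `k`-span, and `Module.Basis.mem_span_image` or `Finsupp` arguments: an element of the `k`-span of the `mon I`, `I ∈ P` has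
coordinates `0` outside `P`; `wd` = sum of the last indices.) -/
theorem e1_basis [IsDomain k] [CharZero k] (hc : c ≠ 0) :
    ∃ b : Module.Basis (Fin n → Ix) k (LL n a c k), (∀ I, b I = mon a c k I) ∧ GoodB b := by
  have hsp : ⊤ ≤ Submodule.span k (Set.range (mon a c k : (Fin n → Ix) → LL n a c k)) := (e1g_span a c k).ge
  have hb : ∀ I, Module.Basis.mk (e1c_li a c k hc) hsp I = mon a c k I := fun I => Module.Basis.mk_apply _ _ I
  refine ⟨Module.Basis.mk (e1c_li a c k hc) hsp, hb, ?_, ?_⟩
  · rw [hb]
    exact e1g_one a c k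
  · intro I I' J hJ
    rw [hb I, hb I'] at hJ
    have h := e1_span a c k _ hb _ _ (e1g_mul (R := ⊤) a c k (Subring.mem_top a) (Subring.mem_top c) I I') J hJ
    refine ⟨?_, fun j => (h j).1, fun j => (h j).2.2⟩
    unfold wd
    rw [← Finset.sum_add_distrib]
    exact (Finset.sum_congr rfl fun j _ => (h j).2.1).le

section

variable [IsDomain k] [CharZero k] [Fact (c ≠ 0)]

/-- The basis of monomials. -/
noncomputable def LB : Module.Basis (Fin n → Ix) k (LL n a c k) := (e1_basis a c k (Fact.out : c ≠ 0)).choose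

theorem LB_apply (I : Fin n → Ix) : LB a c k I = mon a c k I := (e1_basis a c k (Fact.out : c ≠ 0)).choose_spec.1 I

theorem LB_good : GoodB (LB a c k : Module.Basis (Fin n → Ix) k (LL n a c k)) :=
  (e1_basis a c k (Fact.out : c ≠ 0)).choose_spec.2

variable {k}

/-- The coordinates. -/
noncomputable def crd (m : LL n a c k) (I : Fin n → Ix) : k := (LB a c k).repr m I

/-- Regular outside the origin in all directions, and the degree in the `w_j` is at most `κ`. -/
def TA (κ : ℕ) (m : LL n a c k) : Prop := ∀ I, crd a c m I ≠ 0 → wd I ≤ κ ∧ ∀ j, tA (I j)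

/-- Type A, weight at most `d` in every direction, degree in the `w_j` at most `κ`. -/
def TG (d κ : ℕ) (m : LL n a c k) : Prop := ∀ I, crd a c m I ≠ 0 → wd I ≤ κ ∧ ∀ j, tA (I j) ∧ wt (I j) ≤ d

end

end H47E
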