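import Mathlib

/-!
# H47E, chunk E1a: linear independence of the basis functions in one direction
-/

set_option autoImplicit false

namespace H47E

theorem e1a_poly {F : Type} [Field F] (f : ℤ → F) (N : ℕ) (S : Set F) (hS : S.Infinite) (h0 : ∀ x ∈ S, x ≠ 0)
    (h : ∀ x ∈ S, ∑ i ∈ Finset.Icc (-(N : ℤ)) N, f i * x ^ i = 0) : ∀ i ∈ Finset.Icc (-(N : ℤ)) N, f i = 0 := by
  have hP : (∑ i ∈ Finset.Icc (-(N : ℤ)) N, Polynomial.C (f i) * Polynomial.X ^ (i + N).toNat : Polynomial F) = 0 := by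
    apply Polynomial.eq_zero_of_infinite_isRoot
    refine hS.mono fun x hx => ?_
    have hx0 := h0 x hx
    have e1 : ∑ i ∈ Finset.Icc (-(N : ℤ)) N, f i * x ^ (i + N).toNat =
        (∑ i ∈ Finset.Icc (-(N : ℤ)) N, f i * x ^ i) * x ^ N := by
      rw [Finset.sum_mul]
      refine Finset.sum_congr rfl fun i hi => ?_
      rw [Finset.mem_Icc] at hi
      have h2 : x ^ (i + N).toNat = x ^ i * x ^ N := by
        rw [← zpow_natCast x (i + N).toNat, Int.toNat_of_nonneg (by omega), zpow_add₀ hx0, zpow_natCast]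
      rw [h2, mul_assoc]
    simp only [Set.mem_ofPred_eq, Polynomial.IsRoot.def, Polynomial.eval_finsetSum, Polynomial.eval_mul,
      Polynomial.eval_C, Polynomial.eval_pow, Polynomial.eval_X]
    rw [e1, h x hx, zero_mul]
  intro i hi
  have h3 := congrArg (fun P : Polynomial F => P.coeff (i + N).toNat) hP
  simp only [Polynomial.finsetSum_coeff, Polynomial.coeff_C_mul_X_pow, Polynomial.coeff_zero] at h3
  rw [Finset.sum_eq_single i] at h3
  · simpa using h3
  · intro j hj hne
    rw [Finset.mem_Icc] at hi hj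
    rw [if_neg]
    intro h4
    exact hne (by omega)
  · intro h4
    exact absurd hi h4

theorem e1a_nat {F : Type} [Field F] [Infinite F] (f : ℕ → F) (N : ℕ)
    (h : ∀ x : F, ∑ i ∈ Finset.range (N + 1), f i * x ^ i = 0) : ∀ i ∈ Finset.range (N + 1), f i = 0 := by
  have hP : (∑ i ∈ Finset.range (N + 1), Polynomial.C (f i) * Polynomial.X ^ i : Polynomial F) = 0 := by
    apply Polynomial.funext
    intro x
    simp only [Polynomial.eval_finsetSum, Polynomial.eval_mul,
      Polynomial.eval_C, Polynomial.eval_pow, Polynomial.eval_X, Polynomial.eval_zero]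
    exact h x
  intro i hi
  have h3 := congrArg (fun P : Polynomial F => P.coeff i) hP
  simp only [Polynomial.finsetSum_coeff, Polynomial.coeff_C_mul_X_pow, Polynomial.coeff_zero] at h3
  rw [Finset.sum_eq_single i] at h3
  · simpa using h3
  · intro j hj hne
    rw [if_neg]
    intro h4
    exact hne h4.symm
  · intro h4
    exact absurd hi h4

theorem e1a_box (T : Finset (ℤ × Fin 2 × ℕ)) : ∃ N : ℕ, T ⊆ Finset.Icc (-(N : ℤ)) N ×ˢ (Finset.univ : Finset (Fin 2)) ×ˢ
    Finset.range (N + 1) := by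
  refine ⟨T.sup fun i => max i.1.natAbs i.2.2, fun i hi => ?_⟩
  have h := Finset.le_sup (f := fun i : ℤ × Fin 2 × ℕ => max i.1.natAbs i.2.2) hi
  simp only [Finset.mem_product, Finset.mem_Icc, Finset.mem_univ, true_and, Finset.mem_range]
  have h1 : i.1.natAbs ≤ T.sup fun i => max i.1.natAbs i.2.2 := (le_max_left _ _).trans h
  have h2 : i.2.2 ≤ T.sup fun i => max i.1.natAbs i.2.2 := (le_max_right _ _).trans h
  refine ⟨⟨?_, ?_⟩, ?_⟩ <;> omega

/-- The functions `x ^ i yt ^ e w ^ κ` (`i` an integer, `e` in `{0, 1}`, `κ` a natural number) on the surface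
`{(x, yt, w) : x ≠ 0, yt ^ 2 = x + c / x + a}` over an algebraically closed field are linearly independent.

Proof. Let `∑ r (i, e, κ) x ^ i yt ^ e w ^ κ = 0` at all points (finite sum; for example use `linearIndependent_iff`,
or `linearIndependent_iff'` with a finite set of indices contained in `{|i| ≤ N} × Fin 2 × {κ ≤ N}`). Fix `x ≠ 0` and
`yt` with `yt ^ 2 = x + c / x + a` (exists: `IsAlgClosed.exists_pow_nat_eq`), let `w` vary: a polynomial in `w` with
infinitely many zeros (`F` is infinite), so for all `κ`: `∑_(i, e) r (i, e, κ) x ^ i yt ^ e = 0`. As `- yt` is also allowed: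
`A(x) + B(x) yt = 0` and `A(x) - B(x) yt = 0`, `A(x) = ∑_i r (i, 0, κ) x ^ i`, `B(x) = ∑_i r (i, 1, κ) x ^ i`: so
`A(x) = 0` and `B(x) yt = 0`, so `A(x) = 0` and `B(x) ^ 2 (x + c / x + a) = 0`; for all `x ≠ 0` outside the at most two
zeros of `x ^ 2 + a x + c` we get `A(x) = B(x) = 0`. Multiply by `x ^ N`: polynomials with infinitely many zeros, so all
coefficients vanish. -/
theorem e1a_indep (F : Type) [Field F] [IsAlgClosed F] [CharZero F] (a c : F) :
    LinearIndependent F (fun (i : ℤ × Fin 2 × ℕ) (s : {s : F × F × F // s.1 ≠ 0 ∧ s.2.1 ^ 2 = s.1 + c / s.1 + a}) =>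
      s.1.1 ^ i.1 * s.1.2.1 ^ (i.2.1 : ℕ) * s.1.2.2 ^ i.2.2) := by
  have : Infinite F := IsAlgClosed.instInfinite
  rw [linearIndependent_iff]
  intro r hr
  obtain ⟨N, hN⟩ := e1a_box r.support
  -- the relation at a point
  have hpt : ∀ x yt w : F, x ≠ 0 → yt ^ 2 = x + c / x + a →
      ∑ κ ∈ Finset.range (N + 1), (∑ i ∈ Finset.Icc (-(N : ℤ)) N, r (i, 0, κ) * x ^ i
        + (∑ i ∈ Finset.Icc (-(N : ℤ)) N, r (i, 1, κ) * x ^ i) * yt) * w ^ κ = 0 := by
    intro x yt w hx hy
    have h1 := congrFun hr ⟨(x, yt, w), hx, hy⟩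
    rw [Finsupp.linearCombination_apply, Finsupp.sum, Finset.sum_apply] at h1
    simp only [Pi.smul_apply, smul_eq_mul, Pi.zero_apply] at h1
    rw [Finset.sum_subset hN (fun i _ hi => by
      rw [Finsupp.notMem_support_iff.1 hi, zero_mul])] at h1
    rw [Finset.sum_product] at h1
    simp only [Finset.sum_product] at h1
    rw [← h1]
    have h2 : ∀ i ∈ Finset.Icc (-(N : ℤ)) N, ∑ e : Fin 2, ∑ κ ∈ Finset.range (N + 1),
        r (i, e, κ) * (x ^ i * yt ^ (e : ℕ) * w ^ κ) =
        ∑ κ ∈ Finset.range (N + 1), (r (i, 0, κ) * x ^ i + r (i, 1, κ) * x ^ i * yt) * w ^ κ := by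
      intro i _
      rw [Fin.sum_univ_two, ← Finset.sum_add_distrib]
      refine Finset.sum_congr rfl fun κ _ => ?_
      simp only [Fin.val_zero, Fin.val_one, pow_zero, pow_one]
      ring
    rw [Finset.sum_congr rfl h2, Finset.sum_comm]
    refine Finset.sum_congr rfl fun κ _ => ?_
    rw [← Finset.sum_mul, Finset.sum_add_distrib, ← Finset.sum_mul]
  -- each coefficient in w vanishes
  have hk : ∀ x yt : F, x ≠ 0 → yt ^ 2 = x + c / x + a → ∀ κ ∈ Finset.range (N + 1),
      ∑ i ∈ Finset.Icc (-(N : ℤ)) N, r (i, 0, κ) * x ^ i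
        + (∑ i ∈ Finset.Icc (-(N : ℤ)) N, r (i, 1, κ) * x ^ i) * yt = 0 := by
    intro x yt hx hy
    exact e1a_nat _ N fun w => hpt x yt w hx hy
  have hroot : ∀ x : F, ∃ yt : F, yt ^ 2 = x + c / x + a := fun x =>
    IsAlgClosed.exists_pow_nat_eq _ (by norm_num)
  have hA : ∀ κ ∈ Finset.range (N + 1), ∀ x : F, x ≠ 0 →
      ∑ i ∈ Finset.Icc (-(N : ℤ)) N, r (i, 0, κ) * x ^ i = 0 := by
    intro κ hκ x hx
    obtain ⟨yt, hy⟩ := hroot x
    have h1 := hk x yt hx hy κ hκ
    have h2 := hk x (-yt) hx (by rw [neg_sq]; exact hy) κ hκ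
    have h3 : (2 : F) * ∑ i ∈ Finset.Icc (-(N : ℤ)) N, r (i, 0, κ) * x ^ i = 0 := by
      linear_combination h1 + h2
    exact (mul_eq_zero.1 h3).resolve_left two_ne_zero
  have hB : ∀ κ ∈ Finset.range (N + 1), ∀ x : F, x ≠ 0 → x + c / x + a ≠ 0 →
      ∑ i ∈ Finset.Icc (-(N : ℤ)) N, r (i, 1, κ) * x ^ i = 0 := by
    intro κ hκ x hx hne
    obtain ⟨yt, hy⟩ := hroot x
    have h1 := hk x yt hx hy κ hκ
    rw [hA κ hκ x hx, zero_add] at h1
    refine (mul_eq_zero.1 h1).resolve_right ?_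
    rintro rfl
    exact hne (by rw [← hy]; ring)
  have hinf0 : ({x : F | x ≠ 0}).Infinite := (Set.finite_singleton (0 : F)).infinite_compl
  have hinf1 : ({x : F | x ≠ 0 ∧ x + c / x + a ≠ 0}).Infinite := by
    have hfin : ({x : F | x = 0 ∨ x + c / x + a = 0}).Finite := by
      have hq : (Polynomial.X ^ 3 + Polynomial.C a * Polynomial.X ^ 2 + Polynomial.C c * Polynomial.X : Polynomial F) ≠ 0 := by
        intro h
        have := congrArg (fun P : Polynomial F => P.coeff 3) h
        simp [Polynomial.coeff_X_pow] at this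
      refine (Polynomial.finite_setOfPred_isRoot hq).subset ?_
      rintro x (rfl | hx)
      · simp [Polynomial.IsRoot.def]
      · by_cases hx0 : x = 0
        · subst hx0
          simp [Polynomial.IsRoot.def]
        · have h5 : x ^ 3 + a * x ^ 2 + c * x = x ^ 2 * (x + c / x + a) := by
            field_simp
            ring
          simp only [Set.mem_ofPred_eq, Polynomial.IsRoot.def, Polynomial.eval_add, Polynomial.eval_mul,
            Polynomial.eval_C, Polynomial.eval_pow, Polynomial.eval_X]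
          rw [h5, hx, mul_zero]
    refine hfin.infinite_compl.mono fun x hx => ?_
    simp only [Set.mem_compl_iff, Set.mem_ofPred_eq, not_or] at hx
    exact hx
  ext ⟨i, e, κ⟩
  by_contra hne
  have hmem := hN (Finsupp.mem_support_iff.2 hne)
  simp only [Finset.mem_product, Finset.mem_univ, true_and] at hmem
  apply hne
  fin_cases e
  · exact e1a_poly (fun i => r (i, 0, κ)) N _ hinf0 (fun x hx => hx) (fun x hx => hA κ hmem.2 x hx) i hmem.1
  · exact e1a_poly (fun i => r (i, 1, κ)) N _ hinf1 (fun x hx => hx.1) (fun x hx => hB κ hmem.2 x hx.1 hx.2) i hmem.1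

end H47E
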