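import Mathlib

/-!
# H47E, chunk E1b: products of linearly independent functions
-/

set_option autoImplicit false

namespace H47E

theorem e1b_two {F S T ι κ : Type} [Field F] (f : ι → S → F) (hf : LinearIndependent F f) (g : κ → T → F)
    (hg : LinearIndependent F g) :
    LinearIndependent F (fun (p : ι × κ) (x : S × T) => f p.1 x.1 * g p.2 x.2) := by
  classical
  rw [linearIndependent_iff'] at hf hg ⊢
  intro s c hc p0 hp0
  set c' : ι × κ → F := fun p => if p ∈ s then c p else 0 with hc'
  have hsub : s ⊆ (s.image Prod.fst) ×ˢ (s.image Prod.snd) := by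
    intro p hp
    rw [Finset.mem_product]
    exact ⟨Finset.mem_image_of_mem _ hp, Finset.mem_image_of_mem _ hp⟩
  have h1 : ∀ (x : S) (t : T), ∑ i ∈ s.image Prod.fst, (∑ k ∈ s.image Prod.snd, c' (i, k) * g k t) * f i x = 0 := by
    intro x t
    have h2 := congrFun hc (x, t)
    rw [Finset.sum_apply] at h2
    have h3 : ∑ p ∈ s, (c p • fun x : S × T => f p.1 x.1 * g p.2 x.2) (x, t)
        = ∑ p ∈ (s.image Prod.fst) ×ˢ (s.image Prod.snd), c' p * (f p.1 x * g p.2 t) := by
      rw [← Finset.sum_subset hsub (fun p _ hp => by rw [hc']; simp [hp])]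
      refine Finset.sum_congr rfl fun p hp => ?_
      rw [hc']
      simp [hp]
    rw [h3, Finset.sum_product] at h2
    rw [Pi.zero_apply] at h2
    rw [← h2]
    refine Finset.sum_congr rfl fun i _ => ?_
    rw [Finset.sum_mul]
    refine Finset.sum_congr rfl fun k _ => ?_
    ring
  have h4 : ∀ t : T, ∀ i ∈ s.image Prod.fst, ∑ k ∈ s.image Prod.snd, c' (i, k) * g k t = 0 := by
    intro t
    refine hf (s.image Prod.fst) (fun i => ∑ k ∈ s.image Prod.snd, c' (i, k) * g k t) ?_
    funext x
    rw [Finset.sum_apply, Pi.zero_apply, ← h1 x t]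
    exact Finset.sum_congr rfl fun i _ => rfl
  have h5 : c' (p0.1, p0.2) = 0 := by
    refine hg (s.image Prod.snd) (fun k => c' (p0.1, k)) ?_ p0.2 (Finset.mem_image_of_mem _ hp0)
    funext t
    rw [Finset.sum_apply, Pi.zero_apply, ← h4 t p0.1 (Finset.mem_image_of_mem _ hp0)]
    exact Finset.sum_congr rfl fun k _ => rfl
  rw [hc'] at h5
  simpa [hp0] using h5

/-- Products of linearly independent functions in different variables are linearly independent.

Proof. Induction on `n` (`Fin.cons`, `Fin.prod_univ_succ`). Suppose `∑_I r(I) ∏_j f (I j) (s j) = 0` for all `s : Fin (n + 1) → S`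
(finite sum over a finite set of indices, or a finitely supported `r`). Fix `s' : Fin n → S`; for all `s₀`:
`∑_(i₀) (∑_(I') r(cons i₀ I') ∏_j f (I' j) (s' j)) f i₀ s₀ = 0`, so by `hf` for every `i₀`:
`∑_(I') r(cons i₀ I') ∏_j f (I' j) (s' j) = 0`, for all `s'`; by induction `r(cons i₀ I') = 0` for all `I'`. -/
theorem e1b_prod {F S ι : Type} [Field F] (f : ι → S → F) (hf : LinearIndependent F f) (n : ℕ) :
    LinearIndependent F (fun (I : Fin n → ι) (s : Fin n → S) => ∏ j, f (I j) (s j)) := by
  induction n with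
  | zero =>
    rw [linearIndependent_unique_iff]
    intro h
    have h2 := congrFun h default
    simp at h2
  | succ n ih =>
    have h2 := e1b_two f hf _ ih
    set eι : ι × (Fin n → ι) ≃ (Fin (n + 1) → ι) := Fin.consEquiv (fun _ => ι) with heι
    set eS : S × (Fin n → S) ≃ (Fin (n + 1) → S) := Fin.consEquiv (fun _ => S) with heS
    rw [← linearIndependent_equiv eι]
    refine LinearIndependent.of_comp (LinearMap.funLeft F F eS) ?_
    have h3 : (LinearMap.funLeft F F eS) ∘ ((fun (I : Fin (n + 1) → ι) (s : Fin (n + 1) → S) => ∏ j, f (I j) (s j)) ∘ eι)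
        = fun (p : ι × (Fin n → ι)) (x : S × (Fin n → S)) => f p.1 x.1 * ∏ j, f (p.2 j) (x.2 j) := by
      funext p x
      simp only [Function.comp_apply, LinearMap.funLeft_apply]
      rw [Fin.prod_univ_succ]
      simp [heι, heS, Fin.consEquiv]
    rw [h3]
    exact h2

end H47E
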