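import Pool.Agent.Lib.H47E.E0
import Pool.Agent.Lib.H47E.E1a
import Pool.Agent.Lib.H47E.E1b

/-!
# H47E, chunk E1c: the monomials are linearly independent
-/

set_option autoImplicit false

namespace H47E

open MvPolynomial

variable {n : ℕ} {K : Type} [Field K] (a c : K) (k : Type) [CommRing k] [Algebra K k]

/-- The value at a point: ring homomorphism `LL n a c k → F` over `φ : k → F`.

Proof: `llift` with `f (j, 0) = (s j).1`, `f (j, 1) = c / (s j).1`, `f (j, 2) = (s j).2.1`, `f (j, 3) = (s j).2.2`; `mon1` maps to the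
factor: for `i ≥ 0` clear, for `i < 0`: `(c / x) ^ (-i)`. CAREFUL: `xb ^ (-i)` maps to `c ^ (-i) x ^ i`, so there is the extra
factor `c ^ (-i)`, which is collected in `γ j i`. -/
theorem e1c_ev {F : Type} [Field F] (φ : k →+* F) (s : Fin n → F × F × F)
    (hs : ∀ j, (s j).1 ≠ 0 ∧ (s j).2.1 ^ 2 = (s j).1 + φ (algebraMap K k c) / (s j).1 + φ (algebraMap K k a)) :
    ∃ E : LL n a c k →+* F, (∀ r : k, E (algebraMap k (LL n a c k) r) = φ r) ∧
      ∀ I : Fin n → Ix, E (mon a c k I) = ∏ j, (φ (algebraMap K k c) ^ (-(I j).1).toNat *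
        ((s j).1 ^ (I j).1 * (s j).2.1 ^ ((I j).2.1 : ℕ) * (s j).2.2 ^ (I j).2.2)) := by
  let f : Fin n × Fin 4 → F := fun q => match q.2 with
    | 0 => (s q.1).1
    | 1 => φ (algebraMap K k c) / (s q.1).1
    | 2 => (s q.1).2.1
    | 3 => (s q.1).2.2
  have h1 : ∀ j, f (j, 0) * f (j, 1) = φ (algebraMap K k c) := fun j => mul_div_cancel₀ _ (hs j).1
  have h2 : ∀ j, f (j, 2) ^ 2 = f (j, 0) + f (j, 1) + φ (algebraMap K k a) := fun j => (hs j).2
  have hX : ∀ q : Fin n × Fin 4, llift a c k φ f h1 h2 (Ideal.Quotient.mk _ (X q)) = f q := by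
    intro q
    unfold llift
    rw [Ideal.Quotient.lift_mk, coe_eval₂Hom, eval₂_X]
  have hgx : ∀ j, llift a c k φ f h1 h2 (gx a c k j) = (s j).1 := fun j => hX (j, 0)
  have hgb : ∀ j, llift a c k φ f h1 h2 (gb a c k j) = φ (algebraMap K k c) / (s j).1 := fun j => hX (j, 1)
  have hgt : ∀ j, llift a c k φ f h1 h2 (gt a c k j) = (s j).2.1 := fun j => hX (j, 2)
  have hgw : ∀ j, llift a c k φ f h1 h2 (gw a c k j) = (s j).2.2 := fun j => hX (j, 3)
  refine ⟨llift a c k φ f h1 h2, ?_, ?_⟩
  · intro r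
    show llift a c k φ f h1 h2 (Ideal.Quotient.mk _ (C r)) = φ r
    unfold llift
    rw [Ideal.Quotient.lift_mk, coe_eval₂Hom, eval₂_C]
  · intro I
    unfold mon
    rw [map_prod]
    refine Finset.prod_congr rfl fun j _ => ?_
    unfold mon1
    rw [map_mul, map_mul, map_pow, map_pow, hgt, hgw]
    have h3 : llift a c k φ f h1 h2 (if 0 ≤ (I j).1 then gx a c k j ^ (I j).1.toNat else gb a c k j ^ (-(I j).1).toNat) =
        φ (algebraMap K k c) ^ (-(I j).1).toNat * (s j).1 ^ (I j).1 := by
      by_cases hi : 0 ≤ (I j).1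
      · rw [if_pos hi, map_pow, hgx]
        have h4 : (-(I j).1).toNat = 0 := by omega
        rw [h4, pow_zero, one_mul]
        conv_rhs => rw [← Int.toNat_of_nonneg hi]
        rw [zpow_natCast]
      · rw [if_neg hi, map_pow, hgb, div_pow]
        have h5 : (I j).1 = -((-(I j).1).toNat : ℤ) := by omega
        conv_rhs => rw [h5]
        rw [neg_neg, Int.toNat_natCast, zpow_neg, zpow_natCast, ← div_eq_mul_inv]
    rw [h3]
    ring

/-- The monomials are linearly independent.

Proof. `F := AlgebraicClosure (FractionRing k)`, `φ : k → F` injective. If `∑ r(I) mon I = 0` (finite sum), apply `e1c_ev` at all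
points `s` of the surface: `∑_I φ(r(I)) γ(I) ∏_j f (I j) (s j) = 0` with `γ(I) = ∏_j c ^ (-(I j).1).toNat ≠ 0` and `f` the functions of
`e1a_indep`; by `e1a_indep` and `e1b_prod` all `φ(r(I)) γ(I) = 0`, so `r(I) = 0`. -/
theorem e1c_li [IsDomain k] [CharZero k] (hc : c ≠ 0) : LinearIndependent k (mon a c k : (Fin n → Ix) → LL n a c k) := by
  let F : Type := AlgebraicClosure (FractionRing k)
  let φ : k →+* F := (algebraMap (FractionRing k) F).comp (algebraMap k (FractionRing k))
  have hφ : Function.Injective φ :=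
    (algebraMap (FractionRing k) F).injective.comp (IsFractionRing.injective k (FractionRing k))
  have : CharZero F := charZero_of_injective_ringHom hφ
  have hcc : φ (algebraMap K k c) ≠ 0 := by
    intro h
    have h1 : algebraMap K k c = 0 := hφ (by rw [h, map_zero])
    exact hc ((algebraMap K k).injective (by rw [h1, map_zero]))
  have hli := e1b_prod _ (e1a_indep F (φ (algebraMap K k a)) (φ (algebraMap K k c))) n
  rw [linearIndependent_iff'] at hli ⊢
  intro t g hg I hI
  have key := hli t (fun I => φ (g I) * ∏ j, φ (algebraMap K k c) ^ (-(I j).1).toNat) ?_ I hI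
  · have h2 : (∏ j, φ (algebraMap K k c) ^ (-(I j).1).toNat) ≠ 0 :=
      Finset.prod_ne_zero_iff.2 fun j _ => pow_ne_zero _ hcc
    have h3 : φ (g I) = 0 := (mul_eq_zero.1 key).resolve_right h2
    exact hφ (by rw [h3, map_zero])
  · funext s
    obtain ⟨E, hE1, hE2⟩ := e1c_ev a c k φ (fun j => (s j).1) (fun j => (s j).2)
    have h4 := congrArg E hg
    rw [map_zero, map_sum] at h4
    rw [Finset.sum_apply, Pi.zero_apply]
    refine Eq.trans (Finset.sum_congr rfl fun J _ => ?_) h4
    have h5 : E (g J • mon a c k J) = φ (g J) * ∏ j, (φ (algebraMap K k c) ^ (-(J j).1).toNat *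
        ((s j).1.1 ^ (J j).1 * (s j).1.2.1 ^ ((J j).2.1 : ℕ) * (s j).1.2.2 ^ (J j).2.2)) := by
      have h6 : g J • mon a c k J = algebraMap k (LL n a c k) (g J) * mon a c k J :=
        @Algebra.smul_def k (LL n a c k) _ _ _ (g J) (mon a c k J)
      rw [h6, map_mul, hE1, hE2]
    rw [h5, Finset.prod_mul_distrib, Pi.smul_apply, smul_eq_mul, mul_assoc]

end H47E
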