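import Pool.Agent.Lib.H47E.E0

/-!
# H47E, chunk E1d: products of elements of the spans in the single directions

`R` is a subring of `K` (later one which contains `a` and `c`: `R = K` or `R` = the algebraic integers).
-/

set_option autoImplicit false

namespace H47E

open MvPolynomial

variable {n : ℕ} {K : Type} [Field K] (a c : K) (k : Type) [CommRing k] [Algebra K k] (R : Subring K)

theorem e1d_aux (P : Fin n → Set Ix) (m : Fin n → LL n a c k)
    (hm : ∀ j, m j ∈ Submodule.span R (mon1 a c k j '' P j)) (s : Finset (Fin n)) :
    ∏ j ∈ s, m j ∈ Submodule.span R ((fun I : Fin n → Ix => ∏ j ∈ s, mon1 a c k j (I j)) '' {I | ∀ j ∈ s, I j ∈ P j}) := by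
  classical
  induction s using Finset.induction_on with
  | empty =>
    rw [Finset.prod_empty]
    refine Submodule.subset_span ⟨fun _ => (0, 0, 0), ?_, ?_⟩
    · intro j hj
      exact absurd hj (Finset.notMem_empty j)
    · exact Finset.prod_empty
  | insert b s hb ih =>
    rw [Finset.prod_insert hb]
    have h1 := Submodule.mul_mem_mul (hm b) ih
    rw [Submodule.span_mul_span] at h1
    refine Submodule.span_mono ?_ h1
    rintro z ⟨z1, ⟨i, hi, rfl⟩, z2, ⟨I, hI, rfl⟩, rfl⟩
    refine ⟨Function.update I b i, ?_, ?_⟩
    · intro j hj
      by_cases hjb : j = b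
      · rw [hjb, Function.update_self]
        exact hi
      · rw [Function.update_of_ne hjb]
        exact hI j (Finset.mem_of_mem_insert_of_ne hj hjb)
    · show ∏ j ∈ insert b s, mon1 a c k j (Function.update I b i j) = mon1 a c k b i * ∏ j ∈ s, mon1 a c k j (I j)
      rw [Finset.prod_insert hb, Function.update_self]
      congr 1
      refine Finset.prod_congr rfl fun j hj => ?_
      have hjb : j ≠ b := by
        intro h
        rw [h] at hj
        exact hb hj
      rw [Function.update_of_ne hjb]

/-- Products of elements of the spans of the monomials in the single directions.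

Proof. Expand the product (induction over a finset of directions: for `s : Finset (Fin n)` show that `∏ j ∈ s, m j` is in the
`R`-span of the products `∏ j ∈ s, mon1 j (I j)` with `I j ∈ P j` for `j ∈ s`; `Submodule.span_mul_span` / `Submodule.span_induction`; or
`Submodule.prod_span` if it exists). For `s = univ`: `mon I = ∏ j, mon1 j (I j)`; the indices `I` may be changed outside `s`.
(If some `P j` is empty, then `m j = 0`.) -/
theorem e1d_prod (P : Fin n → Set Ix) (m : Fin n → LL n a c k)
    (hm : ∀ j, m j ∈ Submodule.span R (mon1 a c k j '' P j)) :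
    ∏ j, m j ∈ Submodule.span R (mon a c k '' {I | ∀ j, I j ∈ P j}) := by
  refine Submodule.span_mono ?_ (e1d_aux a c k R P m hm Finset.univ)
  rintro z ⟨I, hI, rfl⟩
  exact ⟨I, fun j => hI j (Finset.mem_univ j), rfl⟩

end H47E
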