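import Pool.Agent.Lib.H47E.E1

/-!
# H47E, chunk E1h: coordinates: elementary facts
-/

set_option autoImplicit false

namespace H47E

open MvPolynomial

variable {n : ℕ} {K : Type} [Field K] (a c : K) {k : Type} [CommRing k] [Algebra K k] [IsDomain k] [CharZero k] [Fact (c ≠ 0)]
  {R : Subring K}

theorem e1h_crd_mon (J I : Fin n → Ix) : crd a c (mon a c k J) I = if J = I then 1 else 0 := by
  unfold crd
  rw [← LB_apply a c k J, Module.Basis.repr_self, Finsupp.single_apply]

theorem e1h_crd_add (x y : LL n a c k) (I : Fin n → Ix) : crd a c (x + y) I = crd a c x I + crd a c y I := by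
  unfold crd
  rw [map_add, Finsupp.add_apply]

theorem e1h_crd_zero (I : Fin n → Ix) : crd a c (0 : LL n a c k) I = 0 := by
  unfold crd
  rw [map_zero, Finsupp.zero_apply]

theorem e1h_crd_smul (r : k) (x : LL n a c k) (I : Fin n → Ix) : crd a c (r • x) I = r * crd a c x I := by
  unfold crd
  rw [map_smul, Finsupp.smul_apply, smul_eq_mul]

/-- Coordinates of elements of a span. -/
theorem e1h_span (P : Set (Fin n → Ix)) {m : LL n a c k} (hm : m ∈ Submodule.span R (mon a c k '' P)) (I : Fin n → Ix) :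
    (∃ r ∈ R, crd a c m I = algebraMap K k r) ∧ (crd a c m I ≠ 0 → I ∈ P) := by
  refine Submodule.span_induction (p := fun m _ => (∃ r ∈ R, crd a c m I = algebraMap K k r) ∧ (crd a c m I ≠ 0 → I ∈ P))
    ?_ ?_ ?_ ?_ hm
  · rintro x ⟨J, hJ, rfl⟩
    rw [e1h_crd_mon]
    by_cases h : J = I
    · rw [if_pos h]
      exact ⟨⟨1, R.one_mem, (map_one _).symm⟩, fun _ => h ▸ hJ⟩
    · rw [if_neg h]
      exact ⟨⟨0, R.zero_mem, (map_zero _).symm⟩, fun h0 => absurd rfl h0⟩
  · rw [e1h_crd_zero]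
    exact ⟨⟨0, R.zero_mem, (map_zero _).symm⟩, fun h0 => absurd rfl h0⟩
  · rintro x y _ _ ⟨⟨r, hr, hxr⟩, hx⟩ ⟨⟨s, hs, hys⟩, hy⟩
    rw [e1h_crd_add]
    refine ⟨⟨r + s, R.add_mem hr hs, by rw [hxr, hys, map_add]⟩, fun h0 => ?_⟩
    by_cases h1 : crd a c x I = 0
    · rw [h1, zero_add] at h0
      exact hy h0
    · exact hx h1
  · rintro r x _ ⟨⟨s, hs, hxs⟩, hx⟩
    have e : r • x = (algebraMap K k (r : K)) • x := by
      rw [algebraMap_smul, Subring.smul_def]
    rw [e, e1h_crd_smul]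
    refine ⟨⟨(r : K) * s, R.mul_mem r.2 hs, by rw [hxs, map_mul]⟩, fun h0 => hx fun h1 => h0 ?_⟩
    rw [h1, mul_zero]

/-- Expansion. -/
theorem e1h_sum (m : LL n a c k) (s : Finset (Fin n → Ix)) (hs : ∀ I, crd a c m I ≠ 0 → I ∈ s) :
    m = ∑ I ∈ s, crd a c m I • mon a c k I := by
  have h := (LB a c k : Module.Basis (Fin n → Ix) k (LL n a c k)).linearCombination_repr m
  rw [Finsupp.linearCombination_apply] at h
  rw [Finsupp.sum_of_support_subset ((LB a c k).repr m) (s := s) (fun I hI => hs I (Finsupp.mem_support_iff.1 hI))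
    (fun I (r : k) => r • (LB a c k) I) (fun I _ => zero_smul k _)] at h
  conv_lhs => rw [← h]
  refine Finset.sum_congr rfl fun I _ => ?_
  rw [LB_apply]
  rfl

omit [IsDomain k] [CharZero k] [Fact (c ≠ 0)] in
theorem e1h_bc_mk {k' : Type} [CommRing k'] [Algebra K k'] (φ : k →ₐ[K] k') (i : Fin n × Fin 4) :
    bc a c k φ (Ideal.Quotient.mk (relI n a c k) (X i)) = Ideal.Quotient.mk (relI n a c k') (X i) := by
  unfold bc llift
  rw [Ideal.Quotient.lift_mk, coe_eval₂Hom, eval₂_X]

omit [IsDomain k] [CharZero k] [Fact (c ≠ 0)] in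
theorem e1h_bc_mon {k' : Type} [CommRing k'] [Algebra K k'] (φ : k →ₐ[K] k') (I : Fin n → Ix) :
    bc a c k φ (mon a c k I) = mon a c k' I := by
  unfold mon
  rw [map_prod]
  refine Finset.prod_congr rfl fun j _ => ?_
  have h0 : bc a c k φ (gx a c k j) = gx a c k' j := e1h_bc_mk a c φ (j, 0)
  have h1 : bc a c k φ (gb a c k j) = gb a c k' j := e1h_bc_mk a c φ (j, 1)
  have h2 : bc a c k φ (gt a c k j) = gt a c k' j := e1h_bc_mk a c φ (j, 2)
  have h3 : bc a c k φ (gw a c k j) = gw a c k' j := e1h_bc_mk a c φ (j, 3)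
  unfold mon1
  rw [map_mul, map_mul, map_pow, map_pow, h2, h3]
  congr 2
  split
  · rw [map_pow, h0]
  · rw [map_pow, h1]

omit [IsDomain k] [CharZero k] [Fact (c ≠ 0)] in
theorem e1h_bc_alg {k' : Type} [CommRing k'] [Algebra K k'] (φ : k →ₐ[K] k') (r : k) :
    bc a c k φ (algebraMap k (LL n a c k) r) = algebraMap k' (LL n a c k') (φ r) := by
  have e : algebraMap k (LL n a c k) r = Ideal.Quotient.mk (relI n a c k) (C r) := rfl
  rw [e]
  unfold bc llift
  rw [Ideal.Quotient.lift_mk, coe_eval₂Hom, eval₂_C]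
  rfl

/-- Base change. -/
theorem e1h_bc {k' : Type} [CommRing k'] [Algebra K k'] [IsDomain k'] [CharZero k'] (φ : k →ₐ[K] k') (m : LL n a c k)
    (I : Fin n → Ix) : crd a c (bc a c k φ m) I = φ (crd a c m I) ∧ bc a c k φ (mon a c k I) = mon a c k' I ∧
      ∀ r : k, bc a c k φ (algebraMap k (LL n a c k) r) = algebraMap k' (LL n a c k') (φ r) := by
  refine ⟨?_, e1h_bc_mon a c φ I, e1h_bc_alg a c φ⟩
  have hm := e1h_sum a c m ((LB a c k).repr m).support (fun J hJ => Finsupp.mem_support_iff.2 hJ)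
  have hb : bc a c k φ m = ∑ J ∈ ((LB a c k).repr m).support, φ (crd a c m J) • mon a c k' J := by
    conv_lhs => rw [hm]
    rw [map_sum]
    refine Finset.sum_congr rfl fun J _ => ?_
    have e1 : crd a c m J • mon a c k J = algebraMap k (LL n a c k) (crd a c m J) * mon a c k J :=
      Algebra.smul_def (crd a c m J) (mon a c k J)
    have e2 : φ (crd a c m J) • mon a c k' J = algebraMap k' (LL n a c k') (φ (crd a c m J)) * mon a c k' J :=
      Algebra.smul_def (φ (crd a c m J)) (mon a c k' J)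
    rw [e1, e2, map_mul, e1h_bc_alg, e1h_bc_mon]
  have hc : crd a c (bc a c k φ m) I = ∑ J ∈ ((LB a c k).repr m).support, φ (crd a c m J) * (if J = I then 1 else 0) := by
    rw [hb]
    have e : ∀ s : Finset (Fin n → Ix), crd a c (∑ J ∈ s, φ (crd a c m J) • mon a c k' J) I =
        ∑ J ∈ s, φ (crd a c m J) * (if J = I then 1 else 0) := by
      intro s
      unfold crd
      rw [map_sum, Finsupp.finsetSum_apply]
      refine Finset.sum_congr rfl fun J _ => ?_
      have := e1h_crd_smul a c (φ (crd a c m J)) (mon a c k' J) I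
      rw [e1h_crd_mon] at this
      exact this
    exact e _
  rw [hc]
  simp only [mul_ite, mul_one, mul_zero]
  rw [Finset.sum_ite_eq']
  split
  · rfl
  · rename_i h
    have h0 : crd a c m I = 0 := by
      by_contra h1
      exact h (Finsupp.mem_support_iff.2 h1)
    rw [h0, map_zero]

/-- `1` -/
theorem e1h_one : TG a c 0 0 (1 : LL n a c k) ∧ (∀ I : Fin n → Ix, crd a c (1 : LL n a c k) I = if I = fun _ => (0, 0, 0) then 1 else 0)
    ∧ mon a c k (fun _ : Fin n => ((0, 0, 0) : Ix)) = 1 := by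
  have h1 : mon a c k (fun _ : Fin n => ((0, 0, 0) : Ix)) = 1 := by
    unfold mon mon1
    simp
  have h2 : ∀ I : Fin n → Ix, crd a c (1 : LL n a c k) I = if I = fun _ => (0, 0, 0) then 1 else 0 := by
    intro I
    rw [← h1, e1h_crd_mon]
    simp only [eq_comm]
  refine ⟨?_, h2, h1⟩
  intro I hI
  rw [h2] at hI
  have hI' : I = fun _ => (0, 0, 0) := by
    by_contra h
    rw [if_neg h] at hI
    exact hI rfl
  subst hI'
  refine ⟨by simp [wd], fun j => ⟨by simp [tA], by simp [wt]⟩⟩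

end H47E
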