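import Pool.Agent.Lib.H47E.E1h

/-!
# H47E, chunk E1i: type A and the weights: closure properties
-/

set_option autoImplicit false

namespace H47E

open MvPolynomial

variable {n : ℕ} {K : Type} [Field K] (a c : K) {k : Type} [CommRing k] [Algebra K k] [IsDomain k] [CharZero k] [Fact (c ≠ 0)]

theorem e1i_S_add {P : (Fin n → Ix) → Prop} {m m' : LL n a c k} (hm : ∀ I, crd a c m I ≠ 0 → P I)
    (hm' : ∀ I, crd a c m' I ≠ 0 → P I) (r : k) : ∀ I, crd a c (m + r • m') I ≠ 0 → P I := by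
  intro I hI
  rw [e1h_crd_add, e1h_crd_smul] at hI
  by_cases h : crd a c m I = 0
  · refine hm' I fun h' => hI ?_
    rw [h, h', mul_zero, add_zero]
  · exact hm I h

theorem e1i_S_sum {P : (Fin n → Ix) → Prop} {β : Type} (s : Finset β) (m : β → LL n a c k)
    (hm : ∀ i ∈ s, ∀ I, crd a c (m i) I ≠ 0 → P I) : ∀ I, crd a c (∑ i ∈ s, m i) I ≠ 0 → P I := by
  classical
  induction s using Finset.induction_on with
  | empty =>
    intro I hI
    rw [Finset.sum_empty, e1h_crd_zero] at hI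
    exact absurd rfl hI
  | insert i s hi ih =>
    rw [Finset.sum_insert hi]
    have h := e1i_S_add a c (hm i (Finset.mem_insert_self _ _)) (ih fun l hl => hm l (Finset.mem_insert_of_mem hl)) 1
    rwa [one_smul] at h

theorem e1i_S_smul {P : (Fin n → Ix) → Prop} {m : LL n a c k} (hm : ∀ I, crd a c m I ≠ 0 → P I) (r : k) :
    ∀ I, crd a c (r • m) I ≠ 0 → P I := by
  intro I hI
  rw [e1h_crd_smul] at hI
  exact hm I fun h => hI (by rw [h, mul_zero])

theorem e1i_S_mul {P Q R : (Fin n → Ix) → Prop} (h : ∀ I I' J : Fin n → Ix, P I → Q I' →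
      (wd J ≤ wd I + wd I' ∧ (∀ j, wt (J j) ≤ wt (I j) + wt (I' j)) ∧ ∀ j, tA (I j) → tA (I' j) → tA (J j)) → R J)
    {m m' : LL n a c k} (hm : ∀ I, crd a c m I ≠ 0 → P I)
    (hm' : ∀ I, crd a c m' I ≠ 0 → Q I) : ∀ I, crd a c (m * m') I ≠ 0 → R I := by
  classical
  set s := ((LB a c k).repr m).support with hs
  set s' := ((LB a c k).repr m').support with hs'
  have h1 := e1h_sum a c m s (fun I hI => Finsupp.mem_support_iff.2 hI)
  have h2 := e1h_sum a c m' s' (fun I hI => Finsupp.mem_support_iff.2 hI)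
  have e : m * m' = ∑ I ∈ s, ∑ I' ∈ s', (crd a c m I * crd a c m' I') • (mon a c k I * mon a c k I') := by
    conv_lhs => rw [h1, h2]
    rw [Finset.sum_mul]
    refine Finset.sum_congr rfl fun I _ => ?_
    rw [Finset.mul_sum]
    exact Finset.sum_congr rfl fun I' _ => by rw [smul_mul_smul_comm]
  rw [e]
  refine e1i_S_sum a c s _ fun I hI => e1i_S_sum a c s' _ fun I' hI' => e1i_S_smul a c (fun J hJ => ?_) _
  refine h I I' J (hm I (Finsupp.mem_support_iff.1 hI)) (hm' I' (Finsupp.mem_support_iff.1 hI')) ?_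
  refine (LB_good a c k).mul I I' J ?_
  rw [LB_apply, LB_apply]
  exact hJ

/-- Products. -/
theorem e1i_TA_mul {κ κ' : ℕ} {m m' : LL n a c k} (hm : TA a c κ m) (hm' : TA a c κ' m') : TA a c (κ + κ') (m * m') := by
  refine e1i_S_mul a c (P := fun I => wd I ≤ κ ∧ ∀ j, tA (I j)) (Q := fun I => wd I ≤ κ' ∧ ∀ j, tA (I j)) ?_ hm hm'
  rintro I I' J ⟨h1, h2⟩ ⟨h3, h4⟩ ⟨h5, _, h7⟩
  exact ⟨by omega, fun j => h7 j (h2 j) (h4 j)⟩

/-- Products. -/
theorem e1i_TG_mul {d d' κ κ' : ℕ} {m m' : LL n a c k} (hm : TG a c d κ m) (hm' : TG a c d' κ' m') :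
    TG a c (d + d') (κ + κ') (m * m') := by
  refine e1i_S_mul a c (P := fun I => wd I ≤ κ ∧ ∀ j, tA (I j) ∧ wt (I j) ≤ d)
    (Q := fun I => wd I ≤ κ' ∧ ∀ j, tA (I j) ∧ wt (I j) ≤ d') ?_ hm hm'
  rintro I I' J ⟨h1, h2⟩ ⟨h3, h4⟩ ⟨h5, h6, h7⟩
  refine ⟨by omega, fun j => ⟨h7 j (h2 j).1 (h4 j).1, ?_⟩⟩
  have a1 := (h2 j).2
  have a2 := (h4 j).2
  have a3 := h6 j
  push_cast
  omega

/-- Sums and scalar multiples, monotonicity. -/
theorem e1i_TA_add {κ κ' : ℕ} (h : κ' ≤ κ) {m m' : LL n a c k} (hm : TA a c κ m) (hm' : TA a c κ' m') (r : k) :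
    TA a c κ (m + r • m') :=
  e1i_S_add a c hm (fun I hI => ⟨(hm' I hI).1.trans h, (hm' I hI).2⟩) r

/-- Sums and scalar multiples, monotonicity. -/
theorem e1i_TG_add {d κ d' κ' : ℕ} (hd : d' ≤ d) (h : κ' ≤ κ) {m m' : LL n a c k} (hm : TG a c d κ m) (hm' : TG a c d' κ' m')
    (r : k) : TG a c d κ (m + r • m') :=
  e1i_S_add a c hm (fun I hI => ⟨(hm' I hI).1.trans h, fun j => ⟨((hm' I hI).2 j).1,
    ((hm' I hI).2 j).2.trans (by exact_mod_cast hd)⟩⟩) r

/-- Zero, and sums over a finset. -/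
theorem e1i_TA_sum {κ : ℕ} {β : Type} (s : Finset β) (m : β → LL n a c k) (hm : ∀ i ∈ s, TA a c κ (m i)) :
    TA a c κ (∑ i ∈ s, m i) := e1i_S_sum a c s m hm

/-- Zero, and sums over a finset. -/
theorem e1i_TG_sum {d κ : ℕ} {β : Type} (s : Finset β) (m : β → LL n a c k) (hm : ∀ i ∈ s, TG a c d κ (m i)) :
    TG a c d κ (∑ i ∈ s, m i) := e1i_S_sum a c s m hm

/-- `1` and monomials. -/
theorem e1i_mon {d κ : ℕ} (I : Fin n → Ix) (h : wd I ≤ κ ∧ ∀ j, tA (I j) ∧ wt (I j) ≤ d) : TG a c d κ (mon a c k I) := by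
  intro J hJ
  rw [e1h_crd_mon] at hJ
  split_ifs at hJ with hIJ
  · rw [← hIJ]
    exact h
  · exact absurd rfl hJ

omit [IsDomain k] [CharZero k] [Fact (c ≠ 0)] in
theorem e1i_single (j : Fin n) (i : Ix) :
    mon a c k (fun l => if l = j then i else (0, 0, 0)) = mon1 a c k j i := by
  classical
  unfold mon
  rw [Finset.prod_eq_single j]
  · show mon1 a c k j (if j = j then i else (0, 0, 0)) = _
    rw [if_pos rfl]
  · intro l _ hl
    show mon1 a c k l (if l = j then i else (0, 0, 0)) = 1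
    rw [if_neg hl]
    unfold mon1
    simp
  · intro h
    exact absurd (Finset.mem_univ j) h

/-- The generators. -/
theorem e1i_gen (j : Fin n) : TG a c 2 0 (gx a c k j) ∧ TG a c 3 0 (gy a c k j) ∧ TG a c 1 1 (gw a c k j) := by
  classical
  have hwd : ∀ i : Ix, wd (fun l : Fin n => if l = j then i else ((0, 0, 0) : Ix)) = i.2.2 := by
    intro i
    unfold wd
    rw [Finset.sum_eq_single j]
    · show (if j = j then i else ((0, 0, 0) : Ix)).2.2 = i.2.2
      rw [if_pos rfl]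
    · intro l _ hl
      show (if l = j then i else ((0, 0, 0) : Ix)).2.2 = 0
      rw [if_neg hl]
    · intro h
      exact absurd (Finset.mem_univ j) h
  have hall : ∀ (i : Ix) (d : ℕ), tA i → wt i ≤ d → ∀ l : Fin n,
      tA ((fun l : Fin n => if l = j then i else ((0, 0, 0) : Ix)) l) ∧
      wt ((fun l : Fin n => if l = j then i else ((0, 0, 0) : Ix)) l) ≤ d := by
    intro i d h1 h2 l
    show tA (if l = j then i else ((0, 0, 0) : Ix)) ∧ wt (if l = j then i else ((0, 0, 0) : Ix)) ≤ d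
    by_cases h : l = j
    · rw [if_pos h]
      exact ⟨h1, h2⟩
    · rw [if_neg h]
      refine ⟨by unfold tA; simp, by unfold wt; simp⟩
  have hx : gx a c k j = mon1 a c k j (1, 0, 0) := by
    unfold mon1
    simp
  have hy : gy a c k j = mon1 a c k j (1, 1, 0) := by
    unfold mon1 gy
    simp
  have hw : gw a c k j = mon1 a c k j (0, 0, 1) := by
    unfold mon1
    simp
  refine ⟨?_, ?_, ?_⟩
  · rw [hx, ← e1i_single]
    exact e1i_mon a c _ ⟨by rw [hwd], hall _ _ (by unfold tA; simp) (by unfold wt; simp)⟩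
  · rw [hy, ← e1i_single]
    exact e1i_mon a c _ ⟨by rw [hwd], hall _ _ (by unfold tA; simp) (by unfold wt; simp)⟩
  · rw [hw, ← e1i_single]
    exact e1i_mon a c _ ⟨by rw [hwd], hall _ _ (by unfold tA; simp) (by unfold wt; simp)⟩

end H47E
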