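import Pool.Agent.Lib.H47E.E0

/-!
# H47E, chunk E1j: the indices of bounded weight
-/

set_option autoImplicit false

namespace H47E

/-- One direction: the pairs `(i, e)` are coded by `m = 2 i + e`. -/
def e1j_f (p : ℕ × ℕ) : Ix := (((p.1 / 2 : ℕ) : ℤ), ⟨p.1 % 2, Nat.mod_lt _ two_pos⟩, p.2)

/-- The box in one direction. -/
def e1j_box (d κ : ℕ) : Finset Ix := (Finset.range (d + 2) ×ˢ Finset.range (κ + 1)).image e1j_f

theorem e1j_mem {d κ : ℕ} (i : Ix) (h1 : tA i) (h2 : wt i ≤ d) (h3 : i.2.2 ≤ κ) : i ∈ e1j_box d κ := by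
  obtain ⟨a, e, q⟩ := i
  unfold tA at h1
  unfold wt at h2
  simp only at h1 h2 h3
  have he : (e : ℕ) < 2 := e.2
  refine Finset.mem_image.2 ⟨(2 * a.toNat + (e : ℕ), q), ?_, ?_⟩
  · rw [Finset.mem_product, Finset.mem_range, Finset.mem_range]
    exact ⟨by dsimp only; omega, by dsimp only; omega⟩
  · unfold e1j_f
    refine Prod.ext ?_ (Prod.ext (Fin.ext ?_) rfl)
    · dsimp only
      omega
    · dsimp only
      omega

theorem e1j_sub (n d κ : ℕ) : {I : Fin n → Ix | wd I ≤ κ ∧ ∀ j, tA (I j) ∧ wt (I j) ≤ d} ⊆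
    ((Fintype.piFinset fun _ : Fin n => e1j_box d κ : Finset (Fin n → Ix)) : Set (Fin n → Ix)) := by
  intro I hI
  rw [Finset.mem_coe, Fintype.mem_piFinset]
  intro j
  refine e1j_mem (I j) (hI.2 j).1 (hI.2 j).2 (le_trans ?_ hI.1)
  exact Finset.single_le_sum (f := fun j => (I j).2.2) (fun _ _ => Nat.zero_le _) (Finset.mem_univ j)

/-- The indices of bounded weight form a finite set. -/
theorem e1j_fin (n d κ : ℕ) : {I : Fin n → Ix | wd I ≤ κ ∧ ∀ j, tA (I j) ∧ wt (I j) ≤ d}.Finite := by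
  exact (Finset.finite_toSet _).subset (e1j_sub n d κ)

/-- The finset of indices of type A, weight at most `d`, `w`-degree at most `κ`. -/
noncomputable def IxG (n d κ : ℕ) : Finset (Fin n → Ix) := (e1j_fin n d κ).toFinset

theorem mem_IxG {n d κ : ℕ} (I : Fin n → Ix) : I ∈ IxG n d κ ↔ wd I ≤ κ ∧ ∀ j, tA (I j) ∧ wt (I j) ≤ d := by
  simp [IxG]

/-- The upper bound for the number of indices. -/
def cnt (n d κ : ℕ) : ℕ := ((d + 2) * (κ + 1)) ^ n

/-- Type A: `0 ≤ e ≤ i`, `2 i + e + κ ≤ d`, so `(i, e)` is one of at most `d + 2` pairs and every exponent of `w_j` is at most `κ`. -/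
theorem e1j_card (n d κ : ℕ) : (IxG n d κ).card ≤ cnt n d κ := by
  have h : IxG n d κ ⊆ Fintype.piFinset fun _ : Fin n => e1j_box d κ := by
    intro I hI
    have h1 := e1j_sub n d κ ((mem_IxG I).1 hI)
    exact h1
  refine (Finset.card_le_card h).trans ?_
  rw [Fintype.card_piFinset, Finset.prod_const, Finset.card_univ, Fintype.card_fin]
  unfold cnt
  refine Nat.pow_le_pow_left ?_ n
  refine Finset.card_image_le.trans ?_
  rw [Finset.card_product, Finset.card_range, Finset.card_range]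

end H47E
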