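import Pool.Agent.Lib.H47E.E2b
import Pool.Agent.Lib.H47E.E1i

/-!
# H47E, chunk E2: the translation `tau` and the weights
-/

set_option autoImplicit false

namespace H47E

open MvPolynomial

variable {n : ℕ} {K : Type} [Field K] (a c : K) {k : Type} [CommRing k] [Algebra K k] [IsDomain k] [CharZero k] [Fact (c ≠ 0)]

theorem e2_crd_sum {β : Type} (s : Finset β) (r : β → k) (f : β → LL n a c k) (L : Fin n → Ix) :
    crd a c (∑ i ∈ s, r i • f i) L = ∑ i ∈ s, r i * crd a c (f i) L := by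
  unfold crd
  rw [map_sum, Finsupp.finsetSum_apply]
  refine Finset.sum_congr rfl fun i _ => ?_
  rw [map_smul, Finsupp.smul_apply, smul_eq_mul]

theorem e2_crd_ne {β : Type} (s : Finset β) (r : β → k) (f : β → LL n a c k) (L : Fin n → Ix) (h : crd a c (∑ i ∈ s, r i • f i) L ≠ 0) :
    ∃ i ∈ s, r i ≠ 0 ∧ crd a c (f i) L ≠ 0 := by
  by_contra hc
  push Not at hc
  refine h ?_
  rw [e2_crd_sum]
  refine Finset.sum_eq_zero fun i hi => ?_
  by_cases hr : r i = 0
  · rw [hr, zero_mul]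
  · rw [hc i hi hr, mul_zero]

theorem e2_exp (m : LL n a c k) : ∃ s : Finset (Fin n → Ix), m = ∑ I ∈ s, crd a c m I • mon a c k I := by
  refine ⟨((LB a c k).repr m).support, e1h_sum a c m _ fun I hI => Finsupp.mem_support_iff.2 hI⟩

omit [IsDomain k] [CharZero k] [Fact (c ≠ 0)] in
theorem e2_smul (r : k) (x : LL n a c k) : r • x = algebraMap k (LL n a c k) r * x := Algebra.smul_def r x

omit [IsDomain k] [CharZero k] [Fact (c ≠ 0)] in
theorem e2_tau_sum (S : Finset (Fin n)) (s : Finset (Fin n → Ix)) (r : (Fin n → Ix) → k) (f : (Fin n → Ix) → LL n a c k) :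
    tau a c k S (∑ I ∈ s, r I • f I) = ∑ I ∈ s, r I • tau a c k S (f I) := by
  rw [map_sum]
  refine Finset.sum_congr rfl fun I _ => ?_
  rw [e2_smul, map_mul, e2a_alg, ← e2_smul]

/-- From `e2b_x` (`R = ⊤`) by linearity (`e1h_sum`, `e1h_span`). -/
theorem e2_TG (S : Finset (Fin n)) {m : LL n a c k} {d κ : ℕ} (hm : TG a c d κ m) (ν : ℕ) (hν : d + 1 ≤ 2 * ν) :
    TG a c (2 * ν + κ) κ ((∏ j ∈ S, gx a c k j ^ ν) * tau a c k S m) := by
  obtain ⟨s, hs⟩ := e2_exp a c m
  have h1 : (∏ j ∈ S, gx a c k j ^ ν) * tau a c k S m = ∑ I ∈ s, crd a c m I • ((∏ j ∈ S, gx a c k j ^ ν) * tau a c k S (mon a c k I)) := by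
    conv_lhs => rw [hs]
    rw [e2_tau_sum, Finset.mul_sum]
    refine Finset.sum_congr rfl fun I _ => ?_
    rw [mul_smul_comm]
  intro J hJ
  rw [h1] at hJ
  obtain ⟨I, -, hI, hJ2⟩ := e2_crd_ne a c s _ _ J hJ
  obtain ⟨hI1, hI2⟩ := hm I hI
  have h2 := e2b_x (R := ⊤) a c (k := k) (Subring.mem_top a) (Subring.mem_top c) S I (fun j => (hI2 j).1) ν (fun j => by
    have h3 := (hI2 j).2
    omega)
  have h3 := (e1h_span a c _ h2 J).2 hJ2
  have h4 : ∀ j, (I j).2.2 ≤ κ := fun j => (Finset.single_le_sum (f := fun j => (I j).2.2) (fun _ _ => Nat.zero_le _) (Finset.mem_univ j)).trans hI1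
  refine ⟨(Finset.sum_le_sum fun j _ => (h3 j).2.1).trans hI1, fun j => ⟨(h3 j).1, ?_⟩⟩
  have h5 := (h3 j).2.2
  have h6 := h4 j
  push_cast
  omega

/-- The type function: `B` on `S`, `A` elsewhere. -/
def sAB {n : ℕ} (S : Finset (Fin n)) (j : Fin n) : Ty := if j ∈ S then Ty.B else Ty.A

/-- From `e2b_A` by linearity: type `B` with weight `≤ κ` on `S`, type `A` elsewhere; then divide by `x_S ^ ν`, that is: multiply by
`xb_S ^ ν` (`xb = mon1 (-1, 0, 0)` has weight `- 2` and `w`-degree `0`). -/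
theorem e2_AB (S : Finset (Fin n)) {m : LL n a c k} {κ : ℕ} (hm : TA a c κ m) (ν : ℕ) :
    (∏ j ∈ S, gb a c k j ^ ν) * tau a c k S m ∈ MS (LB a c k) (sAB S) (-(2 * ν) + κ) κ := by
  classical
  obtain ⟨s, hs⟩ := e2_exp a c m
  obtain ⟨t, ht⟩ := e2_exp a c (tau a c k S m)
  -- the coordinates of `tau m`
  have hP : ∀ J, crd a c (tau a c k S m) J ≠ 0 → wd J ≤ κ ∧ (∀ j ∈ S, wt (J j) ≤ κ) ∧ ∀ j, j ∉ S → tA (J j) := by
    intro J hJ
    have h1 : tau a c k S m = ∑ I ∈ s, crd a c m I • tau a c k S (mon a c k I) := by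
      conv_lhs => rw [hs]
      rw [e2_tau_sum]
    rw [h1] at hJ
    obtain ⟨I, -, hI, hJ2⟩ := e2_crd_ne a c s _ _ J hJ
    obtain ⟨hI1, hI2⟩ := hm I hI
    have h2 := e2b_A (R := ⊤) a c (k := k) (Subring.mem_top a) (Subring.mem_top c) S I hI2
    have h3 := (e1h_span a c _ h2 J).2 hJ2
    have h4 : ∀ j, (I j).2.2 ≤ κ := fun j => (Finset.single_le_sum (f := fun j => (I j).2.2) (fun _ _ => Nat.zero_le _) (Finset.mem_univ j)).trans hI1
    refine ⟨(Finset.sum_le_sum fun j _ => (h3 j).1).trans hI1, fun j hj => ?_, fun j hj => ?_⟩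
    · have h5 := (h3 j).2.1 hj
      have h6 := h4 j
      omega
    · rw [(h3 j).2.2 hj]
      exact hI2 j
  -- the product of the powers of `xb`
  have hb : (∏ j ∈ S, gb a c k j ^ ν) = mon a c k fun j => if j ∈ S then ((-(ν : ℤ), 0, 0) : Ix) else (0, 0, 0) := by
    unfold mon
    rw [← Finset.prod_subset (Finset.subset_univ S)]
    · refine Finset.prod_congr rfl fun j hj => ?_
      simp only [if_pos hj]
      unfold mon1
      rcases Nat.eq_zero_or_pos ν with h | h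
      · subst h
        simp
      · have h7 : ¬ (0 : ℤ) ≤ -(ν : ℤ) := by omega
        simp only [Left.nonneg_neg_iff, neg_neg, Int.toNat_natCast, Fin.val_zero, pow_zero, mul_one]
        rw [if_neg (by omega)]
    · intro j _ hj
      simp only [if_neg hj]
      simp [mon1]
  have h8 : (∏ j ∈ S, gb a c k j ^ ν) * tau a c k S m = ∑ J ∈ t, crd a c (tau a c k S m) J • (mon a c k (fun j => if j ∈ S then ((-(ν : ℤ), 0, 0) : Ix) else (0, 0, 0)) * mon a c k J) := by
    conv_lhs => rw [ht]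
    rw [hb, Finset.mul_sum]
    refine Finset.sum_congr rfl fun I _ => ?_
    rw [mul_smul_comm]
  intro L hL
  rw [h8] at hL
  obtain ⟨J, -, hJ, hL2⟩ := e2_crd_ne a c t _ _ L hL
  obtain ⟨hJ1, hJ2, hJ3⟩ := hP J hJ
  have hL3 : (LB a c k).repr (LB a c k (fun j => if j ∈ S then ((-(ν : ℤ), 0, 0) : Ix) else (0, 0, 0)) * LB a c k J) L ≠ 0 := by
    rw [LB_apply, LB_apply]
    exact hL2
  obtain ⟨g1, g2, g3⟩ := (LB_good a c k).mul _ _ _ hL3
  have hw0 : wd (fun j => if j ∈ S then ((-(ν : ℤ), 0, 0) : Ix) else (0, 0, 0)) = 0 := by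
    unfold wd
    refine Finset.sum_eq_zero fun j _ => ?_
    change (if j ∈ S then ((-(ν : ℤ), 0, 0) : Ix) else (0, 0, 0)).2.2 = 0
    split_ifs <;> rfl
  refine ⟨?_, fun j => ?_⟩
  · rw [hw0, zero_add] at g1
    exact g1.trans hJ1
  · unfold sAB
    by_cases hj : j ∈ S
    · rw [if_pos hj]
      change wt (L j) ≤ _
      have g4 := g2 j
      have g5 := hJ2 j hj
      rw [if_pos hj] at g4
      have g6 : wt ((-(ν : ℤ), 0, 0) : Ix) = -(2 * (ν : ℤ)) := by
        unfold wt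
        simp
      rw [g6] at g4
      omega
    · rw [if_neg hj]
      change tA (L j)
      refine g3 j ?_ (hJ3 j hj)
      rw [if_neg hj]
      unfold tA
      simp

end H47E
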