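import Pool.Agent.Lib.H47E.E1f

/-!
# H47E, chunk E2a: the translation `tau` in one direction
-/

set_option autoImplicit false

namespace H47E

open MvPolynomial

variable {n : ℕ} {K : Type} [Field K] (a c : K) (k : Type) [CommRing k] [Algebra K k] {R : Subring K}

/-- Auxiliary: two ring homomorphisms which agree on the generators. -/
theorem e2a_ext {T : Type} [CommRing T] (f g : LL n a c k →+* T)
    (h0 : ∀ r : k, f (algebraMap k (LL n a c k) r) = g (algebraMap k (LL n a c k) r))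
    (h : ∀ j, f (gx a c k j) = g (gx a c k j) ∧ f (gb a c k j) = g (gb a c k j) ∧
      f (gt a c k j) = g (gt a c k j) ∧ f (gw a c k j) = g (gw a c k j)) : f = g := by
  apply Ideal.Quotient.ringHom_ext
  apply MvPolynomial.ringHom_ext
  · intro r
    exact h0 r
  · rintro ⟨j, i⟩
    fin_cases i
    · exact (h j).1
    · exact (h j).2.1
    · exact (h j).2.2.1
    · exact (h j).2.2.2

/-- Auxiliary: `tau` on the class of a variable. -/
theorem e2a_mk (S : Finset (Fin n)) (i : Fin n × Fin 4) :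
    tau a c k S (Ideal.Quotient.mk _ (X i)) = if i.1 ∈ S then (match i.2 with
      | 0 => gb a c k i.1
      | 1 => gx a c k i.1
      | 2 => -gt a c k i.1
      | 3 => gw a c k i.1 + gt a c k i.1) else Ideal.Quotient.mk _ (X i) := by
  unfold tau llift
  rw [Ideal.Quotient.lift_mk, eval₂Hom_X']
  rfl

/-- `tau` on the generators. -/
theorem e2a_gen (S : Finset (Fin n)) (j : Fin n) :
    (j ∈ S → tau a c k S (gx a c k j) = gb a c k j ∧ tau a c k S (gb a c k j) = gx a c k j ∧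
      tau a c k S (gt a c k j) = -gt a c k j ∧ tau a c k S (gw a c k j) = gw a c k j + gt a c k j) ∧
    (j ∉ S → tau a c k S (gx a c k j) = gx a c k j ∧ tau a c k S (gb a c k j) = gb a c k j ∧
      tau a c k S (gt a c k j) = gt a c k j ∧ tau a c k S (gw a c k j) = gw a c k j) := by
  constructor
  · intro hj
    refine ⟨?_, ?_, ?_, ?_⟩
    · exact (e2a_mk a c k S (j, 0)).trans (if_pos hj)
    · exact (e2a_mk a c k S (j, 1)).trans (if_pos hj)
    · exact (e2a_mk a c k S (j, 2)).trans (if_pos hj)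
    · exact (e2a_mk a c k S (j, 3)).trans (if_pos hj)
  · intro hj
    refine ⟨?_, ?_, ?_, ?_⟩
    · exact (e2a_mk a c k S (j, 0)).trans (if_neg hj)
    · exact (e2a_mk a c k S (j, 1)).trans (if_neg hj)
    · exact (e2a_mk a c k S (j, 2)).trans (if_neg hj)
    · exact (e2a_mk a c k S (j, 3)).trans (if_neg hj)

/-- `tau` is linear over `k`. -/
theorem e2a_alg (S : Finset (Fin n)) (r : k) : tau a c k S (algebraMap k (LL n a c k) r) = algebraMap k (LL n a c k) r := by
  have h : tau a c k S (Ideal.Quotient.mk _ (C r)) = algebraMap k (LL n a c k) r := by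
    unfold tau llift
    rw [Ideal.Quotient.lift_mk, eval₂Hom_C]
  exact h

/-- `tau` is an involution (check on the generators: two ring homomorphisms on `LL n a c k` which agree on constants and on the
classes of the variables are equal: `Ideal.Quotient.ringHom_ext`, `MvPolynomial.ringHom_ext`). -/
theorem e2a_invol (S : Finset (Fin n)) (m : LL n a c k) : tau a c k S (tau a c k S m) = m := by
  have h : (tau a c k S).comp (tau a c k S) = RingHom.id (LL n a c k) := by
    apply e2a_ext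
    · intro r
      rw [RingHom.comp_apply, e2a_alg, e2a_alg, RingHom.id_apply]
    · intro j
      simp only [RingHom.comp_apply, RingHom.id_apply]
      by_cases hj : j ∈ S
      · obtain ⟨h1, h2, h3, h4⟩ := (e2a_gen a c k S j).1 hj
        refine ⟨by rw [h1, h2], by rw [h2, h1], by rw [h3, map_neg, h3, neg_neg], ?_⟩
        rw [h4, map_add, h4, h3]
        ring
      · obtain ⟨h1, h2, h3, h4⟩ := (e2a_gen a c k S j).2 hj
        exact ⟨by rw [h1, h1], by rw [h2, h2], by rw [h3, h3], by rw [h4, h4]⟩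
  exact congrArg (fun f : LL n a c k →+* LL n a c k => f m) h

/-- Directions outside `S`. -/
theorem e2a_off (S : Finset (Fin n)) (j : Fin n) (hj : j ∉ S) (i : Ix) : tau a c k S (mon1 a c k j i) = mon1 a c k j i := by
  obtain ⟨h1, h2, h3, h4⟩ := (e2a_gen a c k S j).2 hj
  unfold mon1
  rw [map_mul, map_mul, map_pow, map_pow, h3, h4]
  by_cases hi : 0 ≤ i.1
  · rw [if_pos hi, map_pow, h1]
  · rw [if_neg hi, map_pow, h2]

/-- Auxiliary: multiplication by an element of `R`. -/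
theorem e2a_smul {P : Submodule R (LL n a c k)} {r : K} (hr : r ∈ R) {u : LL n a c k} (hu : u ∈ P) :
    algebraMap K (LL n a c k) r * u ∈ P := by
  have h := P.smul_mem (⟨r, hr⟩ : R) hu
  have h2 : (⟨r, hr⟩ : R) • u = algebraMap K (LL n a c k) r * u := Algebra.smul_def (⟨r, hr⟩ : R) u
  rwa [h2] at h

theorem e2a_nat {P : Submodule R (LL n a c k)} (r : ℕ) {u : LL n a c k} (hu : u ∈ P) :
    u * (r : LL n a c k) ∈ P := by
  rw [mul_comm, ← nsmul_eq_mul]
  exact nsmul_mem hu r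

theorem e2a_powneg {P : Submodule R (LL n a c k)} (e : ℕ) {u : LL n a c k} (hu : u ∈ P) :
    (-1 : LL n a c k) ^ e * u ∈ P := by
  induction e with
  | zero => rwa [pow_zero, one_mul]
  | succ e ih =>
    have h : (-1 : LL n a c k) ^ (e + 1) * u = -((-1 : LL n a c k) ^ e * u) := by ring
    rw [h]
    exact P.neg_mem ih

/-- Auxiliary: `xb ^ m yt ^ q w ^ κ`. -/
theorem e2a_gbq (ha : a ∈ R) (hc : c ∈ R) (j : Fin n) (m q κ : ℕ) :
    gb a c k j ^ m * gt a c k j ^ q * gw a c k j ^ κ ∈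
      Submodule.span R (mon1 a c k j '' {i' | wt i' ≤ -2 * (m : ℤ) + q + κ ∧ i'.2.2 = κ}) := by
  induction q with
  | zero =>
    refine Submodule.subset_span ⟨(-(m : ℤ), 0, κ), ⟨?_, rfl⟩, ?_⟩
    · unfold wt
      simp
    · unfold mon1
      simp only [Fin.val_zero, pow_zero, mul_one]
      by_cases hm : m = 0
      · rw [hm]
        simp
      · have h1 : ¬ (0 : ℤ) ≤ -(m : ℤ) := by omega
        rw [if_neg h1]
        simp
  | succ q ih =>
    have h1 : gb a c k j ^ m * gt a c k j ^ (q + 1) * gw a c k j ^ κ =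
        (gb a c k j ^ m * gt a c k j ^ q * gw a c k j ^ κ) * mon1 a c k j (0, 1, 0) := by
      unfold mon1
      simp only [le_refl, if_true, Int.toNat_zero, pow_zero, one_mul, Fin.val_one, pow_one, mul_one]
      ring
    rw [h1]
    refine Submodule.span_induction (p := fun u _ => u * mon1 a c k j (0, 1, 0) ∈
      Submodule.span R (mon1 a c k j '' {i' | wt i' ≤ -2 * (m : ℤ) + ((q + 1 : ℕ) : ℤ) + κ ∧ i'.2.2 = κ})) ?_ ?_ ?_ ?_ ih
    · rintro u ⟨i, ⟨hi1, hi2⟩, rfl⟩
      refine Submodule.span_mono (Set.image_mono ?_) (e1f_mul1 a c k ha hc j i (0, 1, 0))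
      rintro i'' ⟨h2, h3, -⟩
      refine ⟨?_, ?_⟩
      · have h4 : wt ((0, 1, 0) : Ix) = 1 := by unfold wt; simp
        rw [h4] at h2
        push_cast
        linarith
      · rw [h3, hi2]
        simp
    · rw [zero_mul]
      exact Submodule.zero_mem _
    · intro x y _ _ hx hy
      rw [add_mul]
      exact Submodule.add_mem _ hx hy
    · intro r x _ hx
      rw [smul_mul_assoc]
      exact Submodule.smul_mem _ _ hx

/-- Auxiliary: `x ^ N yt ^ q w ^ κ` is of type A if `q + 1 ≤ 2 N` or `q = 0`. -/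
theorem e2a_gxq (ha : a ∈ R) (hc : c ∈ R) (j : Fin n) (κ : ℕ) : ∀ q N : ℕ, (q = 0 ∨ q + 1 ≤ 2 * N) →
    gx a c k j ^ N * gt a c k j ^ q * gw a c k j ^ κ ∈
      Submodule.span R (mon1 a c k j '' {i' | tA i' ∧ wt i' ≤ 2 * (N : ℤ) + q + κ ∧ i'.2.2 = κ}) := by
  intro q
  induction q using Nat.strong_induction_on with
  | _ q ih =>
    intro N hN
    rcases q with _ | _ | q
    · refine Submodule.subset_span ⟨((N : ℤ), 0, κ), ⟨?_, ?_, rfl⟩, ?_⟩
      · unfold tA
        simp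
      · unfold wt
        simp
      · unfold mon1
        have h1 : (0 : ℤ) ≤ (N : ℤ) := Int.natCast_nonneg N
        simp only [Fin.val_zero, pow_zero, mul_one, h1, if_true, Int.toNat_natCast]
    · have hN1 : 1 ≤ N := by omega
      refine Submodule.subset_span ⟨((N : ℤ), 1, κ), ⟨?_, ?_, rfl⟩, ?_⟩
      · unfold tA
        simp only [Fin.val_one]
        omega
      · unfold wt
        simp
      · unfold mon1
        have h1 : (0 : ℤ) ≤ (N : ℤ) := Int.natCast_nonneg N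
        simp only [Fin.val_one, zero_add, pow_one, h1, if_true, Int.toNat_natCast]
    · have hN1 : q + 3 ≤ 2 * N := by omega
      obtain ⟨N', rfl⟩ : ∃ N', N = N' + 1 := ⟨N - 1, by omega⟩
      have h1 : gx a c k j ^ (N' + 1) * gt a c k j ^ (q + 1 + 1) * gw a c k j ^ κ =
          gx a c k j ^ (N' + 2) * gt a c k j ^ q * gw a c k j ^ κ +
          algebraMap K (LL n a c k) c * (gx a c k j ^ N' * gt a c k j ^ q * gw a c k j ^ κ) +
          algebraMap K (LL n a c k) a * (gx a c k j ^ (N' + 1) * gt a c k j ^ q * gw a c k j ^ κ) := by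
        linear_combination (gx a c k j ^ (N' + 1) * gt a c k j ^ q * gw a c k j ^ κ) * rel_a a c k j +
          (gx a c k j ^ N' * gt a c k j ^ q * gw a c k j ^ κ) * rel_c a c k j
      rw [h1]
      refine Submodule.add_mem _ (Submodule.add_mem _ ?_ ?_) ?_
      · refine Submodule.span_mono (Set.image_mono ?_) (ih q (by omega) (N' + 2) (by omega))
        rintro i' ⟨h2, h3, h4⟩
        refine ⟨h2, ?_, h4⟩
        push_cast at h3 ⊢
        linarith
      · refine e2a_smul a c k hc (Submodule.span_mono (Set.image_mono ?_) (ih q (by omega) N' (by omega)))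
        rintro i' ⟨h2, h3, h4⟩
        refine ⟨h2, ?_, h4⟩
        push_cast at h3 ⊢
        linarith
      · refine e2a_smul a c k ha (Submodule.span_mono (Set.image_mono ?_) (ih q (by omega) (N' + 1) (by omega)))
        rintro i' ⟨h2, h3, h4⟩
        refine ⟨h2, ?_, h4⟩
        push_cast at h3 ⊢
        linarith

/-- Auxiliary: the image of a monomial with non-negative first index. -/
theorem e2a_img (S : Finset (Fin n)) (j : Fin n) (hj : j ∈ S) (m κ : ℕ) (e : Fin 2) :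
    tau a c k S (mon1 a c k j ((m : ℤ), e, κ)) = ∑ l ∈ Finset.range (κ + 1),
      (-1 : LL n a c k) ^ (e : ℕ) * (gb a c k j ^ m * gt a c k j ^ ((e : ℕ) + (κ - l)) * gw a c k j ^ l) *
        (κ.choose l : LL n a c k) := by
  obtain ⟨h1, h2, h3, h4⟩ := (e2a_gen a c k S j).1 hj
  have h0 : mon1 a c k j ((m : ℤ), e, κ) = gx a c k j ^ m * gt a c k j ^ (e : ℕ) * gw a c k j ^ κ := by
    unfold mon1
    have h5 : (0 : ℤ) ≤ (m : ℤ) := Int.natCast_nonneg m
    simp only [h5, if_true, Int.toNat_natCast]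
  rw [h0, map_mul, map_mul, map_pow, map_pow, map_pow, h1, h3, h4, add_pow, Finset.mul_sum]
  refine Finset.sum_congr rfl fun l _ => ?_
  have h5 : (-gt a c k j) ^ (e : ℕ) = (-1 : LL n a c k) ^ (e : ℕ) * gt a c k j ^ (e : ℕ) := by ring
  rw [h5, pow_add]
  ring

/-- The image of a monomial of type A has weight at most its `w`-degree.

Proof. `i = (m, e, κ)`, `e ≤ m`. The image is `xb ^ m (- yt) ^ e (w + yt) ^ κ`, the sum of the `± binom * xb ^ m yt ^ (e + l) w ^ (κ - l)`.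
In general `xb ^ m yt ^ q w ^ κ'` (`q : ℕ`) is in the `R`-span of the monomials with weight `≤ - 2 m + q + κ'` and last index `κ'`: induction on `q`
with `e1f_mul1` and `yt = mon1 (0, 1, 0)` (weight 1). Here the weight is `≤ - 2 m + e + l + κ - l ≤ κ` as `e ≤ m`, `0 ≤ m`. -/
theorem e2a_A (ha : a ∈ R) (hc : c ∈ R) (S : Finset (Fin n)) (j : Fin n) (hj : j ∈ S) (i : Ix) (hi : tA i) :
    tau a c k S (mon1 a c k j i) ∈ Submodule.span R (mon1 a c k j '' {i' | wt i' ≤ i.2.2 ∧ i'.2.2 ≤ i.2.2}) := by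
  obtain ⟨i1, e, κ⟩ := i
  have hi0 : (0 : ℤ) ≤ i1 := by
    have h1 : ((e : ℕ) : ℤ) ≤ i1 := hi
    have h2 : (0 : ℤ) ≤ ((e : ℕ) : ℤ) := Int.natCast_nonneg _
    linarith
  obtain ⟨m, rfl⟩ := Int.eq_ofNat_of_zero_le hi0
  have hem : ((e : ℕ) : ℤ) ≤ (m : ℤ) := hi
  rw [e2a_img a c k S j hj m κ e]
  refine Submodule.sum_mem _ fun l hl => ?_
  have hlκ : l ≤ κ := by
    have := Finset.mem_range.1 hl
    omega
  refine e2a_nat a c k _ (e2a_powneg a c k _ ?_)
  refine Submodule.span_mono (Set.image_mono ?_) (e2a_gbq a c k ha hc j m ((e : ℕ) + (κ - l)) l)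
  rintro i' ⟨h1, h2⟩
  refine ⟨?_, ?_⟩
  · show wt i' ≤ (κ : ℤ)
    rw [Nat.cast_add, Nat.cast_sub hlκ] at h1
    have h3 : (0 : ℤ) ≤ (m : ℤ) := Int.natCast_nonneg _
    linarith
  · show i'.2.2 ≤ κ
    omega

/-- The image of a monomial of type A, times a power of `x`, is of type A.

Proof. `i = (m, e, κ)`, `x ^ ν xb ^ m yt ^ (e + l) w ^ (κ - l)` with `2 m + e + κ + 1 ≤ 2 ν` (so `m ≤ ν`), `x ^ ν xb ^ m = c ^ m x ^ (ν - m)`.
`yt ^ q`, `q = 2 h + e'`, `e' ∈ {0, 1}`, is `(x + xb + a) ^ h yt ^ e'`, so `x ^ N yt ^ q` is an `R`-combination of the `x ^ N' yt ^ e'` with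
`N - h ≤ N' ≤ N + h`: of type A if `N - h ≥ e'`, i.e. if `q + 1 ≤ 2 N` or `q = 0` (q = 2 h + e', q + e' ≤ 2 N suffices);
here `N = ν - m`, `q = e + l ≤ e + κ`, `q + 1 ≤ 2 ν - 2 m = 2 N`. The weight is `≤ 2 N + q + (κ - l) ≤ 2 (ν - m) + e + κ ≤ 2 ν + κ`. -/
theorem e2a_x (ha : a ∈ R) (hc : c ∈ R) (S : Finset (Fin n)) (j : Fin n) (hj : j ∈ S) (i : Ix) (hi : tA i) (ν : ℕ)
    (hν : wt i + 1 ≤ 2 * ν) :
    gx a c k j ^ ν * tau a c k S (mon1 a c k j i) ∈
      Submodule.span R (mon1 a c k j '' {i' | tA i' ∧ wt i' ≤ 2 * ν + i.2.2 ∧ i'.2.2 ≤ i.2.2}) := by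
  obtain ⟨i1, e, κ⟩ := i
  have hi0 : (0 : ℤ) ≤ i1 := by
    have h1 : ((e : ℕ) : ℤ) ≤ i1 := hi
    have h2 : (0 : ℤ) ≤ ((e : ℕ) : ℤ) := Int.natCast_nonneg _
    linarith
  obtain ⟨m, rfl⟩ := Int.eq_ofNat_of_zero_le hi0
  have hν' : 2 * (m : ℤ) + (e : ℕ) + κ + 1 ≤ 2 * ν := hν
  have hmν : 2 * m + (e : ℕ) + κ + 1 ≤ 2 * ν := by exact_mod_cast hν'
  obtain ⟨N, rfl⟩ : ∃ N, ν = m + N := ⟨ν - m, by omega⟩
  rw [e2a_img a c k S j hj m κ e, Finset.mul_sum]
  refine Submodule.sum_mem _ fun l hl => ?_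
  have hlκ : l ≤ κ := by
    have := Finset.mem_range.1 hl
    omega
  have hcm : ∀ m' : ℕ, gx a c k j ^ m' * gb a c k j ^ m' = algebraMap K (LL n a c k) (c ^ m') := by
    intro m'
    rw [← mul_pow, rel_c, map_pow]
  have h1 : gx a c k j ^ (m + N) * ((-1 : LL n a c k) ^ (e : ℕ) *
      (gb a c k j ^ m * gt a c k j ^ ((e : ℕ) + (κ - l)) * gw a c k j ^ l) * (κ.choose l : LL n a c k)) =
      (-1 : LL n a c k) ^ (e : ℕ) * (algebraMap K (LL n a c k) (c ^ m) *
        (gx a c k j ^ N * gt a c k j ^ ((e : ℕ) + (κ - l)) * gw a c k j ^ l)) * (κ.choose l : LL n a c k) := by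
    rw [← hcm m, pow_add]
    ring
  rw [h1]
  refine e2a_nat a c k _ (e2a_powneg a c k _ (e2a_smul a c k (R.pow_mem hc m) ?_))
  refine Submodule.span_mono (Set.image_mono ?_)
    (e2a_gxq a c k ha hc j l ((e : ℕ) + (κ - l)) N (Or.inr (by omega)))
  rintro i' ⟨h2, h3, h4⟩
  refine ⟨h2, ?_, ?_⟩
  · show wt i' ≤ 2 * ((m + N : ℕ) : ℤ) + (κ : ℤ)
    rw [Nat.cast_add, Nat.cast_sub hlκ] at h3
    have h5 : 2 * (m : ℤ) + (e : ℕ) + κ + 1 ≤ 2 * ((m + N : ℕ) : ℤ) := hν'
    have h6 : (e : ℕ) ≤ 1 := by omega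
    have h7 : ((e : ℕ) : ℤ) ≤ 1 := by exact_mod_cast h6
    have h8 : ((e : ℕ) : ℤ) ≤ (m : ℤ) := hi
    push_cast
    linarith
  · show i'.2.2 ≤ κ
    omega

end H47E
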