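import Pool.Agent.Lib.H47E.E2a
import Pool.Agent.Lib.H47E.E1d

/-!
# H47E, chunk E2b: the translation `tau` on the monomials
-/

set_option autoImplicit false

namespace H47E

open MvPolynomial

variable {n : ℕ} {K : Type} [Field K] (a c : K) {k : Type} [CommRing k] [Algebra K k] {R : Subring K}

/-- `e1d_prod` and `e2a_A`, `e2a_off`. -/
theorem e2b_A (ha : a ∈ R) (hc : c ∈ R) (S : Finset (Fin n)) (I : Fin n → Ix) (hI : ∀ j, tA (I j)) :
    tau a c k S (mon a c k I) ∈ Submodule.span R (mon a c k '' {J | ∀ j, (J j).2.2 ≤ (I j).2.2 ∧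
      (j ∈ S → wt (J j) ≤ (I j).2.2) ∧ (j ∉ S → J j = I j)}) := by
  have h0 : tau a c k S (mon a c k I) = ∏ j, tau a c k S (mon1 a c k j (I j)) := by
    unfold mon
    rw [map_prod]
  rw [h0]
  refine e1d_prod a c k R (fun j => {i' : Ix | i'.2.2 ≤ (I j).2.2 ∧ (j ∈ S → wt i' ≤ (I j).2.2) ∧ (j ∉ S → i' = I j)}) _ fun j => ?_
  by_cases hj : j ∈ S
  · refine Submodule.span_mono (Set.image_mono ?_) (e2a_A a c k ha hc S j hj (I j) (hI j))
    rintro i' ⟨h1, h2⟩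
    exact ⟨h2, fun _ => h1, fun h => absurd hj h⟩
  · rw [e2a_off a c k S j hj]
    exact Submodule.subset_span ⟨I j, ⟨le_rfl, fun h => absurd h hj, fun _ => rfl⟩, rfl⟩

/-- `e1d_prod` and `e2a_x`, `e2a_off`. -/
theorem e2b_x (ha : a ∈ R) (hc : c ∈ R) (S : Finset (Fin n)) (I : Fin n → Ix) (hI : ∀ j, tA (I j)) (ν : ℕ)
    (hν : ∀ j, wt (I j) + 1 ≤ 2 * ν) :
    (∏ j ∈ S, gx a c k j ^ ν) * tau a c k S (mon a c k I) ∈ Submodule.span R (mon a c k '' {J | ∀ j, tA (J j) ∧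
      (J j).2.2 ≤ (I j).2.2 ∧ wt (J j) ≤ 2 * ν + (I j).2.2}) := by
  have h0 : (∏ j ∈ S, gx a c k j ^ ν) * tau a c k S (mon a c k I) =
      ∏ j, (if j ∈ S then gx a c k j ^ ν else 1) * tau a c k S (mon1 a c k j (I j)) := by
    unfold mon
    rw [map_prod, Finset.prod_mul_distrib, Finset.prod_ite_mem, Finset.univ_inter]
  rw [h0]
  refine e1d_prod a c k R (fun j => {i' : Ix | tA i' ∧ i'.2.2 ≤ (I j).2.2 ∧ wt i' ≤ 2 * ν + (I j).2.2}) _ fun j => ?_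
  by_cases hj : j ∈ S
  · rw [if_pos hj]
    refine Submodule.span_mono (Set.image_mono ?_) (e2a_x a c k ha hc S j hj (I j) (hI j) ν (hν j))
    rintro i' ⟨h1, h2, h3⟩
    exact ⟨h1, h3, h2⟩
  · rw [if_neg hj, one_mul, e2a_off a c k S j hj]
    refine Submodule.subset_span ⟨I j, ⟨hI j, le_rfl, ?_⟩, rfl⟩
    have h1 := hν j
    have h2 : (0 : ℤ) ≤ ((I j).2.2 : ℤ) := Int.natCast_nonneg _
    linarith

end H47E
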