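import Pool.Agent.Lib.H47E.E2a
import Pool.Agent.Lib.H47E.E1i

/-!
# H47E, chunk E2d: degrees in `z`
-/

set_option autoImplicit false

namespace H47E

open MvPolynomial

variable {n : ℕ} {K : Type} [Field K] [CharZero K] (a c : K) [Fact (c ≠ 0)]

/-- The degrees in `z` of the coordinates are at most `d`. -/
def DG (d : ℕ) (m : LL n a c (Polynomial K)) : Prop := ∀ I, (crd a c m I).natDegree ≤ d

theorem e2d_crd_sum {β : Type} (s : Finset β) (r : β → Polynomial K) (f : β → LL n a c (Polynomial K)) (L : Fin n → Ix) :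
    crd a c (∑ i ∈ s, r i • f i) L = ∑ i ∈ s, r i * crd a c (f i) L := by
  unfold crd
  rw [map_sum, Finsupp.finsetSum_apply]
  refine Finset.sum_congr rfl fun i _ => ?_
  rw [map_smul, Finsupp.smul_apply, smul_eq_mul]

/-- Linear combinations. -/
theorem e2d_comb {β : Type} (s : Finset β) (r : β → Polynomial K) (f : β → LL n a c (Polynomial K)) {d d' : ℕ}
    (hr : ∀ i ∈ s, (r i).natDegree ≤ d) (hf : ∀ i ∈ s, DG a c d' (f i)) : DG a c (d + d') (∑ i ∈ s, r i • f i) := by
  intro L
  rw [e2d_crd_sum]
  refine Polynomial.natDegree_sum_le_of_forall_le s _ fun i hi => ?_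
  exact Polynomial.natDegree_mul_le.trans (Nat.add_le_add (hr i hi) (hf i hi L))

theorem e2d_exp (m : LL n a c (Polynomial K)) : ∃ s : Finset (Fin n → Ix), m = ∑ I ∈ s, crd a c m I • mon a c (Polynomial K) I :=
  ⟨((LB a c (Polynomial K)).repr m).support, e1h_sum a c m _ fun I hI => Finsupp.mem_support_iff.2 hI⟩

/-- Elements of a span over `K`. -/
theorem e2d_span (P : Set (Fin n → Ix)) {m : LL n a c (Polynomial K)}
    (hm : m ∈ Submodule.span (⊤ : Subring K) (mon a c (Polynomial K) '' P)) : DG a c 0 m := by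
  intro I
  obtain ⟨r, -, hr⟩ := (e1h_span a c P hm I).1
  rw [hr]
  exact (Polynomial.natDegree_C r).le

/-- Sums. -/
theorem e2d_add {d : ℕ} {m m' : LL n a c (Polynomial K)} (h : DG a c d m) (h' : DG a c d m') : DG a c d (m + m') := by
  intro I
  have e : crd a c (m + m') I = crd a c m I + crd a c m' I := by
    unfold crd
    rw [map_add, Finsupp.add_apply]
  rw [e]
  exact (Polynomial.natDegree_add_le _ _).trans (max_le (h I) (h' I))

/-- Products (the structure constants of the basis are in `K`: `e1g_mul`, `e1h_span`). -/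
theorem e2d_mul {d d' : ℕ} {m m' : LL n a c (Polynomial K)} (h : DG a c d m) (h' : DG a c d' m') : DG a c (d + d') (m * m') := by
  obtain ⟨s, hs⟩ := e2d_exp a c m
  obtain ⟨t, ht⟩ := e2d_exp a c m'
  have e : m * m' = ∑ x ∈ s ×ˢ t, (crd a c m x.1 * crd a c m' x.2) • (mon a c (Polynomial K) x.1 * mon a c (Polynomial K) x.2) := by
    conv_lhs => rw [hs, ht]
    rw [Finset.sum_mul_sum, Finset.sum_product]
    refine Finset.sum_congr rfl fun I _ => Finset.sum_congr rfl fun J _ => ?_
    rw [smul_mul_smul_comm]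
  rw [e]
  refine e2d_comb a c (d := d + d') (d' := 0) _ _ _ (fun x _ => ?_) fun x _ => ?_
  · exact Polynomial.natDegree_mul_le.trans (Nat.add_le_add (h _) (h' _))
  · exact e2d_span a c _ (e1g_mul (R := ⊤) a c (Polynomial K) (Subring.mem_top a) (Subring.mem_top c) x.1 x.2)

theorem e2d_mon (I : Fin n → Ix) : DG a c 0 (mon a c (Polynomial K) I) :=
  e2d_span a c Set.univ (Submodule.subset_span ⟨I, Set.mem_univ _, rfl⟩)

omit [CharZero K] [Fact (c ≠ 0)] in
theorem e2d_single (j : Fin n) (i : Ix) : mon a c (Polynomial K) (fun l => if l = j then i else (0, 0, 0)) = mon1 a c (Polynomial K) j i := by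
  unfold mon
  rw [Finset.prod_eq_single j]
  · simp only [if_true]
  · intro l _ hl
    simp only [if_neg hl]
    simp [mon1]
  · intro h
    exact absurd (Finset.mem_univ j) h

/-- Constants: monomials and elements of `K`; the classes of the variables. -/
theorem e2d_const (I : Fin n → Ix) (x : K) (i : Fin n × Fin 4) : DG a c 0 (mon a c (Polynomial K) I) ∧
    DG a c 0 (algebraMap K (LL n a c (Polynomial K)) x) ∧
    DG a c 0 (Ideal.Quotient.mk (relI n a c (Polynomial K)) (X i) : LL n a c (Polynomial K)) := by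
  refine ⟨e2d_mon a c I, ?_, ?_⟩
  · have e : algebraMap K (LL n a c (Polynomial K)) x = ∑ _i ∈ ({()} : Finset Unit), (Polynomial.C x) • (mon a c (Polynomial K) (fun _ : Fin n => ((0, 0, 0) : Ix))) := by
      rw [Finset.sum_singleton, (e1h_one a c).2.2, IsScalarTower.algebraMap_apply K (Polynomial K) (LL n a c (Polynomial K)), Algebra.algebraMap_eq_smul_one]
      rfl
    rw [e]
    exact e2d_comb a c (d := 0) (d' := 0) _ _ _ (fun _ _ => (Polynomial.natDegree_C x).le) fun _ _ => e2d_mon a c _
  · obtain ⟨j, e⟩ := i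
    fin_cases e
    · have h := e2d_mon a c (fun l => if l = j then ((1, 0, 0) : Ix) else (0, 0, 0))
      rw [e2d_single] at h
      have h1 : mon1 a c (Polynomial K) j (1, 0, 0) = gx a c (Polynomial K) j := by simp [mon1]
      rw [h1] at h
      exact h
    · have h := e2d_mon a c (fun l => if l = j then ((-1, 0, 0) : Ix) else (0, 0, 0))
      rw [e2d_single] at h
      have h1 : mon1 a c (Polynomial K) j (-1, 0, 0) = gb a c (Polynomial K) j := by simp [mon1]
      rw [h1] at h
      exact h
    · have h := e2d_mon a c (fun l => if l = j then ((0, 1, 0) : Ix) else (0, 0, 0))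
      rw [e2d_single] at h
      have h1 : mon1 a c (Polynomial K) j (0, 1, 0) = gt a c (Polynomial K) j := by simp [mon1]
      rw [h1] at h
      exact h
    · have h := e2d_mon a c (fun l => if l = j then ((0, 0, 1) : Ix) else (0, 0, 0))
      rw [e2d_single] at h
      have h1 : mon1 a c (Polynomial K) j (0, 0, 1) = gw a c (Polynomial K) j := by simp [mon1]
      rw [h1] at h
      exact h

theorem e2d_one : DG a c 0 (1 : LL n a c (Polynomial K)) := by
  rw [← (e1h_one a c).2.2]
  exact e2d_mon a c _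

theorem e2d_mul0 {m m' : LL n a c (Polynomial K)} (h : DG a c 0 m) (h' : DG a c 0 m') : DG a c 0 (m * m') := e2d_mul a c h h'

theorem e2d_pow0 {m : LL n a c (Polynomial K)} (h : DG a c 0 m) (l : ℕ) : DG a c 0 (m ^ l) := by
  induction l with
  | zero =>
    rw [pow_zero]
    exact e2d_one a c
  | succ l ih =>
    rw [pow_succ]
    exact e2d_mul0 a c ih h

theorem e2d_prod0 {β : Type} (s : Finset β) (f : β → LL n a c (Polynomial K)) (h : ∀ i ∈ s, DG a c 0 (f i)) : DG a c 0 (∏ i ∈ s, f i) := by
  classical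
  induction s using Finset.induction_on with
  | empty =>
    rw [Finset.prod_empty]
    exact e2d_one a c
  | insert i s hi ih =>
    rw [Finset.prod_insert hi]
    exact e2d_mul0 a c (h i (Finset.mem_insert_self i s)) (ih fun l hl => h l (Finset.mem_insert_of_mem hl))

theorem e2d_neg0 {m : LL n a c (Polynomial K)} (h : DG a c 0 m) : DG a c 0 (-m) := by
  intro I
  have e : crd a c (-m) I = -crd a c m I := by
    unfold crd
    rw [map_neg, Finsupp.neg_apply]
  rw [e, Polynomial.natDegree_neg]
  exact h I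

omit [CharZero K] [Fact (c ≠ 0)] in
theorem e2d_smul (r : Polynomial K) (x : LL n a c (Polynomial K)) : r • x = algebraMap (Polynomial K) (LL n a c (Polynomial K)) r * x :=
  Algebra.smul_def r x

theorem e2d_tau1 (S : Finset (Fin n)) (j : Fin n) (i : Ix) : DG a c 0 (tau a c (Polynomial K) S (mon1 a c (Polynomial K) j i)) := by
  have g0 : DG a c 0 (gx a c (Polynomial K) j) := (e2d_const a c (fun _ => (0, 0, 0)) 0 (j, 0)).2.2
  have g1 : DG a c 0 (gb a c (Polynomial K) j) := (e2d_const a c (fun _ => (0, 0, 0)) 0 (j, 1)).2.2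
  have g2 : DG a c 0 (gt a c (Polynomial K) j) := (e2d_const a c (fun _ => (0, 0, 0)) 0 (j, 2)).2.2
  have g3 : DG a c 0 (gw a c (Polynomial K) j) := (e2d_const a c (fun _ => (0, 0, 0)) 0 (j, 3)).2.2
  have h0 : DG a c 0 (tau a c (Polynomial K) S (gx a c (Polynomial K) j)) := by
    by_cases hj : j ∈ S
    · rw [((e2a_gen a c (Polynomial K) S j).1 hj).1]
      exact g1
    · rw [((e2a_gen a c (Polynomial K) S j).2 hj).1]
      exact g0
  have h1 : DG a c 0 (tau a c (Polynomial K) S (gb a c (Polynomial K) j)) := by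
    by_cases hj : j ∈ S
    · rw [((e2a_gen a c (Polynomial K) S j).1 hj).2.1]
      exact g0
    · rw [((e2a_gen a c (Polynomial K) S j).2 hj).2.1]
      exact g1
  have h2 : DG a c 0 (tau a c (Polynomial K) S (gt a c (Polynomial K) j)) := by
    by_cases hj : j ∈ S
    · rw [((e2a_gen a c (Polynomial K) S j).1 hj).2.2.1]
      exact e2d_neg0 a c g2
    · rw [((e2a_gen a c (Polynomial K) S j).2 hj).2.2.1]
      exact g2
  have h3 : DG a c 0 (tau a c (Polynomial K) S (gw a c (Polynomial K) j)) := by
    by_cases hj : j ∈ S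
    · rw [((e2a_gen a c (Polynomial K) S j).1 hj).2.2.2]
      exact e2d_add a c g3 g2
    · rw [((e2a_gen a c (Polynomial K) S j).2 hj).2.2.2]
      exact g3
  unfold mon1
  rw [map_mul, map_mul, map_pow, map_pow]
  refine e2d_mul0 a c (e2d_mul0 a c ?_ (e2d_pow0 a c h2 _)) (e2d_pow0 a c h3 _)
  split_ifs
  · rw [map_pow]
    exact e2d_pow0 a c h0 _
  · rw [map_pow]
    exact e2d_pow0 a c h1 _

/-- `tau` does not increase the degrees. (Every monomial, not only those of type A, is mapped to an element of `DG 0`: a product of images of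
generators, `e2a_gen`.) -/
theorem e2d_tau (S : Finset (Fin n)) {m : LL n a c (Polynomial K)} {d : ℕ} (hm : DG a c d m) : DG a c d (tau a c (Polynomial K) S m) := by
  obtain ⟨s, hs⟩ := e2d_exp a c m
  have e : tau a c (Polynomial K) S m = ∑ I ∈ s, crd a c m I • tau a c (Polynomial K) S (mon a c (Polynomial K) I) := by
    conv_lhs => rw [hs]
    rw [map_sum]
    refine Finset.sum_congr rfl fun I _ => ?_
    rw [e2d_smul, map_mul, e2a_alg, ← e2d_smul]
  rw [e]
  refine e2d_comb a c (d := d) (d' := 0) s _ _ (fun I _ => hm I) fun I _ => ?_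
  unfold mon
  rw [map_prod]
  exact e2d_prod0 a c _ _ fun j _ => e2d_tau1 a c S j (I j)

end H47E
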