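import Pool.Agent.Lib.H47E.E0

/-!
# H47E, chunk E3: the derivation
-/

set_option autoImplicit false

namespace H47E

open MvPolynomial

set_option linter.unusedSimpArgs false

variable {n : ℕ} {K : Type} [Field K] (a c : K) {k : Type} [CommRing k] [Algebra K k]

/-- Auxiliary: two ring homomorphisms which agree on the generators. -/
theorem e3_ext {T : Type} [CommRing T] (f g : LL n a c k →+* T)
    (h0 : ∀ r : k, f (algebraMap k (LL n a c k) r) = g (algebraMap k (LL n a c k) r))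
    (h : ∀ j, f (gx a c k j) = g (gx a c k j) ∧ f (gb a c k j) = g (gb a c k j) ∧
      f (gt a c k j) = g (gt a c k j) ∧ f (gw a c k j) = g (gw a c k j)) : f = g := by
  apply Ideal.Quotient.ringHom_ext
  apply MvPolynomial.ringHom_ext
  · intro r
    exact h0 r
  · rintro ⟨j, i⟩
    fin_cases i
    · exact (h j).1
    · exact (h j).2.1
    · exact (h j).2.2.1
    · exact (h j).2.2.2

/-- Auxiliary: the homomorphism of the constants into the dual numbers. -/
noncomputable def e3_phi (dk : Derivation K k k) : k →+* TrivSqZeroExt (LL n a c k) (LL n a c k) where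
  toFun r := TrivSqZeroExt.inl (algebraMap k (LL n a c k) r) + TrivSqZeroExt.inr (algebraMap k (LL n a c k) (dk r))
  map_one' := by
    apply TrivSqZeroExt.ext
    · simp only [TrivSqZeroExt.fst_add, TrivSqZeroExt.fst_inl, TrivSqZeroExt.fst_inr, TrivSqZeroExt.fst_mul, TrivSqZeroExt.fst_one, TrivSqZeroExt.fst_zero, TrivSqZeroExt.snd_add, TrivSqZeroExt.snd_inl, TrivSqZeroExt.snd_inr, TrivSqZeroExt.snd_mul, TrivSqZeroExt.snd_one, TrivSqZeroExt.snd_zero, add_zero, zero_add, smul_eq_mul, MulOpposite.smul_eq_mul_unop, MulOpposite.unop_op, map_one]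
    · simp only [TrivSqZeroExt.fst_add, TrivSqZeroExt.fst_inl, TrivSqZeroExt.fst_inr, TrivSqZeroExt.fst_mul, TrivSqZeroExt.fst_one, TrivSqZeroExt.fst_zero, TrivSqZeroExt.snd_add, TrivSqZeroExt.snd_inl, TrivSqZeroExt.snd_inr, TrivSqZeroExt.snd_mul, TrivSqZeroExt.snd_one, TrivSqZeroExt.snd_zero, add_zero, zero_add, smul_eq_mul, MulOpposite.smul_eq_mul_unop, MulOpposite.unop_op, Derivation.map_one_eq_zero, map_zero]
  map_mul' r s := by
    apply TrivSqZeroExt.ext
    · simp only [TrivSqZeroExt.fst_add, TrivSqZeroExt.fst_inl, TrivSqZeroExt.fst_inr, TrivSqZeroExt.fst_mul, TrivSqZeroExt.fst_one, TrivSqZeroExt.fst_zero, TrivSqZeroExt.snd_add, TrivSqZeroExt.snd_inl, TrivSqZeroExt.snd_inr, TrivSqZeroExt.snd_mul, TrivSqZeroExt.snd_one, TrivSqZeroExt.snd_zero, add_zero, zero_add, smul_eq_mul, MulOpposite.smul_eq_mul_unop, MulOpposite.unop_op, map_mul]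
    · simp only [TrivSqZeroExt.fst_add, TrivSqZeroExt.fst_inl, TrivSqZeroExt.fst_inr, TrivSqZeroExt.fst_mul, TrivSqZeroExt.fst_one, TrivSqZeroExt.fst_zero, TrivSqZeroExt.snd_add, TrivSqZeroExt.snd_inl, TrivSqZeroExt.snd_inr, TrivSqZeroExt.snd_mul, TrivSqZeroExt.snd_one, TrivSqZeroExt.snd_zero, add_zero, zero_add, smul_eq_mul, MulOpposite.smul_eq_mul_unop, MulOpposite.unop_op, Derivation.leibniz, map_add, map_mul]
      ring
  map_zero' := by
    apply TrivSqZeroExt.ext
    · simp only [TrivSqZeroExt.fst_add, TrivSqZeroExt.fst_inl, TrivSqZeroExt.fst_inr, TrivSqZeroExt.fst_mul, TrivSqZeroExt.fst_one, TrivSqZeroExt.fst_zero, TrivSqZeroExt.snd_add, TrivSqZeroExt.snd_inl, TrivSqZeroExt.snd_inr, TrivSqZeroExt.snd_mul, TrivSqZeroExt.snd_one, TrivSqZeroExt.snd_zero, add_zero, zero_add, smul_eq_mul, MulOpposite.smul_eq_mul_unop, MulOpposite.unop_op, map_zero]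
    · simp only [TrivSqZeroExt.fst_add, TrivSqZeroExt.fst_inl, TrivSqZeroExt.fst_inr, TrivSqZeroExt.fst_mul, TrivSqZeroExt.fst_one, TrivSqZeroExt.fst_zero, TrivSqZeroExt.snd_add, TrivSqZeroExt.snd_inl, TrivSqZeroExt.snd_inr, TrivSqZeroExt.snd_mul, TrivSqZeroExt.snd_one, TrivSqZeroExt.snd_zero, add_zero, zero_add, smul_eq_mul, MulOpposite.smul_eq_mul_unop, MulOpposite.unop_op, map_zero]
  map_add' r s := by
    apply TrivSqZeroExt.ext
    · simp only [TrivSqZeroExt.fst_add, TrivSqZeroExt.fst_inl, TrivSqZeroExt.fst_inr, TrivSqZeroExt.fst_mul, TrivSqZeroExt.fst_one, TrivSqZeroExt.fst_zero, TrivSqZeroExt.snd_add, TrivSqZeroExt.snd_inl, TrivSqZeroExt.snd_inr, TrivSqZeroExt.snd_mul, TrivSqZeroExt.snd_one, TrivSqZeroExt.snd_zero, add_zero, zero_add, smul_eq_mul, MulOpposite.smul_eq_mul_unop, MulOpposite.unop_op, map_add]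
    · simp only [TrivSqZeroExt.fst_add, TrivSqZeroExt.fst_inl, TrivSqZeroExt.fst_inr, TrivSqZeroExt.fst_mul, TrivSqZeroExt.fst_one, TrivSqZeroExt.fst_zero, TrivSqZeroExt.snd_add, TrivSqZeroExt.snd_inl, TrivSqZeroExt.snd_inr, TrivSqZeroExt.snd_mul, TrivSqZeroExt.snd_one, TrivSqZeroExt.snd_zero, add_zero, zero_add, smul_eq_mul, MulOpposite.smul_eq_mul_unop, MulOpposite.unop_op, map_add]

/-- Auxiliary: the images of the variables. -/
noncomputable def e3_f (p : Fin n → K) (i : Fin n × Fin 4) : TrivSqZeroExt (LL n a c k) (LL n a c k) :=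
  match i.2 with
  | 0 => TrivSqZeroExt.inl (gx a c k i.1) + TrivSqZeroExt.inr (2 * algebraMap K (LL n a c k) (p i.1) * gy a c k i.1)
  | 1 => TrivSqZeroExt.inl (gb a c k i.1) +
      TrivSqZeroExt.inr (-(2 * algebraMap K (LL n a c k) (p i.1) * gb a c k i.1 * gt a c k i.1))
  | 2 => TrivSqZeroExt.inl (gt a c k i.1) +
      TrivSqZeroExt.inr (algebraMap K (LL n a c k) (p i.1) * (gx a c k i.1 - gb a c k i.1))
  | 3 => TrivSqZeroExt.inl (gw a c k i.1) +
      TrivSqZeroExt.inr (-(algebraMap K (LL n a c k) (p i.1) * gx a c k i.1))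

theorem e3_phiK (dk : Derivation K k k) (r : K) :
    e3_phi (n := n) a c dk (algebraMap K k r) = TrivSqZeroExt.inl (algebraMap K (LL n a c k) r) := by
  have h : e3_phi (n := n) a c dk (algebraMap K k r) = TrivSqZeroExt.inl (algebraMap k (LL n a c k) (algebraMap K k r)) +
      TrivSqZeroExt.inr (algebraMap k (LL n a c k) (dk (algebraMap K k r))) := rfl
  rw [h, dk.map_algebraMap, map_zero, TrivSqZeroExt.inr_zero, add_zero,
    ← IsScalarTower.algebraMap_apply K k (LL n a c k)]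

theorem e3_h1 (dk : Derivation K k k) (p : Fin n → K) (j : Fin n) :
    e3_f a c p (k := k) (j, 0) * e3_f a c p (j, 1) = e3_phi a c dk (algebraMap K k c) := by
  rw [e3_phiK]
  have h := rel_c a c k j
  apply TrivSqZeroExt.ext
  · simp only [e3_f, TrivSqZeroExt.fst_add, TrivSqZeroExt.fst_inl, TrivSqZeroExt.fst_inr, TrivSqZeroExt.fst_mul, TrivSqZeroExt.fst_one, TrivSqZeroExt.fst_zero, TrivSqZeroExt.snd_add, TrivSqZeroExt.snd_inl, TrivSqZeroExt.snd_inr, TrivSqZeroExt.snd_mul, TrivSqZeroExt.snd_one, TrivSqZeroExt.snd_zero, add_zero, zero_add, smul_eq_mul, MulOpposite.smul_eq_mul_unop, MulOpposite.unop_op]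
    exact h
  · simp only [e3_f, TrivSqZeroExt.fst_add, TrivSqZeroExt.fst_inl, TrivSqZeroExt.fst_inr, TrivSqZeroExt.fst_mul, TrivSqZeroExt.fst_one, TrivSqZeroExt.fst_zero, TrivSqZeroExt.snd_add, TrivSqZeroExt.snd_inl, TrivSqZeroExt.snd_inr, TrivSqZeroExt.snd_mul, TrivSqZeroExt.snd_one, TrivSqZeroExt.snd_zero, add_zero, zero_add, smul_eq_mul, MulOpposite.smul_eq_mul_unop, MulOpposite.unop_op]
    unfold gy
    ring

theorem e3_h2 (dk : Derivation K k k) (p : Fin n → K) (j : Fin n) :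
    e3_f a c p (k := k) (j, 2) ^ 2 = e3_f a c p (j, 0) + e3_f a c p (j, 1) + e3_phi a c dk (algebraMap K k a) := by
  rw [e3_phiK, pow_two]
  have h := rel_a a c k j
  apply TrivSqZeroExt.ext
  · simp only [e3_f, TrivSqZeroExt.fst_add, TrivSqZeroExt.fst_inl, TrivSqZeroExt.fst_inr, TrivSqZeroExt.fst_mul, TrivSqZeroExt.fst_one, TrivSqZeroExt.fst_zero, TrivSqZeroExt.snd_add, TrivSqZeroExt.snd_inl, TrivSqZeroExt.snd_inr, TrivSqZeroExt.snd_mul, TrivSqZeroExt.snd_one, TrivSqZeroExt.snd_zero, add_zero, zero_add, smul_eq_mul, MulOpposite.smul_eq_mul_unop, MulOpposite.unop_op]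
    rw [← pow_two]
    exact h
  · simp only [e3_f, TrivSqZeroExt.fst_add, TrivSqZeroExt.fst_inl, TrivSqZeroExt.fst_inr, TrivSqZeroExt.fst_mul, TrivSqZeroExt.fst_one, TrivSqZeroExt.fst_zero, TrivSqZeroExt.snd_add, TrivSqZeroExt.snd_inl, TrivSqZeroExt.snd_inr, TrivSqZeroExt.snd_mul, TrivSqZeroExt.snd_one, TrivSqZeroExt.snd_zero, add_zero, zero_add, smul_eq_mul, MulOpposite.smul_eq_mul_unop, MulOpposite.unop_op]
    unfold gy
    ring

/-- Auxiliary: the homomorphism into the dual numbers. -/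
noncomputable def e3_E (dk : Derivation K k k) (p : Fin n → K) :
    LL n a c k →+* TrivSqZeroExt (LL n a c k) (LL n a c k) :=
  llift (n := n) (T := TrivSqZeroExt (LL n a c k) (LL n a c k)) a c k (e3_phi (n := n) a c dk) (e3_f (n := n) a c p)
    (e3_h1 a c dk p) (e3_h2 a c dk p)

theorem e3_Ealg (dk : Derivation K k k) (p : Fin n → K) (r : k) :
    e3_E a c dk p (algebraMap k (LL n a c k) r) = e3_phi a c dk r := by
  have h : e3_E a c dk p (Ideal.Quotient.mk _ (C r)) = e3_phi a c dk r := by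
    unfold e3_E llift
    rw [Ideal.Quotient.lift_mk, eval₂Hom_C]
  exact h

theorem e3_Emk (dk : Derivation K k k) (p : Fin n → K) (i : Fin n × Fin 4) :
    e3_E a c dk p (Ideal.Quotient.mk _ (X i)) = e3_f a c p i := by
  unfold e3_E llift
  rw [Ideal.Quotient.lift_mk, eval₂Hom_X']

theorem e3_fst (dk : Derivation K k k) (p : Fin n → K) (m : LL n a c k) : (e3_E a c dk p m).fst = m := by
  have h : ((TrivSqZeroExt.fstHom ℤ (LL n a c k) (LL n a c k)).toRingHom).comp (e3_E a c dk p) =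
      RingHom.id (LL n a c k) := by
    apply e3_ext
    · intro r
      show (e3_E a c dk p (algebraMap k (LL n a c k) r)).fst = algebraMap k (LL n a c k) r
      rw [e3_Ealg]
      show (TrivSqZeroExt.inl (algebraMap k (LL n a c k) r) +
        TrivSqZeroExt.inr (algebraMap k (LL n a c k) (dk r))).fst = _
      simp only [TrivSqZeroExt.fst_add, TrivSqZeroExt.fst_inl, TrivSqZeroExt.fst_inr, TrivSqZeroExt.fst_mul, TrivSqZeroExt.fst_one, TrivSqZeroExt.fst_zero, TrivSqZeroExt.snd_add, TrivSqZeroExt.snd_inl, TrivSqZeroExt.snd_inr, TrivSqZeroExt.snd_mul, TrivSqZeroExt.snd_one, TrivSqZeroExt.snd_zero, add_zero, zero_add, smul_eq_mul, MulOpposite.smul_eq_mul_unop, MulOpposite.unop_op]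
    · intro j
      refine ⟨?_, ?_, ?_, ?_⟩
      · show (e3_E a c dk p (Ideal.Quotient.mk _ (X (j, 0)))).fst = gx a c k j
        rw [e3_Emk]
        simp only [e3_f, TrivSqZeroExt.fst_add, TrivSqZeroExt.fst_inl, TrivSqZeroExt.fst_inr, TrivSqZeroExt.fst_mul, TrivSqZeroExt.fst_one, TrivSqZeroExt.fst_zero, TrivSqZeroExt.snd_add, TrivSqZeroExt.snd_inl, TrivSqZeroExt.snd_inr, TrivSqZeroExt.snd_mul, TrivSqZeroExt.snd_one, TrivSqZeroExt.snd_zero, add_zero, zero_add, smul_eq_mul, MulOpposite.smul_eq_mul_unop, MulOpposite.unop_op]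
      · show (e3_E a c dk p (Ideal.Quotient.mk _ (X (j, 1)))).fst = gb a c k j
        rw [e3_Emk]
        simp only [e3_f, TrivSqZeroExt.fst_add, TrivSqZeroExt.fst_inl, TrivSqZeroExt.fst_inr, TrivSqZeroExt.fst_mul, TrivSqZeroExt.fst_one, TrivSqZeroExt.fst_zero, TrivSqZeroExt.snd_add, TrivSqZeroExt.snd_inl, TrivSqZeroExt.snd_inr, TrivSqZeroExt.snd_mul, TrivSqZeroExt.snd_one, TrivSqZeroExt.snd_zero, add_zero, zero_add, smul_eq_mul, MulOpposite.smul_eq_mul_unop, MulOpposite.unop_op]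
      · show (e3_E a c dk p (Ideal.Quotient.mk _ (X (j, 2)))).fst = gt a c k j
        rw [e3_Emk]
        simp only [e3_f, TrivSqZeroExt.fst_add, TrivSqZeroExt.fst_inl, TrivSqZeroExt.fst_inr, TrivSqZeroExt.fst_mul, TrivSqZeroExt.fst_one, TrivSqZeroExt.fst_zero, TrivSqZeroExt.snd_add, TrivSqZeroExt.snd_inl, TrivSqZeroExt.snd_inr, TrivSqZeroExt.snd_mul, TrivSqZeroExt.snd_one, TrivSqZeroExt.snd_zero, add_zero, zero_add, smul_eq_mul, MulOpposite.smul_eq_mul_unop, MulOpposite.unop_op]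
      · show (e3_E a c dk p (Ideal.Quotient.mk _ (X (j, 3)))).fst = gw a c k j
        rw [e3_Emk]
        simp only [e3_f, TrivSqZeroExt.fst_add, TrivSqZeroExt.fst_inl, TrivSqZeroExt.fst_inr, TrivSqZeroExt.fst_mul, TrivSqZeroExt.fst_one, TrivSqZeroExt.fst_zero, TrivSqZeroExt.snd_add, TrivSqZeroExt.snd_inl, TrivSqZeroExt.snd_inr, TrivSqZeroExt.snd_mul, TrivSqZeroExt.snd_one, TrivSqZeroExt.snd_zero, add_zero, zero_add, smul_eq_mul, MulOpposite.smul_eq_mul_unop, MulOpposite.unop_op]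
  exact congrArg (fun f : LL n a c k →+* LL n a c k => f m) h

theorem e3_snd (dk : Derivation K k k) (p : Fin n → K) (m m' : LL n a c k) :
    (e3_E a c dk p (m * m')).snd = m * (e3_E a c dk p m').snd + m' * (e3_E a c dk p m).snd := by
  rw [map_mul, TrivSqZeroExt.snd_mul, e3_fst, e3_fst, smul_eq_mul, MulOpposite.smul_eq_mul_unop,
    MulOpposite.unop_op]
  ring

theorem e3_sndalg (dk : Derivation K k k) (p : Fin n → K) (r : k) :
    (e3_E a c dk p (algebraMap k (LL n a c k) r)).snd = algebraMap k (LL n a c k) (dk r) := by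
  rw [e3_Ealg]
  show (TrivSqZeroExt.inl (algebraMap k (LL n a c k) r) +
    TrivSqZeroExt.inr (algebraMap k (LL n a c k) (dk r))).snd = _
  simp only [TrivSqZeroExt.fst_add, TrivSqZeroExt.fst_inl, TrivSqZeroExt.fst_inr, TrivSqZeroExt.fst_mul, TrivSqZeroExt.fst_one, TrivSqZeroExt.fst_zero, TrivSqZeroExt.snd_add, TrivSqZeroExt.snd_inl, TrivSqZeroExt.snd_inr, TrivSqZeroExt.snd_mul, TrivSqZeroExt.snd_one, TrivSqZeroExt.snd_zero, add_zero, zero_add, smul_eq_mul, MulOpposite.smul_eq_mul_unop, MulOpposite.unop_op]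

/-- The derivation exists.

Proof. A ring homomorphism `E : LL n a c k → DualNumber (LL n a c k)` (`TrivSqZeroExt`) by `llift` with
`φ r = inl (algebraMap r) + inr (algebraMap (dk r))` (a ring homomorphism as `dk` is a derivation) and
`x ↦ x + ε 2 p x yt`, `xb ↦ xb - ε 2 p xb yt`, `yt ↦ yt + ε p (x - xb)`, `w ↦ w - ε p x` (the two relations: `x xb`: the `ε`-part is
`2 p x yt xb - 2 p x xb yt = 0`; note that `dk (algebraMap K k c) = 0`; `yt ^ 2`: the `ε`-part is `2 yt p (x - xb)`, equal to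
`2 p x yt - 2 p xb yt`). `fst (E m) = m` (two ring homomorphisms which agree on the generators), `D m := snd (E m)`: the Leibniz rule is the
product in the dual numbers, `K`-linear because `dk` kills the image of `K`. -/
theorem e3_exists (dk : Derivation K k k) (p : Fin n → K) : ∃ D : Derivation K (LL n a c k) (LL n a c k),
    (∀ r : k, D (algebraMap k (LL n a c k) r) = algebraMap k (LL n a c k) (dk r)) ∧
    ∀ j, D (gx a c k j) = 2 * algebraMap K (LL n a c k) (p j) * gy a c k j ∧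
      D (gb a c k j) = -(2 * algebraMap K (LL n a c k) (p j) * gb a c k j * gt a c k j) ∧
      D (gt a c k j) = algebraMap K (LL n a c k) (p j) * (gx a c k j - gb a c k j) ∧
      D (gw a c k j) = -(algebraMap K (LL n a c k) (p j) * gx a c k j) := by
  have hsm : ∀ (r : K) (m : LL n a c k), r • m = algebraMap K (LL n a c k) r * m := fun r m =>
    Algebra.smul_def r m
  have hlin : ∀ (r : K) (m : LL n a c k), (e3_E a c dk p (r • m)).snd = r • (e3_E a c dk p m).snd := by
    intro r m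
    rw [hsm, hsm, e3_snd, IsScalarTower.algebraMap_apply K k (LL n a c k), e3_sndalg,
      dk.map_algebraMap, map_zero, mul_zero, add_zero]
  let D0 : LL n a c k →ₗ[K] LL n a c k :=
    { toFun := fun m => (e3_E a c dk p m).snd
      map_add' := fun x y => by rw [RingHom.map_add (e3_E a c dk p) x y, TrivSqZeroExt.snd_add]
      map_smul' := fun r m => hlin r m }
  let D : Derivation K (LL n a c k) (LL n a c k) := Derivation.mk' D0 (fun x y => e3_snd a c dk p x y)
  refine ⟨D, fun r => e3_sndalg a c dk p r, fun j => ⟨?_, ?_, ?_, ?_⟩⟩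
  · show (e3_E a c dk p (Ideal.Quotient.mk _ (X (j, 0)))).snd = _
    rw [e3_Emk]
    simp only [e3_f, TrivSqZeroExt.fst_add, TrivSqZeroExt.fst_inl, TrivSqZeroExt.fst_inr, TrivSqZeroExt.fst_mul, TrivSqZeroExt.fst_one, TrivSqZeroExt.fst_zero, TrivSqZeroExt.snd_add, TrivSqZeroExt.snd_inl, TrivSqZeroExt.snd_inr, TrivSqZeroExt.snd_mul, TrivSqZeroExt.snd_one, TrivSqZeroExt.snd_zero, add_zero, zero_add, smul_eq_mul, MulOpposite.smul_eq_mul_unop, MulOpposite.unop_op]
  · show (e3_E a c dk p (Ideal.Quotient.mk _ (X (j, 1)))).snd = _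
    rw [e3_Emk]
    simp only [e3_f, TrivSqZeroExt.fst_add, TrivSqZeroExt.fst_inl, TrivSqZeroExt.fst_inr, TrivSqZeroExt.fst_mul, TrivSqZeroExt.fst_one, TrivSqZeroExt.fst_zero, TrivSqZeroExt.snd_add, TrivSqZeroExt.snd_inl, TrivSqZeroExt.snd_inr, TrivSqZeroExt.snd_mul, TrivSqZeroExt.snd_one, TrivSqZeroExt.snd_zero, add_zero, zero_add, smul_eq_mul, MulOpposite.smul_eq_mul_unop, MulOpposite.unop_op]
  · show (e3_E a c dk p (Ideal.Quotient.mk _ (X (j, 2)))).snd = _
    rw [e3_Emk]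
    simp only [e3_f, TrivSqZeroExt.fst_add, TrivSqZeroExt.fst_inl, TrivSqZeroExt.fst_inr, TrivSqZeroExt.fst_mul, TrivSqZeroExt.fst_one, TrivSqZeroExt.fst_zero, TrivSqZeroExt.snd_add, TrivSqZeroExt.snd_inl, TrivSqZeroExt.snd_inr, TrivSqZeroExt.snd_mul, TrivSqZeroExt.snd_one, TrivSqZeroExt.snd_zero, add_zero, zero_add, smul_eq_mul, MulOpposite.smul_eq_mul_unop, MulOpposite.unop_op]
  · show (e3_E a c dk p (Ideal.Quotient.mk _ (X (j, 3)))).snd = _
    rw [e3_Emk]
    simp only [e3_f, TrivSqZeroExt.fst_add, TrivSqZeroExt.fst_inl, TrivSqZeroExt.fst_inr, TrivSqZeroExt.fst_mul, TrivSqZeroExt.fst_one, TrivSqZeroExt.fst_zero, TrivSqZeroExt.snd_add, TrivSqZeroExt.snd_inl, TrivSqZeroExt.snd_inr, TrivSqZeroExt.snd_mul, TrivSqZeroExt.snd_one, TrivSqZeroExt.snd_zero, add_zero, zero_add, smul_eq_mul, MulOpposite.smul_eq_mul_unop, MulOpposite.unop_op]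

/-- The derivation. -/
noncomputable def der (dk : Derivation K k k) (p : Fin n → K) : Derivation K (LL n a c k) (LL n a c k) :=
  (e3_exists a c dk p).choose

theorem der_alg (dk : Derivation K k k) (p : Fin n → K) (r : k) :
    der a c dk p (algebraMap k (LL n a c k) r) = algebraMap k (LL n a c k) (dk r) :=
  (e3_exists a c dk p).choose_spec.1 r

theorem der_x (dk : Derivation K k k) (p : Fin n → K) (j : Fin n) :
    der a c dk p (gx a c k j) = 2 * algebraMap K (LL n a c k) (p j) * gy a c k j :=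
  ((e3_exists a c dk p).choose_spec.2 j).1

theorem der_b (dk : Derivation K k k) (p : Fin n → K) (j : Fin n) :
    der a c dk p (gb a c k j) = -(2 * algebraMap K (LL n a c k) (p j) * gb a c k j * gt a c k j) :=
  ((e3_exists a c dk p).choose_spec.2 j).2.1

theorem der_t (dk : Derivation K k k) (p : Fin n → K) (j : Fin n) :
    der a c dk p (gt a c k j) = algebraMap K (LL n a c k) (p j) * (gx a c k j - gb a c k j) :=
  ((e3_exists a c dk p).choose_spec.2 j).2.2.1

theorem der_w (dk : Derivation K k k) (p : Fin n → K) (j : Fin n) :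
    der a c dk p (gw a c k j) = -(algebraMap K (LL n a c k) (p j) * gx a c k j) :=
  ((e3_exists a c dk p).choose_spec.2 j).2.2.2

theorem der_y (dk : Derivation K k k) (p : Fin n → K) (j : Fin n) :
    der a c dk p (gy a c k j) = algebraMap K (LL n a c k) (p j) * (3 * gx a c k j ^ 2
      + 2 * algebraMap K (LL n a c k) a * gx a c k j + algebraMap K (LL n a c k) c) := by
  unfold gy
  rw [Derivation.leibniz, der_t, der_x, smul_eq_mul, smul_eq_mul]
  unfold gy
  linear_combination (2 * algebraMap K (LL n a c k) (p j) * gx a c k j) * rel_a a c k j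
    + (algebraMap K (LL n a c k) (p j)) * rel_c a c k j

end H47E
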