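import Pool.Agent.Lib.H47E.E3
import Pool.Agent.Lib.H47E.E2a

/-!
# H47E, chunk E3b: the derivation commutes with `tau` and base change
-/

set_option autoImplicit false

namespace H47E

open MvPolynomial

variable {n : ℕ} {K : Type} [Field K] (a c : K) {k : Type} [CommRing k] [Algebra K k]

/-- Induction principle for `LL n a c k`. -/
theorem e3b_ind {P : LL n a c k → Prop} (hC : ∀ r : k, P (algebraMap k (LL n a c k) r)) (hadd : ∀ x y, P x → P y → P (x + y))
    (hX : ∀ (x : LL n a c k) (i : Fin n × Fin 4), P x → P (x * Ideal.Quotient.mk (relI n a c k) (X i))) (m : LL n a c k) : P m := by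
  obtain ⟨q, rfl⟩ := Ideal.Quotient.mk_surjective m
  induction q using MvPolynomial.induction_on with
  | C r => exact hC r
  | add x y hx hy =>
    rw [map_add]
    exact hadd _ _ hx hy
  | mul_X x i hx =>
    rw [map_mul]
    exact hX _ i hx

theorem e3b_tauK (S : Finset (Fin n)) (x : K) : tau a c k S (algebraMap K (LL n a c k) x) = algebraMap K (LL n a c k) x := by
  rw [IsScalarTower.algebraMap_apply K k (LL n a c k), e2a_alg]

theorem e3b_two (S : Finset (Fin n)) : tau a c k S (2 : LL n a c k) = 2 := map_ofNat _ 2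

/-- The generators. -/
theorem e3b_gen (dk : Derivation K k k) (p : Fin n → K) (S : Finset (Fin n)) (i : Fin n × Fin 4) :
    der a c dk p (tau a c k S (Ideal.Quotient.mk (relI n a c k) (X i))) = tau a c k S (der a c dk p (Ideal.Quotient.mk (relI n a c k) (X i))) := by
  obtain ⟨j, e⟩ := i
  by_cases hj : j ∈ S
  · obtain ⟨h1, h2, h3, h4⟩ := (e2a_gen a c k S j).1 hj
    fin_cases e
    · change der a c dk p (tau a c k S (gx a c k j)) = tau a c k S (der a c dk p (gx a c k j))
      rw [h1, der_b, der_x, map_mul, map_mul, e3b_two, e3b_tauK]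
      unfold gy
      rw [map_mul, h1, h3]
      ring
    · change der a c dk p (tau a c k S (gb a c k j)) = tau a c k S (der a c dk p (gb a c k j))
      rw [h2, der_b, der_x, map_neg, map_mul, map_mul, map_mul, e3b_two, e3b_tauK, h2, h3]
      unfold gy
      ring
    · change der a c dk p (tau a c k S (gt a c k j)) = tau a c k S (der a c dk p (gt a c k j))
      rw [h3, map_neg, der_t, map_mul, map_sub, e3b_tauK, h1, h2]
      ring
    · change der a c dk p (tau a c k S (gw a c k j)) = tau a c k S (der a c dk p (gw a c k j))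
      rw [h4, map_add, der_w, der_t, map_neg, map_mul, e3b_tauK, h1]
      ring
  · obtain ⟨h1, h2, h3, h4⟩ := (e2a_gen a c k S j).2 hj
    fin_cases e
    · change der a c dk p (tau a c k S (gx a c k j)) = tau a c k S (der a c dk p (gx a c k j))
      rw [h1, der_x, map_mul, map_mul, e3b_two, e3b_tauK]
      unfold gy
      rw [map_mul, h1, h3]
    · change der a c dk p (tau a c k S (gb a c k j)) = tau a c k S (der a c dk p (gb a c k j))
      rw [h2, der_b, map_neg, map_mul, map_mul, map_mul, e3b_two, e3b_tauK, h2, h3]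
    · change der a c dk p (tau a c k S (gt a c k j)) = tau a c k S (der a c dk p (gt a c k j))
      rw [h3, der_t, map_mul, map_sub, e3b_tauK, h1, h2]
    · change der a c dk p (tau a c k S (gw a c k j)) = tau a c k S (der a c dk p (gw a c k j))
      rw [h4, der_w, map_neg, map_mul, e3b_tauK, h1]

/-- `tau` commutes with the derivation: both `m ↦ D (tau m)` and `m ↦ tau (D m)` satisfy the Leibniz rule over `tau`, so it is enough to
check the generators (induction with `Ideal.Quotient.mk_surjective`, `MvPolynomial.induction_on`). On the generators in `S`: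
`D (xb) = - 2 p xb yt = tau (2 p x yt)`, `D (-yt) = - p (x - xb) = tau (p (x - xb))`, `D (w + yt) = - p x + p (x - xb) = - p xb`. -/
theorem e3b_tau (dk : Derivation K k k) (p : Fin n → K) (S : Finset (Fin n)) (m : LL n a c k) :
    der a c dk p (tau a c k S m) = tau a c k S (der a c dk p m) := by
  induction m using e3b_ind with
  | hC r => rw [e2a_alg, der_alg, e2a_alg]
  | hadd x y hx hy => rw [map_add, map_add, map_add, map_add, hx, hy]
  | hX x i hx =>
    rw [map_mul, Derivation.leibniz, Derivation.leibniz, map_add, smul_eq_mul, smul_eq_mul, smul_eq_mul, smul_eq_mul, map_mul, map_mul, hx, e3b_gen]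

theorem e3b_bcX {k' : Type} [CommRing k'] [Algebra K k'] (φ : k →ₐ[K] k') (i : Fin n × Fin 4) :
    bc a c k φ (Ideal.Quotient.mk (relI n a c k) (X i) : LL n a c k) = Ideal.Quotient.mk (relI n a c k') (X i) := by
  unfold bc llift
  rw [Ideal.Quotient.lift_mk, eval₂Hom_X']

theorem e3b_bcC {k' : Type} [CommRing k'] [Algebra K k'] (φ : k →ₐ[K] k') (r : k) :
    bc a c k φ (algebraMap k (LL n a c k) r) = algebraMap k' (LL n a c k') (φ r) := by
  change bc a c k φ (Ideal.Quotient.mk (relI n a c k) (C r)) = _
  unfold bc llift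
  rw [Ideal.Quotient.lift_mk, eval₂Hom_C]
  rfl

theorem e3b_bcK {k' : Type} [CommRing k'] [Algebra K k'] (φ : k →ₐ[K] k') (x : K) :
    bc a c k φ (algebraMap K (LL n a c k) x) = algebraMap K (LL n a c k') x := by
  rw [IsScalarTower.algebraMap_apply K k (LL n a c k), e3b_bcC, φ.commutes, ← IsScalarTower.algebraMap_apply]

/-- Base change commutes with the derivation. -/
theorem e3b_bc {k' : Type} [CommRing k'] [Algebra K k'] (dk : Derivation K k k) (dk' : Derivation K k' k') (φ : k →ₐ[K] k')
    (h : ∀ r, dk' (φ r) = φ (dk r)) (p : Fin n → K) (m : LL n a c k) :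
    der a c dk' p (bc a c k φ m) = bc a c k φ (der a c dk p m) := by
  induction m using e3b_ind with
  | hC r => rw [e3b_bcC, der_alg, der_alg, e3b_bcC, h]
  | hadd x y hx hy => rw [map_add, map_add, map_add, map_add, hx, hy]
  | hX x i hx =>
    have hi : der a c dk' p (bc a c k φ (Ideal.Quotient.mk (relI n a c k) (X i))) = bc a c k φ (der a c dk p (Ideal.Quotient.mk (relI n a c k) (X i))) := by
      have h2 : bc a c k φ (2 : LL n a c k) = 2 := map_ofNat _ 2
      obtain ⟨j, e⟩ := i
      have g0 : bc a c k φ (gx a c k j) = gx a c k' j := e3b_bcX a c φ (j, 0)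
      have g1 : bc a c k φ (gb a c k j) = gb a c k' j := e3b_bcX a c φ (j, 1)
      have g2 : bc a c k φ (gt a c k j) = gt a c k' j := e3b_bcX a c φ (j, 2)
      have g3 : bc a c k φ (gw a c k j) = gw a c k' j := e3b_bcX a c φ (j, 3)
      fin_cases e
      · change der a c dk' p (bc a c k φ (gx a c k j)) = bc a c k φ (der a c dk p (gx a c k j))
        rw [g0, der_x, der_x, map_mul, map_mul, h2, e3b_bcK]
        unfold gy
        rw [map_mul, g0, g2]
      · change der a c dk' p (bc a c k φ (gb a c k j)) = bc a c k φ (der a c dk p (gb a c k j))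
        rw [g1, der_b, der_b, map_neg, map_mul, map_mul, map_mul, h2, e3b_bcK, g1, g2]
      · change der a c dk' p (bc a c k φ (gt a c k j)) = bc a c k φ (der a c dk p (gt a c k j))
        rw [g2, der_t, der_t, map_mul, map_sub, e3b_bcK, g0, g1]
      · change der a c dk' p (bc a c k φ (gw a c k j)) = bc a c k φ (der a c dk p (gw a c k j))
        rw [g3, der_w, der_w, map_neg, map_mul, e3b_bcK, g0]
    rw [map_mul, Derivation.leibniz, Derivation.leibniz, map_add, smul_eq_mul, smul_eq_mul, smul_eq_mul, smul_eq_mul, map_mul, map_mul, hx, hi]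

end H47E
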