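import Pool.Agent.Lib.H47E.E3
import Pool.Agent.Lib.H47E.E2d

/-!
# H47E, chunk E3c: the derivation, type A and degrees
-/

set_option autoImplicit false

namespace H47E

open MvPolynomial

variable {n : ℕ} {K : Type} [Field K] (a c : K) {k : Type} [CommRing k] [Algebra K k]

theorem e3c_leib {M ι : Type} [CommRing M] [Algebra K M] [DecidableEq ι] (D : Derivation K M M) (f : ι → M) (s : Finset ι) :
    D (∏ j ∈ s, f j) = ∑ j ∈ s, ∏ l ∈ s, Function.update f j (D (f j)) l := by
  refine Finset.induction_on s ?_ ?_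
  · rw [Finset.prod_empty, Finset.sum_empty]
    exact Derivation.map_one_eq_zero D
  · intro b s hb ih
    rw [Finset.prod_insert hb, Finset.sum_insert hb, Finset.prod_insert hb, Derivation.leibniz, ih, Function.update_self,
      smul_eq_mul, smul_eq_mul, Finset.mul_sum, add_comm]
    have h1 : ∏ l ∈ s, Function.update f b (D (f b)) l = ∏ l ∈ s, f l :=
      Finset.prod_congr rfl fun l hl => by
        rw [Function.update_of_ne]
        rintro rfl
        exact hb hl
    have h2 : ∑ j ∈ s, ∏ l ∈ insert b s, Function.update f j (D (f j)) l =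
        ∑ j ∈ s, f b * ∏ l ∈ s, Function.update f j (D (f j)) l :=
      Finset.sum_congr rfl fun j hj => by
        rw [Finset.prod_insert hb, Function.update_of_ne]
        rintro rfl
        exact hb hj
    rw [h1, h2, mul_comm]

theorem e3c_dsm (dk : Derivation K k k) (p : Fin n → K) (r : k) (m : LL n a c k) :
    der a c dk p (r • m) = dk r • m + r • der a c dk p m := by
  have e : ∀ (r : k) (m : LL n a c k), r • m = algebraMap k (LL n a c k) r * m := fun r m => Algebra.smul_def r m
  rw [e, e, e, Derivation.leibniz, der_alg, smul_eq_mul, smul_eq_mul, add_comm, mul_comm m]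

/-- The monomials in one direction which may occur in the derivative. -/
def e3c_P (i : Ix) : Set Ix := {i' | i'.2.2 ≤ i.2.2 ∧ (tA i → tA i')}

theorem e3c_sc {S : Submodule (⊤ : Subring K) (LL n a c k)} (r : K) {m : LL n a c k} (hm : m ∈ S) :
    algebraMap K (LL n a c k) r * m ∈ S := by
  have h := S.smul_mem (⟨r, Subring.mem_top r⟩ : (⊤ : Subring K)) hm
  have h2 : (⟨r, Subring.mem_top r⟩ : (⊤ : Subring K)) • m = algebraMap K (LL n a c k) r * m := Algebra.smul_def r m
  rwa [h2] at h

theorem e3c_nat {S : Submodule (⊤ : Subring K) (LL n a c k)} (r : ℕ) {m : LL n a c k} (hm : m ∈ S) :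
    (r : LL n a c k) * m ∈ S := by
  have h := e3c_sc a c (r : K) hm
  rwa [map_natCast] at h

theorem e3c_int {S : Submodule (⊤ : Subring K) (LL n a c k)} (r : ℤ) {m : LL n a c k} (hm : m ∈ S) :
    (r : LL n a c k) * m ∈ S := by
  have h := e3c_sc a c (r : K) hm
  rwa [map_intCast] at h

/-- Powers of `x` or `xb`. -/
noncomputable def e3c_x (j : Fin n) (m : ℤ) : LL n a c k := if 0 ≤ m then gx a c k j ^ m.toNat else gb a c k j ^ (-m).toNat

theorem e3c_m1 (j : Fin n) (i : Ix) : mon1 a c k j i = e3c_x a c j i.1 * gt a c k j ^ (i.2.1 : ℕ) * gw a c k j ^ i.2.2 := rfl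

theorem e3c_dx (dk : Derivation K k k) (p : Fin n → K) (j : Fin n) (m : ℤ) :
    der a c dk p (e3c_x a c j m) = ((2 * m : ℤ) : LL n a c k) * (algebraMap K (LL n a c k) (p j) * (e3c_x a c j m * gt a c k j)) := by
  unfold e3c_x
  split_ifs with h
  · obtain ⟨q, rfl⟩ := Int.eq_ofNat_of_zero_le h
    rw [Int.toNat_natCast, Derivation.leibniz_pow, der_x, nsmul_eq_mul, smul_eq_mul]
    unfold gy
    rcases q with _ | q
    · simp
    · rw [Nat.add_sub_cancel, pow_succ]
      push_cast
      ring
  · obtain ⟨q, hq⟩ := Int.eq_ofNat_of_zero_le (show 0 ≤ -m by omega)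
    have hm : m = -(q : ℤ) := by omega
    subst hm
    rw [neg_neg, Int.toNat_natCast, Derivation.leibniz_pow, der_b, nsmul_eq_mul, smul_eq_mul]
    rcases q with _ | q
    · simp
    · rw [Nat.add_sub_cancel, pow_succ]
      push_cast
      ring

/-- The derivative in one direction. -/
theorem e3c_one (dk : Derivation K k k) (p : Fin n → K) (j : Fin n) (i : Ix) :
    der a c dk p (mon1 a c k j i) ∈ Submodule.span (⊤ : Subring K) (mon1 a c k j '' e3c_P i) := by
  obtain ⟨m, e, κ⟩ := i
  set S := Submodule.span (⊤ : Subring K) (mon1 a c k j '' e3c_P (m, e, κ)) with hS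
  have hmem : ∀ i' : Ix, i' ∈ e3c_P (m, e, κ) → mon1 a c k j i' ∈ S := fun i' hi' => Submodule.subset_span ⟨i', hi', rfl⟩
  rw [e3c_m1, Derivation.leibniz, Derivation.leibniz, Derivation.leibniz_pow, Derivation.leibniz_pow, e3c_dx, der_t, der_w]
  simp only [smul_eq_mul, nsmul_eq_mul]
  have hw : gw a c k j ^ κ * 0 = 0 := mul_zero _
  -- the third term
  have h3 : e3c_x a c j m * gt a c k j ^ (e : ℕ) * ((κ : LL n a c k) * (gw a c k j ^ (κ - 1) *
      -(algebraMap K (LL n a c k) (p j) * gx a c k j))) ∈ S := by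
    have h : mon1 a c k j (m, e, κ - 1) * mon1 a c k j (1, 0, 0) ∈ S := by
      refine Submodule.span_mono (Set.image_mono ?_) (e1f_mul1 (R := ⊤) a c k (Subring.mem_top a) (Subring.mem_top c) j
        (m, e, κ - 1) (1, 0, 0))
      rintro i' ⟨-, h1, h2⟩
      refine ⟨?_, fun h4 => h2 h4 ?_⟩
      · have : (κ - 1 : ℕ) + 0 ≤ κ := by omega
        exact h1.le.trans this
      · show (((0 : Fin 2) : ℕ) : ℤ) ≤ 1
        simp
    have h' := e3c_sc a c (-(p j)) (e3c_nat a c κ h)
    rw [map_neg] at h'
    have e1 : mon1 a c k j (1, 0, 0) = gx a c k j := by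
      unfold mon1
      simp
    rw [e1, e3c_m1] at h'
    refine (congrArg (· ∈ S) ?_).mp h'
    ring
  rcases Nat.lt_succ_iff_lt_or_eq.1 e.2 with he | he
  · have he0 : e = 0 := Fin.ext (by simpa using he)
    subst he0
    have h1 : ((2 * m : ℤ) : LL n a c k) * (algebraMap K (LL n a c k) (p j) * mon1 a c k j (m, 1, κ)) ∈ S := by
      by_cases hm : m = 0
      · subst hm
        simp
      · refine e3c_int a c _ (e3c_sc a c _ (hmem _ ⟨le_rfl, fun h => ?_⟩))
        have h' : (((0 : Fin 2) : ℕ) : ℤ) ≤ m := h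
        show (((1 : Fin 2) : ℕ) : ℤ) ≤ m
        have : (0 : ℤ) ≤ m := by simpa using h'
        have h5 : (((1 : Fin 2) : ℕ) : ℤ) = 1 := by simp
        omega
    rw [e3c_m1] at h1
    refine (congrArg (· ∈ S) ?_).mp (S.add_mem h3 h1)
    simp only [Fin.val_zero, Fin.val_one, pow_zero, pow_one, Nat.cast_zero]
    ring
  · have he1 : e = 1 := Fin.ext (by simpa using he)
    subst he1
    have hx : e3c_x a c j m * gx a c k j * gw a c k j ^ κ ∈ S := by
      have h : mon1 a c k j (m, 0, κ) * mon1 a c k j (1, 0, 0) ∈ S := by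
        refine Submodule.span_mono (Set.image_mono ?_) (e1f_mul1 (R := ⊤) a c k (Subring.mem_top a) (Subring.mem_top c) j
          (m, 0, κ) (1, 0, 0))
        rintro i' ⟨-, h1, h2⟩
        refine ⟨h1.le, fun h4 => h2 ?_ ?_⟩
        · have h4' : (((1 : Fin 2) : ℕ) : ℤ) ≤ m := h4
          show (((0 : Fin 2) : ℕ) : ℤ) ≤ m
          simp at h4' ⊢
          omega
        · show (((0 : Fin 2) : ℕ) : ℤ) ≤ 1
          simp
      have e1 : mon1 a c k j (1, 0, 0) = gx a c k j := by
        unfold mon1
        simp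
      rw [e1, e3c_m1] at h
      refine (congrArg (· ∈ S) ?_).mp h
      simp only [Fin.val_zero, pow_zero]
      ring
    have h0 : e3c_x a c j m * gw a c k j ^ κ ∈ S := by
      have h : mon1 a c k j (m, 0, κ) ∈ S := by
        refine hmem _ ⟨le_rfl, fun h => ?_⟩
        have h4' : (((1 : Fin 2) : ℕ) : ℤ) ≤ m := h
        show (((0 : Fin 2) : ℕ) : ℤ) ≤ m
        simp at h4' ⊢
        omega
      rw [e3c_m1] at h
      refine (congrArg (· ∈ S) ?_).mp h
      simp only [Fin.val_zero, pow_zero]
      ring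
    have hb : e3c_x a c j m * gb a c k j * gw a c k j ^ κ ∈ S := by
      by_cases hm : 1 ≤ m
      · have h : mon1 a c k j (m - 1, 0, κ) ∈ S := by
          refine hmem _ ⟨le_rfl, fun h => ?_⟩
          show (((0 : Fin 2) : ℕ) : ℤ) ≤ m - 1
          simp
          omega
        have h' := e3c_sc a c c h
        rw [e3c_m1] at h'
        refine (congrArg (· ∈ S) ?_).mp h'
        obtain ⟨q, hq⟩ := Int.eq_ofNat_of_zero_le (show 0 ≤ m - 1 by omega)
        have hm2 : m = ((q + 1 : ℕ) : ℤ) := by
          push_cast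
          omega
        subst hm2
        unfold e3c_x
        rw [if_pos (Int.natCast_nonneg _), if_pos (by push_cast; omega), hq, Int.toNat_natCast, Int.toNat_natCast, pow_succ,
          ← rel_c a c k j]
        simp only [Fin.val_zero, pow_zero]
        ring
      · have h : mon1 a c k j (m, 0, κ) * mon1 a c k j (-1, 0, 0) ∈ S := by
          refine Submodule.span_mono (Set.image_mono ?_) (e1f_mul1 (R := ⊤) a c k (Subring.mem_top a) (Subring.mem_top c) j
            (m, 0, κ) (-1, 0, 0))
          rintro i' ⟨-, h1, -⟩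
          refine ⟨h1.le, fun h4 => ?_⟩
          have h4' : (((1 : Fin 2) : ℕ) : ℤ) ≤ m := h4
          simp at h4'
          omega
        have e1 : mon1 a c k j (-1, 0, 0) = gb a c k j := by
          unfold mon1
          simp
        rw [e1, e3c_m1] at h
        refine (congrArg (· ∈ S) ?_).mp h
        simp only [Fin.val_zero, pow_zero]
        ring
    have h1 := e3c_sc a c (p j) (S.add_mem (S.add_mem (e3c_int a c (2 * m + 1) hx) (e3c_int a c (2 * m - 1) hb))
      (e3c_int a c (2 * m) (e3c_sc a c a h0)))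
    refine (congrArg (· ∈ S) ?_).mp (S.add_mem h3 h1)
    simp only [Fin.val_one, pow_one, Nat.cast_one, Nat.sub_self, pow_zero, one_mul]
    push_cast
    linear_combination (-2 * (m : LL n a c k) * algebraMap K (LL n a c k) (p j) * e3c_x a c j m * gw a c k j ^ κ) * rel_a a c k j

/-- The derivative of a monomial: a `K`-combination of monomials, type A is preserved, the `w`-degrees are not increased.

Proof. Leibniz: `D (∏ mon1 j (I j)) = ∑_j (∏_(l ≠ j) mon1 l (I l)) D (mon1 j (I j))`, and `D (mon1 j i)` is in the `K`-span of the `mon1 j i'`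
with `i'.2.2 ≤ i.2.2`, and `tA i → tA i'`: `x ^ m ↦ 2 m p x ^ m yt`, `xb ^ m ↦ - 2 m p xb ^ m yt`, `x ^ m yt ↦ 2 m p x ^ m yt ^ 2 + p x ^ m (x - xb)`
`= p ((2 m + 1) x ^ (m + 1) + 2 m a x ^ m + (2 m - 1) c x ^ (m - 1))` (for `m ≥ 1`), `w ^ κ ↦ - κ p x w ^ (κ - 1)`; then `e1d_prod`, `e1f_mul1` for
`R = ⊤`. Alternatively for the type A part: type A elements are the polynomials in `x_j`, `y_j`, `w_j`, and `D` maps these generators to type A
elements. -/
theorem e3c_mon (dk : Derivation K k k) (p : Fin n → K) (I : Fin n → Ix) :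
    der a c dk p (mon a c k I) ∈ Submodule.span (⊤ : Subring K) (mon a c k '' {J | (∀ j, (J j).2.2 ≤ (I j).2.2) ∧
      ((∀ j, tA (I j)) → ∀ j, tA (J j))}) := by
  classical
  unfold mon
  rw [e3c_leib]
  refine Submodule.sum_mem _ fun j _ => ?_
  have h := e1d_prod a c k (⊤ : Subring K) (fun l => e3c_P (I l))
    (Function.update (fun l => mon1 a c k l (I l)) j (der a c dk p (mon1 a c k j (I j)))) (fun l => by
      by_cases hl : l = j
      · subst hl
        rw [Function.update_self]
        exact e3c_one a c dk p l (I l)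
      · rw [Function.update_of_ne hl]
        exact Submodule.subset_span ⟨I l, ⟨le_rfl, id⟩, rfl⟩)
  refine Submodule.span_mono (Set.image_mono ?_) h
  intro J hJ
  exact ⟨fun l => (hJ l).1, fun h l => (hJ l).2 (h l)⟩

variable [IsDomain k] [CharZero k] [Fact (c ≠ 0)]

/-- The derivation preserves type A and does not increase the `w`-degree. -/
theorem e3c_TA (dk : Derivation K k k) (p : Fin n → K) {κ : ℕ} {m : LL n a c k} (hm : TA a c κ m) :
    TA a c κ (der a c dk p m) := by
  classical
  have hm1 := e1h_sum a c m ((LB a c k).repr m).support (fun I hI => Finsupp.mem_support_iff.2 hI)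
  rw [hm1, map_sum]
  refine e1i_TA_sum a c _ _ fun I hI => ?_
  have hI' : crd a c m I ≠ 0 := Finsupp.mem_support_iff.1 hI
  obtain ⟨h1, h2⟩ := hm I hI'
  rw [e3c_dsm]
  have h3 : TA a c κ (mon a c k I) := by
    intro J hJ
    have h := (e1h_span (R := (⊤ : Subring K)) a c {I} (m := mon a c k I) (Submodule.subset_span ⟨I, rfl, rfl⟩) J).2 hJ
    rw [Set.mem_singleton_iff] at h
    rw [h]
    exact ⟨h1, h2⟩
  have h4 : TA a c κ (der a c dk p (mon a c k I)) := by
    intro J hJ
    have h := (e1h_span a c _ (e3c_mon a c dk p I) J).2 hJ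
    refine ⟨le_trans ?_ h1, h.2 h2⟩
    exact Finset.sum_le_sum fun j _ => h.1 j
  have h0 : TA a c κ (0 : LL n a c k) := by
    have := e1i_TA_sum (κ := κ) a c (∅ : Finset ℕ) (fun _ => (0 : LL n a c k)) (fun i hi => absurd hi (Finset.notMem_empty i))
    rwa [Finset.sum_empty] at this
  have h5 := e1i_TA_add a c le_rfl (e1i_TA_add a c le_rfl h0 h3 (dk (crd a c m I))) h4 (crd a c m I)
  rwa [zero_add] at h5

/-- The derivation of `LL n a c K[z]`, `z' = 1`. -/
noncomputable abbrev derz (p : Fin n → K) : Derivation K (LL n a c (Polynomial K)) (LL n a c (Polynomial K)) :=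
  der a c Polynomial.derivative' p

/-- It does not increase the degrees of the coordinates. -/
theorem e3c_deg [CharZero K] (p : Fin n → K) {m : LL n a c (Polynomial K)} {d : ℕ} (hm : DG a c d m) : DG a c d (derz a c p m) := by
  classical
  have hm1 := e1h_sum a c m ((LB a c (Polynomial K)).repr m).support (fun I hI => Finsupp.mem_support_iff.2 hI)
  intro J
  have h1 : derz a c p m = ∑ I ∈ ((LB a c (Polynomial K)).repr m).support,
      (Polynomial.derivative (crd a c m I) • mon a c (Polynomial K) I + crd a c m I • derz a c p (mon a c (Polynomial K) I)) := by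
    conv_lhs => rw [hm1]
    rw [map_sum]
    refine Finset.sum_congr rfl fun I _ => ?_
    exact e3c_dsm a c Polynomial.derivative' p _ _
  have h2 : crd a c (derz a c p m) J = ∑ I ∈ ((LB a c (Polynomial K)).repr m).support,
      (Polynomial.derivative (crd a c m I) * crd a c (mon a c (Polynomial K) I) J
        + crd a c m I * crd a c (derz a c p (mon a c (Polynomial K) I)) J) := by
    rw [h1]
    unfold crd
    rw [map_sum, Finsupp.finsetSum_apply]
    refine Finset.sum_congr rfl fun I _ => ?_
    rw [map_add, map_smul, map_smul]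
    rfl
  rw [h2]
  refine Polynomial.natDegree_sum_le_of_forall_le _ _ fun I _ => ?_
  obtain ⟨r, -, hr⟩ := (e1h_span (R := (⊤ : Subring K)) a c {I} (m := mon a c (Polynomial K) I)
    (Submodule.subset_span ⟨I, rfl, rfl⟩) J).1
  obtain ⟨r', -, hr'⟩ := (e1h_span a c _ (e3c_mon a c Polynomial.derivative' p I) J).1
  rw [hr, hr']
  refine (Polynomial.natDegree_add_le _ _).trans (max_le ?_ ?_)
  · refine (Polynomial.natDegree_mul_le).trans ?_
    have h3 : (algebraMap K (Polynomial K) r).natDegree = 0 := Polynomial.natDegree_C r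
    rw [h3, add_zero]
    exact (Polynomial.natDegree_derivative_le _).trans ((Nat.sub_le _ _).trans (hm I))
  · refine (Polynomial.natDegree_mul_le).trans ?_
    have h3 : (algebraMap K (Polynomial K) r').natDegree = 0 := Polynomial.natDegree_C r'
    rw [h3, add_zero]
    exact hm I

end H47E
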