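import Mathlib

/-!
# H47E, chunk E4a: the polynomial identities behind the addition theorem (PROOF.md, section 5, E4)
-/

set_option autoImplicit false
set_option linter.unusedSimpArgs false

namespace H47E

section

variable {T : Type} [CommRing T]

/-- `N` -/
def pN (a c t v x : T) : T := (1 - a * t ^ 2 - c * t ^ 2 * v) - t ^ 2 * x

/-- `X1` -/
def pX (a c t v x y : T) : T :=
  x * (1 - a * t ^ 2 - c * t ^ 2 * v) * (t ^ 2 * x + (1 - a * t ^ 2 - c * t ^ 2 * v) + 2 * a * t ^ 2)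
    + c * t ^ 2 * (t ^ 2 * x + (1 - a * t ^ 2 - c * t ^ 2 * v)) + 2 * t * (1 - a * t ^ 2 - c * t ^ 2 * v) * y

/-- `Y1` -/
def pY (a c t v x y : T) : T :=
  y * ((1 - a * t ^ 2 - c * t ^ 2 * v) ^ 3 + 3 * t ^ 2 * (1 - a * t ^ 2 - c * t ^ 2 * v) ^ 2 * x
    + 2 * a * t ^ 2 * (1 - a * t ^ 2 - c * t ^ 2 * v) ^ 2 + 2 * a * t ^ 4 * (1 - a * t ^ 2 - c * t ^ 2 * v) * x
    + 3 * c * t ^ 4 * (1 - a * t ^ 2 - c * t ^ 2 * v) + c * t ^ 6 * x)
    + (1 - a * t ^ 2 - c * t ^ 2 * v) * (t ^ 3 * x ^ 3 + 3 * (1 - a * t ^ 2 - c * t ^ 2 * v) * t * x ^ 2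
      + 2 * a * t ^ 3 * x ^ 2 + 2 * a * (1 - a * t ^ 2 - c * t ^ 2 * v) * t * x + 3 * c * t ^ 3 * x
      + c * (1 - a * t ^ 2 - c * t ^ 2 * v) * t)

/-- `W1` -/
def pW (a c t v g x y w : T) : T := pN a c t v x * (w + g) - t * x - t ^ 2 * y

variable {p a c t v g x y w : T}

/-- Auxiliary (for derivations): the derivation `d / du`, `x, y, w` (and `a`, `c`) constant. -/
structure RelD (D : Derivation ℤ T T) (p a c t v g x y w : T) : Prop where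
  ha : D a = 0
  hc : D c = 0
  hx : D x = 0
  hy : D y = 0
  hw : D w = 0
  hv : v = t ^ 2 * (1 + a * v + c * v ^ 2)
  hcurve : y ^ 2 = x ^ 3 + a * x ^ 2 + c * x
  dt : D t = p * (1 - a * t ^ 2 - 2 * c * t ^ 2 * v)
  dv : D v = p * (2 * t * (1 + a * v + c * v ^ 2))
  dg : D g = -(p * (c * v))

variable {D : Derivation ℤ T T}

theorem pX_derivD (h : RelD D p a c t v g x y w) :
    pN a c t v x * D (pX a c t v x y) = 2 * D (pN a c t v x) * pX a c t v x y + 2 * p * pY a c t v x y := by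
  unfold pX pY pN
  simp only [map_add, map_sub, D.leibniz, D.leibniz_pow, D.map_one_eq_zero, h.ha, h.hc, h.hx, h.hy, h.dt, h.dv,
    smul_eq_mul, nsmul_eq_mul, mul_zero, zero_mul, add_zero, zero_add, sub_zero, zero_sub, Nat.cast_ofNat]
  have h2 : D (2 : T) = 0 := by simpa using D.map_natCast 2
  simp only [h2, mul_zero, zero_mul, add_zero, zero_add]
  linear_combination (p * (0)) * h.hcurve + (p * (4 * a ^ 2 * c * t ^ 5 * x + 4 * a * c ^ 2 * t ^ 5 * v * x + 2 * a * c ^ 2 * t ^ 5 + 2 * a * c * t ^ 5 * x ^ 2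
      - 2 * a * c * t ^ 4 * y - 4 * a * c * t ^ 3 * x + 2 * c ^ 3 * t ^ 5 * v + 6 * c ^ 2 * t ^ 5 * v * x ^ 2
      - 6 * c ^ 2 * t ^ 5 * x - 2 * c ^ 2 * t ^ 4 * v * y - 2 * c ^ 2 * t ^ 3 - 2 * c * t ^ 5 * x ^ 3 - 2 * c
      * t ^ 4 * x * y - 6 * c * t ^ 3 * x ^ 2 + 2 * c * t ^ 2 * y)) * h.hv

theorem pY_derivD (h : RelD D p a c t v g x y w) :
    pN a c t v x * D (pY a c t v x y) = 3 * D (pN a c t v x) * pY a c t v x y + p * (3 * pX a c t v x y ^ 2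
      + 2 * a * pX a c t v x y * pN a c t v x ^ 2 + c * pN a c t v x ^ 4) := by
  unfold pX pY pN
  have h2 : D (2 : T) = 0 := by simpa using D.map_natCast 2
  have h3 : D (3 : T) = 0 := by simpa using D.map_natCast 3
  simp only [map_add, map_sub, D.leibniz, D.leibniz_pow, D.map_one_eq_zero, h.ha, h.hc, h.hx, h.hy, h.dt, h.dv, h2, h3,
    smul_eq_mul, nsmul_eq_mul, mul_zero, zero_mul, add_zero, zero_add, sub_zero, zero_sub, Nat.cast_ofNat]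
  linear_combination (p * (-12 * a ^ 2 * t ^ 6 - 24 * a * c * t ^ 6 * v + 24 * a * t ^ 4 - 12 * c ^ 2 * t ^ 6 * v ^ 2 + 24 * c * t ^ 4 *
      v - 12 * t ^ 2)) * h.hcurve + (p * (-4 * a ^ 3 * c * t ^ 7 * y + 2 * a ^ 3 * c * t ^ 6 * x - 8 * a ^ 2 * c ^ 2 * t ^ 7 * v * y + 4 * a ^ 2 * c ^ 2
      * t ^ 6 * v * x + a ^ 2 * c ^ 2 * t ^ 6 + 4 * a ^ 2 * c * t ^ 7 * x * y + 15 * a ^ 2 * c * t ^ 6 * x ^ 2
      + 8 * a ^ 2 * c * t ^ 5 * y - 4 * a ^ 2 * c * t ^ 4 * x - 4 * a * c ^ 3 * t ^ 7 * v ^ 2 * y + 2 * a * c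
      ^ 3 * t ^ 6 * v ^ 2 * x + 2 * a * c ^ 3 * t ^ 6 * v - 8 * a * c ^ 2 * t ^ 7 * v * x * y + 12 * a * c ^ 2
      * t ^ 7 * y + 18 * a * c ^ 2 * t ^ 6 * v * x ^ 2 + 10 * a * c ^ 2 * t ^ 6 * x + 8 * a * c ^ 2 * t ^ 5 *
      v * y - 4 * a * c ^ 2 * t ^ 4 * v * x - 2 * a * c ^ 2 * t ^ 4 + 8 * a * c * t ^ 7 * x ^ 2 * y + 12 * a *
      c * t ^ 6 * x ^ 3 + 8 * a * c * t ^ 5 * x * y - 18 * a * c * t ^ 4 * x ^ 2 - 4 * a * c * t ^ 3 * y + 2 *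
      a * c * t ^ 2 * x + c ^ 4 * t ^ 6 * v ^ 2 - 12 * c ^ 3 * t ^ 7 * v ^ 2 * x * y + 12 * c ^ 3 * t ^ 7 * v
      * y + 3 * c ^ 3 * t ^ 6 * v ^ 2 * x ^ 2 + 10 * c ^ 3 * t ^ 6 * v * x - 2 * c ^ 3 * t ^ 4 * v + 12 * c ^
      2 * t ^ 7 * v * x ^ 2 * y - 12 * c ^ 2 * t ^ 7 * x * y + 14 * c ^ 2 * t ^ 6 * v * x ^ 3 - 3 * c ^ 2 * t
      ^ 6 * x ^ 2 + 24 * c ^ 2 * t ^ 5 * v * x * y - 12 * c ^ 2 * t ^ 5 * y - 6 * c ^ 2 * t ^ 4 * v * x ^ 2 -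
      10 * c ^ 2 * t ^ 4 * x + c ^ 2 * t ^ 2 - c * t ^ 6 * x ^ 4 - 12 * c * t ^ 5 * x ^ 2 * y - 14 * c * t ^ 4
      * x ^ 3 - 12 * c * t ^ 3 * x * y + 3 * c * t ^ 2 * x ^ 2)) * h.hv

theorem pW_derivD (h : RelD D p a c t v g x y w) :
    pN a c t v x * D (pW a c t v g x y w) = D (pN a c t v x) * pW a c t v g x y w - p * pX a c t v x y := by
  unfold pW pX pN
  have h2 : D (2 : T) = 0 := by simpa using D.map_natCast 2
  simp only [map_add, map_sub, D.leibniz, D.leibniz_pow, D.map_one_eq_zero, h.ha, h.hc, h.hx, h.hy, h.hw, h.dt, h.dv, h.dg, h2,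
    smul_eq_mul, nsmul_eq_mul, mul_zero, zero_mul, add_zero, zero_add, sub_zero, zero_sub, Nat.cast_ofNat]
  linear_combination (p * (0)) * h.hcurve + (p * (a * c * t ^ 2 + c ^ 2 * t ^ 2 * v + 2 * c * t ^ 3 * y + c * t ^ 2 * x - c)) * h.hv

end

section

variable {T : Type} [CommRing T] {p a c t v g x y w : T}

/-- The hypotheses: `D` is a derivation (like `d / du`), `x, y, w` (and `a`, `c`) constant. -/
structure Rel (D : T → T) (p a c t v g x y w : T) : Prop where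
  add : ∀ f f', D (f + f') = D f + D f'
  mul : ∀ f f', D (f * f') = f * D f' + f' * D f
  ha : D a = 0
  hc : D c = 0
  hx : D x = 0
  hy : D y = 0
  hw : D w = 0
  hv : v = t ^ 2 * (1 + a * v + c * v ^ 2)
  hcurve : y ^ 2 = x ^ 3 + a * x ^ 2 + c * x
  dt : D t = p * (1 - a * t ^ 2 - 2 * c * t ^ 2 * v)
  dv : D v = p * (2 * t * (1 + a * v + c * v ^ 2))
  dg : D g = -(p * (c * v))

variable {D : T → T}

theorem Rel.toD (h : Rel D p a c t v g x y w) : ∃ D' : Derivation ℤ T T, (∀ f, D' f = D f) ∧ RelD D' p a c t v g x y w := by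
  refine ⟨Derivation.mk' (AddMonoidHom.mk' D h.add).toIntLinearMap (fun f f' => h.mul f f'), fun f => rfl, ?_⟩
  exact ⟨h.ha, h.hc, h.hx, h.hy, h.hw, h.hv, h.hcurve, h.dt, h.dv, h.dg⟩

theorem pX_deriv (h : Rel D p a c t v g x y w) :
    pN a c t v x * D (pX a c t v x y) = 2 * D (pN a c t v x) * pX a c t v x y + 2 * p * pY a c t v x y := by
  obtain ⟨D', e, h'⟩ := h.toD
  rw [← e, ← e]; exact pX_derivD h'

theorem pY_deriv (h : Rel D p a c t v g x y w) :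
    pN a c t v x * D (pY a c t v x y) = 3 * D (pN a c t v x) * pY a c t v x y + p * (3 * pX a c t v x y ^ 2
      + 2 * a * pX a c t v x y * pN a c t v x ^ 2 + c * pN a c t v x ^ 4) := by
  obtain ⟨D', e, h'⟩ := h.toD
  rw [← e, ← e]; exact pY_derivD h'

theorem pW_deriv (h : Rel D p a c t v g x y w) :
    pN a c t v x * D (pW a c t v g x y w) = D (pN a c t v x) * pW a c t v g x y w - p * pX a c t v x y := by
  obtain ⟨D', e, h'⟩ := h.toD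
  rw [← e, ← e]; exact pW_derivD h'

end

end H47E
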