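import Mathlib

/-!
# H47E, chunk E4b: the exponential of a derivation; uniqueness for linear systems
-/

set_option autoImplicit false

namespace H47E

open PowerSeries

variable {R : Type} [CommRing R] {K : Type} [Field K] [CharZero K] [Algebra K R]

theorem e4b_cancel (K : Type) [Field K] [CharZero K] [Algebra K R] (x : R) (n : ℕ) (h : x * ((n : R) + 1) = 0) : x = 0 := by
  have hn : ((n : K) + 1) ≠ 0 := by exact_mod_cast Nat.succ_ne_zero n
  have h1 : ((n : K) + 1) • x = 0 := by
    rw [Algebra.smul_def, map_add, map_natCast, map_one, mul_comm]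
    exact h
  have h2 : ((n : K) + 1)⁻¹ • (((n : K) + 1) • x) = x := by
    rw [smul_smul, inv_mul_cancel₀ hn, one_smul]
  rw [← h2, h1, smul_zero]

/-- The series. -/
noncomputable def e4b_E (D : Derivation K R R) (m : R) : R⟦X⟧ := PowerSeries.mk fun i => (i.factorial : K)⁻¹ • (D^[i] m)

theorem e4b_E_coeff (D : Derivation K R R) (m : R) (i : ℕ) : coeff i (e4b_E D m) = (i.factorial : K)⁻¹ • (D^[i] m) :=
  coeff_mk _ _

theorem e4b_E_succ (D : Derivation K R R) (m : R) (i : ℕ) :
    coeff (i + 1) (e4b_E D m) * ((i : R) + 1) = coeff i (e4b_E D (D m)) := by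
  have hn : ((i : K) + 1) ≠ 0 := by exact_mod_cast Nat.succ_ne_zero i
  have hf : (i.factorial : K) ≠ 0 := by exact_mod_cast Nat.factorial_ne_zero i
  rw [e4b_E_coeff, e4b_E_coeff, Function.iterate_succ_apply]
  have h1 : ((i : R) + 1) = algebraMap K R ((i : K) + 1) := by
    rw [map_add, map_natCast, map_one]
  rw [h1, mul_comm, ← Algebra.smul_def, smul_smul, Nat.factorial_succ]
  congr 1
  push_cast
  field_simp

theorem e4b_E_zero (D : Derivation K R R) (m : R) : coeff 0 (e4b_E D m) = m := by
  rw [e4b_E_coeff, Nat.factorial_zero, Nat.cast_one, inv_one, one_smul]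
  rfl

theorem e4b_E_deriv (D : Derivation K R R) (m : R) : d⁄dX R (e4b_E D m) = e4b_E D (D m) := by
  ext i
  rw [coeff_derivative]
  exact e4b_E_succ D m i

theorem e4b_it_add (D : Derivation K R R) (i : ℕ) : ∀ a b : R, D^[i] (a + b) = D^[i] a + D^[i] b := by
  induction i with
  | zero => intro a b; rfl
  | succ i ih =>
    intro a b
    rw [Function.iterate_succ_apply, Function.iterate_succ_apply, Function.iterate_succ_apply, map_add, ih]

theorem e4b_E_add (D : Derivation K R R) (a b : R) : e4b_E D (a + b) = e4b_E D a + e4b_E D b := by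
  ext i
  rw [map_add, e4b_E_coeff, e4b_E_coeff, e4b_E_coeff, e4b_it_add, smul_add]

theorem e4b_E_mul (D : Derivation K R R) (i : ℕ) : ∀ a b : R, coeff i (e4b_E D (a * b)) = coeff i (e4b_E D a * e4b_E D b) := by
  induction i with
  | zero =>
    intro a b
    have h0 : coeff 0 (e4b_E D a * e4b_E D b) = coeff 0 (e4b_E D a) * coeff 0 (e4b_E D b) := by
      rw [coeff_zero_eq_constantCoeff_apply, coeff_zero_eq_constantCoeff_apply, coeff_zero_eq_constantCoeff_apply, map_mul]
    rw [h0, e4b_E_zero, e4b_E_zero, e4b_E_zero]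
  | succ i ih =>
    intro a b
    have h1 : coeff (i + 1) (e4b_E D (a * b)) * ((i : R) + 1) = coeff (i + 1) (e4b_E D a * e4b_E D b) * ((i : R) + 1) := by
      rw [e4b_E_succ, ← coeff_derivative, Derivation.leibniz, Derivation.leibniz, e4b_E_deriv, e4b_E_deriv, e4b_E_add,
        map_add, map_add, smul_eq_mul, smul_eq_mul, smul_eq_mul, smul_eq_mul, ih, ih]
    have h2 := e4b_cancel K (coeff (i + 1) (e4b_E D (a * b)) - coeff (i + 1) (e4b_E D a * e4b_E D b)) i
      (by rw [sub_mul, h1, sub_self])
    exact sub_eq_zero.1 h2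

theorem e4b_it_zero (D : Derivation K R R) (i : ℕ) : D^[i] 0 = 0 := by
  induction i with
  | zero => rfl
  | succ i ih => rw [Function.iterate_succ_apply, map_zero, ih]

theorem e4b_E_const (D : Derivation K R R) (m : R) (h : D m = 0) : e4b_E D m = C m := by
  ext i
  rw [e4b_E_coeff, coeff_C]
  cases i with
  | zero =>
    rw [if_pos rfl, Nat.factorial_zero, Nat.cast_one, inv_one, one_smul]
    rfl
  | succ i =>
    rw [if_neg (Nat.succ_ne_zero i), Function.iterate_succ_apply, h, e4b_it_zero, smul_zero]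

theorem e4b_mul_zero (f g : R⟦X⟧) (i : ℕ) (h : ∀ j, j ≤ i → coeff j g = 0) : coeff i (f * g) = 0 := by
  rw [coeff_mul]
  refine Finset.sum_eq_zero fun p hp => ?_
  have h1 := Finset.HasAntidiagonal.mem_antidiagonal.1 hp
  rw [h p.2 (by omega), mul_zero]

theorem e4b_lead (N u : R⟦X⟧) (hN : constantCoeff N = 1) (i : ℕ) (h : ∀ j, j ≤ i → coeff j u = 0) :
    coeff i (N * d⁄dX R u) = coeff (i + 1) u * ((i : R) + 1) := by
  rw [coeff_mul, Finset.sum_eq_single (0, i)]
  · show coeff 0 N * coeff i (d⁄dX R u) = _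
    rw [coeff_zero_eq_constantCoeff_apply, hN, one_mul, coeff_derivative]
  · intro p hp hne
    have h1 := Finset.HasAntidiagonal.mem_antidiagonal.1 hp
    have h2 : p.2 + 1 ≤ i := by
      by_contra hc
      apply hne
      have h3 : p.1 = 0 := by omega
      have h4 : p.2 = i := by omega
      exact Prod.ext h3 h4
    rw [coeff_derivative, h _ h2, zero_mul, mul_zero]
  · intro hc
    exact absurd (Finset.HasAntidiagonal.mem_antidiagonal.2 (zero_add i)) hc

/-- The exponential of a derivation is a ring homomorphism.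

Proof. `E m := PowerSeries.mk fun i => (i.factorial : K)⁻¹ • (D^[i] m)`. Multiplicativity: the general Leibniz rule
`D^[i] (m m') = ∑_(l + l' = i) binom(i, l) D^[l] m * D^[l'] m'` (induction, or `Derivation` lemmas), `coeff_mul`. -/
theorem e4b_exists (D : Derivation K R R) : ∃ E : R →+* R⟦X⟧, ∀ m i, coeff i (E m) = (i.factorial : K)⁻¹ • (D^[i] m) := by
  refine ⟨{ toFun := e4b_E D, map_one' := ?_, map_mul' := ?_, map_zero' := ?_, map_add' := e4b_E_add D }, fun m i => e4b_E_coeff D m i⟩
  · rw [e4b_E_const D 1 D.map_one_eq_zero, map_one]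
  · intro a b
    ext i
    exact e4b_E_mul D i a b
  · rw [e4b_E_const D 0 (map_zero D), map_zero]

/-- The exponential. -/
noncomputable def expD (D : Derivation K R R) : R →+* R⟦X⟧ := (e4b_exists D).choose

theorem expD_coeff (D : Derivation K R R) (m : R) (i : ℕ) : coeff i (expD D m) = (i.factorial : K)⁻¹ • (D^[i] m) :=
  (e4b_exists D).choose_spec m i

theorem expD_deriv (D : Derivation K R R) (m : R) : d⁄dX R (expD D m) = expD D (D m) := by
  have h : ∀ m, expD D m = e4b_E D m := fun m => by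
    ext i
    rw [expD_coeff, e4b_E_coeff]
  rw [h, h, e4b_E_deriv]

/-- Constants. -/
theorem expD_const (D : Derivation K R R) (m : R) (h : D m = 0) : expD D m = C m := by
  have h1 : expD D m = e4b_E D m := by
    ext i
    rw [expD_coeff, e4b_E_coeff]
  rw [h1, e4b_E_const D m h]

/-- Uniqueness: `N u₁' = α u₁ + β u₂`, `N u₂' = γ u₁ + δ u₂`, `N(0) = 1`, `u₁(0) = u₂(0) = 0` imply `u₁ = u₂ = 0`.

Proof. Strong induction: if the coefficients `< i + 1` of `u₁, u₂` vanish, the `i`-th coefficient of `N u₁'` is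
`(i + 1) [u ^ (i + 1)] u₁` and that of the right side is `0`; `i + 1` is invertible (`Algebra K R`, characteristic `0`). -/
theorem e4b_unique (N α β γ δ u₁ u₂ : R⟦X⟧) (hN : constantCoeff N = 1) (h1 : N * d⁄dX R u₁ = α * u₁ + β * u₂)
    (h2 : N * d⁄dX R u₂ = γ * u₁ + δ * u₂) (h01 : constantCoeff u₁ = 0) (h02 : constantCoeff u₂ = 0) (hK : Algebra K R) :
    u₁ = 0 ∧ u₂ = 0 := by
  have key : ∀ n, ∀ j, j ≤ n → coeff j u₁ = 0 ∧ coeff j u₂ = 0 := by
    intro n
    induction n with
    | zero =>
      intro j hj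
      have hj0 : j = 0 := Nat.le_zero.1 hj
      rw [hj0, coeff_zero_eq_constantCoeff_apply, coeff_zero_eq_constantCoeff_apply]
      exact ⟨h01, h02⟩
    | succ n ih =>
      intro j hj
      by_cases hjn : j ≤ n
      · exact ih j hjn
      · have hj1 : j = n + 1 := by omega
        have z1 : ∀ f : R⟦X⟧, coeff n (f * u₁) = 0 := fun f => e4b_mul_zero f u₁ n fun j hj => (ih j hj).1
        have z2 : ∀ f : R⟦X⟧, coeff n (f * u₂) = 0 := fun f => e4b_mul_zero f u₂ n fun j hj => (ih j hj).2
        have e1 := congrArg (coeff n) h1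
        have e2 := congrArg (coeff n) h2
        rw [e4b_lead N u₁ hN n fun j hj => (ih j hj).1, map_add, z1, z2, add_zero] at e1
        rw [e4b_lead N u₂ hN n fun j hj => (ih j hj).2, map_add, z1, z2, add_zero] at e2
        rw [hj1]
        exact ⟨e4b_cancel K _ n e1, e4b_cancel K _ n e2⟩
  constructor
  · ext j
    rw [(key j j le_rfl).1, map_zero]
  · ext j
    rw [(key j j le_rfl).2, map_zero]

end H47E
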