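import Pool.Agent.Lib.H47E.E3
import Pool.Agent.Lib.H47E.E4a
import Pool.Agent.Lib.H47E.E4b

/-!
# H47E, chunk E4: the addition theorem in `LL n a c k`
-/

set_option autoImplicit false

namespace H47E

open PowerSeries

variable {n : ℕ} {K : Type} [Field K] [CharZero K] {a c : K} (S : Ser K a c) (k : Type) [CommRing k] [Algebra K k] (p : Fin n → K)

/-- Series over `K` as series over `LL n a c k`. -/
noncomputable def kap : K⟦X⟧ →+* (LL n a c k)⟦X⟧ := PowerSeries.map (algebraMap K (LL n a c k))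

/-- `N_j` -/
noncomputable def Nj (j : Fin n) : (LL n a c k)⟦X⟧ :=
  pN (kap k (C a)) (kap k (C c)) (kap k (sc (p j) S.t)) (kap k (sc (p j) S.v)) (C (gx a c k j))

/-- `X1_j` -/
noncomputable def Xj (j : Fin n) : (LL n a c k)⟦X⟧ :=
  pX (kap k (C a)) (kap k (C c)) (kap k (sc (p j) S.t)) (kap k (sc (p j) S.v)) (C (gx a c k j)) (C (gy a c k j))

/-- `Y1_j` -/
noncomputable def Yj (j : Fin n) : (LL n a c k)⟦X⟧ :=
  pY (kap k (C a)) (kap k (C c)) (kap k (sc (p j) S.t)) (kap k (sc (p j) S.v)) (C (gx a c k j)) (C (gy a c k j))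

/-- `W1_j` -/
noncomputable def Wj (j : Fin n) : (LL n a c k)⟦X⟧ :=
  pW (kap k (C a)) (kap k (C c)) (kap k (sc (p j) S.t)) (kap k (sc (p j) S.v)) (kap k (sc (p j) S.g)) (C (gx a c k j))
    (C (gy a c k j)) (C (gw a c k j))

variable {k}

/-- The transport `f ↦ f (p u)` over `LL n a c k`. -/
noncomputable def e4_th (k : Type) [CommRing k] [Algebra K k] (q : K) : K⟦X⟧ →+* (LL n a c k)⟦X⟧ := (kap k).comp (PowerSeries.rescale q)

omit [CharZero K] in
theorem e4_th_eq (q : K) (f : K⟦X⟧) : kap k (sc q f) = (e4_th k q f : (LL n a c k)⟦X⟧) := by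
  have h : sc q f = PowerSeries.rescale q f := by
    ext i
    rw [coeff_rescale, sc, coeff_mk]
  rw [h]
  rfl

omit [CharZero K] in
theorem e4_th_C (q r : K) : (e4_th k q (C r) : (LL n a c k)⟦X⟧) = kap k (C r) := by
  have h : PowerSeries.rescale q (C r) = (C r : K⟦X⟧) := by
    ext i
    rw [coeff_rescale, coeff_C]
    split_ifs with hi
    · rw [hi, pow_zero, one_mul]
    · rw [mul_zero]
  unfold e4_th
  rw [RingHom.comp_apply, h]

omit [CharZero K] in
theorem e4_th_deriv (q : K) (f : K⟦X⟧) : d⁄dX (LL n a c k) (e4_th k q f) = kap k (C q) * e4_th k q (d⁄dX K f) := by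
  have h : kap k (C q) * (e4_th k q (d⁄dX K f) : (LL n a c k)⟦X⟧) = PowerSeries.map (algebraMap K (LL n a c k)) (C q * PowerSeries.rescale q (d⁄dX K f)) := by
    rw [map_mul]
    rfl
  rw [h]
  ext i
  change coeff i (d⁄dX (LL n a c k) (PowerSeries.map (algebraMap K (LL n a c k)) (PowerSeries.rescale q f))) = _
  rw [coeff_derivative, coeff_map, coeff_map, coeff_rescale, coeff_C_mul, coeff_rescale, coeff_derivative, pow_succ]
  simp only [map_mul, map_pow, map_add, map_natCast, map_one]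
  ring

omit [CharZero K] in
theorem e4_th_const (q : K) (f : K⟦X⟧) : constantCoeff (e4_th k q f : (LL n a c k)⟦X⟧) = algebraMap K (LL n a c k) (constantCoeff f) := by
  rw [← coeff_zero_eq_constantCoeff_apply, ← coeff_zero_eq_constantCoeff_apply]
  change coeff 0 (PowerSeries.map (algebraMap K (LL n a c k)) (PowerSeries.rescale q f)) = _
  rw [coeff_map, coeff_rescale, pow_zero, one_mul]

omit [CharZero K] in
theorem e4_v0 : constantCoeff S.v = 0 := by
  have h := congrArg constantCoeff S.hv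
  rw [map_mul, map_pow, S.t0] at h
  rw [h]
  ring

omit [CharZero K] in
theorem e4_dv : d⁄dX K S.v = 2 * S.t * (1 + C a * S.v + C c * S.v ^ 2) := by
  have h1 := congrArg (d⁄dX K) S.hv
  have h2 : d⁄dX K (S.t ^ 2 * (1 + C a * S.v + C c * S.v ^ 2)) = 2 * S.t * d⁄dX K S.t * (1 + C a * S.v + C c * S.v ^ 2)
      + S.t ^ 2 * (C a * d⁄dX K S.v + 2 * C c * S.v * d⁄dX K S.v) := by
    rw [Derivation.leibniz, Derivation.leibniz_pow, map_add, map_add, Derivation.leibniz, Derivation.leibniz, Derivation.leibniz_pow, Derivation.map_one_eq_zero, derivative_C, derivative_C]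
    simp only [smul_eq_mul, nsmul_eq_mul]
    push_cast
    ring
  rw [h2] at h1
  have h3 : d⁄dX K S.t * (d⁄dX K S.v - 2 * S.t * (1 + C a * S.v + C c * S.v ^ 2)) = 0 := by
    have h4 := S.ht
    linear_combination h1 + (d⁄dX K S.v) * h4
  have h5 : d⁄dX K S.t ≠ 0 := by
    intro h
    have h6 := congrArg constantCoeff S.ht
    rw [h] at h6
    simp [S.t0] at h6
  exact sub_eq_zero.1 ((mul_eq_zero.1 h3).resolve_left h5)

/-- The hypotheses of E4a hold for the derivation `d / du` of `(LL n a c k)⟦X⟧`.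

Proof. `S.hv, S.ht, S.hg` transported by `sc (p j)` (a ring homomorphism; `(f (p u))' = p f' (p u)`) and `kap`; `v' = 2 t (1 + a v + c v ^ 2)`:
differentiate `S.hv`: `v' (1 - a t ^ 2 - 2 c t ^ 2 v) = 2 t t' (1 + a v + c v ^ 2)` with `t' = 1 - a t ^ 2 - 2 c t ^ 2 v` of constant
coefficient `1`, so it can be cancelled (`K⟦X⟧` is a domain). The curve: `rel_y`. -/
theorem e4_rel (j : Fin n) : Rel (fun f => d⁄dX (LL n a c k) f) (kap k (C (p j))) (kap k (C a)) (kap k (C c))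
    (kap k (sc (p j) S.t)) (kap k (sc (p j) S.v)) (kap k (sc (p j) S.g)) (C (gx a c k j)) (C (gy a c k j)) (C (gw a c k j)) := by
  have key : ∀ f : K⟦X⟧, kap k (sc (p j) f) = (e4_th k (p j) f : (LL n a c k)⟦X⟧) := e4_th_eq (p j)
  have hD : ∀ r : K, d⁄dX (LL n a c k) (kap k (C r)) = 0 := by
    intro r
    change d⁄dX (LL n a c k) (PowerSeries.map (algebraMap K (LL n a c k)) (C r)) = 0
    rw [PowerSeries.map_C, derivative_C]
  refine ⟨fun f f' => map_add _ _ _, fun f f' => ?_, hD a, hD c, derivative_C, derivative_C, derivative_C, ?_, ?_, ?_, ?_, ?_⟩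
  · rw [Derivation.leibniz, smul_eq_mul, smul_eq_mul]
  · rw [key, key]
    have h := congrArg (e4_th (n := n) (a := a) (c := c) k (p j)) S.hv
    rw [map_mul, map_pow, map_add, map_add, map_one, map_mul, map_mul, map_pow, e4_th_C, e4_th_C] at h
    exact h
  · have h := congrArg (C : LL n a c k → (LL n a c k)⟦X⟧) (rel_y a c k j)
    rw [map_pow, map_add, map_add, map_pow, map_mul, map_mul, map_pow] at h
    have hk : ∀ r : K, (kap k (C r) : (LL n a c k)⟦X⟧) = C (algebraMap K (LL n a c k) r) := fun r => PowerSeries.map_C _ _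
    rw [hk, hk]
    exact h
  · simp only [key]
    rw [e4_th_deriv, S.ht, map_sub, map_sub, map_one, map_mul, map_mul, map_mul, map_mul, map_pow, map_ofNat, e4_th_C, e4_th_C]
  · simp only [key]
    rw [e4_th_deriv, e4_dv, map_mul, map_mul, map_add, map_add, map_one, map_mul, map_mul, map_pow, map_ofNat, e4_th_C, e4_th_C]
  · simp only [key]
    rw [e4_th_deriv, S.hg, map_neg, map_mul, e4_th_C]
    ring

/-- The constant coefficients. (`t(0) = v(0) = g(0) = 0`, `xi(0) = 1`.) -/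
theorem e4_const (j : Fin n) : constantCoeff (Nj S k p j) = 1 ∧ constantCoeff (Xj S k p j) = gx a c k j ∧
    constantCoeff (Yj S k p j) = gy a c k j ∧ constantCoeff (Wj S k p j) = gw a c k j := by
  have key : ∀ f : K⟦X⟧, kap k (sc (p j) f) = (e4_th k (p j) f : (LL n a c k)⟦X⟧) := e4_th_eq (p j)
  have ht : constantCoeff (e4_th k (p j) S.t : (LL n a c k)⟦X⟧) = 0 := by rw [e4_th_const, S.t0, map_zero]
  have hv : constantCoeff (e4_th k (p j) S.v : (LL n a c k)⟦X⟧) = 0 := by rw [e4_th_const, e4_v0, map_zero]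
  have hg : constantCoeff (e4_th k (p j) S.g : (LL n a c k)⟦X⟧) = 0 := by rw [e4_th_const, S.g0, map_zero]
  refine ⟨?_, ?_, ?_, ?_⟩
  · unfold Nj pN
    simp only [key, map_sub, map_mul, map_pow, map_one, ht, hv]
    ring
  · unfold Xj pX
    simp only [key, map_add, map_sub, map_mul, map_pow, map_one, map_ofNat, constantCoeff_C, ht, hv]
    ring
  · unfold Yj pY
    simp only [key, map_add, map_sub, map_mul, map_pow, map_one, map_ofNat, constantCoeff_C, ht, hv]
    ring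
  · unfold Wj pW pN
    simp only [key, map_add, map_sub, map_mul, map_pow, map_one, constantCoeff_C, ht, hv, hg]
    ring

/-- THE ADDITION THEOREM.

Proof. `A = Exp(x)`, `B = Exp(y)`, `W = Exp(w)`: by `expD_deriv`, `der_x`, `der_y`, `der_w`: `A' = 2 p B`, `B' = p (3 A ^ 2 + 2 a A + c)`, `W' = - p A`. Let
`u₁ = N ^ 2 A - X1`, `u₂ = N ^ 3 B - Y1`. With `pX_deriv`, `pY_deriv` (`e4_rel`):
`N u₁' = 2 N' u₁ + 2 p u₂`, `N u₂' = 3 N' u₂ + p (3 (N ^ 2 A + X1) + 2 a N ^ 2) u₁`, so `u₁ = u₂ = 0` by `e4b_unique`. Then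
`u₃ = N W - W1` satisfies `N u₃' = N' u₃` (using `pW_deriv` and `N ^ 2 A = X1`), so `u₃ = 0` (`e4b_unique` with `u₁ = u₂ = u₃`). -/
theorem e4_main (dk : Derivation K k k) (j : Fin n) :
    Nj S k p j ^ 2 * expD (der a c dk p) (gx a c k j) = Xj S k p j ∧
    Nj S k p j ^ 3 * expD (der a c dk p) (gy a c k j) = Yj S k p j ∧
    Nj S k p j * expD (der a c dk p) (gw a c k j) = Wj S k p j := by
  have hrel := e4_rel S (k := k) p j
  obtain ⟨hN0, hX0, hY0, hW0⟩ := e4_const S (k := k) p j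
  have hk : ∀ r : K, (kap k (C r) : (LL n a c k)⟦X⟧) = C (algebraMap K (LL n a c k) r) := fun r => PowerSeries.map_C _ _
  have hE : ∀ r : K, expD (der a c dk p) (algebraMap K (LL n a c k) r) = (kap k (C r) : (LL n a c k)⟦X⟧) := by
    intro r
    rw [hk, expD_const _ _ (Derivation.map_algebraMap _ _)]
  obtain ⟨A, hA⟩ : ∃ A, A = expD (der a c dk p) (gx a c k j) := ⟨_, rfl⟩
  obtain ⟨B, hB⟩ : ∃ B, B = expD (der a c dk p) (gy a c k j) := ⟨_, rfl⟩
  obtain ⟨W, hW⟩ : ∃ W, W = expD (der a c dk p) (gw a c k j) := ⟨_, rfl⟩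
  have dA : d⁄dX (LL n a c k) A = 2 * kap k (C (p j)) * B := by
    rw [hA, expD_deriv, der_x, map_mul, map_mul, map_ofNat, hE, ← hB]
  have dB : d⁄dX (LL n a c k) B = kap k (C (p j)) * (3 * A ^ 2 + 2 * kap k (C a) * A + kap k (C c)) := by
    rw [hB, expD_deriv, der_y, map_mul, map_add, map_add, map_mul, map_mul, map_mul, map_pow, map_ofNat, map_ofNat, hE, hE, hE, ← hA]
  have dW : d⁄dX (LL n a c k) W = -(kap k (C (p j)) * A) := by
    rw [hW, expD_deriv, der_w, map_neg, map_mul, hE, ← hA]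
  have h0 : ∀ m : LL n a c k, constantCoeff (expD (der a c dk p) m) = m := by
    intro m
    rw [← coeff_zero_eq_constantCoeff_apply, expD_coeff, Nat.factorial_zero, Nat.cast_one, inv_one, one_smul]
    rfl
  obtain ⟨N, hN⟩ : ∃ N, N = Nj S k p j := ⟨_, rfl⟩
  obtain ⟨X1, hX1⟩ : ∃ X1, X1 = Xj S k p j := ⟨_, rfl⟩
  obtain ⟨Y1, hY1⟩ : ∃ Y1, Y1 = Yj S k p j := ⟨_, rfl⟩
  obtain ⟨W1, hW1⟩ : ∃ W1, W1 = Wj S k p j := ⟨_, rfl⟩
  have eX : N * d⁄dX (LL n a c k) X1 = 2 * d⁄dX (LL n a c k) N * X1 + 2 * kap k (C (p j)) * Y1 := by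
    rw [hN, hX1, hY1]
    exact pX_deriv hrel
  have eY : N * d⁄dX (LL n a c k) Y1 = 3 * d⁄dX (LL n a c k) N * Y1 + kap k (C (p j)) * (3 * X1 ^ 2
      + 2 * kap k (C a) * X1 * N ^ 2 + kap k (C c) * N ^ 4) := by
    rw [hN, hX1, hY1]
    exact pY_deriv hrel
  have eW : N * d⁄dX (LL n a c k) W1 = d⁄dX (LL n a c k) N * W1 - kap k (C (p j)) * X1 := by
    rw [hN, hX1, hW1]
    exact pW_deriv hrel
  rw [← hN] at hN0
  rw [← hX1] at hX0
  rw [← hY1] at hY0
  rw [← hW1] at hW0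
  rw [← hA, ← hB, ← hW, ← hN, ← hX1, ← hY1, ← hW1]
  have hu := e4b_unique (K := K) N (2 * d⁄dX (LL n a c k) N) (2 * kap k (C (p j)))
    (kap k (C (p j)) * (3 * (N ^ 2 * A + X1) + 2 * kap k (C a) * N ^ 2)) (3 * d⁄dX (LL n a c k) N) (N ^ 2 * A - X1) (N ^ 3 * B - Y1) hN0 ?_ ?_ ?_ ?_ inferInstance
  · obtain ⟨hu1, hu2⟩ := hu
    have hA1 := sub_eq_zero.1 hu1
    have hB1 := sub_eq_zero.1 hu2
    have hw := e4b_unique (K := K) N (d⁄dX (LL n a c k) N) 0 (d⁄dX (LL n a c k) N) 0 (N * W - W1) (N * W - W1) hN0 ?_ ?_ ?_ ?_ inferInstance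
    · exact ⟨hA1, hB1, sub_eq_zero.1 hw.1⟩
    all_goals first
      | (rw [map_sub, map_mul, hN0, hW0, hW, h0]; ring)
      | (rw [map_sub, Derivation.leibniz, smul_eq_mul, smul_eq_mul, dW]
         linear_combination (kap k (C (p j))) * (-hA1) - eW)
  · rw [map_sub, Derivation.leibniz, Derivation.leibniz_pow, smul_eq_mul, smul_eq_mul, dA, nsmul_eq_mul, smul_eq_mul]
    push_cast
    linear_combination -eX
  · rw [map_sub, Derivation.leibniz, Derivation.leibniz_pow, smul_eq_mul, smul_eq_mul, dB, nsmul_eq_mul, smul_eq_mul]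
    push_cast
    linear_combination -eY
  · rw [map_sub, map_mul, map_pow, hN0, hX0, hA, h0]
    ring
  · rw [map_sub, map_mul, map_pow, hN0, hY0, hB, h0]
    ring

end H47E
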