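import Pool.Agent.Lib.H47E.E2
import Pool.Agent.Lib.H47E.E2d
import Pool.Agent.Lib.H47E.E3b
import Pool.Agent.Lib.H47E.E3c
import Pool.Agent.Lib.H47E.E4

/-!
# H47E, module E, definitions: the families `v_(I, i)` (PROOF.md, section 5, E5, E6)

Parameters: `v0` = bound for the weights of `P`, `k0` = bound for the `w`-degree of `P`.
-/

set_option autoImplicit false

namespace H47E

open PowerSeries

/-- `nu2`: `x_I ^ nu2 tau_I(P)` is of type A. -/
def nu2 (v0 : ℕ) : ℕ := v0 + 1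

/-- `nu1`: the weight of `x_I ^ nu2 tau_I(P)`. -/
def nu1 (v0 k0 : ℕ) : ℕ := 2 * v0 + k0 + 2

/-- `nup` -/
def nup (v0 k0 : ℕ) : ℕ := nu1 v0 k0 + k0 + 1

/-- `bb`: the weight of the `v_(I, i)`. -/
def bb (v0 k0 : ℕ) : ℕ := 2 * nup v0 k0 + k0

section Defs

variable {n : ℕ} {K : Type} [Field K] [CharZero K] {a c : K} (S : Ser K a c) {k : Type} [CommRing k] [Algebra K k] (p : Fin n → K)
  (dk : Derivation K k k)

variable (a c) in
/-- `P_I = x_I ^ nu2 tau_I(P)` -/
noncomputable def PI (v0 : ℕ) (I : Finset (Fin n)) (P : LL n a c k) : LL n a c k :=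
  (∏ j ∈ I, gx a c k j ^ nu2 v0) * tau a c k I P

/-- `G_P = ∏ N_j ^ ν Exp(P)` -/
noncomputable def GP (ν : ℕ) (P : LL n a c k) : (LL n a c k)⟦X⟧ := (∏ j, Nj S k p j ^ ν) * expD (der a c dk p) P

/-- The series of the `v_(I, i)(P)`. -/
noncomputable def vv (v0 k0 : ℕ) (I : Finset (Fin n)) (P : LL n a c k) : (LL n a c k)⟦X⟧ :=
  C (∏ j ∈ I, gx a c k j ^ nup v0 k0) * PowerSeries.map (tau a c k I) (GP S p dk (nu1 v0 k0) (PI a c v0 I P))

end Defs

/-! ## Weights in the single directions -/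

section TGv

variable {n : ℕ} {K : Type} [Field K] (a c : K) {k : Type} [CommRing k] [Algebra K k] [IsDomain k] [CharZero k] [Fact (c ≠ 0)]

/-- Type A, weight at most `d j` in the direction `j`, degree in the `w_j` at most `κ`. -/
def TGv (d : Fin n → ℕ) (κ : ℕ) (m : LL n a c k) : Prop := ∀ I, crd a c m I ≠ 0 → wd I ≤ κ ∧ ∀ j, tA (I j) ∧ wt (I j) ≤ d j

/-- The elements of type A and `w`-degree `0`: a subring. -/
noncomputable def OA : Subring (LL n a c k) where
  carrier := {m | TA a c 0 m}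
  mul_mem' := fun {m m'} hm hm' => e1i_TA_mul a c hm hm'
  one_mem' := by
    have h := (e1h_one a c (k := k) (n := n)).1
    exact fun I hI => ⟨(h I hI).1, fun j => ((h I hI).2 j).1⟩
  add_mem' := fun {m m'} hm hm' => by simpa using e1i_TA_add a c (le_refl 0) hm hm' 1
  zero_mem' := fun I hI => absurd (by unfold crd; simp) hI
  neg_mem' := fun {m} hm I hI => hm I fun h => hI (by unfold crd at h ⊢; simp [h])

end TGv

end H47E
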