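import Pool.Agent.Lib.H47E.E5

/-!
# H47E, chunk E5a: direction-wise weights
-/

set_option autoImplicit false

namespace H47E

open PowerSeries

variable {n : ℕ} {K : Type} [Field K] (a c : K) {k : Type} [CommRing k] [Algebra K k] [IsDomain k] [CharZero k] [Fact (c ≠ 0)]

/-- the coordinates of a product. -/
theorem e5a_exists (m m' : LL n a c k) (J : Fin n → Ix) (h : crd a c (m * m') J ≠ 0) :
    ∃ I I' : Fin n → Ix, crd a c m I ≠ 0 ∧ crd a c m' I' ≠ 0 ∧ (LB a c k).repr (LB a c k I * LB a c k I') J ≠ 0 := by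
  classical
  by_contra hcon
  push Not at hcon
  apply h
  obtain ⟨b, hb⟩ : ∃ b : Module.Basis (Fin n → Ix) k (LL n a c k), b = LB a c k := ⟨_, rfl⟩
  have e1 : m = ∑ I ∈ (b.repr m).support, b.repr m I • b I := by
    have h1 := b.linearCombination_repr m
    rw [Finsupp.linearCombination_apply, Finsupp.sum] at h1
    exact h1.symm
  have e2 : m' = ∑ I ∈ (b.repr m').support, b.repr m' I • b I := by
    have h1 := b.linearCombination_repr m'
    rw [Finsupp.linearCombination_apply, Finsupp.sum] at h1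
    exact h1.symm
  have e3 : m * m' = ∑ I ∈ (b.repr m).support, ∑ I' ∈ (b.repr m').support,
      (b.repr m I * b.repr m' I') • (b I * b I') := by
    conv_lhs => rw [e1, e2]
    rw [Finset.sum_mul_sum]
    refine Finset.sum_congr rfl fun I _ => Finset.sum_congr rfl fun I' _ => ?_
    rw [smul_mul_smul_comm]
  unfold crd
  rw [← hb]
  rw [e3, map_sum, Finsupp.finsetSum_apply]
  refine Finset.sum_eq_zero fun I hI => ?_
  rw [map_sum, Finsupp.finsetSum_apply]
  refine Finset.sum_eq_zero fun I' hI' => ?_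
  rw [map_smul, Finsupp.smul_apply]
  have h1 : crd a c m I ≠ 0 := by
    unfold crd
    rw [← hb]
    exact Finsupp.mem_support_iff.1 hI
  have h2 : crd a c m' I' ≠ 0 := by
    unfold crd
    rw [← hb]
    exact Finsupp.mem_support_iff.1 hI'
  have h3 := hcon I I' h1 h2
  rw [← hb] at h3
  rw [h3, smul_zero]

/-- zero. -/
theorem e5a_zero (d : Fin n → ℕ) (κ : ℕ) : TGv a c d κ (0 : LL n a c k) := fun I hI =>
  absurd (e1h_crd_zero a c I) hI

/-- one. -/
theorem e5a_one (d : Fin n → ℕ) (κ : ℕ) : TGv a c d κ (1 : LL n a c k) := by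
  intro I hI
  have h := (e1h_one a c (k := k) (n := n)).1 I hI
  refine ⟨h.1.trans (Nat.zero_le _), fun j => ⟨(h.2 j).1, (h.2 j).2.trans ?_⟩⟩
  exact_mod_cast Nat.zero_le _

/-- a monomial in one direction. -/
theorem e5a_mon1 (j : Fin n) (i : Ix) (w : ℕ) (h1 : tA i) (h2 : wt i ≤ w) : TGv a c (Pi.single j w) i.2.2 (mon1 a c k j i) := by
  classical
  have e : mon1 a c k j i = mon a c k (Function.update (fun _ : Fin n => ((0, 0, 0) : Ix)) j i) := by
    unfold mon
    rw [Finset.prod_eq_single j]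
    · rw [Function.update_self]
    · intro l _ hl
      rw [Function.update_of_ne hl]
      unfold mon1
      simp
    · intro h
      exact absurd (Finset.mem_univ j) h
  rw [e]
  intro I hI
  rw [e1h_crd_mon] at hI
  have hI' : Function.update (fun _ : Fin n => ((0, 0, 0) : Ix)) j i = I := by
    by_contra h
    rw [if_neg h] at hI
    exact hI rfl
  subst hI'
  refine ⟨?_, fun l => ?_⟩
  · unfold wd
    rw [Finset.sum_eq_single j]
    · rw [Function.update_self]
    · intro l _ hl
      rw [Function.update_of_ne hl]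
    · intro h
      exact absurd (Finset.mem_univ j) h
  · by_cases hl : l = j
    · subst hl
      rw [Function.update_self, Pi.single_eq_same]
      exact ⟨h1, h2⟩
    · rw [Function.update_of_ne hl, Pi.single_eq_of_ne hl]
      refine ⟨?_, ?_⟩
      · simp [tA]
      · simp [wt]

/-- Products (from `LB_good`, as for `e1i_TG_mul`). -/
theorem e5a_mul {d d' : Fin n → ℕ} {κ κ' : ℕ} {m m' : LL n a c k} (hm : TGv a c d κ m) (hm' : TGv a c d' κ' m') :
    TGv a c (fun j => d j + d' j) (κ + κ') (m * m') := by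
  intro J hJ
  obtain ⟨I, I', h1, h2, h3⟩ := e5a_exists a c m m' J hJ
  obtain ⟨g1, g2, g3⟩ := (LB_good a c k).mul I I' J h3
  obtain ⟨a1, a2⟩ := hm I h1
  obtain ⟨b1, b2⟩ := hm' I' h2
  refine ⟨g1.trans (Nat.add_le_add a1 b1), fun j => ⟨g3 j (a2 j).1 (b2 j).1, (g2 j).trans ?_⟩⟩
  have h4 := (a2 j).2
  have h5 := (b2 j).2
  push_cast
  exact add_le_add h4 h5

/-- Sums. -/
theorem e5a_sum {d : Fin n → ℕ} {κ : ℕ} {β : Type} (s : Finset β) (m : β → LL n a c k) (hm : ∀ i ∈ s, TGv a c d κ (m i)) :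
    TGv a c d κ (∑ i ∈ s, m i) := by
  classical
  intro I hI
  by_contra hcon
  apply hI
  have e : crd a c (∑ i ∈ s, m i) I = ∑ i ∈ s, crd a c (m i) I := by
    unfold crd
    rw [map_sum, Finsupp.finsetSum_apply]
  rw [e]
  refine Finset.sum_eq_zero fun i hi => ?_
  by_contra h0
  exact hcon (hm i hi I h0)

/-- Monotonicity, scalars. -/
theorem e5a_mono {d d' : Fin n → ℕ} {κ κ' : ℕ} (h : ∀ j, d j ≤ d' j) (h' : κ ≤ κ') {m : LL n a c k} (hm : TGv a c d κ m) (r : k) :
    TGv a c d' κ' (r • m) := by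
  intro I hI
  rw [e1h_crd_smul] at hI
  have h1 : crd a c m I ≠ 0 := fun h0 => hI (by rw [h0, mul_zero])
  obtain ⟨a1, a2⟩ := hm I h1
  refine ⟨a1.trans h', fun j => ⟨(a2 j).1, (a2 j).2.trans ?_⟩⟩
  exact_mod_cast h j

/-- Products of series. -/
theorem e5a_smul {d d' : Fin n → ℕ} {κ κ' : ℕ} {F G : (LL n a c k)⟦X⟧} (hF : ∀ i, TGv a c d κ (coeff i F))
    (hG : ∀ i, TGv a c d' κ' (coeff i G)) (i : ℕ) : TGv a c (fun j => d j + d' j) (κ + κ') (coeff i (F * G)) := by
  rw [PowerSeries.coeff_mul]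
  exact e5a_sum a c _ _ fun q _ => e5a_mul a c (hF q.1) (hG q.2)

/-- Powers of series. -/
theorem e5a_spow {d : Fin n → ℕ} {κ : ℕ} {F : (LL n a c k)⟦X⟧} (hF : ∀ i, TGv a c d κ (coeff i F)) (q : ℕ) (i : ℕ) :
    TGv a c (fun j => q * d j) (q * κ) (coeff i (F ^ q)) := by
  induction q generalizing i with
  | zero =>
    rw [pow_zero, PowerSeries.coeff_one]
    split
    · exact e5a_one a c _ _
    · exact e5a_zero a c _ _
  | succ q ih =>
    rw [pow_succ]
    have h1 := e5a_smul a c (F := F ^ q) (G := F) ih hF i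
    have e1 : (fun j => (q + 1) * d j) = (fun j => q * d j + d j) := by
      funext j
      ring
    have e2 : (q + 1) * κ = q * κ + κ := by ring
    rw [e1, e2]
    exact h1

/-- Products of series over the directions. -/
theorem e5a_sprod {β : Type} (s : Finset β) (d : β → Fin n → ℕ) (κ : β → ℕ) (F : β → (LL n a c k)⟦X⟧)
    (hF : ∀ l ∈ s, ∀ i, TGv a c (d l) (κ l) (coeff i (F l))) (i : ℕ) :
    TGv a c (fun j => ∑ l ∈ s, d l j) (∑ l ∈ s, κ l) (coeff i (∏ l ∈ s, F l)) := by
  classical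
  induction s using Finset.induction_on generalizing i with
  | empty =>
    rw [Finset.prod_empty, PowerSeries.coeff_one]
    split
    · exact e5a_one a c _ _
    · exact e5a_zero a c _ _
  | insert l s hl ih =>
    rw [Finset.prod_insert hl, Finset.sum_insert hl]
    have e1 : (fun j => ∑ l ∈ insert l s, d l j) = (fun j => d l j + ∑ l ∈ s, d l j) := by
      funext j
      rw [Finset.sum_insert hl]
    rw [e1]
    exact e5a_smul a c (hF l (Finset.mem_insert_self _ _))
      (fun i => ih (fun l' hl' => hF l' (Finset.mem_insert_of_mem hl')) i) i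

/-- The generators in the direction `j` (weights `2, 3, 1`), constants. -/
theorem e5a_gen (j : Fin n) : TGv a c (Pi.single j 2) 0 (gx a c k j) ∧ TGv a c (Pi.single j 3) 0 (gy a c k j) ∧
    TGv a c (Pi.single j 1) 1 (gw a c k j) ∧ ∀ r : k, TGv a c (fun _ : Fin n => 0) 0 (algebraMap k (LL n a c k) r) := by
  have e1 : gx a c k j = mon1 a c k j ((1, 0, 0) : Ix) := by
    unfold mon1
    simp
  have e2 : gy a c k j = mon1 a c k j ((1, 1, 0) : Ix) := by
    unfold mon1 gy
    simp
  have e3 : gw a c k j = mon1 a c k j ((0, 0, 1) : Ix) := by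
    unfold mon1
    simp
  refine ⟨?_, ?_, ?_, fun r => ?_⟩
  · rw [e1]
    exact e5a_mon1 a c j _ 2 (by simp [tA]) (by simp [wt])
  · rw [e2]
    exact e5a_mon1 a c j _ 3 (by simp [tA]) (by simp [wt])
  · rw [e3]
    exact e5a_mon1 a c j _ 1 (by simp [tA]) (by simp [wt])
  · rw [Algebra.algebraMap_eq_smul_one]
    exact e5a_mono a c (fun _ => le_rfl) le_rfl (e5a_one a c _ _) r

end H47E
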