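import Pool.Agent.Lib.H47E.E5a

/-!
# H47E, chunk E5b: the weights of `G_P` and `v_(I, i)(P)`
-/

set_option autoImplicit false

namespace H47E

open PowerSeries

variable {n : ℕ} {K : Type} [Field K] [CharZero K] {a c : K} (S : Ser K a c) {k : Type} [CommRing k] [Algebra K k] [IsDomain k] [CharZero k]
  [Fact (c ≠ 0)] (p : Fin n → K) (dk : Derivation K k k)

section Aux

omit [CharZero K]

theorem e5b_zero (d : Fin n → ℕ) (κ : ℕ) : TGv a c d κ (0 : LL n a c k) := fun I h => absurd (e1h_crd_zero a c I) h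

theorem e5b_add {d : Fin n → ℕ} {κ : ℕ} {m m' : LL n a c k} (hm : TGv a c d κ m) (hm' : TGv a c d κ m') : TGv a c d κ (m + m') := by
  intro I h
  rw [e1h_crd_add] at h
  by_cases h1 : crd a c m I = 0
  · exact hm' I fun h2 => h (by rw [h1, h2, add_zero])
  · exact hm I h1

theorem e5b_mono {d d' : Fin n → ℕ} {κ κ' : ℕ} (h : ∀ j, d j ≤ d' j) (h' : κ ≤ κ') {m : LL n a c k} (hm : TGv a c d κ m) :
    TGv a c d' κ' m := fun I hI =>
  ⟨(hm I hI).1.trans h', fun j => ⟨((hm I hI).2 j).1, ((hm I hI).2 j).2.trans (Int.ofNat_le.2 (h j))⟩⟩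

variable (a c k) in
/-- The coefficients have weight at most `w` in the direction `j` and `0` in the other directions. -/
def e5bW (j : Fin n) (w κ : ℕ) (F : (LL n a c k)⟦X⟧) : Prop := ∀ i, TGv a c (Pi.single j w) κ (coeff i F)

theorem e5bW_mono {j : Fin n} {w w' κ κ' : ℕ} (h : w ≤ w') (h' : κ ≤ κ') {F : (LL n a c k)⟦X⟧} (hF : e5bW a c k j w κ F) :
    e5bW a c k j w' κ' F := fun i => e5b_mono (fun l => by
      by_cases hl : l = j
      · subst hl
        rw [Pi.single_eq_same, Pi.single_eq_same]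
        exact h
      · rw [Pi.single_eq_of_ne hl, Pi.single_eq_of_ne hl]) h' (hF i)

theorem e5bW_add {j : Fin n} {w κ : ℕ} {F G : (LL n a c k)⟦X⟧} (hF : e5bW a c k j w κ F) (hG : e5bW a c k j w κ G) :
    e5bW a c k j w κ (F + G) := fun i => by
  rw [map_add]
  exact e5b_add (hF i) (hG i)

theorem e5bW_mul {j : Fin n} {w w' κ κ' : ℕ} {F G : (LL n a c k)⟦X⟧} (hF : e5bW a c k j w κ F) (hG : e5bW a c k j w' κ' G) :
    e5bW a c k j (w + w') (κ + κ') (F * G) := fun i => by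
  have h := e5a_smul a c hF hG i
  have e : (fun l => (Pi.single j w : Fin n → ℕ) l + (Pi.single j w' : Fin n → ℕ) l) = Pi.single j (w + w') := by
    rw [Pi.single_add]
    rfl
  rwa [e] at h

theorem e5bW_C {j : Fin n} {w κ : ℕ} {m : LL n a c k} (hm : TGv a c (Pi.single j w) κ m) : e5bW a c k j w κ (C m) := fun i => by
  rw [coeff_C]
  by_cases h : i = 0
  · rw [if_pos h]
    exact hm
  · rw [if_neg h]
    exact e5b_zero _ _

/-- Series with constant coefficients. -/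
theorem e5bW_l0 (j : Fin n) (w : ℕ) {r : (LL n a c k)⟦X⟧} (hr : r ∈ (kap k (n := n) (a := a) (c := c)).range) : e5bW a c k j w 0 r := by
  obtain ⟨f, rfl⟩ := RingHom.mem_range.1 hr
  refine e5bW_mono (Nat.zero_le w) le_rfl (j := j) (w := 0) fun i => ?_
  unfold kap
  rw [coeff_map, IsScalarTower.algebraMap_apply K k (LL n a c k), Pi.single_zero]
  exact (e5a_gen a c j).2.2.2 _

theorem e5bW_neg {j : Fin n} {w κ : ℕ} {F : (LL n a c k)⟦X⟧} (hF : e5bW a c k j w κ F) : e5bW a c k j w κ (-F) := by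
  have h := e5bW_mul (e5bW_l0 j 0 (neg_mem (one_mem (kap k (n := n) (a := a) (c := c)).range))) hF
  rw [zero_add, zero_add] at h
  have e : -F = (-1 : (LL n a c k)⟦X⟧) * F := by ring
  rw [e]
  exact h

theorem e5bW_sub {j : Fin n} {w κ : ℕ} {F G : (LL n a c k)⟦X⟧} (hF : e5bW a c k j w κ F) (hG : e5bW a c k j w κ G) :
    e5bW a c k j w κ (F - G) := by
  rw [sub_eq_add_neg]
  exact e5bW_add hF (e5bW_neg hG)

theorem e5bW_r {j : Fin n} {w κ : ℕ} {r F : (LL n a c k)⟦X⟧} (hr : r ∈ (kap k (n := n) (a := a) (c := c)).range)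
    (hF : e5bW a c k j w κ F) : e5bW a c k j w κ (r * F) := by
  have h := e5bW_mul (e5bW_l0 j 0 hr) hF
  rw [zero_add, zero_add] at h
  exact h

theorem e5bW_x (j : Fin n) : e5bW a c k j 2 0 (C (gx a c k j)) := e5bW_C (e5a_gen a c j).1

theorem e5bW_y (j : Fin n) : e5bW a c k j 3 0 (C (gy a c k j)) := e5bW_C (e5a_gen a c j).2.1

theorem e5bW_w (j : Fin n) : e5bW a c k j 1 1 (C (gw a c k j)) := e5bW_C (e5a_gen a c j).2.2.1

theorem e5bW_x1 {j : Fin n} {w : ℕ} (hw : 2 ≤ w) {r : (LL n a c k)⟦X⟧} (hr : r ∈ (kap k (n := n) (a := a) (c := c)).range) :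
    e5bW a c k j w 0 (r * C (gx a c k j)) := e5bW_mono hw le_rfl (e5bW_r hr (e5bW_x j))

theorem e5bW_xm {j : Fin n} (m : ℕ) : e5bW a c k j (m * 2) 0 (C (gx a c k j) ^ m) := by
  induction m with
  | zero =>
    rw [pow_zero]
    exact e5bW_l0 j _ (one_mem _)
  | succ m ih =>
    rw [pow_succ]
    exact e5bW_mono (by omega) (by omega) (e5bW_mul ih (e5bW_x j))

theorem e5bW_x2 {j : Fin n} {w : ℕ} (m : ℕ) (hw : m * 2 ≤ w) {r : (LL n a c k)⟦X⟧}
    (hr : r ∈ (kap k (n := n) (a := a) (c := c)).range) :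
    e5bW a c k j w 0 (r * C (gx a c k j) ^ m) := e5bW_mono hw le_rfl (e5bW_r hr (e5bW_xm m))

/-- The four polynomials. -/
theorem e5b_poly (j : Fin n) {A Cc t v g : (LL n a c k)⟦X⟧} (hA : A ∈ (kap k (n := n) (a := a) (c := c)).range)
    (hC : Cc ∈ (kap k (n := n) (a := a) (c := c)).range) (ht : t ∈ (kap k (n := n) (a := a) (c := c)).range)
    (hv : v ∈ (kap k (n := n) (a := a) (c := c)).range) (hg : g ∈ (kap k (n := n) (a := a) (c := c)).range) :
    e5bW a c k j 2 0 (pN A Cc t v (C (gx a c k j))) ∧ e5bW a c k j 4 0 (pX A Cc t v (C (gx a c k j)) (C (gy a c k j))) ∧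
    e5bW a c k j 6 0 (pY A Cc t v (C (gx a c k j)) (C (gy a c k j))) ∧
    e5bW a c k j 3 1 (pW A Cc t v g (C (gx a c k j)) (C (gy a c k j)) (C (gw a c k j))) := by
  have h2 : (2 : (LL n a c k)⟦X⟧) ∈ (kap k (n := n) (a := a) (c := c)).range := ofNat_mem _ 2
  have h3 : (3 : (LL n a c k)⟦X⟧) ∈ (kap k (n := n) (a := a) (c := c)).range := ofNat_mem _ 3
  have hxi : 1 - A * t ^ 2 - Cc * t ^ 2 * v ∈ (kap k (n := n) (a := a) (c := c)).range :=
    sub_mem (sub_mem (one_mem _) (mul_mem hA (pow_mem ht 2))) (mul_mem (mul_mem hC (pow_mem ht 2)) hv)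
  have hN : e5bW a c k j 2 0 (pN A Cc t v (C (gx a c k j))) := by
    unfold pN
    exact e5bW_sub (e5bW_l0 j 2 hxi) (e5bW_x1 le_rfl (pow_mem ht 2))
  refine ⟨hN, ?_, ?_, ?_⟩
  · unfold pX
    generalize 1 - A * t ^ 2 - Cc * t ^ 2 * v = xi at hxi
    refine e5bW_add (e5bW_add ?_ ?_) ?_
    · refine e5bW_mul (w := 2) (w' := 2) (κ := 0) (κ' := 0) ?_ (e5bW_add (e5bW_add (e5bW_x1 le_rfl (pow_mem ht 2)) (e5bW_l0 j 2 hxi))
        (e5bW_l0 j 2 (mul_mem (mul_mem h2 hA) (pow_mem ht 2))))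
      rw [mul_comm]
      exact e5bW_x1 le_rfl hxi
    · exact e5bW_r (mul_mem hC (pow_mem ht 2)) (e5bW_add (e5bW_x1 (by norm_num) (pow_mem ht 2)) (e5bW_l0 j 4 hxi))
    · exact e5bW_r (mul_mem (mul_mem h2 ht) hxi) (e5bW_mono (by norm_num) le_rfl (e5bW_y j))
  · unfold pY
    generalize 1 - A * t ^ 2 - Cc * t ^ 2 * v = xi at hxi
    refine e5bW_add ?_ (e5bW_r hxi ?_)
    · refine e5bW_mono (by norm_num) le_rfl (e5bW_mul (w' := 2) (κ' := 0) (e5bW_y j) ?_)
      refine e5bW_add (e5bW_add (e5bW_add (e5bW_add (e5bW_add (e5bW_l0 j 2 (pow_mem hxi 3)) ?_) ?_) ?_) ?_) ?_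
      · exact e5bW_x1 le_rfl (mul_mem (mul_mem h3 (pow_mem ht 2)) (pow_mem hxi 2))
      · exact e5bW_l0 j 2 (mul_mem (mul_mem (mul_mem h2 hA) (pow_mem ht 2)) (pow_mem hxi 2))
      · exact e5bW_x1 le_rfl (mul_mem (mul_mem (mul_mem h2 hA) (pow_mem ht 4)) hxi)
      · exact e5bW_l0 j 2 (mul_mem (mul_mem (mul_mem h3 hC) (pow_mem ht 4)) hxi)
      · exact e5bW_x1 le_rfl (mul_mem hC (pow_mem ht 6))
    · refine e5bW_add (e5bW_add (e5bW_add (e5bW_add (e5bW_add ?_ ?_) ?_) ?_) ?_) ?_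
      · exact e5bW_x2 3 (by norm_num) (pow_mem ht 3)
      · exact e5bW_x2 2 (by norm_num) (mul_mem (mul_mem h3 hxi) ht)
      · exact e5bW_x2 2 (by norm_num) (mul_mem (mul_mem h2 hA) (pow_mem ht 3))
      · exact e5bW_x1 (by norm_num) (mul_mem (mul_mem (mul_mem h2 hA) hxi) ht)
      · exact e5bW_x1 (by norm_num) (mul_mem (mul_mem h3 hC) (pow_mem ht 3))
      · exact e5bW_l0 j 6 (mul_mem (mul_mem hC hxi) ht)
  · unfold pW
    refine e5bW_sub (e5bW_sub ?_ ?_) ?_
    · exact e5bW_mul (w' := 1) (κ' := 1) hN (e5bW_add (e5bW_w j) (e5bW_mono le_rfl (Nat.zero_le 1) (e5bW_l0 j 1 hg)))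
    · exact e5bW_mono le_rfl (Nat.zero_le 1) (e5bW_x1 (by norm_num) ht)
    · exact e5bW_mono le_rfl (Nat.zero_le 1) (e5bW_r (pow_mem ht 2) (e5bW_y j))

/-- The iterated derivatives of constants. -/
theorem e5b_iter [CharZero K] (m : k) (i : ℕ) :
    (⇑(der a c dk p))^[i] (algebraMap k (LL n a c k) m) = algebraMap k (LL n a c k) ((⇑dk)^[i] m) := by
  induction i generalizing m with
  | zero => rfl
  | succ i ih => rw [Function.iterate_succ_apply, Function.iterate_succ_apply, der_alg, ih]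

theorem e5b_expC [CharZero K] (m : k) (i : ℕ) :
    TGv a c (fun _ : Fin n => 0) 0 (coeff i (expD (der a c dk p) (algebraMap k (LL n a c k) m))) := by
  rw [expD_coeff, e5b_iter]
  have e : ((i.factorial : K)⁻¹ • algebraMap k (LL n a c k) ((⇑dk)^[i] m)) =
      algebraMap k (LL n a c k) (algebraMap K k (i.factorial : K)⁻¹ * (⇑dk)^[i] m) := by
    rw [map_mul, ← IsScalarTower.algebraMap_apply]
    exact Algebra.smul_def (A := LL n a c k) (i.factorial : K)⁻¹ (algebraMap k (LL n a c k) ((⇑dk)^[i] m))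
  rw [e]
  by_cases hn : Nonempty (Fin n)
  · obtain ⟨j⟩ := hn
    exact (e5a_gen a c j).2.2.2 _
  · have hE : IsEmpty (Fin n) := not_nonempty_iff.1 hn
    intro I _
    exact ⟨by unfold wd; simp, fun j => (hE.false j).elim⟩

end Aux

/-- The coefficients of `N_j, X1_j, Y1_j, W1_j` have weights at most `2, 4, 6, 3` in the direction `j` and `0` in the other directions,
`w`-degrees `0, 0, 0, 1` (from the explicit formulas `pN, pX, pY, pW`: products of `kap` of something and `C` of `x, y, w`; monomials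
`1, x`; `1, x, x ^ 2, y`; `y, x y, 1, x, x ^ 2, x ^ 3`; `w, x w, 1, x, y`). -/
theorem e5b_gen (j : Fin n) (i : ℕ) : TGv a c (Pi.single j 2) 0 (coeff i (Nj S k p j)) ∧
    TGv a c (Pi.single j 4) 0 (coeff i (Xj S k p j)) ∧ TGv a c (Pi.single j 6) 0 (coeff i (Yj S k p j)) ∧
    TGv a c (Pi.single j 3) 1 (coeff i (Wj S k p j)) := by
  have hr : ∀ f : K⟦X⟧, kap k f ∈ (kap k (n := n) (a := a) (c := c)).range := fun f => ⟨f, rfl⟩
  obtain ⟨h1, h2, h3, h4⟩ := e5b_poly (a := a) (c := c) (k := k) j (hr (C a)) (hr (C c)) (hr (sc (p j) S.t)) (hr (sc (p j) S.v))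
    (hr (sc (p j) S.g))
  exact ⟨h1 i, h2 i, h3 i, h4 i⟩

/-- A monomial of type A is a polynomial in `x, y, w`: `x ^ i yt ^ e w ^ κ = x ^ (i - e) y ^ e w ^ κ`. -/
theorem e5b_mon (I : Fin n → Ix) (hI : ∀ j, tA (I j)) :
    mon a c k I = ∏ j, (gx a c k j ^ ((I j).1 - ((I j).2.1 : ℕ)).toNat * gy a c k j ^ ((I j).2.1 : ℕ) * gw a c k j ^ (I j).2.2) := by
  unfold mon
  refine Finset.prod_congr rfl fun j _ => ?_
  have h : (((I j).2.1 : ℕ) : ℤ) ≤ (I j).1 := hI j
  have h0 : 0 ≤ (I j).1 := (Int.natCast_nonneg _).trans h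
  have e : (I j).1.toNat = ((I j).1 - (((I j).2.1 : ℕ) : ℤ)).toNat + ((I j).2.1 : ℕ) := by omega
  unfold mon1 gy
  rw [if_pos h0, e, pow_add, mul_pow]
  ring

/-- `G_P` for a monomial of type A of weight at most `ν` (from `e4_main`, `e5b_mon`; the weight is
`2 i + e + κ = 2 (i - e) + 3 e + κ ≤ ν`). -/
theorem e5b_GPmon (ν : ℕ) (I : Fin n → Ix) (hI : ∀ j, tA (I j) ∧ wt (I j) ≤ ν) :
    GP S p dk ν (mon a c k I) = ∏ j, (Nj S k p j ^ (ν - (wt (I j)).toNat) * Xj S k p j ^ ((I j).1 - ((I j).2.1 : ℕ)).toNat *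
      Yj S k p j ^ ((I j).2.1 : ℕ) * Wj S k p j ^ (I j).2.2) := by
  unfold GP
  rw [e5b_mon I (fun j => (hI j).1), map_prod, ← Finset.prod_mul_distrib]
  refine Finset.prod_congr rfl fun j _ => ?_
  obtain ⟨hx, hy, hw⟩ := e4_main S p dk j
  have h : (((I j).2.1 : ℕ) : ℤ) ≤ (I j).1 := (hI j).1
  have h' : wt (I j) ≤ ν := (hI j).2
  have e : ν = (ν - (wt (I j)).toNat) + (2 * ((I j).1 - (((I j).2.1 : ℕ) : ℤ)).toNat + 3 * ((I j).2.1 : ℕ) + (I j).2.2) := by
    unfold wt at h' ⊢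
    omega
  rw [map_mul, map_mul, map_pow, map_pow, map_pow, ← hx, ← hy, ← hw, mul_pow, mul_pow, mul_pow, ← pow_mul, ← pow_mul]
  conv_lhs => rw [e, pow_add, pow_add, pow_add]
  ring

/-- The weights of `G_P`: at most `2 ν + κ`.

Proof. Linear in `P`: `P = ∑ crd P I • mon I` (`e1h_sum`), `expD (r • m) = expD (algebraMap r) * expD m`, and the coefficients of
`expD (algebraMap r)` are images of elements of `k` (`der_alg`, iterated): weight `0`. For a monomial: `e5b_GPmon`, `e5b_gen`, `e5a_sprod`: the weight in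
the direction `j` is at most `2 (ν - wt) + 4 (i - e) + 6 e + 3 κ_j = 2 ν + κ_j ≤ 2 ν + κ`, and the `w`-degree is at most the sum of the `κ_j`. -/
theorem e5b_GP {ν κ : ℕ} {P : LL n a c k} (hP : TG a c ν κ P) (i : ℕ) : TG a c (2 * ν + κ) κ (coeff i (GP S p dk ν P)) := by
  obtain ⟨s, hs⟩ := e2_exp a c P
  have e : GP S p dk ν P = ∑ I ∈ s, expD (der a c dk p) (algebraMap k (LL n a c k) (crd a c P I)) * GP S p dk ν (mon a c k I) := by
    conv_lhs => rw [hs]
    unfold GP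
    rw [map_sum, Finset.mul_sum]
    refine Finset.sum_congr rfl fun I _ => ?_
    rw [e2_smul, map_mul]
    ring
  have key : ∀ I ∈ s, TGv a c (fun _ => 2 * ν + κ) κ
      (coeff i (expD (der a c dk p) (algebraMap k (LL n a c k) (crd a c P I)) * GP S p dk ν (mon a c k I))) := by
    intro I _
    by_cases h0 : crd a c P I = 0
    · rw [h0, map_zero, map_zero, zero_mul, map_zero]
      exact e5b_zero _ _
    · obtain ⟨hκ, hI⟩ := hP I h0
      have hmon : ∀ i, TGv a c (fun _ => 2 * ν + κ) κ (coeff i (GP S p dk ν (mon a c k I))) := by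
        intro i
        rw [e5b_GPmon S p dk ν I hI]
        have hF : ∀ l ∈ (Finset.univ : Finset (Fin n)), ∀ i, TGv a c (Pi.single l (2 * ν + (I l).2.2) : Fin n → ℕ) ((I l).2.2)
            (coeff i (Nj S k p l ^ (ν - (wt (I l)).toNat) * Xj S k p l ^ ((I l).1 - ((I l).2.1 : ℕ)).toNat *
              Yj S k p l ^ ((I l).2.1 : ℕ) * Wj S k p l ^ (I l).2.2)) := by
          intro l _
          have hp : ∀ (w κ : ℕ) (F : (LL n a c k)⟦X⟧), e5bW a c k l w κ F → ∀ q : ℕ, e5bW a c k l (q * w) (q * κ) (F ^ q) := by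
            intro w κ F hF q i
            have h := e5a_spow a c hF q i
            have e : (fun j => q * (Pi.single l w : Fin n → ℕ) j) = Pi.single l (q * w) := by
              funext j
              by_cases hj : j = l
              · subst hj
                rw [Pi.single_eq_same, Pi.single_eq_same]
              · rw [Pi.single_eq_of_ne hj, Pi.single_eq_of_ne hj, mul_zero]
            rwa [e] at h
          have h1 := hp 2 0 _ (fun i => (e5b_gen S p l i).1) (ν - (wt (I l)).toNat)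
          have h2 := hp 4 0 _ (fun i => (e5b_gen S p l i).2.1) ((I l).1 - ((I l).2.1 : ℕ)).toNat
          have h3 := hp 6 0 _ (fun i => (e5b_gen S p l i).2.2.1) ((I l).2.1 : ℕ)
          have h4 := hp 3 1 _ (fun i => (e5b_gen S p l i).2.2.2) ((I l).2.2)
          have h5 : (((I l).2.1 : ℕ) : ℤ) ≤ (I l).1 := (hI l).1
          have h6 : wt (I l) ≤ ν := (hI l).2
          refine e5bW_mono ?_ ?_ (e5bW_mul (e5bW_mul (e5bW_mul h1 h2) h3) h4)
          · unfold wt at h6 ⊢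
            omega
          · omega
        refine e5b_mono ?_ ?_ (e5a_sprod a c Finset.univ (fun l => (Pi.single l (2 * ν + (I l).2.2) : Fin n → ℕ)) (fun l => (I l).2.2) _ hF i)
        · intro j
          show ∑ l : Fin n, (Pi.single l (2 * ν + (I l).2.2) : Fin n → ℕ) j ≤ 2 * ν + κ
          rw [Finset.sum_eq_single j]
          · rw [Pi.single_eq_same]
            have h7 : (I j).2.2 ≤ wd I :=
              Finset.single_le_sum (f := fun j => (I j).2.2) (fun _ _ => Nat.zero_le _) (Finset.mem_univ j)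
            omega
          · intro l _ hl
            exact Pi.single_eq_of_ne (Ne.symm hl) _
          · intro h
            exact absurd (Finset.mem_univ j) h
        · exact hκ
      have h := e5a_smul a c (e5b_expC p dk (crd a c P I)) hmon i
      refine e5b_mono (fun j => ?_) ?_ h
      · show 0 + (2 * ν + κ) ≤ 2 * ν + κ
        omega
      · omega
  rw [e, map_sum]
  exact e5a_sum a c s _ key

/-- `P_I` (`e2_TG`). -/
theorem e5b_PI {v0 k0 : ℕ} {P : LL n a c k} (hP : TG a c v0 k0 P) (I : Finset (Fin n)) : TG a c (nu1 v0 k0) k0 (PI a c v0 I P) := by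
  have h := e2_TG a c I hP (nu2 v0) (by unfold nu2; omega)
  have e : 2 * nu2 v0 + k0 = nu1 v0 k0 := by
    unfold nu1 nu2
    omega
  rw [e] at h
  exact h

/-- `P_I` is not zero: `x_j` is a unit (`x_j xb_j = c`), `tau` is an involution. -/
theorem e5b_PI_ne {v0 : ℕ} {P : LL n a c k} (hP : P ≠ 0) (I : Finset (Fin n)) : PI a c v0 I P ≠ 0 := by
  intro h
  apply hP
  have hc : IsUnit (∏ j ∈ I, gx a c k j ^ nu2 v0) := by
    refine (Finset.prod_induction _ IsUnit (fun _ _ h1 h2 => h1.mul h2) isUnit_one fun j _ => ?_)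
    refine IsUnit.pow _ ?_
    have hu : IsUnit (gx a c k j * gb a c k j) := by
      rw [rel_c]
      exact (IsUnit.mk0 c (Fact.out : c ≠ 0)).map (algebraMap K (LL n a c k))
    exact isUnit_of_mul_isUnit_left hu
  have h1 : tau a c k I P = 0 := (hc.mul_right_eq_zero).1 h
  rw [← e2a_invol a c k I P, h1, map_zero]

/-- The families (`e2_TG`, `e5b_GP`, `e5b_PI`). -/
theorem e5b_vv {v0 k0 : ℕ} {P : LL n a c k} (hP : TG a c v0 k0 P) (I : Finset (Fin n)) (i : ℕ) :
    TG a c (bb v0 k0) k0 (coeff i (vv S p dk v0 k0 I P)) := by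
  have h1 := e5b_GP S p dk (e5b_PI hP I) i
  have h2 := e2_TG a c I h1 (nup v0 k0) (by unfold nup; omega)
  unfold vv
  rw [coeff_C_mul, coeff_map]
  exact h2

end H47E
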