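import Pool.Agent.Lib.H47E.E5b

/-!
# H47E, chunk E5c: the modules generated by `D ^ l P` and by the coefficients of `G_P` are the same
-/

set_option autoImplicit false

namespace H47E

open PowerSeries

section Gen

variable {R : Type} [CommRing R]

/-- A power series with coefficients in a subring and constant coefficient `1` has an inverse with coefficients in the subring. -/
theorem e5c_inv (O : Subring R) (F : R⟦X⟧) (hF : ∀ i, coeff i F ∈ O) (h0 : constantCoeff F = 1) :
    ∃ G : R⟦X⟧, (∀ i, coeff i G ∈ O) ∧ F * G = 1 := by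
  have h1 : IsUnit (PowerSeries.mk (fun i => (⟨coeff i F, hF i⟩ : O)) : O⟦X⟧) := by
    rw [PowerSeries.isUnit_iff_constantCoeff]
    have h2 : constantCoeff (PowerSeries.mk (fun i => (⟨coeff i F, hF i⟩ : O)) : O⟦X⟧) = 1 := by
      rw [← coeff_zero_eq_constantCoeff_apply, coeff_mk]
      refine Subtype.ext ?_
      show coeff 0 F = 1
      rw [coeff_zero_eq_constantCoeff_apply, h0]
    rw [h2]
    exact isUnit_one
  obtain ⟨G', hG'⟩ := h1.exists_right_inv
  refine ⟨PowerSeries.map O.subtype G', fun i => ?_, ?_⟩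
  · rw [coeff_map]
    exact (coeff i G').2
  · have h3 : F = PowerSeries.map O.subtype (PowerSeries.mk (fun i => (⟨coeff i F, hF i⟩ : O))) := by
      ext i
      rw [coeff_map, coeff_mk]
      rfl
    have h4 := congrArg (PowerSeries.map O.subtype) hG'
    rw [map_mul, map_one, ← h3] at h4
    exact h4

/-- Series with coefficients in a subring. -/
theorem e5c_mem (O : Subring R) (F : R⟦X⟧) : (∀ i, coeff i F ∈ O) ↔ F ∈ (PowerSeries.map O.subtype).range := by
  constructor
  · intro hF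
    refine ⟨PowerSeries.mk (fun i => (⟨coeff i F, hF i⟩ : O)), ?_⟩
    ext i
    rw [coeff_map, coeff_mk]
    rfl
  · rintro ⟨G, rfl⟩ i
    rw [coeff_map]
    exact (coeff i G).2

end Gen

variable {n : ℕ} {K : Type} [Field K] [CharZero K] {a c : K} (S : Ser K a c) {k : Type} [CommRing k] [Algebra K k] [IsDomain k] [CharZero k]
  [Fact (c ≠ 0)] (p : Fin n → K) (dk : Derivation K k k)

/-- Change of generators: `F = U G`, coefficients of `U` in `OA`.

Proof. `∑_(l < N) f l * coeff l (U * G) = ∑_(s < N) (∑_(s ≤ l < N) f l * coeff (l - s) U) * coeff s G`. -/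
theorem e5c_conv {κ : ℕ} (F U G : (LL n a c k)⟦X⟧) (hU : ∀ i, TA a c 0 (coeff i U)) (hF : F = U * G) (N : ℕ) (f : ℕ → LL n a c k)
    (hf : ∀ l, TA a c κ (f l)) : ∃ f' : ℕ → LL n a c k, (∀ l, TA a c κ (f' l)) ∧
      ∑ l ∈ Finset.range N, f l * coeff l F = ∑ l ∈ Finset.range N, f' l * coeff l G := by
  refine ⟨fun s => ∑ l ∈ (Finset.range N).filter (fun l => s ≤ l), f l * coeff (l - s) U, fun s => ?_, ?_⟩
  · refine e1i_TA_sum a c _ _ fun l _ => ?_
    have h := e1i_TA_mul a c (hf l) (hU (l - s))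
    rw [add_zero] at h
    exact h
  · have h1 : ∀ l ∈ Finset.range N, f l * coeff l F = ∑ s ∈ Finset.range (l + 1), f l * coeff (l - s) U * coeff s G := by
      intro l _
      rw [hF, mul_comm U G, coeff_mul, Finset.Nat.sum_antidiagonal_eq_sum_range_succ_mk, Finset.mul_sum]
      refine Finset.sum_congr rfl fun s _ => ?_
      ring
    rw [Finset.sum_congr rfl h1, Finset.sum_comm' (s' := fun s => (Finset.range N).filter (fun l => s ≤ l)) (t' := Finset.range N)]
    · refine Finset.sum_congr rfl fun s _ => ?_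
      rw [Finset.sum_mul]
    · intro l s
      rw [Finset.mem_filter, Finset.mem_range, Finset.mem_range, Finset.mem_range]
      omega

omit [CharZero K] in
/-- Multiples. -/
theorem e5c_smul {κ : ℕ} (r : K) {m : LL n a c k} (hm : TA a c κ m) : TA a c κ (r • m) := by
  have h0 : TA a c κ (0 : LL n a c k) := fun I hI => absurd (by unfold crd; simp) hI
  have h := e1i_TA_add a c (le_refl κ) h0 hm (algebraMap K k r)
  rw [zero_add, algebraMap_smul] at h
  exact h

/-- The product of the `N_j ^ ν`. -/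
theorem e5c_N (ν : ℕ) : (∀ i, coeff i (∏ j, Nj (n := n) S k p j ^ ν) ∈ OA (n := n) a c (k := k)) ∧
    constantCoeff (∏ j, Nj (n := n) S k p j ^ ν) = 1 := by
  constructor
  · rw [e5c_mem]
    refine prod_mem fun j _ => pow_mem ?_ ν
    rw [← e5c_mem]
    intro i I hI
    have h := (e5b_gen S (k := k) p j i).1 I hI
    exact ⟨h.1, fun j => (h.2 j).1⟩
  · rw [map_prod]
    refine Finset.prod_eq_one fun j _ => ?_
    rw [map_pow, (e4_const S (k := k) p j).1, one_pow]

/-- From the derivatives of `P` to the coefficients of `G_P`: `D ^ l P = l! coeff l (Exp P)`, `Exp P = (∏ N_j ^ ν)⁻¹ G_P`, and the inverse has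
coefficients in `OA` (`e5c_inv`, `e4_const`, `e5b_gen`). -/
theorem e5c_toG {κ : ℕ} (ν : ℕ) (P : LL n a c k) (N : ℕ) (f : ℕ → LL n a c k) (hf : ∀ l, TA a c κ (f l)) :
    ∃ f' : ℕ → LL n a c k, (∀ l, TA a c κ (f' l)) ∧
      ∑ l ∈ Finset.range N, f l * (der a c dk p)^[l] P = ∑ l ∈ Finset.range N, f' l * coeff l (GP S p dk ν P) := by
  obtain ⟨hN1, hN2⟩ := e5c_N S (k := k) p ν
  obtain ⟨V, hV, hFV⟩ := e5c_inv (OA (n := n) a c (k := k)) _ hN1 hN2
  have hE : expD (der a c dk p) P = V * GP S p dk ν P := by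
    unfold GP
    rw [← mul_assoc, mul_comm V, hFV, one_mul]
  obtain ⟨f', hf', hsum⟩ := e5c_conv (a := a) (c := c) (k := k) (κ := κ) _ V (GP S p dk ν P) hV hE N
    (fun l => ((l.factorial : K)) • f l) (fun l => e5c_smul _ (hf l))
  refine ⟨f', hf', ?_⟩
  rw [← hsum]
  refine Finset.sum_congr rfl fun l _ => ?_
  have hl : (l.factorial : K) ≠ 0 := by exact_mod_cast Nat.factorial_ne_zero l
  rw [expD_coeff, smul_mul_smul_comm, mul_inv_cancel₀ hl, one_smul]

/-- From the coefficients of `G_P` to the derivatives of `P`. -/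
theorem e5c_toD {κ : ℕ} (ν : ℕ) (P : LL n a c k) (N : ℕ) (f : ℕ → LL n a c k) (hf : ∀ l, TA a c κ (f l)) :
    ∃ f' : ℕ → LL n a c k, (∀ l, TA a c κ (f' l)) ∧
      ∑ l ∈ Finset.range N, f l * coeff l (GP S p dk ν P) = ∑ l ∈ Finset.range N, f' l * (der a c dk p)^[l] P := by
  obtain ⟨hN1, hN2⟩ := e5c_N S (k := k) p ν
  obtain ⟨f', hf', hsum⟩ := e5c_conv (a := a) (c := c) (k := k) (κ := κ) (GP S p dk ν P) (∏ j, Nj S k p j ^ ν)
    (expD (der a c dk p) P) hN1 rfl N f hf
  refine ⟨fun l => ((l.factorial : K))⁻¹ • f' l, fun l => e5c_smul _ (hf' l), ?_⟩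
  rw [hsum]
  refine Finset.sum_congr rfl fun l _ => ?_
  rw [expD_coeff, mul_smul_comm, smul_mul_assoc]

end H47E
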