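import Pool.Agent.Lib.H47E.E7

/-!
# H47E, chunks E6a, E6b, E6c: coordinates in a subring of the power series
-/

set_option autoImplicit false

namespace H47E

open PowerSeries

variable {n : ℕ} {K : Type} [Field K] [CharZero K] {a c : K} [Fact (c ≠ 0)]

/-- The coordinates of a series over `LL n a c K`. -/
noncomputable def scrd (a c : K) [Fact (c ≠ 0)] (F : (LL n a c K)⟦X⟧) (I : Fin n → Ix) : K⟦X⟧ :=
  PowerSeries.mk fun i => crd a c (coeff i F) I

/-- The subring of `(LL n a c K)⟦X⟧` generated by a subring `CC` of `K⟦X⟧` and the generators `x_j, xb_j, yt_j, w_j`. -/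
noncomputable def LCr (n : ℕ) (a c : K) (CC : Subring K⟦X⟧) : Subring (LL n a c K)⟦X⟧ :=
  Subring.closure ({F | ∃ φ ∈ CC, F = kap K φ} ∪
    {F | ∃ i : Fin n × Fin 4, F = C (Ideal.Quotient.mk (relI n a c K) (MvPolynomial.X i) : LL n a c K)})

end H47E
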