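import Pool.Agent.Lib.H47E.E6

/-!
# H47E, chunk E6a: coordinates in a subring of the power series
-/

set_option autoImplicit false

namespace H47E

open PowerSeries

variable {n : ℕ} {K : Type} [Field K] [CharZero K] {a c : K} [Fact (c ≠ 0)] (CC : Subring K⟦X⟧)

theorem e6a_gen (j : Fin n) : C (gx a c K j) ∈ LCr n a c CC ∧ C (gb a c K j) ∈ LCr n a c CC ∧
    C (gt a c K j) ∈ LCr n a c CC ∧ C (gw a c K j) ∈ LCr n a c CC :=
  ⟨Subring.subset_closure (Or.inr ⟨(j, 0), rfl⟩), Subring.subset_closure (Or.inr ⟨(j, 1), rfl⟩),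
    Subring.subset_closure (Or.inr ⟨(j, 2), rfl⟩), Subring.subset_closure (Or.inr ⟨(j, 3), rfl⟩)⟩

theorem e6a_mon (I : Fin n → Ix) : C (mon a c K I) ∈ LCr n a c CC := by
  unfold mon
  rw [map_prod]
  refine Subring.prod_mem _ fun j _ => ?_
  obtain ⟨h1, h2, h3, h4⟩ := e6a_gen (a := a) (c := c) CC j
  unfold mon1
  rw [map_mul, map_mul, map_pow, map_pow]
  refine Subring.mul_mem _ (Subring.mul_mem _ ?_ (Subring.pow_mem _ h3 _)) (Subring.pow_mem _ h4 _)
  split_ifs
  · rw [map_pow]
    exact Subring.pow_mem _ h1 _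
  · rw [map_pow]
    exact Subring.pow_mem _ h2 _

theorem e6a_smul (r : K) (m : LL n a c K) : r • m = algebraMap K (LL n a c K) r * m := Algebra.smul_def r m

theorem e6a_coeff (φ : K⟦X⟧) (m : LL n a c K) (i : ℕ) : coeff i (kap K φ * C m) = coeff i φ • m := by
  rw [coeff_mul_C, e6a_smul]
  unfold kap
  rw [coeff_map]

theorem e6a_single (j : Fin n) (i : Ix) : mon a c K (Function.update (fun _ => (0, 0, 0)) j i) = mon1 a c K j i := by
  classical
  unfold mon
  rw [Finset.prod_eq_single j]
  · rw [Function.update_self]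
  · intro l _ hl
    rw [Function.update_of_ne hl]
    unfold mon1
    simp
  · intro h
    exact absurd (Finset.mem_univ j) h

/-- The additive group generated by the multiples of the monomials. -/
noncomputable def e6a_Q (n : ℕ) (a c : K) (CC : Subring K⟦X⟧) : AddSubgroup (LL n a c K)⟦X⟧ :=
  AddSubgroup.closure {F | ∃ φ ∈ CC, ∃ I : Fin n → Ix, F = kap K φ * C (mon a c K I)}

theorem e6a_Qmon {φ : K⟦X⟧} (hφ : φ ∈ CC) (I : Fin n → Ix) : kap K φ * C (mon a c K I) ∈ e6a_Q n a c CC :=
  AddSubgroup.subset_closure ⟨φ, hφ, I, rfl⟩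

theorem e6a_Qspan {P : Set (Fin n → Ix)} {m : LL n a c K}
    (hm : m ∈ Submodule.span (CC.comap (C : K →+* K⟦X⟧)) (mon a c K '' P)) : ∀ φ ∈ CC, kap K φ * C m ∈ e6a_Q n a c CC := by
  refine Submodule.span_induction (p := fun m _ => ∀ φ ∈ CC, kap K φ * C m ∈ e6a_Q n a c CC) ?_ ?_ ?_ ?_ hm
  · rintro m ⟨I, -, rfl⟩ φ hφ
    exact e6a_Qmon CC hφ I
  · intro φ _
    rw [map_zero, mul_zero]
    exact AddSubgroup.zero_mem _
  · intro m m' _ _ h h' φ hφ
    rw [map_add, mul_add]
    exact AddSubgroup.add_mem _ (h φ hφ) (h' φ hφ)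
  · intro r m _ h φ hφ
    have h2 : r • m = algebraMap K (LL n a c K) (r : K) * m := Algebra.smul_def (r : K) m
    have h3 : (C (algebraMap K (LL n a c K) (r : K)) : (LL n a c K)⟦X⟧) = kap K (C (r : K)) := by
      unfold kap
      rw [PowerSeries.map_C]
    rw [h2, map_mul, h3, ← mul_assoc, ← map_mul]
    exact h _ (Subring.mul_mem _ hφ r.2)

theorem e6a_Qmul (ha : C a ∈ CC) (hc : C c ∈ CC) {F G : (LL n a c K)⟦X⟧} (hF : F ∈ e6a_Q n a c CC) (hG : G ∈ e6a_Q n a c CC) :
    F * G ∈ e6a_Q n a c CC := by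
  refine AddSubgroup.closure_induction (p := fun F _ => F * G ∈ e6a_Q n a c CC) ?_ ?_ ?_ ?_ hF
  · rintro F ⟨φ, hφ, I, rfl⟩
    refine AddSubgroup.closure_induction (p := fun G _ => kap K φ * C (mon a c K I) * G ∈ e6a_Q n a c CC) ?_ ?_ ?_ ?_ hG
    · rintro G ⟨φ', hφ', I', rfl⟩
      have h1 := e6a_Qspan CC (e1g_mul a c K (R := CC.comap (C : K →+* K⟦X⟧)) ha hc I I') (φ * φ') (Subring.mul_mem _ hφ hφ')
      have h2 : kap K φ * C (mon a c K I) * (kap K φ' * C (mon a c K I')) = kap K (φ * φ') * C (mon a c K I * mon a c K I') := by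
        rw [map_mul, map_mul]
        ring
      rw [h2]
      exact h1
    · rw [mul_zero]
      exact AddSubgroup.zero_mem _
    · intro x y _ _ hx hy
      rw [mul_add]
      exact AddSubgroup.add_mem _ hx hy
    · intro x _ hx
      have h : kap K φ * C (mon a c K I) * -x = -(kap K φ * C (mon a c K I) * x) := by ring
      rw [h]
      exact AddSubgroup.neg_mem _ hx
  · rw [zero_mul]
    exact AddSubgroup.zero_mem _
  · intro x y _ _ hx hy
    rw [add_mul]
    exact AddSubgroup.add_mem _ hx hy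
  · intro x _ hx
    have h : -x * G = -(x * G) := by ring
    rw [h]
    exact AddSubgroup.neg_mem _ hx

theorem e6a_le (ha : C a ∈ CC) (hc : C c ∈ CC) {F : (LL n a c K)⟦X⟧} (hF : F ∈ LCr n a c CC) : F ∈ e6a_Q n a c CC := by
  have hone : mon a c K (fun _ : Fin n => ((0, 0, 0) : Ix)) = 1 := (e1h_one a c (k := K) (n := n)).2.2
  have hm1 : ∀ (j : Fin n) (i : Ix), C (mon1 a c K j i) ∈ e6a_Q n a c CC := by
    intro j i
    have h := e6a_Qmon (a := a) (c := c) CC (Subring.one_mem CC) (Function.update (fun _ => (0, 0, 0)) j i)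
    rwa [e6a_single, map_one, one_mul] at h
  refine Subring.closure_induction (p := fun F _ => F ∈ e6a_Q n a c CC) ?_ ?_ ?_ ?_ ?_ ?_ hF
  · rintro F (⟨φ, hφ, rfl⟩ | ⟨⟨j, t⟩, rfl⟩)
    · have h := e6a_Qmon (a := a) (c := c) CC hφ (fun _ : Fin n => ((0, 0, 0) : Ix))
      rwa [hone, map_one, mul_one] at h
    · have h0 := hm1 j (1, 0, 0)
      have h1 := hm1 j (-1, 0, 0)
      have h2 := hm1 j (0, 1, 0)
      have h3 := hm1 j (0, 0, 1)
      have e0 : mon1 a c K j (1, 0, 0) = gx a c K j := by
        unfold mon1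
        simp
      have e1 : mon1 a c K j (-1, 0, 0) = gb a c K j := by
        unfold mon1
        simp
      have e2 : mon1 a c K j (0, 1, 0) = gt a c K j := by
        unfold mon1
        simp
      have e3 : mon1 a c K j (0, 0, 1) = gw a c K j := by
        unfold mon1
        simp
      rw [e0] at h0
      rw [e1] at h1
      rw [e2] at h2
      rw [e3] at h3
      fin_cases t
      · exact h0
      · exact h1
      · exact h2
      · exact h3
  · exact AddSubgroup.zero_mem _
  · have h := e6a_Qmon (a := a) (c := c) CC (Subring.one_mem CC) (fun _ : Fin n => ((0, 0, 0) : Ix))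
    rwa [hone, map_one, map_one, mul_one] at h
  · intro x y _ _ hx hy
    exact AddSubgroup.add_mem _ hx hy
  · intro x _ hx
    exact AddSubgroup.neg_mem _ hx
  · intro x y _ _ hx hy
    exact e6a_Qmul CC ha hc hx hy

theorem e6a_crd_smul (r : K) (m : LL n a c K) (I : Fin n → Ix) : crd a c (r • m) I = r * crd a c m I := by
  unfold crd
  rw [map_smul]
  rfl

theorem e6a_crd_mon (J I : Fin n → Ix) : crd a c (mon a c K J) I = 0 ∨ crd a c (mon a c K J) I = 1 := by
  classical
  unfold crd
  rw [← LB_apply a c K J, Module.Basis.repr_self, Finsupp.single_apply]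
  split_ifs
  · exact Or.inr rfl
  · exact Or.inl rfl

/-- Elements of `LCr`: the generators (S). -/
theorem e6a_mem (φ : K⟦X⟧) (hφ : φ ∈ CC) (j : Fin n) (I : Fin n → Ix) : kap K φ ∈ LCr n a c CC ∧ C (gx a c K j) ∈ LCr n a c CC ∧
    C (gy a c K j) ∈ LCr n a c CC ∧ C (gw a c K j) ∈ LCr n a c CC ∧ C (mon a c K I) ∈ LCr n a c CC := by
  obtain ⟨h1, h2, h3, h4⟩ := e6a_gen (a := a) (c := c) CC j
  refine ⟨Subring.subset_closure (Or.inl ⟨φ, hφ, rfl⟩), h1, ?_, h4, e6a_mon CC I⟩
  unfold gy
  rw [map_mul]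
  exact Subring.mul_mem _ h1 h3

/-- `tau` maps `LCr` to itself (`Subring.closure_induction` or `Subring.closure_le` with the comap). -/
theorem e6a_tau (S : Finset (Fin n)) {F : (LL n a c K)⟦X⟧} (hF : F ∈ LCr n a c CC) :
    PowerSeries.map (tau a c K S) F ∈ LCr n a c CC := by
  have h : LCr n a c CC ≤ (LCr n a c CC).comap (PowerSeries.map (tau a c K S)) := by
    refine Subring.closure_le.2 ?_
    rintro F (⟨φ, hφ, rfl⟩ | ⟨⟨j, t⟩, rfl⟩)
    · show PowerSeries.map (tau a c K S) (kap K φ) ∈ LCr n a c CC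
      have h1 : PowerSeries.map (tau a c K S) (kap K φ) = kap K φ := by
        unfold kap
        ext i
        rw [coeff_map, coeff_map, e2a_alg]
      rw [h1]
      exact Subring.subset_closure (Or.inl ⟨φ, hφ, rfl⟩)
    · obtain ⟨h1, h2, h3, h4⟩ := e6a_gen (a := a) (c := c) CC j
      show PowerSeries.map (tau a c K S) (C (Ideal.Quotient.mk (relI n a c K) (MvPolynomial.X (j, t)) : LL n a c K)) ∈ LCr n a c CC
      rw [PowerSeries.map_C]
      obtain ⟨g1, g2⟩ := e2a_gen a c K S j
      by_cases hj : j ∈ S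
      · obtain ⟨k0, k1, k2, k3⟩ := g1 hj
        fin_cases t
        · show C (tau a c K S (gx a c K j)) ∈ LCr n a c CC
          rw [k0]
          exact h2
        · show C (tau a c K S (gb a c K j)) ∈ LCr n a c CC
          rw [k1]
          exact h1
        · show C (tau a c K S (gt a c K j)) ∈ LCr n a c CC
          rw [k2, map_neg]
          exact Subring.neg_mem _ h3
        · show C (tau a c K S (gw a c K j)) ∈ LCr n a c CC
          rw [k3, map_add]
          exact Subring.add_mem _ h4 h3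
      · obtain ⟨k0, k1, k2, k3⟩ := g2 hj
        fin_cases t
        · show C (tau a c K S (gx a c K j)) ∈ LCr n a c CC
          rw [k0]
          exact h1
        · show C (tau a c K S (gb a c K j)) ∈ LCr n a c CC
          rw [k1]
          exact h2
        · show C (tau a c K S (gt a c K j)) ∈ LCr n a c CC
          rw [k2]
          exact h3
        · show C (tau a c K S (gw a c K j)) ∈ LCr n a c CC
          rw [k3]
          exact h4
  exact h hF

/-- MAIN POINT: the coordinates of an element of `LCr` are in `CC`.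

Proof. Let `Q` be the set of the finite sums `∑_(I ∈ s) kap φ_I * C (mon I)` with `φ_I ∈ CC`. It is a subring: for the products,
`mon I * mon I'` is a finite `R`-combination of monomials (`e1g_mul`) where `R = {r : K | C r ∈ CC}` is a subring which contains `a` and `c`;
it contains the generators. So `LCr ⊆ Q`, and `scrd (∑ kap φ_I * C (mon I)) J = φ_J` or `0` (`coeff i (kap φ * C m) = coeff i φ • m`). -/
theorem e6a_scrd (ha : C a ∈ CC) (hc : C c ∈ CC) {F : (LL n a c K)⟦X⟧} (hF : F ∈ LCr n a c CC) (I : Fin n → Ix) :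
    scrd a c F I ∈ CC := by
  have hQ := e6a_le CC ha hc hF
  refine AddSubgroup.closure_induction (p := fun F _ => scrd a c F I ∈ CC) ?_ ?_ ?_ ?_ hQ
  · rintro F ⟨φ, hφ, J, rfl⟩
    have h1 : scrd a c (kap K φ * C (mon a c K J)) I = φ * C (crd a c (mon a c K J) I) := by
      ext i
      unfold scrd
      rw [coeff_mk, e6a_coeff, e6a_crd_smul, coeff_mul_C]
    rw [h1]
    rcases e6a_crd_mon (a := a) (c := c) J I with h | h
    · rw [h, map_zero, mul_zero]
      exact Subring.zero_mem _
    · rw [h, map_one, mul_one]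
      exact hφ
  · have h1 : scrd a c (0 : (LL n a c K)⟦X⟧) I = 0 := by
      ext i
      unfold scrd crd
      rw [coeff_mk, map_zero, map_zero]
      rfl
    rw [h1]
    exact Subring.zero_mem _
  · intro x y _ _ hx hy
    have h1 : scrd a c (x + y) I = scrd a c x I + scrd a c y I := by
      ext i
      unfold scrd crd
      rw [map_add, coeff_mk, coeff_mk, coeff_mk, map_add, map_add]
      rfl
    rw [h1]
    exact Subring.add_mem _ hx hy
  · intro x _ hx
    have h1 : scrd a c (-x) I = -scrd a c x I := by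
      ext i
      unfold scrd crd
      rw [map_neg, coeff_mk, coeff_mk, map_neg, map_neg]
      rfl
    rw [h1]
    exact Subring.neg_mem _ hx

/-- Multiplication by a series over `K`. -/
theorem e6a_kap (φ : K⟦X⟧) (F : (LL n a c K)⟦X⟧) (I : Fin n → Ix) : scrd a c (kap K φ * F) I = φ * scrd a c F I := by
  ext i
  have h1 : coeff i (kap K φ * F) = ∑ p ∈ Finset.HasAntidiagonal.antidiagonal i, coeff p.1 φ • coeff p.2 F := by
    rw [coeff_mul]
    refine Finset.sum_congr rfl fun p _ => ?_
    rw [e6a_smul]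
    unfold kap
    rw [coeff_map]
  unfold scrd
  rw [coeff_mk, h1, coeff_mul]
  unfold crd
  rw [map_sum, Finsupp.finsetSum_apply]
  refine Finset.sum_congr rfl fun p _ => ?_
  rw [coeff_mk, map_smul]
  rfl

end H47E
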