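import Pool.Agent.Lib.H47E.E6a

/-!
# H47E, chunk E6b: the coordinates of the families, p-adic normalisation
-/

set_option autoImplicit false

namespace H47E

open PowerSeries

variable {n : ℕ} {K : Type} [Field K] [CharZero K] {a c : K} [Fact (c ≠ 0)] (S : Ser K a c) (p : Fin n → K) (CC : Subring K⟦X⟧)

theorem e6b_P {T : Type} [CommRing T] (L : Subring T) {a c t v g x y w : T} (ha : a ∈ L) (hc : c ∈ L) (ht : t ∈ L) (hv : v ∈ L)
    (hg : g ∈ L) (hx : x ∈ L) (hy : y ∈ L) (hw : w ∈ L) :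
    pN a c t v x ∈ L ∧ pX a c t v x y ∈ L ∧ pY a c t v x y ∈ L ∧ pW a c t v g x y w ∈ L := by
  lift a to L using ha
  lift c to L using hc
  lift t to L using ht
  lift v to L using hv
  lift g to L using hg
  lift x to L using hx
  lift y to L using hy
  lift w to L using hw
  have c2 : ((2 : L) : T) = 2 := map_ofNat L.subtype 2
  have c3 : ((3 : L) : T) = 3 := map_ofNat L.subtype 3
  have h1 : pN (a : T) c t v x = ((pN a c t v x : L) : T) := by simp [pN]
  have h2 : pX (a : T) c t v x y = ((pX a c t v x y : L) : T) := by simp [pX, c2]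
  have h3 : pY (a : T) c t v x y = ((pY a c t v x y : L) : T) := by simp [pY, c2, c3]
  have h4 : pW (a : T) c t v g x y w = ((pW a c t v g x y w : L) : T) := by simp [pW, pN]
  rw [h1, h2, h3, h4]
  exact ⟨Subtype.property _, Subtype.property _, Subtype.property _, Subtype.property _⟩

theorem e6b_kap {φ : K⟦X⟧} (hφ : φ ∈ CC) : kap K φ ∈ LCr n a c CC :=
  Subring.subset_closure (Or.inl ⟨φ, hφ, rfl⟩)

theorem e6b_mon (I : Fin n → Ix) : C (mon a c K I) ∈ LCr n a c CC := by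
  rcases isEmpty_or_nonempty (Fin n) with h | ⟨⟨j⟩⟩
  · have h1 : mon a c K I = 1 := by
      unfold mon
      exact Finset.prod_of_isEmpty _
    rw [h1, map_one]
    exact one_mem _
  · exact (e6a_mem CC 0 (zero_mem _) j I).2.2.2.2

theorem e6b_scrdC (m : LL n a c K) (J : Fin n → Ix) : scrd a c (C m) J = C (crd a c m J) := by
  ext i
  unfold scrd
  rw [coeff_mk, coeff_C, coeff_C]
  split_ifs with h
  · rfl
  · exact e1h_crd_zero a c J

theorem e6b_gen (ha : C a ∈ CC) (hc : C c ∈ CC) (ht : ∀ j, sc (p j) S.t ∈ CC ∧ sc (p j) S.v ∈ CC ∧ sc (p j) S.g ∈ CC) (j : Fin n) :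
    Nj S K p j ∈ LCr n a c CC ∧ Xj S K p j ∈ LCr n a c CC ∧ Yj S K p j ∈ LCr n a c CC ∧ Wj S K p j ∈ LCr n a c CC := by
  have h := e6a_mem (n := n) (a := a) (c := c) CC 0 (zero_mem _) j (fun _ => (0, 0, 0))
  exact e6b_P (LCr n a c CC) (e6b_kap CC ha) (e6b_kap CC hc) (e6b_kap CC (ht j).1) (e6b_kap CC (ht j).2.1)
    (e6b_kap CC (ht j).2.2) h.2.1 h.2.2.1 h.2.2.2.1

theorem e6b_lin (ν : ℕ) (s : Finset (Fin n → Ix)) (r : (Fin n → Ix) → K) :
    GP S p (0 : Derivation K K K) ν (∑ J ∈ s, r J • mon a c K J) =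
      ∑ J ∈ s, kap K (C (r J)) * GP S p (0 : Derivation K K K) ν (mon a c K J) := by
  unfold GP
  rw [map_sum, Finset.mul_sum]
  refine Finset.sum_congr rfl fun J _ => ?_
  have h1 : r J • mon a c K J = algebraMap K (LL n a c K) (r J) * mon a c K J := e2_smul a c _ _
  have h2 : (kap K (C (r J)) : (LL n a c K)⟦X⟧) = C (algebraMap K (LL n a c K) (r J)) := PowerSeries.map_C _ _
  have h3 : expD (der a c (0 : Derivation K K K) p) (algebraMap K (LL n a c K) (r J)) = C (algebraMap K (LL n a c K) (r J)) :=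
    expD_const _ _ (Derivation.map_algebraMap _ _)
  rw [h1, map_mul, h3, h2]
  ring

/-- The coordinates of `v_I(mon l)(u) mon μ` are in every subring of `K⟦X⟧` which contains `a, c` and the `t_j, v_j, g_j`.

Proof. `P_I = x_I ^ nu2 tau_I(mon l)` is of type A and weight `≤ nu1` (`e5b_PI`); `C P_I ∈ LCr`, so its coordinates `r_J` have `C r_J ∈ CC`
(`e6a_scrd`). `GP nu1 P_I = ∑_J kap (C r_J) * GP nu1 (mon J)` (linearity) and `GP nu1 (mon J) ∈ LCr` by `e5b_GPmon` (the `N_j, X1_j, Y1_j, W1_j` are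
polynomials in `kap` of `a, c, t_j, v_j, g_j` and `C` of `x_j, y_j, w_j`). Then `e6a_tau`, multiplication by `C x_I ^ nup` and `C (mon μ)`, and
`e6a_scrd`. -/
theorem e6b_main (ha : C a ∈ CC) (hc : C c ∈ CC) (ht : ∀ j, sc (p j) S.t ∈ CC ∧ sc (p j) S.v ∈ CC ∧ sc (p j) S.g ∈ CC) (v0 k0 : ℕ)
    (I : Finset (Fin n)) (l μ : Fin n → Ix) (hl : ∀ j, tA (l j) ∧ wt (l j) ≤ v0) (hl' : wd l ≤ k0) (b : Fin n → Ix) :
    scrd a c (vv S p (0 : Derivation K K K) v0 k0 I (mon a c K l) * C (mon a c K μ)) b ∈ CC := by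
  classical
  have hTG : TG a c v0 k0 (mon a c K l) := e1i_mon a c l ⟨hl', hl⟩
  have hC : C (PI a c v0 I (mon a c K l)) ∈ LCr n a c CC := by
    unfold PI
    rw [map_mul, map_prod]
    refine mul_mem (prod_mem fun j _ => ?_) ?_
    · rw [map_pow]
      exact pow_mem (e6a_mem CC 0 (zero_mem _) j l).2.1 _
    · have h1 := e6a_tau CC I (e6b_mon (a := a) (c := c) CC l)
      rw [PowerSeries.map_C] at h1
      exact h1
  have hr : ∀ J, C (crd a c (PI a c v0 I (mon a c K l)) J) ∈ CC := by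
    intro J
    rw [← e6b_scrdC]
    exact e6a_scrd CC ha hc hC J
  have hG : GP S p (0 : Derivation K K K) (nu1 v0 k0) (PI a c v0 I (mon a c K l)) ∈ LCr n a c CC := by
    obtain ⟨s, hs⟩ := e2_exp a c (PI a c v0 I (mon a c K l))
    rw [hs, e6b_lin]
    refine sum_mem fun J _ => ?_
    by_cases h0 : crd a c (PI a c v0 I (mon a c K l)) J = 0
    · rw [h0, map_zero, map_zero, zero_mul]
      exact zero_mem _
    · refine mul_mem (e6b_kap CC (hr J)) ?_
      have h2 := e5b_PI hTG I J h0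
      rw [e5b_GPmon S p (0 : Derivation K K K) (nu1 v0 k0) J h2.2]
      refine prod_mem fun j _ => ?_
      have h3 := e6b_gen S p CC ha hc ht j
      exact mul_mem (mul_mem (mul_mem (pow_mem h3.1 _) (pow_mem h3.2.1 _)) (pow_mem h3.2.2.1 _)) (pow_mem h3.2.2.2 _)
  refine e6a_scrd CC ha hc (mul_mem ?_ (e6b_mon CC μ)) b
  unfold vv
  refine mul_mem ?_ (e6a_tau CC I hG)
  rw [map_prod]
  refine prod_mem fun j _ => ?_
  rw [map_pow]
  exact pow_mem (e6a_mem CC 0 (zero_mem _) j l).2.1 _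

end H47E
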