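import Pool.Agent.Lib.H47E.E6a

/-!
# H47E, chunk E6c: the coordinates of the families, archimedean normalisation
-/

set_option autoImplicit false

namespace H47E

open PowerSeries

variable {n : ℕ} {K : Type} [Field K] [CharZero K] {a c : K} [Fact (c ≠ 0)] (S : Ser K a c) (p : Fin n → K) (CC : Subring K⟦X⟧)

/-- The factor `∏ U(p_j u) ^ k0 rho(p_j u) ^ (2 nu1)`. -/
noncomputable def Xi (v0 k0 : ℕ) : K⟦X⟧ := ∏ j, (sc (p j) S.U ^ k0 * sc (p j) S.rho ^ (2 * nu1 v0 k0))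

omit [CharZero K] [Fact (c ≠ 0)] in
theorem e6c_sc (q : K) (f : K⟦X⟧) : sc q f = rescale q f := by
  ext i
  rw [coeff_rescale]
  unfold sc
  rw [coeff_mk]

omit [CharZero K] [Fact (c ≠ 0)] in
theorem e6c_resC (q r : K) : rescale q (C r) = C r := by
  ext i
  rw [coeff_rescale, coeff_C]
  split_ifs with h
  · rw [h, pow_zero, one_mul]
  · rw [mul_zero]

omit [CharZero K] [Fact (c ≠ 0)] in
theorem e6c_kapmem (φ : K⟦X⟧) (hφ : φ ∈ CC) : kap K φ ∈ LCr n a c CC := Subring.subset_closure (Or.inl ⟨φ, hφ, rfl⟩)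

/-- In one direction: `rho ^ 2 N`, `rho ^ 4 X1`, `rho ^ 6 Y1`, `rho ^ 3 t W1` are polynomials in `U, X, Y, Z`.

Proof. With `U = rho t`, `X = rho ^ 2 xi`, `Y = - rho ^ 3 xi`, `Z = rho (1 + t g)`:
`rho ^ 2 N = X - x U ^ 2`;
`rho ^ 4 X1 = x X (x U ^ 2 + X + 2 a U ^ 2) + c U ^ 2 (x U ^ 2 + X) - 2 U Y y`;
`rho ^ 6 Y1 = y [X ^ 3 + 3 x X ^ 2 U ^ 2 + 2 a X ^ 2 U ^ 2 + 2 a x X U ^ 4 + 3 c X U ^ 4 + c x U ^ 6] - Y [U ^ 3 x ^ 3 + 3 X U x ^ 2 + 2 a U ^ 3 x ^ 2 + 2 a X U x`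
`+ 3 c U ^ 3 x + c U X]`;
`rho ^ 3 t W1 = U (rho ^ 2 N) w + (rho ^ 2 N) Z + Y - U ^ 3 y`.
(All by `ring` after unfolding; `sc (p j)` and `kap` are ring homomorphisms.) -/
theorem e6c_gen (hc : C c ∈ CC) (ha : C a ∈ CC)
    (ht : ∀ j, sc (p j) S.U ∈ CC ∧ sc (p j) S.X ∈ CC ∧ sc (p j) S.Y ∈ CC ∧ sc (p j) S.Z ∈ CC) (j : Fin n) :
    kap K (sc (p j) S.rho) ^ 2 * Nj S K p j ∈ LCr n a c CC ∧ kap K (sc (p j) S.rho) ^ 4 * Xj S K p j ∈ LCr n a c CC ∧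
    kap K (sc (p j) S.rho) ^ 6 * Yj S K p j ∈ LCr n a c CC ∧
    kap K (sc (p j) S.rho) ^ 3 * kap K (sc (p j) S.t) * Wj S K p j ∈ LCr n a c CC := by
  obtain ⟨hU, hX, hY, hZ⟩ := ht j
  have mU := e6c_kapmem (n := n) (a := a) (c := c) CC _ hU
  have mX := e6c_kapmem (n := n) (a := a) (c := c) CC _ hX
  have mY := e6c_kapmem (n := n) (a := a) (c := c) CC _ hY
  have mZ := e6c_kapmem (n := n) (a := a) (c := c) CC _ hZ
  have mA := e6c_kapmem (n := n) (a := a) (c := c) CC _ ha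
  have mC := e6c_kapmem (n := n) (a := a) (c := c) CC _ hc
  obtain ⟨-, mx, my, mw, -⟩ := e6a_mem (n := n) (a := a) (c := c) CC (C a) ha j (fun _ => (0, 0, 0))
  have eU : kap K (sc (p j) S.U) = (kap K (sc (p j) S.rho) * kap K (sc (p j) S.t) : (LL n a c K)⟦X⟧) := by
    rw [← map_mul]
    congr 1
    simp only [e6c_sc, Ser.U, map_mul]
  have hC1 : ∀ r : K, sc (p j) (C r) = C r := by
    intro r
    rw [e6c_sc, e6c_resC]
  have exi : kap K (sc (p j) S.xi) = (1 - kap K (C a) * kap K (sc (p j) S.t) ^ 2 - kap K (C c) * kap K (sc (p j) S.t) ^ 2 * kap K (sc (p j) S.v) : (LL n a c K)⟦X⟧) := by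
    have h1 : sc (p j) S.xi = 1 - C a * (sc (p j) S.t) ^ 2 - C c * (sc (p j) S.t) ^ 2 * sc (p j) S.v := by
      simp only [e6c_sc, Ser.xi, map_mul, map_sub, map_one, map_pow, e6c_resC]
    rw [h1]
    simp only [map_mul, map_sub, map_one, map_pow]
  have eX : kap K (sc (p j) S.X) = (kap K (sc (p j) S.rho) ^ 2 * kap K (sc (p j) S.xi) : (LL n a c K)⟦X⟧) := by
    rw [← map_pow, ← map_mul]
    congr 1
    simp only [e6c_sc, Ser.X, map_mul, map_pow]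
  have eY : kap K (sc (p j) S.Y) = (-(kap K (sc (p j) S.rho) ^ 3 * kap K (sc (p j) S.xi)) : (LL n a c K)⟦X⟧) := by
    rw [← map_pow, ← map_mul, ← map_neg]
    congr 1
    simp only [e6c_sc, Ser.Y, map_mul, map_pow, map_neg]
  have eZ : kap K (sc (p j) S.Z) = (kap K (sc (p j) S.rho) * (1 + kap K (sc (p j) S.t) * kap K (sc (p j) S.g)) : (LL n a c K)⟦X⟧) := by
    have h1 : sc (p j) S.Z = sc (p j) S.rho * (1 + sc (p j) S.t * sc (p j) S.g) := by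
      simp only [e6c_sc, Ser.Z, map_mul, map_add, map_one]
    rw [h1]
    simp only [map_mul, map_add, map_one]
  have e1 : kap K (sc (p j) S.rho) ^ 2 * Nj S K p j = kap K (sc (p j) S.X) - C (gx a c K j) * kap K (sc (p j) S.U) ^ 2 := by
    rw [eX, eU, exi]
    unfold Nj pN
    ring
  have e2 : kap K (sc (p j) S.rho) ^ 4 * Xj S K p j = C (gx a c K j) * kap K (sc (p j) S.X) * (C (gx a c K j) * kap K (sc (p j) S.U) ^ 2 + kap K (sc (p j) S.X) + 2 * kap K (C a) * kap K (sc (p j) S.U) ^ 2)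
      + kap K (C c) * kap K (sc (p j) S.U) ^ 2 * (C (gx a c K j) * kap K (sc (p j) S.U) ^ 2 + kap K (sc (p j) S.X)) - 2 * kap K (sc (p j) S.U) * kap K (sc (p j) S.Y) * C (gy a c K j) := by
    rw [eX, eU, eY, exi]
    unfold Xj pX
    ring
  have e3 : kap K (sc (p j) S.rho) ^ 6 * Yj S K p j = C (gy a c K j) * (kap K (sc (p j) S.X) ^ 3 + 3 * C (gx a c K j) * kap K (sc (p j) S.X) ^ 2 * kap K (sc (p j) S.U) ^ 2
        + 2 * kap K (C a) * kap K (sc (p j) S.X) ^ 2 * kap K (sc (p j) S.U) ^ 2 + 2 * kap K (C a) * C (gx a c K j) * kap K (sc (p j) S.X) * kap K (sc (p j) S.U) ^ 4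
        + 3 * kap K (C c) * kap K (sc (p j) S.X) * kap K (sc (p j) S.U) ^ 4 + kap K (C c) * C (gx a c K j) * kap K (sc (p j) S.U) ^ 6)
      - kap K (sc (p j) S.Y) * (kap K (sc (p j) S.U) ^ 3 * C (gx a c K j) ^ 3 + 3 * kap K (sc (p j) S.X) * kap K (sc (p j) S.U) * C (gx a c K j) ^ 2
        + 2 * kap K (C a) * kap K (sc (p j) S.U) ^ 3 * C (gx a c K j) ^ 2 + 2 * kap K (C a) * kap K (sc (p j) S.X) * kap K (sc (p j) S.U) * C (gx a c K j)
        + 3 * kap K (C c) * kap K (sc (p j) S.U) ^ 3 * C (gx a c K j) + kap K (C c) * kap K (sc (p j) S.U) * kap K (sc (p j) S.X)) := by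
    rw [eX, eU, eY, exi]
    unfold Yj pY
    ring
  have e4 : kap K (sc (p j) S.rho) ^ 3 * kap K (sc (p j) S.t) * Wj S K p j = kap K (sc (p j) S.U) * (kap K (sc (p j) S.X) - C (gx a c K j) * kap K (sc (p j) S.U) ^ 2) * C (gw a c K j)
      + (kap K (sc (p j) S.X) - C (gx a c K j) * kap K (sc (p j) S.U) ^ 2) * kap K (sc (p j) S.Z) + kap K (sc (p j) S.Y) - kap K (sc (p j) S.U) ^ 3 * C (gy a c K j) := by
    rw [eX, eU, eY, eZ, exi]
    unfold Wj pW pN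
    ring
  generalize kap K (sc (p j) S.U) = U at *
  generalize kap K (sc (p j) S.X) = X at *
  generalize kap K (sc (p j) S.Y) = Y at *
  generalize kap K (sc (p j) S.Z) = Z at *
  generalize (kap K (C a) : (LL n a c K)⟦X⟧) = A at *
  generalize (kap K (C c) : (LL n a c K)⟦X⟧) = B at *
  generalize (C (gx a c K j) : (LL n a c K)⟦X⟧) = x at *
  generalize (C (gy a c K j) : (LL n a c K)⟦X⟧) = y at *
  generalize (C (gw a c K j) : (LL n a c K)⟦X⟧) = w at *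
  have m2 : (2 : (LL n a c K)⟦X⟧) ∈ LCr n a c CC := ofNat_mem _ 2
  have m3 : (3 : (LL n a c K)⟦X⟧) ∈ LCr n a c CC := ofNat_mem _ 3
  rw [e1, e2, e3, e4]
  refine ⟨?_, ?_, ?_, ?_⟩ <;>
    repeat' first
      | assumption
      | refine pow_mem ?_ _
      | refine sub_mem ?_ ?_
      | refine add_mem ?_ ?_
      | refine mul_mem ?_ ?_

/-- The product for one direction. -/
theorem e6c_one (R : Type) [CommRing R] (L : Subring R) (U r t N X Y W : R) (hU : U = r * t) (mU : U ∈ L) (mN : r ^ 2 * N ∈ L) (mX : r ^ 4 * X ∈ L)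
    (mY : r ^ 6 * Y ∈ L) (mW : r ^ 3 * t * W ∈ L) (k0 ν α β e κ : ℕ) (hκ : κ ≤ k0) (h : 2 * α + 4 * β + 6 * e + 3 * κ = 2 * ν + κ) :
    U ^ k0 * r ^ (2 * ν) * (N ^ α * X ^ β * Y ^ e * W ^ κ) ∈ L := by
  have e1 : U ^ k0 * r ^ (2 * ν) * (N ^ α * X ^ β * Y ^ e * W ^ κ) =
      U ^ (k0 - κ) * (r ^ 2 * N) ^ α * (r ^ 4 * X) ^ β * (r ^ 6 * Y) ^ e * (r ^ 3 * t * W) ^ κ := by
    have h1 : U ^ k0 = U ^ (k0 - κ) * (r ^ κ * t ^ κ) := by
      conv_lhs => rw [← Nat.sub_add_cancel hκ, pow_add]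
      rw [hU, mul_pow r t κ]
    have h2 : r ^ (2 * ν) * r ^ κ = r ^ (2 * α) * r ^ (4 * β) * r ^ (6 * e) * r ^ (3 * κ) := by
      rw [← pow_add, ← pow_add, ← pow_add, ← pow_add, ← h]
    rw [h1, mul_pow, mul_pow, mul_pow, mul_pow, mul_pow, ← pow_mul, ← pow_mul, ← pow_mul, ← pow_mul]
    linear_combination (U ^ (k0 - κ) * t ^ κ * (N ^ α * X ^ β * Y ^ e * W ^ κ)) * h2
  rw [e1]
  exact mul_mem (mul_mem (mul_mem (mul_mem (pow_mem mU _) (pow_mem mN _)) (pow_mem mX _)) (pow_mem mY _)) (pow_mem mW _)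

/-- `kap Xi GP (mon J)`. -/
theorem e6c_GPmon (hc : C c ∈ CC) (ha : C a ∈ CC)
    (ht : ∀ j, sc (p j) S.U ∈ CC ∧ sc (p j) S.X ∈ CC ∧ sc (p j) S.Y ∈ CC ∧ sc (p j) S.Z ∈ CC) (v0 k0 : ℕ) (J : Fin n → Ix)
    (hJ : wd J ≤ k0 ∧ ∀ j, tA (J j) ∧ wt (J j) ≤ nu1 v0 k0) :
    kap K (Xi S p v0 k0) * GP S p (0 : Derivation K K K) (nu1 v0 k0) (mon a c K J) ∈ LCr n a c CC := by
  rw [e5b_GPmon S p (0 : Derivation K K K) (nu1 v0 k0) J hJ.2]
  unfold Xi
  rw [map_prod, ← Finset.prod_mul_distrib]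
  refine Subring.prod_mem _ fun j _ => ?_
  obtain ⟨g1, g2, g3, g4⟩ := e6c_gen S p CC hc ha ht j
  rw [map_mul, map_pow, map_pow]
  have eU : kap K (sc (p j) S.U) = (kap K (sc (p j) S.rho) * kap K (sc (p j) S.t) : (LL n a c K)⟦X⟧) := by
    rw [← map_mul]
    congr 1
    simp only [e6c_sc, Ser.U, map_mul]
  have hκ : (J j).2.2 ≤ k0 := (Finset.single_le_sum (f := fun j => (J j).2.2) (fun _ _ => Nat.zero_le _) (Finset.mem_univ j)).trans hJ.1
  obtain ⟨h1, h2⟩ := hJ.2 j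
  refine e6c_one _ _ _ _ _ _ _ _ _ eU (e6c_kapmem CC _ (ht j).1) g1 g2 g3 g4 k0 (nu1 v0 k0) _ _ _ _ hκ ?_
  unfold tA at h1
  unfold wt at h2 ⊢
  generalize (J j).1 = i at *
  generalize ((J j).2.1 : ℕ) = e at *
  generalize (J j).2.2 = κ at *
  generalize nu1 v0 k0 = ν at *
  omega

/-- `GP` is linear for the constants. -/
theorem e6c_GPsmul (ν : ℕ) (r : K) (m : LL n a c K) :
    GP S p (0 : Derivation K K K) ν (r • m) = kap K (C r) * GP S p (0 : Derivation K K K) ν m := by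
  have h1 : expD (der a c (0 : Derivation K K K) p) (algebraMap K (LL n a c K) r) = kap K (C r) := by
    rw [expD_const _ _ (by rw [der_alg, Derivation.zero_apply, map_zero])]
    unfold kap
    rw [PowerSeries.map_C]
  have h2 : r • m = algebraMap K (LL n a c K) r * m := e2_smul a c r m
  unfold GP
  rw [h2, map_mul, h1]
  ring

theorem e6c_GP (hK : ∀ r : K, C r ∈ CC)
    (ht : ∀ j, sc (p j) S.U ∈ CC ∧ sc (p j) S.X ∈ CC ∧ sc (p j) S.Y ∈ CC ∧ sc (p j) S.Z ∈ CC) (v0 k0 : ℕ) (P : LL n a c K)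
    (hP : TG a c (nu1 v0 k0) k0 P) :
    kap K (Xi S p v0 k0) * GP S p (0 : Derivation K K K) (nu1 v0 k0) P ∈ LCr n a c CC := by
  obtain ⟨s, hs⟩ := e2_exp a c P
  have h1 : GP S p (0 : Derivation K K K) (nu1 v0 k0) P = ∑ J ∈ s, kap K (C (crd a c P J)) * GP S p (0 : Derivation K K K) (nu1 v0 k0) (mon a c K J) := by
    have h2 : GP S p (0 : Derivation K K K) (nu1 v0 k0) P = ∑ J ∈ s, GP S p (0 : Derivation K K K) (nu1 v0 k0) (crd a c P J • mon a c K J) := by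
      conv_lhs => rw [hs]
      unfold GP
      rw [map_sum, Finset.mul_sum]
    rw [h2]
    exact Finset.sum_congr rfl fun J _ => e6c_GPsmul S p _ _ _
  rw [h1, Finset.mul_sum]
  refine Subring.sum_mem _ fun J _ => ?_
  by_cases h0 : crd a c P J = 0
  · rw [h0, map_zero, map_zero, zero_mul, mul_zero]
    exact Subring.zero_mem _
  · rw [mul_left_comm]
    exact mul_mem (e6c_kapmem CC _ (hK _)) (e6c_GPmon S p CC (hK c) (hK a) ht v0 k0 J (hP J h0))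

/-- The coordinates of `Xi(u) v_I(mon l)(u) mon μ` are in every subring of `K⟦X⟧` which contains `a, c`, the constants of `K` and the
`U_j, X_j, Y_j, Z_j`.

Proof. As for `e6b_main`: `Xi GP nu1 P_I = ∑_J kap (C r_J) * (kap Xi * GP nu1 (mon J))`, and by `e5b_GPmon` `kap Xi * GP nu1 (mon J)` is the product over `j` of
`U ^ k0 rho ^ (2 nu1) N ^ (nu1 - wt) X1 ^ (i - e) Y1 ^ e W1 ^ κ
 = U ^ (k0 - κ) (rho ^ 2 N) ^ (nu1 - wt) (rho ^ 4 X1) ^ (i - e) (rho ^ 6 Y1) ^ e (rho ^ 3 t W1) ^ κ`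
because `2 (nu1 - wt) + 4 (i - e) + 6 e + 3 κ = 2 nu1 + κ` (`wt = 2 i + e + κ`) and `U ^ κ = rho ^ κ t ^ κ`; `κ = κ_j ≤ k0`. -/
theorem e6c_main (hK : ∀ r : K, C r ∈ CC)
    (ht : ∀ j, sc (p j) S.U ∈ CC ∧ sc (p j) S.X ∈ CC ∧ sc (p j) S.Y ∈ CC ∧ sc (p j) S.Z ∈ CC) (v0 k0 : ℕ)
    (I : Finset (Fin n)) (l μ : Fin n → Ix) (hl : ∀ j, tA (l j) ∧ wt (l j) ≤ v0) (hl' : wd l ≤ k0) (b : Fin n → Ix) :
    Xi S p v0 k0 * scrd a c (vv S p (0 : Derivation K K K) v0 k0 I (mon a c K l) * C (mon a c K μ)) b ∈ CC := by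
  have hl2 : TG a c v0 k0 (mon a c K l) := e1i_mon a c l ⟨hl', hl⟩
  have h1 := e6a_tau CC I (e6c_GP S p CC hK ht v0 k0 _ (e5b_PI hl2 I))
  have h2 : PowerSeries.map (tau a c K I) (kap K (Xi S p v0 k0)) = kap K (Xi S p v0 k0) := by
    ext i
    unfold kap
    rw [coeff_map, coeff_map, e2a_alg]
  rw [map_mul, h2] at h1
  rw [← e6a_kap]
  refine e6a_scrd CC (hK a) (hK c) ?_ b
  have h3 : kap K (Xi S p v0 k0) * (vv S p (0 : Derivation K K K) v0 k0 I (mon a c K l) * C (mon a c K μ)) =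
      C (∏ j ∈ I, gx a c K j ^ nup v0 k0) * (kap K (Xi S p v0 k0) * PowerSeries.map (tau a c K I) (GP S p (0 : Derivation K K K) (nu1 v0 k0) (PI a c v0 I (mon a c K l)))) * C (mon a c K μ) := by
    unfold vv
    ring
  rw [h3]
  refine mul_mem (mul_mem ?_ h1) ?_
  · rw [map_prod]
    refine Subring.prod_mem _ fun j _ => ?_
    rw [map_pow]
    exact pow_mem (e6a_mem CC (C a) (hK a) j l).2.1 _
  · rcases isEmpty_or_nonempty (Fin n) with h | h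
    · have h4 : mon a c K μ = 1 := by
        unfold mon
        exact Finset.prod_of_isEmpty _
      rw [h4, map_one]
      exact Subring.one_mem _
    · exact (e6a_mem CC (C a) (hK a) h.some μ).2.2.2.2

end H47E
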