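import Pool.Agent.Lib.H47E.E5c

/-!
# H47E, chunk E7: the formula `v_I(P)(u) = th_I(u) Exp(P)`
-/

set_option autoImplicit false

namespace H47E

open PowerSeries

variable {n : ℕ} {K : Type} [Field K] [CharZero K] {a c : K} (S : Ser K a c) {k : Type} [CommRing k] [Algebra K k] (p : Fin n → K)
  (dk : Derivation K k k)

/-- `th_I`: for `j ∈ I` the factor `x_j ^ nup tau(N_j) ^ (nu1 - 2 nu2) tau(X1_j) ^ nu2` (`nu1 - 2 nu2 = k0`), for `j ∉ I` the factor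
`N_j ^ nu1`. -/
noncomputable def thI (k : Type) [CommRing k] [Algebra K k] (v0 k0 : ℕ) (I : Finset (Fin n)) : (LL n a c k)⟦X⟧ :=
  ∏ j, if j ∈ I then C (gx a c k j ^ nup v0 k0) * PowerSeries.map (tau a c k I) (Nj S k p j) ^ k0 *
      PowerSeries.map (tau a c k I) (Xj S k p j) ^ nu2 v0
    else Nj S k p j ^ nu1 v0 k0

/-! ### auxiliary -/

section Aux

theorem e7_map_kap {K₀ : Type} [Field K₀] {a₀ c₀ : K₀} {n₀ : ℕ} {k₀ k₂ : Type} [CommRing k₀] [Algebra K₀ k₀] [CommRing k₂] [Algebra K₀ k₂]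
    (f : LL n₀ a₀ c₀ k₀ →+* LL n₀ a₀ c₀ k₂) (hf : ∀ x : K₀, f (algebraMap K₀ (LL n₀ a₀ c₀ k₀) x) = algebraMap K₀ (LL n₀ a₀ c₀ k₂) x) (F : K₀⟦X⟧) :
    PowerSeries.map f (kap k₀ F) = kap k₂ F := by
  ext i
  change coeff i (PowerSeries.map f (PowerSeries.map (algebraMap K₀ (LL n₀ a₀ c₀ k₀)) F)) = coeff i (PowerSeries.map (algebraMap K₀ (LL n₀ a₀ c₀ k₂)) F)
  rw [coeff_map, coeff_map, coeff_map, hf]

theorem e7_map_pN {T T' : Type} [CommRing T] [CommRing T'] (f : T →+* T') (a c t v x : T) :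
    f (pN a c t v x) = pN (f a) (f c) (f t) (f v) (f x) := by
  unfold pN
  simp only [map_sub, map_mul, map_pow, map_one]

theorem e7_map_pX {T T' : Type} [CommRing T] [CommRing T'] (f : T →+* T') (a c t v x y : T) :
    f (pX a c t v x y) = pX (f a) (f c) (f t) (f v) (f x) (f y) := by
  unfold pX
  simp only [map_sub, map_mul, map_pow, map_one, map_add, map_ofNat]

end Aux

section Aux2

variable {n₁ : ℕ} {K₁ : Type} [Field K₁] [CharZero K₁] {a₁ c₁ : K₁} (S₁ : Ser K₁ a₁ c₁) {k₁ : Type} [CommRing k₁] [Algebra K₁ k₁] (p₁ : Fin n₁ → K₁)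

omit [CharZero K₁] in
/-- The image of `N_j` under a ring homomorphism of the coefficients. -/
theorem e7_Nj {k₂ : Type} [CommRing k₂] [Algebra K₁ k₂] (f : LL n₁ a₁ c₁ k₁ →+* LL n₁ a₁ c₁ k₂)
    (hf : ∀ x : K₁, f (algebraMap K₁ (LL n₁ a₁ c₁ k₁) x) = algebraMap K₁ (LL n₁ a₁ c₁ k₂) x) (j : Fin n₁) :
    PowerSeries.map f (Nj S₁ k₁ p₁ j) = pN (kap k₂ (C a₁)) (kap k₂ (C c₁)) (kap k₂ (sc (p₁ j) S₁.t)) (kap k₂ (sc (p₁ j) S₁.v))
      (C (f (gx a₁ c₁ k₁ j))) := by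
  unfold Nj
  rw [e7_map_pN, e7_map_kap f hf, e7_map_kap f hf, e7_map_kap f hf, e7_map_kap f hf, PowerSeries.map_C]

omit [CharZero K₁] in
/-- The image of `X1_j` under a ring homomorphism of the coefficients. -/
theorem e7_Xj {k₂ : Type} [CommRing k₂] [Algebra K₁ k₂] (f : LL n₁ a₁ c₁ k₁ →+* LL n₁ a₁ c₁ k₂)
    (hf : ∀ x : K₁, f (algebraMap K₁ (LL n₁ a₁ c₁ k₁) x) = algebraMap K₁ (LL n₁ a₁ c₁ k₂) x) (j : Fin n₁) :
    PowerSeries.map f (Xj S₁ k₁ p₁ j) = pX (kap k₂ (C a₁)) (kap k₂ (C c₁)) (kap k₂ (sc (p₁ j) S₁.t)) (kap k₂ (sc (p₁ j) S₁.v))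
      (C (f (gx a₁ c₁ k₁ j))) (C (f (gy a₁ c₁ k₁ j))) := by
  unfold Xj
  rw [e7_map_pX, e7_map_kap f hf, e7_map_kap f hf, e7_map_kap f hf, e7_map_kap f hf, PowerSeries.map_C, PowerSeries.map_C]

omit [CharZero K₁] in
theorem e7_tau_Nj_off (I : Finset (Fin n₁)) (j : Fin n₁) (hj : j ∉ I) :
    PowerSeries.map (tau a₁ c₁ k₁ I) (Nj S₁ k₁ p₁ j) = Nj S₁ k₁ p₁ j := by
  rw [e7_Nj S₁ p₁ (tau a₁ c₁ k₁ I) (e3b_tauK a₁ c₁ I), ((e2a_gen a₁ c₁ k₁ I j).2 hj).1]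
  rfl

theorem e7_tau_exp (dk₁ : Derivation K₁ k₁ k₁) (I : Finset (Fin n₁)) (m : LL n₁ a₁ c₁ k₁) :
    PowerSeries.map (tau a₁ c₁ k₁ I) (expD (der a₁ c₁ dk₁ p₁) m) = expD (der a₁ c₁ dk₁ p₁) (tau a₁ c₁ k₁ I m) := by
  have h : ∀ (i : ℕ) (m : LL n₁ a₁ c₁ k₁), tau a₁ c₁ k₁ I ((der a₁ c₁ dk₁ p₁)^[i] m) = (der a₁ c₁ dk₁ p₁)^[i] (tau a₁ c₁ k₁ I m) := by
    intro i
    induction i with
    | zero => intro m; rfl
    | succ i ih =>
      intro m
      rw [Function.iterate_succ_apply, Function.iterate_succ_apply, ih, e3b_tau]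
  ext i
  rw [coeff_map, expD_coeff, expD_coeff, Algebra.smul_def, map_mul, e3b_tauK, h, ← Algebra.smul_def]

end Aux2

/-- THE FORMULA.

Proof. `tau_I` (applied to coefficients) is a ring homomorphism which fixes the `N_j`, `j ∉ I` (they only involve `x_j`), and
`tau_I(Exp(m)) = Exp(tau_I m)` by `e3b_tau`. So `tau_I(Exp(x_I ^ nu2 tau_I P)) = tau_I(Exp(x_I)) ^ nu2 Exp(P)` (`e2a_invol`), and for `j ∈ I`:
`N_j ^ nu1 Exp(x_j) ^ nu2 = N_j ^ (nu1 - 2 nu2) X1_j ^ nu2 = N_j ^ k0 X1_j ^ nu2` (`e4_main`). -/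
theorem e7_formula (v0 k0 : ℕ) (I : Finset (Fin n)) (P : LL n a c k) :
    vv S p dk v0 k0 I P = thI S p k v0 k0 I * expD (der a c dk p) P := by
  classical
  have e1 : PowerSeries.map (tau a c k I) (GP S p dk (nu1 v0 k0) (PI a c v0 I P)) =
      (∏ j, PowerSeries.map (tau a c k I) (Nj S k p j) ^ nu1 v0 k0) *
        ((∏ j ∈ I, PowerSeries.map (tau a c k I) (expD (der a c dk p) (gx a c k j)) ^ nu2 v0) * expD (der a c dk p) P) := by
    unfold GP PI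
    rw [map_mul, map_prod, map_mul, map_mul, map_prod, map_prod, e7_tau_exp, e2a_invol]
    simp only [map_pow]
  unfold vv thI
  rw [e1, map_prod]
  have e2 : ∏ j ∈ I, (C (gx a c k j ^ nup v0 k0) : (LL n a c k)⟦X⟧) = ∏ j, if j ∈ I then C (gx a c k j ^ nup v0 k0) else 1 := by
    rw [Finset.prod_ite_mem, Finset.univ_inter]
  have e3 : ∏ j ∈ I, PowerSeries.map (tau a c k I) (expD (der a c dk p) (gx a c k j)) ^ nu2 v0 =
      ∏ j, if j ∈ I then PowerSeries.map (tau a c k I) (expD (der a c dk p) (gx a c k j)) ^ nu2 v0 else 1 := by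
    rw [Finset.prod_ite_mem, Finset.univ_inter]
  rw [e2, e3, ← mul_assoc, ← mul_assoc, ← Finset.prod_mul_distrib, ← Finset.prod_mul_distrib]
  congr 1
  refine Finset.prod_congr rfl fun j _ => ?_
  by_cases hj : j ∈ I
  · simp only [if_pos hj]
    have h1 : nu1 v0 k0 = k0 + 2 * nu2 v0 := by
      unfold nu1 nu2
      ring
    have h2 : PowerSeries.map (tau a c k I) (Xj S k p j) = PowerSeries.map (tau a c k I) (Nj S k p j) ^ 2 *
        PowerSeries.map (tau a c k I) (expD (der a c dk p) (gx a c k j)) := by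
      rw [← map_pow, ← map_mul, (e4_main S p dk j).1]
    rw [h1, h2, mul_pow, ← pow_mul, pow_add]
    ring
  · simp only [if_neg hj]
    rw [one_mul, mul_one, e7_tau_Nj_off S p I j hj]

/-- All coefficients are of type A and `w`-degree `0`. -/
def e7_O (n : ℕ) {K : Type} [Field K] (a c : K) (k : Type) [CommRing k] [Algebra K k] [IsDomain k] [CharZero k] [Fact (c ≠ 0)]
    (F : (LL n a c k)⟦X⟧) : Prop := ∀ i, coeff i F ∈ (OA a c : Subring (LL n a c k))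

section Aux3

variable {n₁ : ℕ} {K₁ : Type} [Field K₁] {a₁ c₁ : K₁} {k₁ : Type} [CommRing k₁] [Algebra K₁ k₁] [IsDomain k₁] [CharZero k₁] [Fact (c₁ ≠ 0)]

theorem e7_O_mul {F G : (LL n₁ a₁ c₁ k₁)⟦X⟧} (hF : e7_O n₁ a₁ c₁ k₁ F) (hG : e7_O n₁ a₁ c₁ k₁ G) : e7_O n₁ a₁ c₁ k₁ (F * G) := by
  intro i
  rw [coeff_mul]
  exact Subring.sum_mem _ fun x _ => Subring.mul_mem _ (hF _) (hG _)

theorem e7_O_add {F G : (LL n₁ a₁ c₁ k₁)⟦X⟧} (hF : e7_O n₁ a₁ c₁ k₁ F) (hG : e7_O n₁ a₁ c₁ k₁ G) : e7_O n₁ a₁ c₁ k₁ (F + G) := by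
  intro i
  rw [map_add]
  exact Subring.add_mem _ (hF _) (hG _)

theorem e7_O_sub {F G : (LL n₁ a₁ c₁ k₁)⟦X⟧} (hF : e7_O n₁ a₁ c₁ k₁ F) (hG : e7_O n₁ a₁ c₁ k₁ G) : e7_O n₁ a₁ c₁ k₁ (F - G) := by
  intro i
  rw [map_sub]
  exact Subring.sub_mem _ (hF _) (hG _)

theorem e7_O_C {m : LL n₁ a₁ c₁ k₁} (hm : m ∈ (OA a₁ c₁ : Subring (LL n₁ a₁ c₁ k₁))) : e7_O n₁ a₁ c₁ k₁ (C m) := by
  intro i
  rw [coeff_C]
  split_ifs
  · exact hm
  · exact Subring.zero_mem _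

theorem e7_O_one : e7_O n₁ a₁ c₁ k₁ 1 := by
  have h := e7_O_C (n₁ := n₁) (a₁ := a₁) (c₁ := c₁) (k₁ := k₁) (Subring.one_mem _)
  rwa [map_one] at h

theorem e7_O_pow {F : (LL n₁ a₁ c₁ k₁)⟦X⟧} (hF : e7_O n₁ a₁ c₁ k₁ F) (q : ℕ) : e7_O n₁ a₁ c₁ k₁ (F ^ q) := by
  induction q with
  | zero =>
    rw [pow_zero]
    exact e7_O_one
  | succ q ih =>
    rw [pow_succ]
    exact e7_O_mul ih hF

theorem e7_O_prod {β : Type} (s : Finset β) (F : β → (LL n₁ a₁ c₁ k₁)⟦X⟧) (hF : ∀ j ∈ s, e7_O n₁ a₁ c₁ k₁ (F j)) :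
    e7_O n₁ a₁ c₁ k₁ (∏ j ∈ s, F j) := by
  classical
  induction s using Finset.induction_on with
  | empty =>
    rw [Finset.prod_empty]
    exact e7_O_one
  | insert b s hb ih =>
    rw [Finset.prod_insert hb]
    exact e7_O_mul (hF b (Finset.mem_insert_self b s)) (ih fun j hj => hF j (Finset.mem_insert_of_mem hj))

theorem e7_OA_alg (x : K₁) : algebraMap K₁ (LL n₁ a₁ c₁ k₁) x ∈ (OA a₁ c₁ : Subring (LL n₁ a₁ c₁ k₁)) := by
  intro I hI
  rw [IsScalarTower.algebraMap_apply K₁ k₁ (LL n₁ a₁ c₁ k₁), Algebra.algebraMap_eq_smul_one, e1h_crd_smul] at hI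
  have h2 : crd a₁ c₁ (1 : LL n₁ a₁ c₁ k₁) I ≠ 0 := right_ne_zero_of_mul hI
  obtain ⟨h3, h4⟩ := (e1h_one a₁ c₁ (k := k₁) (n := n₁)).1 I h2
  exact ⟨h3, fun j => (h4 j).1⟩

theorem e7_OA_x (j : Fin n₁) : gx a₁ c₁ k₁ j ∈ (OA a₁ c₁ : Subring (LL n₁ a₁ c₁ k₁)) := by
  intro I hI
  obtain ⟨h3, h4⟩ := (e1i_gen a₁ c₁ (k := k₁) j).1 I hI
  exact ⟨h3, fun j => (h4 j).1⟩

theorem e7_OA_y (j : Fin n₁) : gy a₁ c₁ k₁ j ∈ (OA a₁ c₁ : Subring (LL n₁ a₁ c₁ k₁)) := by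
  intro I hI
  obtain ⟨h3, h4⟩ := (e1i_gen a₁ c₁ (k := k₁) j).2.1 I hI
  exact ⟨h3, fun j => (h4 j).1⟩

theorem e7_O_kap (F : K₁⟦X⟧) : e7_O n₁ a₁ c₁ k₁ (kap k₁ F) := by
  intro i
  change coeff i (PowerSeries.map (algebraMap K₁ (LL n₁ a₁ c₁ k₁)) F) ∈ _
  rw [coeff_map]
  exact e7_OA_alg _

end Aux3

/-- The coefficients of `th_I` are of type A and `w`-degree `0`.

Proof. For `j ∈ I`: `nup = (nup - k0 - 2 nu2) + k0 + 2 nu2`, so the factor is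
`C(x_j) ^ (nup - k0 - 2 nu2) (C(x_j) tau(N_j)) ^ k0 (C(x_j) ^ 2 tau(X1_j)) ^ nu2`, and
`x tau(N) = xi x - c t ^ 2`, `x ^ 2 tau(X1) = c x xi (t ^ 2 c / x + xi + 2 a t ^ 2) + c t ^ 2 (t ^ 2 c x + xi x ^ 2) - 2 c t xi y`, i.e. with `x xb = c`:
`x ^ 2 xb ^ 2 = c ^ 2`, `x ^ 2 xb = c x`, `x ^ 2 tau(y) = - x ^ 2 xb yt = - c y`: polynomials in `x, y`. -/
theorem e7_th [IsDomain k] [CharZero k] [Fact (c ≠ 0)] (v0 k0 : ℕ) (I : Finset (Fin n)) (i : ℕ) :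
    TA a c 0 (coeff i (thI S p k v0 k0 I)) := by
  classical
  suffices h : e7_O n a c k (thI S p k v0 k0 I) from h i
  unfold thI
  refine e7_O_prod _ _ fun j _ => ?_
  have hx : e7_O n a c k (C (gx a c k j)) := e7_O_C (e7_OA_x j)
  have hy : e7_O n a c k (C (gy a c k j)) := e7_O_C (e7_OA_y j)
  obtain ⟨A, hA⟩ : ∃ A, A = (kap k (C a) : (LL n a c k)⟦X⟧) := ⟨_, rfl⟩
  obtain ⟨B, hB⟩ : ∃ B, B = (kap k (C c) : (LL n a c k)⟦X⟧) := ⟨_, rfl⟩
  obtain ⟨T, hT⟩ : ∃ T, T = (kap k (sc (p j) S.t) : (LL n a c k)⟦X⟧) := ⟨_, rfl⟩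
  obtain ⟨V, hV⟩ : ∃ V, V = (kap k (sc (p j) S.v) : (LL n a c k)⟦X⟧) := ⟨_, rfl⟩
  have oA : e7_O n a c k A := hA ▸ e7_O_kap _
  have oB : e7_O n a c k B := hB ▸ e7_O_kap _
  have oT : e7_O n a c k T := hT ▸ e7_O_kap _
  have oV : e7_O n a c k V := hV ▸ e7_O_kap _
  have o2 : e7_O n a c k (2 : (LL n a c k)⟦X⟧) := by
    have h := e7_O_add (e7_O_one (n₁ := n) (a₁ := a) (c₁ := c) (k₁ := k)) e7_O_one
    rwa [one_add_one_eq_two] at h
  have oxi : e7_O n a c k (1 - A * T ^ 2 - B * T ^ 2 * V) :=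
    e7_O_sub (e7_O_sub e7_O_one (e7_O_mul oA (e7_O_pow oT 2))) (e7_O_mul (e7_O_mul oB (e7_O_pow oT 2)) oV)
  have hBc : B = C (algebraMap K (LL n a c k) c) := by
    rw [hB]
    exact PowerSeries.map_C _ _
  by_cases hj : j ∈ I
  · simp only [if_pos hj]
    obtain ⟨t1, t2, t3, -⟩ := (e2a_gen a c k I j).1 hj
    have hxb : (C (gx a c k j) : (LL n a c k)⟦X⟧) * C (gb a c k j) = B := by
      rw [← map_mul, rel_c, hBc]
    have hty : tau a c k I (gy a c k j) = -(gb a c k j * gt a c k j) := by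
      unfold gy
      rw [map_mul, t1, t3]
      ring
    have eN := e7_Nj S p (tau a c k I) (e3b_tauK a c I) j
    have eX := e7_Xj S p (tau a c k I) (e3b_tauK a c I) j
    rw [t1, ← hA, ← hB, ← hT, ← hV] at eN
    rw [t1, hty, ← hA, ← hB, ← hT, ← hV] at eX
    have oN : e7_O n a c k (C (gx a c k j) * PowerSeries.map (tau a c k I) (Nj S k p j)) := by
      have e : C (gx a c k j) * PowerSeries.map (tau a c k I) (Nj S k p j) = C (gx a c k j) * (1 - A * T ^ 2 - B * T ^ 2 * V) - T ^ 2 * B := by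
        rw [eN, ← hxb]
        unfold pN
        ring
      rw [e]
      exact e7_O_sub (e7_O_mul hx oxi) (e7_O_mul (e7_O_pow oT 2) oB)
    have oX : e7_O n a c k (C (gx a c k j) ^ 2 * PowerSeries.map (tau a c k I) (Xj S k p j)) := by
      have hyy : (C (gx a c k j) : (LL n a c k)⟦X⟧) ^ 2 * C (-(gb a c k j * gt a c k j)) = -(B * C (gy a c k j)) := by
        rw [← hxb]
        unfold gy
        rw [map_neg, map_mul, map_mul]
        ring
      have e : C (gx a c k j) ^ 2 * PowerSeries.map (tau a c k I) (Xj S k p j) =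
          (1 - A * T ^ 2 - B * T ^ 2 * V) * (T ^ 2 * B ^ 2 + B * C (gx a c k j) * (1 - A * T ^ 2 - B * T ^ 2 * V) + 2 * A * T ^ 2 * (B * C (gx a c k j)))
          + B * T ^ 2 * (T ^ 2 * (B * C (gx a c k j)) + (1 - A * T ^ 2 - B * T ^ 2 * V) * C (gx a c k j) ^ 2)
          - 2 * T * (1 - A * T ^ 2 - B * T ^ 2 * V) * (B * C (gy a c k j)) := by
        rw [eX]
        unfold pX
        linear_combination (2 * T * (1 - A * T ^ 2 - B * T ^ 2 * V)) * hyy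
          + ((1 - A * T ^ 2 - B * T ^ 2 * V) * T ^ 2 * (C (gx a c k j) * C (gb a c k j) + B)
            + (1 - A * T ^ 2 - B * T ^ 2 * V) * C (gx a c k j) * ((1 - A * T ^ 2 - B * T ^ 2 * V) + 2 * A * T ^ 2)
            + B * T ^ 2 * T ^ 2 * C (gx a c k j)) * hxb
      rw [e]
      refine e7_O_sub (e7_O_add (e7_O_mul oxi (e7_O_add (e7_O_add (e7_O_mul (e7_O_pow oT 2) (e7_O_pow oB 2)) (e7_O_mul (e7_O_mul oB hx) oxi))
        (e7_O_mul (e7_O_mul (e7_O_mul o2 oA) (e7_O_pow oT 2)) (e7_O_mul oB hx)))) (e7_O_mul (e7_O_mul oB (e7_O_pow oT 2))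
        (e7_O_add (e7_O_mul (e7_O_pow oT 2) (e7_O_mul oB hx)) (e7_O_mul oxi (e7_O_pow hx 2)))))
        (e7_O_mul (e7_O_mul (e7_O_mul o2 oT) oxi) (e7_O_mul oB hy))
    have hn : nup v0 k0 = (k0 + 1) + k0 + 2 * nu2 v0 := by
      unfold nup nu1 nu2
      ring
    have e : C (gx a c k j ^ nup v0 k0) * PowerSeries.map (tau a c k I) (Nj S k p j) ^ k0 * PowerSeries.map (tau a c k I) (Xj S k p j) ^ nu2 v0 =
        C (gx a c k j) ^ (k0 + 1) * (C (gx a c k j) * PowerSeries.map (tau a c k I) (Nj S k p j)) ^ k0 *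
          (C (gx a c k j) ^ 2 * PowerSeries.map (tau a c k I) (Xj S k p j)) ^ nu2 v0 := by
      rw [hn, map_pow, pow_add, pow_add, pow_mul, mul_pow, mul_pow]
      ring
    rw [e]
    exact e7_O_mul (e7_O_mul (e7_O_pow hx _) (e7_O_pow oN _)) (e7_O_pow oX _)
  · simp only [if_neg hj]
    refine e7_O_pow ?_ _
    unfold Nj pN
    rw [← hA, ← hB, ← hT, ← hV]
    exact e7_O_sub oxi (e7_O_mul (e7_O_pow oT 2) hx)

/-- Base change of `th_I`. -/
theorem e7_bc {k' : Type} [CommRing k'] [Algebra K k'] (φ : k →ₐ[K] k') (v0 k0 : ℕ) (I : Finset (Fin n)) :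
    PowerSeries.map (bc a c k φ) (thI S p k v0 k0 I) = thI S p k' v0 k0 I := by
  unfold thI
  rw [map_prod]
  refine Finset.prod_congr rfl fun j _ => ?_
  have g0 : bc a c k φ (gx a c k j) = gx a c k' j := e3b_bcX a c φ (j, 0)
  have g1 : bc a c k φ (gb a c k j) = gb a c k' j := e3b_bcX a c φ (j, 1)
  have g2 : bc a c k φ (gt a c k j) = gt a c k' j := e3b_bcX a c φ (j, 2)
  by_cases hj : j ∈ I
  · simp only [if_pos hj]
    have hcomp : ∀ x : K, (bc a c k φ).comp (tau a c k I) (algebraMap K (LL n a c k) x) = algebraMap K (LL n a c k') x := fun x => by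
      rw [RingHom.comp_apply, e3b_tauK, e3b_bcK]
    have hN : PowerSeries.map (bc a c k φ) (PowerSeries.map (tau a c k I) (Nj S k p j)) = PowerSeries.map (tau a c k' I) (Nj S k' p j) := by
      have h1 : PowerSeries.map (bc a c k φ) (PowerSeries.map (tau a c k I) (Nj S k p j)) = PowerSeries.map ((bc a c k φ).comp (tau a c k I)) (Nj S k p j) := by
        ext i
        rw [coeff_map, coeff_map, coeff_map, RingHom.comp_apply]
      rw [h1, e7_Nj S p _ hcomp, e7_Nj S p (tau a c k' I) (e3b_tauK a c I), RingHom.comp_apply, ((e2a_gen a c k I j).1 hj).1,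
        ((e2a_gen a c k' I j).1 hj).1, g1]
    have hX : PowerSeries.map (bc a c k φ) (PowerSeries.map (tau a c k I) (Xj S k p j)) = PowerSeries.map (tau a c k' I) (Xj S k' p j) := by
      have h1 : PowerSeries.map (bc a c k φ) (PowerSeries.map (tau a c k I) (Xj S k p j)) = PowerSeries.map ((bc a c k φ).comp (tau a c k I)) (Xj S k p j) := by
        ext i
        rw [coeff_map, coeff_map, coeff_map, RingHom.comp_apply]
      rw [h1, e7_Xj S p _ hcomp, e7_Xj S p (tau a c k' I) (e3b_tauK a c I), RingHom.comp_apply, RingHom.comp_apply]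
      have y1 : bc a c k φ (tau a c k I (gy a c k j)) = tau a c k' I (gy a c k' j) := by
        unfold gy
        rw [map_mul (tau a c k I), map_mul (bc a c k φ), map_mul (tau a c k' I), ((e2a_gen a c k I j).1 hj).1,
          ((e2a_gen a c k I j).1 hj).2.2.1, ((e2a_gen a c k' I j).1 hj).1, ((e2a_gen a c k' I j).1 hj).2.2.1, g1, map_neg, g2]
      rw [y1, ((e2a_gen a c k I j).1 hj).1, ((e2a_gen a c k' I j).1 hj).1, g1]
    rw [map_mul, map_mul, map_pow (PowerSeries.map (bc a c k φ)), map_pow (PowerSeries.map (bc a c k φ)), hN, hX, PowerSeries.map_C, map_pow (bc a c k φ), g0]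
  · simp only [if_neg hj]
    rw [map_pow, e7_Nj S p _ (e3b_bcK a c φ), g0]
    rfl

end H47E
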