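import Mathlib

/-!
# H47E, module R: the regularity theorem (PROOF.md, section 6, R), abstract form (helper13)

A commutative algebra `A` over `kk` with a basis indexed by `β`; every basis element has a weight in every direction `j`, may be of type A in
the direction `j`, and has a `w`-degree.
-/

set_option autoImplicit false

namespace H47E

open Finset

/-- The data of basis, weights, types and degrees. -/
structure GB (kk A J β : Type) [CommRing kk] [CommRing A] [Algebra kk A] where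
  /-- the basis -/
  B : Module.Basis β kk A
  /-- the weight in the direction `j` -/
  wt : β → J → ℤ
  /-- type A (regular outside `O`) in the direction `j` -/
  ty : β → J → Prop
  /-- the total degree in the `w` -/
  wd : β → ℕ
  mul : ∀ x y z : β, B.repr (B x * B y) z ≠ 0 → (∀ j, wt z j ≤ wt x j + wt y j) ∧ (∀ j, ty x j → ty y j → ty z j) ∧ wd z ≤ wd x + wd y
  split : ∀ (x : β) (j : J), ¬ ty x j → wt x j ≤ (wd x : ℤ) + 1

namespace GB

variable {kk A J β : Type} [CommRing kk] [CommRing A] [Algebra kk A] (g : GB kk A J β)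

/-- All basis elements which occur in `x` satisfy `P`. -/
def Sup (P : β → Prop) (x : A) : Prop := ∀ z, g.B.repr x z ≠ 0 → P z

theorem sup_zero (P : β → Prop) : g.Sup P 0 := by
  intro z hz
  simp at hz

theorem sup_add {P : β → Prop} {x y : A} (hx : g.Sup P x) (hy : g.Sup P y) : g.Sup P (x + y) := by
  intro z hz
  rw [map_add, Finsupp.add_apply] at hz
  by_cases h : g.B.repr x z = 0
  · refine hy z fun h' => hz ?_
    rw [h, h', add_zero]
  · exact hx z h

theorem sup_neg {P : β → Prop} {x : A} (hx : g.Sup P x) : g.Sup P (-x) := by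
  intro z hz
  rw [map_neg, Finsupp.neg_apply] at hz
  exact hx z fun h => hz (by rw [h, neg_zero])

theorem sup_sub {P : β → Prop} {x y : A} (hx : g.Sup P x) (hy : g.Sup P y) : g.Sup P (x - y) := by
  rw [sub_eq_add_neg]
  exact g.sup_add hx (g.sup_neg hy)

theorem sup_sum {P : β → Prop} {κ : Type} (s : Finset κ) (f : κ → A) (h : ∀ i ∈ s, g.Sup P (f i)) : g.Sup P (∑ i ∈ s, f i) := by
  classical
  induction s using Finset.induction_on with
  | empty => simpa using g.sup_zero P
  | insert a s ha ih =>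
    rw [sum_insert ha]
    exact g.sup_add (h a (mem_insert_self _ _)) (ih fun i hi => h i (mem_insert_of_mem hi))

theorem sup_smul {P : β → Prop} {x : A} (hx : g.Sup P x) (r : kk) : g.Sup P (r • x) := by
  intro z hz
  rw [map_smul, Finsupp.smul_apply] at hz
  exact hx z fun h => hz (by rw [h, smul_zero])

theorem sup_mono {P Q : β → Prop} (h : ∀ z, P z → Q z) {x : A} (hx : g.Sup P x) : g.Sup Q x := fun z hz => h z (hx z hz)

theorem sup_mul {P Q R : β → Prop} (h : ∀ x y z : β, P x → Q y → g.B.repr (g.B x * g.B y) z ≠ 0 → R z) {x y : A} (hx : g.Sup P x)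
    (hy : g.Sup Q y) : g.Sup R (x * y) := by
  classical
  have h1 : x * y = ∑ i ∈ (g.B.repr x).support, ∑ j ∈ (g.B.repr y).support,
      (g.B.repr x i * g.B.repr y j) • (g.B i * g.B j) := by
    conv_lhs => rw [← g.B.linearCombination_repr x, ← g.B.linearCombination_repr y]
    rw [Finsupp.linearCombination_apply, Finsupp.linearCombination_apply, Finsupp.sum, Finsupp.sum, sum_mul]
    refine sum_congr rfl fun i _ => ?_
    rw [mul_sum]
    exact sum_congr rfl fun j _ => by rw [smul_mul_smul_comm]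
  rw [h1]
  refine g.sup_sum _ _ fun i hi => g.sup_sum _ _ fun j hj => g.sup_smul (fun z hz => ?_) _
  exact h i j z (hx i (Finsupp.mem_support_iff.1 hi)) (hy j (Finsupp.mem_support_iff.1 hj)) hz

/-- The predicate of the space `M`: `w`-degree at most `k`, type A in the directions in `SA`, weight at most `d` in the directions in `SB`. -/
def Pr (SA SB : Finset J) (d : ℤ) (k : ℕ) (z : β) : Prop := g.wd z ≤ k ∧ (∀ j ∈ SA, g.ty z j) ∧ ∀ j ∈ SB, g.wt z j ≤ d

/-- The space `M`. -/
def M (SA SB : Finset J) (d : ℤ) (k : ℕ) (x : A) : Prop := g.Sup (g.Pr SA SB d k) x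

theorem m_mul {SA SB SA' SB' SA'' SB'' : Finset J} {d d' d'' : ℤ} {k k' k'' : ℕ} {x y : A} (hx : g.M SA SB d k x) (hy : g.M SA' SB' d' k' y)
    (hA : SA'' ⊆ SA) (hA' : SA'' ⊆ SA') (hB : SB'' ⊆ SB) (hB' : SB'' ⊆ SB') (hd : d + d' ≤ d'') (hk : k + k' ≤ k'') :
    g.M SA'' SB'' d'' k'' (x * y) := by
  refine g.sup_mul (fun u v z hu hv hz => ?_) hx hy
  obtain ⟨h1, h2, h3⟩ := g.mul u v z hz
  obtain ⟨a1, a2, a3⟩ := hu
  obtain ⟨b1, b2, b3⟩ := hv
  refine ⟨by omega, fun j hj => h2 j (a2 j (hA hj)) (b2 j (hA' hj)), fun j hj => ?_⟩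
  have := a3 j (hB hj)
  have := b3 j (hB' hj)
  have := h1 j
  omega

theorem m_mono {SA SB SA' SB' : Finset J} {d d' : ℤ} {k k' : ℕ} {x : A} (hx : g.M SA SB d k x) (hA : SA' ⊆ SA) (hB : SB' ⊆ SB)
    (hd : d ≤ d') (hk : k ≤ k') : g.M SA' SB' d' k' x :=
  g.sup_mono (fun _ ⟨a1, a2, a3⟩ => ⟨a1.trans hk, fun j hj => a2 j (hA hj), fun j hj => (a3 j (hB hj)).trans hd⟩) hx

theorem m_inter [DecidableEq J] {SA SB : Finset J} {j : J} {d : ℤ} {k : ℕ} {x : A} (h1 : g.M SA (SB.erase j) d k x)
    (h2 : g.M (SA.erase j) SB d k x) : g.M SA SB d k x := fun z hz => ⟨(h1 z hz).1, (h1 z hz).2.1, (h2 z hz).2.2⟩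

theorem m_split [DecidableEq J] {SA SB : Finset J} {j : J} {d : ℤ} {k : ℕ} (hd : (k : ℤ) + 1 ≤ d) {x : A}
    (hx : g.M (SA.erase j) (SB.erase j) d k x) : ∃ y z : A, x = y - z ∧ g.M SA (SB.erase j) d k y ∧ g.M (SA.erase j) SB d k z := by
  classical
  let fA : β →₀ kk := (g.B.repr x).filter fun z => g.ty z j
  let fB : β →₀ kk := (g.B.repr x).filter fun z => ¬ g.ty z j
  refine ⟨g.B.repr.symm fA, -g.B.repr.symm fB, ?_, ?_, ?_⟩
  · rw [sub_neg_eq_add, ← map_add, Finsupp.filter_add_filter_not, LinearEquiv.symm_apply_apply]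
  · intro z hz
    rw [LinearEquiv.apply_symm_apply] at hz
    by_cases h : g.ty z j
    · rw [show fA z = g.B.repr x z from Finsupp.filter_apply_pos (fun z => g.ty z j) (g.B.repr x) h] at hz
      obtain ⟨h1, h2, h3⟩ := hx z hz
      refine ⟨h1, fun i hi => ?_, h3⟩
      by_cases hij : i = j
      · rw [hij]; exact h
      · exact h2 i (mem_erase.2 ⟨hij, hi⟩)
    · exact absurd (Finsupp.filter_apply_neg (fun z => g.ty z j) (g.B.repr x) h) hz
  · refine g.sup_neg fun z hz => ?_
    rw [LinearEquiv.apply_symm_apply] at hz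
    by_cases h : g.ty z j
    · exact absurd (Finsupp.filter_apply_neg (fun z => ¬ g.ty z j) (g.B.repr x) (not_not.2 h)) hz
    · rw [show fB z = g.B.repr x z from Finsupp.filter_apply_pos (fun z => ¬ g.ty z j) (g.B.repr x) h] at hz
      obtain ⟨h1, h2, h3⟩ := hx z hz
      refine ⟨h1, h2, fun i hi => ?_⟩
      by_cases hij : i = j
      · rw [hij]
        have := g.split z j h
        omega
      · exact h3 i (mem_erase.2 ⟨hij, hi⟩)

end GB

section Koszul

variable {A ι : Type} [CommRing A] [Fintype ι]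

/-- The differential: `D = ∑ (-1) ^ (s - 1)` (contraction of the `s`-th index with `v`). -/
def KD (v : ι → A) : (List ι → A) → List ι → A
  | m, [] => ∑ l, v l * m [l]
  | m, i :: r => ∑ l, v l * m (l :: i :: r) - KD v (fun r' => m (i :: r')) r

theorem kd_nil (v : ι → A) (m : List ι → A) : KD v m [] = ∑ l, v l * m [l] := by rw [KD]

theorem kd_cons (v : ι → A) (m : List ι → A) (i : ι) (r : List ι) :
    KD v m (i :: r) = ∑ l, v l * m (l :: i :: r) - KD v (fun r' => m (i :: r')) r := by rw [KD]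

theorem kd_sub (v : ι → A) (r : List ι) : ∀ m m' : List ι → A, KD v (fun r' => m r' - m' r') r = KD v m r - KD v m' r := by
  induction r with
  | nil => intro m m'; simp only [kd_nil, mul_sub, sum_sub_distrib]
  | cons i r ih => intro m m'; simp only [kd_cons, mul_sub, sum_sub_distrib, ih]; ring

theorem kd_sum (v : ι → A) (r : List ι) : ∀ (m : ι → List ι → A) (a : ι → A),
    KD v (fun r' => ∑ l, a l * m l r') r = ∑ l, a l * KD v (m l) r := by
  induction r with
  | nil =>
    intro m a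
    simp only [kd_nil, mul_sum]
    rw [sum_comm]
    exact sum_congr rfl fun l _ => sum_congr rfl fun k _ => by ring
  | cons i r ih =>
    intro m a
    simp only [kd_cons, mul_sub, sum_sub_distrib, ih, mul_sum]
    rw [sum_comm]
    congr 1
    exact sum_congr rfl fun l _ => sum_congr rfl fun k _ => by ring

theorem kd_mul (v : ι → A) (c : A) (r : List ι) : ∀ m : List ι → A, KD v (fun r' => c * m r') r = c * KD v m r := by
  induction r with
  | nil => intro m; simp only [kd_nil, mul_sum]; exact sum_congr rfl fun k _ => by ring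
  | cons i r ih =>
    intro m
    simp only [kd_cons, mul_sub, ih, mul_sum]
    congr 1
    exact sum_congr rfl fun k _ => by ring

theorem kd_kd (v : ι → A) (r : List ι) : ∀ m : List ι → A, KD v (KD v m) r = 0 := by
  induction r with
  | nil =>
    intro m
    simp only [kd_nil, kd_cons, mul_sub, sum_sub_distrib, mul_sum]
    rw [sub_eq_zero, sum_comm]
    exact sum_congr rfl fun l _ => sum_congr rfl fun k _ => by ring
  | cons i r ih =>
    intro m
    have h1 : KD v (fun r' => KD v m (i :: r')) r =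
        ∑ l, v l * KD v (fun r' => m (l :: i :: r')) r - KD v (KD v fun r' => m (i :: r')) r := by
      rw [show (fun r' => KD v m (i :: r')) = fun r' => (fun r'' => ∑ l, v l * (fun l r => m (l :: i :: r)) l r'') r' -
        (KD v fun r' => m (i :: r')) r' from funext fun r' => kd_cons v m i r', kd_sub, kd_sum]
    have h2 : (∑ l, ∑ k, v l * (v k * m (k :: l :: i :: r))) = ∑ l, ∑ k, v l * (v k * m (l :: k :: i :: r)) := by
      rw [sum_comm]
      exact sum_congr rfl fun l _ => sum_congr rfl fun k _ => by ring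
    rw [kd_cons, h1, ih]
    simp only [kd_cons, mul_sub, sum_sub_distrib, mul_sum, h2]
    ring

/-- The homotopy. -/
def KH (a : ι → A) (w : List ι → A) : List ι → A
  | [] => 0
  | i :: r => a i * w r

theorem kd_kh (v a : ι → A) (q : A) (h : ∑ i, a i * v i = q) (w : List ι → A) (hw : ∀ r, KD v w r = 0) (r : List ι) :
    KD v (KH a w) r = q * w r := by
  cases r with
  | nil =>
    rw [kd_nil, ← h, sum_mul]
    exact sum_congr rfl fun l _ => by rw [KH]; ring
  | cons i r =>
    rw [kd_cons, ← h, sum_mul]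
    have h1 : KD v (fun r' => KH a w (i :: r')) r = 0 := by
      rw [show (fun r' => KH a w (i :: r')) = fun r' => a i * w r' from funext fun r' => by rw [KH], kd_mul, hw, mul_zero]
    rw [h1, sub_zero]
    exact sum_congr rfl fun l _ => by rw [KH]; ring

end Koszul

namespace GB

variable {kk A J β ι : Type} [CommRing kk] [CommRing A] [Algebra kk A] [Fintype ι] (g : GB kk A J β)

theorem m_kd {v : ι → A} {SA SB : Finset J} {S : Finset J} (hSA : SA ⊆ S) (hSB : SB ⊆ S) {b : ℕ} {cw : ℕ} (hv : ∀ i, g.M S S b cw (v i)) {d : ℤ} {k : ℕ}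
    (r : List ι) : ∀ m : List ι → A, (∀ r, g.M SA SB d k (m r)) → g.M SA SB (d + b) (k + cw) (KD v m r) := by
  have h1 : ∀ x i, g.M SA SB d k x → g.M SA SB (d + b) (k + cw) (v i * x) := fun x i hx =>
    g.m_mul (hv i) hx hSA (Subset.refl _) hSB (Subset.refl _) (by omega) (by omega)
  induction r with
  | nil => intro m hm; rw [kd_nil]; exact g.sup_sum _ _ fun l _ => h1 _ _ (hm _)
  | cons i r ih =>
    intro m hm
    rw [kd_cons]
    exact g.sup_sub (g.sup_sum _ _ fun l _ => h1 _ _ (hm _)) (ih _ fun r' => hm _)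

/-- The loss in the weight after `h` steps. -/
def lh (l₁ h : ℕ) : ℕ := 2 ^ h * l₁

/-- The loss in the degree after `h` steps. -/
def kh (cw k₁ : ℕ) : ℕ → ℕ
  | 0 => k₁
  | h + 1 => 2 * kh cw k₁ h + cw

theorem kh_le (cw k₁ h : ℕ) : kh cw k₁ h ≤ 2 ^ h * (k₁ + cw) - cw := by
  induction h with
  | zero => rw [kh]; omega
  | succ h ih =>
    rw [kh, pow_succ]
    have : cw ≤ 2 ^ h * (k₁ + cw) := le_trans (Nat.le_add_left _ _) (Nat.le_mul_of_pos_left _ (by positivity))
    have h2 : 2 ^ h * 2 * (k₁ + cw) = 2 * (2 ^ h * (k₁ + cw)) := by ring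
    omega

/-- The threshold. -/
def dh (b cw k₁ h k : ℕ) : ℕ := 2 * h * b + k + 2 ^ (h + 1) * (k₁ + cw) + h

theorem claim [DecidableEq J] (S : Finset J) (v : ι → A) (b cw l₁ k₁ : ℕ) (q : kk) (hv : ∀ i, g.M S S b cw (v i))
    (ha : ∀ I ⊆ S, ∃ a : ι → A, ∑ i, a i * v i = algebraMap kk A q ∧ ∀ i, g.M (S \ I) I (-(b : ℤ) + l₁) k₁ (a i)) (h : ℕ) :
    ∀ (SA SB : Finset J), SA ⊆ S → SB ⊆ S → (SA ∩ SB).card = h → ∀ (d : ℤ) (k : ℕ), (dh b cw k₁ h k : ℤ) ≤ d → ∀ w : List ι → A,
      (∀ r, g.M SA SB d k (w r)) → (∀ r, KD v w r = 0) →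
      ∃ m : List ι → A, (∀ r, g.M SA SB (d - b + lh l₁ h) (k + kh cw k₁ h) (m r)) ∧
        ∀ r, KD v m r = algebraMap kk A (q ^ 2 ^ h) * w r := by
  induction h with
  | zero =>
    intro SA SB hSA hSB hc d k hd w hw hD
    obtain ⟨a, ha1, ha2⟩ := ha SB hSB
    refine ⟨KH a w, fun r => ?_, fun r => ?_⟩
    · cases r with
      | nil => rw [KH]; exact g.sup_zero _
      | cons i r =>
        rw [KH]
        refine g.m_mul (ha2 i) (hw r) (fun j hj => mem_sdiff.2 ⟨hSA hj, fun hj' => ?_⟩) (Subset.refl _) (Subset.refl _) (Subset.refl _) ?_ ?_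
        · rw [card_eq_zero] at hc
          exact absurd (mem_inter.2 ⟨hj, hj'⟩) (by rw [hc]; exact notMem_empty _)
        · rw [lh]; simp only [pow_zero, one_mul]; omega
        · rw [kh]; omega
    · rw [kd_kh v a _ ha1 w hD, pow_zero, pow_one]
  | succ h ih =>
    intro SA SB hSA hSB hc d k hd w hw hD
    obtain ⟨j, hj⟩ : (SA ∩ SB).Nonempty := card_pos.1 (by omega)
    obtain ⟨hjA, hjB⟩ := mem_inter.1 hj
    have hc' : ((SA ∩ SB).erase j).card = h := by rw [card_erase_of_mem hj, hc]; rfl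
    have cA : (SA ∩ SB.erase j).card = h := by rw [← hc', inter_erase]
    have cB : (SA.erase j ∩ SB).card = h := by rw [← hc', erase_inter]
    have cL : (SA.erase j ∩ SB.erase j).card = h := by
      rw [← hc']
      congr 1
      ext i
      simp only [mem_inter, mem_erase]
      tauto
    have hSA' : SA.erase j ⊆ S := (erase_subset _ _).trans hSA
    have hSB' : SB.erase j ⊆ S := (erase_subset _ _).trans hSB
    have hkh := kh_le cw k₁ h
    have hp1 : cw ≤ 2 ^ h * (k₁ + cw) := le_trans (Nat.le_add_left _ _) (Nat.le_mul_of_pos_left _ (by positivity))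
    have hpp : 2 ^ (h + 1 + 1) * (k₁ + cw) = 4 * (2 ^ h * (k₁ + cw)) := by ring
    have hpp' : 2 ^ (h + 1) * (k₁ + cw) = 2 * (2 ^ h * (k₁ + cw)) := by ring
    have hbb : 2 * (h + 1) * b = 2 * h * b + 2 * b := by ring
    rw [dh] at hd
    have hd1 : (dh b cw k₁ h k : ℤ) ≤ d := by
      rw [dh]; push_cast at hd ⊢
      have : ((2 : ℤ) ^ (h + 1 + 1) * (k₁ + cw)) = 4 * (2 ^ h * (k₁ + cw)) := by ring
      have : ((2 : ℤ) ^ (h + 1) * (k₁ + cw)) = 2 * (2 ^ h * (k₁ + cw)) := by ring
      have : (0 : ℤ) ≤ 2 ^ h * (k₁ + cw) := by positivity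
      nlinarith
    obtain ⟨mA, hA1, hA2⟩ := ih SA (SB.erase j) hSA hSB' cA d k hd1 w (fun r => g.m_mono (hw r) (Subset.refl _) (erase_subset _ _) le_rfl le_rfl) hD
    obtain ⟨mB, hB1, hB2⟩ := ih (SA.erase j) SB hSA' hSB cB d k hd1 w (fun r => g.m_mono (hw r) (erase_subset _ _) (Subset.refl _) le_rfl le_rfl) hD
    have hL : ∀ r, g.M (SA.erase j) (SB.erase j) (d - b + lh l₁ h) (k + kh cw k₁ h) (mA r - mB r) := fun r =>
      g.sup_sub (g.m_mono (hA1 r) (erase_subset _ _) (Subset.refl _) le_rfl le_rfl)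
        (g.m_mono (hB1 r) (Subset.refl _) (erase_subset _ _) le_rfl le_rfl)
    have hD2 : ∀ r, KD v (fun r' => mA r' - mB r') r = 0 := fun r => by rw [kd_sub, hA2, hB2, sub_self]
    have hd2 : (dh b cw k₁ h (k + kh cw k₁ h) : ℤ) ≤ d - b + lh l₁ h := by
      have h0 : dh b cw k₁ h (k + kh cw k₁ h) + b ≤ 2 * (h + 1) * b + k + 2 ^ (h + 1 + 1) * (k₁ + cw) + (h + 1) := by
        rw [dh]; omega
      have h1 : (0 : ℤ) ≤ (lh l₁ h : ℤ) := by positivity
      omega
    obtain ⟨c, hc1, hc2⟩ := ih (SA.erase j) (SB.erase j) hSA' hSB' cL _ _ hd2 _ hL hD2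
    have hd3 : ((k + kh cw k₁ h + kh cw k₁ h : ℕ) : ℤ) + 1 ≤ d - b + lh l₁ h - b + lh l₁ h := by
      have h0 : k + kh cw k₁ h + kh cw k₁ h + 1 + 2 * b ≤ 2 * (h + 1) * b + k + 2 ^ (h + 1 + 1) * (k₁ + cw) + (h + 1) := by
        have : 0 ≤ 2 * h * b := Nat.zero_le _
        omega
      have h1 : (0 : ℤ) ≤ (lh l₁ h : ℤ) := by positivity
      omega
    choose cA' cB' hs1 hs2 hs3 using fun r => g.m_split hd3 (hc1 r)
    have hDc : ∀ r, KD v cA' r - KD v cB' r = algebraMap kk A (q ^ 2 ^ h) * (mA r - mB r) := fun r => by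
      rw [← kd_sub, ← hc2 r]
      congr 1
      exact funext fun r' => (hs1 r').symm
    have hkk : kh cw k₁ (h + 1) = 2 * kh cw k₁ h + cw := by rw [kh]
    have hll : (lh l₁ (h + 1) : ℤ) = 2 * lh l₁ h := by rw [lh, lh, pow_succ]; push_cast; ring
    have hl0 : (0 : ℤ) ≤ (lh l₁ h : ℤ) := by positivity
    refine ⟨fun r => algebraMap kk A (q ^ 2 ^ h) * mA r - KD v cA' r, fun r => g.m_inter (j := j) ?_ ?_, fun r => ?_⟩
    · refine g.sup_sub ?_ ?_
      · rw [← Algebra.smul_def]
        exact g.sup_smul (g.m_mono (hA1 r) (Subset.refl _) (Subset.refl _) (by omega) (by omega)) _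
      · exact g.m_mono (g.m_kd hSA hSB' hv r _ hs2) (Subset.refl _) (Subset.refl _) (by omega) (by omega)
    · have h3 : algebraMap kk A (q ^ 2 ^ h) * mA r - KD v cA' r = algebraMap kk A (q ^ 2 ^ h) * mB r - KD v cB' r := by
        linear_combination -(hDc r)
      show g.Sup _ (algebraMap kk A (q ^ 2 ^ h) * mA r - KD v cA' r)
      rw [h3]
      refine g.sup_sub ?_ ?_
      · rw [← Algebra.smul_def]
        exact g.sup_smul (g.m_mono (hB1 r) (Subset.refl _) (Subset.refl _) (by omega) (by omega)) _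
      · exact g.m_mono (g.m_kd hSA' hSB hv r _ hs3) (Subset.refl _) (Subset.refl _) (by omega) (by omega)
    · rw [kd_sub, kd_mul, hA2, kd_kd, sub_zero, ← mul_assoc, ← map_mul, ← pow_add, ← two_mul, ← pow_succ']

/-- REGULARITY (R): if for every set `I` of directions `q = ∑ a_i v_i` with `a_i` of small weight in the directions in `I` and of type A in the
other directions, then `q ^ (2 ^ n)` is a combination of the `v_i` with coefficients of type A and of bounded weight in all directions. -/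
theorem regular [Fintype J] [DecidableEq J] (v : ι → A) (b cw l₁ k₁ : ℕ) (q : kk) (hv : ∀ i, g.M univ univ b cw (v i))
    (ha : ∀ I : Finset J, ∃ a : ι → A, ∑ i, a i * v i = algebraMap kk A q ∧ ∀ i, g.M Iᶜ I (-(b : ℤ) + l₁) k₁ (a i))
    (h1 : g.M univ univ 0 0 (1 : A)) :
    ∃ m : ι → A, ∑ i, v i * m i = algebraMap kk A (q ^ 2 ^ Fintype.card J) ∧
      ∀ i, g.M univ univ ((2 * Fintype.card J * b + 2 ^ (Fintype.card J + 1) * (k₁ + cw) + Fintype.card J + 2 ^ Fintype.card J * l₁ : ℕ) : ℤ)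
        (2 ^ Fintype.card J * (k₁ + cw)) (m i) := by
  classical
  let w : List ι → A := fun r => if r = [] then 1 else 0
  have hw0 : ∀ r : List ι, ∀ i, (fun r' => w (i :: r')) = fun _ => (0 : A) := fun r i => funext fun r' => by simp [w]
  have hz : ∀ r : List ι, KD v (fun _ => (0 : A)) r = 0 := fun r => by
    have := kd_mul v 0 r (fun _ => (0 : A))
    simpa using this
  have hD : ∀ r, KD v w r = 0 := fun r => by
    cases r with
    | nil => rw [kd_nil]; exact sum_eq_zero fun l _ => by simp [w]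
    | cons i r => rw [kd_cons, hw0 r i, hz, sub_zero]; exact sum_eq_zero fun l _ => by simp [w]
  obtain ⟨m, hm1, hm2⟩ := g.claim univ v b cw l₁ k₁ q hv (fun I _ => by simpa only [compl_eq_univ_sdiff] using ha I) (Fintype.card J) univ univ
    (Subset.refl _) (Subset.refl _) (by rw [inter_self, card_univ]) (dh b cw k₁ (Fintype.card J) 0 : ℤ) 0 le_rfl w (fun r => by
      by_cases hr : r = []
      · simp only [w, if_pos hr]
        exact g.m_mono h1 (Subset.refl _) (Subset.refl _) (by positivity) le_rfl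
      · simp only [w, if_neg hr]
        exact g.sup_zero _) hD
  refine ⟨fun i => m [i], ?_, fun i => g.m_mono (hm1 [i]) (Subset.refl _) (Subset.refl _) ?_ ?_⟩
  · have := hm2 []
    rw [kd_nil] at this
    rw [this]
    simp [w]
  · rw [dh, lh]
    push_cast
    have : (0 : ℤ) ≤ b := by positivity
    linarith
  · have := kh_le cw k₁ (Fintype.card J)
    omega

end GB

end H47E
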