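import Mathlib

/-!
# H47E, S3: vectors over a differentially simple ring (PROOF.md, section 6, S3) (helper28)
-/

set_option autoImplicit false

namespace H47E

/-- The only ideals stable under `D` are zero and the whole ring. -/
def DSimple {R : Type} [CommRing R] (D : Derivation ℤ R R) : Prop :=
  ∀ J : Ideal R, (∀ f ∈ J, D f ∈ J) → (∃ f ∈ J, f ≠ 0) → (1 : R) ∈ J

/-- S3: a nonzero stable submodule of a free module contains a nonzero constant vector. -/
theorem s3 {R : Type} [CommRing R] {D : Derivation ℤ R R} (hD : DSimple D) {ι : Type} [Finite ι] (T : Submodule R (ι → R))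
    (hT : ∀ t ∈ T, (fun i => D (t i)) ∈ T) (hne : ∃ t ∈ T, t ≠ 0) : ∃ t ∈ T, t ≠ 0 ∧ ∀ i, D (t i) = 0 := by
  classical
  obtain ⟨_⟩ := nonempty_fintype ι
  let P : ℕ → Prop := fun n => ∃ t ∈ T, t ≠ 0 ∧ (Finset.univ.filter fun i => t i ≠ 0).card = n
  have hex : ∃ n, P n := by
    obtain ⟨t, ht, h0⟩ := hne
    exact ⟨_, t, ht, h0, rfl⟩
  obtain ⟨t₀, ht₀, h0, hcard⟩ := Nat.find_spec hex
  obtain ⟨i₀, hi₀⟩ : ∃ i, t₀ i ≠ 0 := by
    by_contra h
    push Not at h
    exact h0 (funext h)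
  -- the ideal of the i₀-coordinates of the elements with support in that of t₀
  let J : Ideal R :=
    { carrier := {r | ∃ t ∈ T, (∀ i, t₀ i = 0 → t i = 0) ∧ t i₀ = r}
      add_mem' := by
        rintro r s ⟨t, h1, h2, rfl⟩ ⟨u, h3, h4, rfl⟩
        exact ⟨t + u, T.add_mem h1 h3, fun i hi => by rw [Pi.add_apply, h2 i hi, h4 i hi, add_zero], rfl⟩
      zero_mem' := ⟨0, T.zero_mem, fun _ _ => rfl, rfl⟩
      smul_mem' := by
        rintro r s ⟨t, h1, h2, rfl⟩
        exact ⟨r • t, T.smul_mem r h1, fun i hi => by rw [Pi.smul_apply, h2 i hi, smul_zero], rfl⟩ }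
  have hJ : ∀ f ∈ J, D f ∈ J := by
    rintro f ⟨t, h1, h2, rfl⟩
    exact ⟨fun i => D (t i), hT t h1, fun i hi => by
      show D (t i) = 0
      rw [h2 i hi, map_zero], rfl⟩
  obtain ⟨t, h1, h2, h3⟩ : (1 : R) ∈ J := hD J hJ ⟨t₀ i₀, ⟨t₀, ht₀, fun _ h => h, rfl⟩, hi₀⟩
  have h10 : (1 : R) ≠ 0 := by
    intro h
    apply hi₀
    rw [← one_mul (t₀ i₀), h, zero_mul]
  refine ⟨t, h1, fun h => h10 (by rw [← h3, h]; rfl), ?_⟩
  by_contra hcon
  push Not at hcon
  have h4 : P ((Finset.univ.filter fun i => D (t i) ≠ 0).card) := by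
    refine ⟨fun i => D (t i), hT t h1, ?_, rfl⟩
    obtain ⟨i, hi⟩ := hcon
    intro h
    exact hi (congrFun h i)
  have h5 : (Finset.univ.filter fun i => D (t i) ≠ 0).card < (Finset.univ.filter fun i => t₀ i ≠ 0).card := by
    refine Finset.card_lt_card ⟨?_, fun hsub => ?_⟩
    · intro i hi
      rw [Finset.mem_filter] at hi ⊢
      refine ⟨hi.1, fun h => hi.2 ?_⟩
      rw [h2 i h, map_zero]
    · have h6 : i₀ ∈ Finset.univ.filter fun i => t₀ i ≠ 0 := Finset.mem_filter.2 ⟨Finset.mem_univ _, hi₀⟩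
      have h7 := (Finset.mem_filter.1 (hsub h6)).2
      rw [h3, Derivation.map_one_eq_zero] at h7
      exact h7 rfl
  rw [hcard] at h5
  exact Nat.find_min hex h5 h4

end H47E
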