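import Pool.Agent.Lib.H47E.S2
import Pool.Agent.Lib.H47E.S3
import Pool.Agent.Lib.H47E.D

/-!
# H47E, S1: the ring of functions regular outside the origin is differentially simple (PROOF.md, section 6, S1) (helper28)
-/

set_option autoImplicit false

namespace H47E

open MvPolynomial

variable {n : ℕ} {K : Type} [Field K] [CharZero K] (a c : K) [Fact (c ≠ 0)]

/-- The ring of functions regular outside the origin, polynomial in `z`, which do not involve the `w_j`. -/
noncomputable def Oz (n : ℕ) (a c : K) [Fact (c ≠ 0)] : Subring (LL n a c (Polynomial K)) where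
  carrier := {f | TA a c 0 f}
  mul_mem' := fun hx hy => e1i_TA_mul a c hx hy
  one_mem' := fun I hI => by
    obtain ⟨h1, h2⟩ := (e1h_one a c (k := Polynomial K) (n := n)).1 I hI
    exact ⟨h1, fun j => (h2 j).1⟩
  add_mem' := fun {x y} hx hy => by
    have h := e1i_TA_add a c le_rfl hx hy (1 : Polynomial K)
    rwa [one_smul] at h
  zero_mem' := fun I hI => absurd (s2_crd_zero a c I) hI
  neg_mem' := fun {x} hx => by
    have h0 : TA a c 0 (0 : LL n a c (Polynomial K)) := fun I hI => absurd (s2_crd_zero a c I) hI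
    have h := e1i_TA_add a c le_rfl h0 hx (-1 : Polynomial K)
    rwa [neg_smul, one_smul, zero_add] at h

theorem mem_Oz {f : LL n a c (Polynomial K)} : f ∈ Oz n a c ↔ TA a c 0 f := Iff.rfl

/-- The derivation of this ring. -/
noncomputable def dOz (p : Fin n → K) : Derivation ℤ (Oz n a c) (Oz n a c) :=
  Derivation.mk' (AddMonoidHom.toIntLinearMap
    { toFun := fun f => ⟨derz a c p f.1, e3c_TA a c _ p f.2⟩
      map_zero' := Subtype.ext (map_zero (derz a c p))
      map_add' := fun x y => Subtype.ext (map_add (derz a c p) x.1 y.1) })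
    fun x y => Subtype.ext ((derz a c p).leibniz x.1 y.1)

theorem dOz_coe (p : Fin n → K) (f : Oz n a c) : ((dOz a c p f : Oz n a c) : LL n a c (Polynomial K)) = derz a c p f.1 := rfl

/-- The homomorphism from the polynomial ring. -/
noncomputable def s1_psi : MvPolynomial (Option (Fin n × Fin 2)) K →+* LL n a c (Polynomial K) :=
  eval₂Hom (algebraMap K (LL n a c (Polynomial K))) fun i => match i with
    | none => algebraMap (Polynomial K) (LL n a c (Polynomial K)) Polynomial.X
    | some (j, 0) => gx a c (Polynomial K) j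
    | some (j, 1) => gy a c (Polynomial K) j

theorem s1_psi_C (r : K) : s1_psi a c (C r : MvPolynomial (Option (Fin n × Fin 2)) K) = algebraMap K (LL n a c (Polynomial K)) r := by
  unfold s1_psi
  simp

theorem s1_psi_z : s1_psi a c (X none : MvPolynomial (Option (Fin n × Fin 2)) K) =
    algebraMap (Polynomial K) (LL n a c (Polynomial K)) Polynomial.X := by
  unfold s1_psi
  simp

theorem s1_psi_x (j : Fin n) : s1_psi a c (X (some (j, 0)) : MvPolynomial (Option (Fin n × Fin 2)) K) = gx a c (Polynomial K) j := by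
  unfold s1_psi
  simp

theorem s1_psi_y (j : Fin n) : s1_psi a c (X (some (j, 1)) : MvPolynomial (Option (Fin n × Fin 2)) K) = gy a c (Polynomial K) j := by
  unfold s1_psi
  simp

theorem s1_mem (Q : MvPolynomial (Option (Fin n × Fin 2)) K) : s1_psi a c Q ∈ Oz n a c := by
  have hK : ∀ r : Polynomial K, algebraMap (Polynomial K) (LL n a c (Polynomial K)) r ∈ Oz n a c := by
    intro r I hI
    have h1 : crd a c (algebraMap (Polynomial K) (LL n a c (Polynomial K)) r) I = r * crd a c (1 : LL n a c (Polynomial K)) I := by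
      rw [← s2_crd_smul, mul_one]
    rw [h1] at hI
    exact (Oz n a c).one_mem I (right_ne_zero_of_mul hI)
  have hTG : ∀ {f : LL n a c (Polynomial K)} {d : ℕ}, TG a c d 0 f → f ∈ Oz n a c := fun h I hI =>
    ⟨(h I hI).1, fun j => ((h I hI).2 j).1⟩
  induction Q using MvPolynomial.induction_on with
  | C r =>
    rw [s1_psi_C, IsScalarTower.algebraMap_apply K (Polynomial K) (LL n a c (Polynomial K))]
    exact hK _
  | add p q hp hq =>
    rw [map_add]
    exact (Oz n a c).add_mem hp hq
  | mul_X p i hp =>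
    rw [map_mul]
    refine (Oz n a c).mul_mem hp ?_
    match i with
    | none =>
      rw [s1_psi_z]
      exact hK _
    | some (j, 0) =>
      rw [s1_psi_x]
      exact hTG (e1i_gen a c j).1
    | some (j, 1) =>
      rw [s1_psi_y]
      exact hTG (e1i_gen a c j).2.1

theorem s1_der (p : Fin n → K) (Q : MvPolynomial (Option (Fin n × Fin 2)) K) :
    s1_psi a c (dS a c p Q) = derz a c p (s1_psi a c Q) := by
  induction Q using MvPolynomial.induction_on with
  | C r =>
    have h1 : dS a c p (C r) = 0 := (dS a c p).map_algebraMap r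
    rw [h1, map_zero, s1_psi_C, Derivation.map_algebraMap]
  | add p q hp hq =>
    rw [map_add, map_add, map_add, map_add, hp, hq]
  | mul_X q i hq =>
    rw [Derivation.leibniz, map_add, map_mul, Derivation.leibniz, smul_eq_mul, smul_eq_mul, smul_eq_mul, smul_eq_mul, map_mul, map_mul,
      hq]
    congr 1
    congr 1
    match i with
    | none =>
      have h1 : dS a c p (X none : MvPolynomial (Option (Fin n × Fin 2)) K) = 1 := by
        unfold dS
        rw [mkDerivation_X]
      rw [h1, map_one, s1_psi_z, derz, der_alg]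
      have h2 : Polynomial.derivative' (Polynomial.X : Polynomial K) = 1 := Polynomial.derivative_X
      rw [h2, map_one]
    | some (j, 0) =>
      have h1 : dS a c p (X (some (j, 0)) : MvPolynomial (Option (Fin n × Fin 2)) K) = C (2 * p j) * X (some (j, 1)) := by
        unfold dS
        rw [mkDerivation_X]
      rw [h1, map_mul, s1_psi_C, s1_psi_y, s1_psi_x, derz, der_x, map_mul, map_ofNat]
    | some (j, 1) =>
      have h1 : dS a c p (X (some (j, 1)) : MvPolynomial (Option (Fin n × Fin 2)) K) = C (p j) * (3 * X (some (j, 0)) ^ 2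
          + 2 * C a * X (some (j, 0)) + C c) := by
        unfold dS
        rw [mkDerivation_X]
      rw [h1, s1_psi_y, derz, der_y, map_mul, map_add, map_add, map_mul, map_mul, map_mul, map_pow, s1_psi_C, s1_psi_C, s1_psi_C,
        s1_psi_x, map_ofNat, map_ofNat]

/-- The homomorphism is onto. -/
theorem s1_surj {f : LL n a c (Polynomial K)} (hf : TA a c 0 f) : ∃ Q, s1_psi a c Q = f := by
  classical
  have hpoly : ∀ r : Polynomial K, ∃ Q : MvPolynomial (Option (Fin n × Fin 2)) K,
      s1_psi a c Q = algebraMap (Polynomial K) (LL n a c (Polynomial K)) r := by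
    intro r
    induction r using Polynomial.induction_on with
    | C r =>
      exact ⟨C r, by rw [s1_psi_C, IsScalarTower.algebraMap_apply K (Polynomial K) (LL n a c (Polynomial K))]; rfl⟩
    | add p q hp hq =>
      obtain ⟨P, hP⟩ := hp
      obtain ⟨Q, hQ⟩ := hq
      exact ⟨P + Q, by rw [map_add, map_add, hP, hQ]⟩
    | monomial m r h =>
      obtain ⟨Q, hQ⟩ := h
      exact ⟨Q * X none, by rw [map_mul, hQ, s1_psi_z, ← map_mul, mul_assoc, ← pow_succ]⟩
  have hmon : ∀ I : Fin n → Ix, (∀ j, tA (I j) ∧ (I j).2.2 = 0) → ∃ Q : MvPolynomial (Option (Fin n × Fin 2)) K,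
      s1_psi a c Q = mon a c (Polynomial K) I := by
    intro I hI
    refine ⟨∏ j, X (some (j, 0)) ^ ((I j).1.toNat - (I j).2.1) * X (some (j, 1)) ^ ((I j).2.1 : ℕ), ?_⟩
    rw [map_prod]
    unfold mon
    refine Finset.prod_congr rfl fun j _ => ?_
    rw [map_mul, map_pow, map_pow, s1_psi_x, s1_psi_y]
    obtain ⟨h1, h2⟩ := hI j
    obtain ⟨⟨m, e, κ⟩, hm⟩ : ∃ i, i = I j := ⟨_, rfl⟩
    rw [← hm] at h1 h2 ⊢
    simp only at h2
    subst h2
    unfold tA at h1
    simp only at h1
    obtain ⟨q, rfl⟩ : ∃ q : ℕ, m = (q : ℤ) := ⟨m.toNat, by omega⟩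
    simp only [Int.toNat_natCast]
    have he : e = 0 ∨ e = 1 := by omega
    rcases he with rfl | rfl
    · rw [s2_x]
      simp
    · rw [s2_y]
      have h3 : ((1 : Fin 2) : ℕ) = 1 := rfl
      rw [h3] at h1 ⊢
      obtain ⟨q, rfl⟩ : ∃ q', q = q' + 1 := ⟨q - 1, by omega⟩
      rw [Nat.add_sub_cancel, pow_one]
      unfold gy
      ring
  choose! P hP using hpoly
  choose! M hM using hmon
  refine ⟨∑ I ∈ ((LB a c (Polynomial K)).repr f).support, P (crd a c f I) * M I, ?_⟩
  rw [map_sum]
  conv_rhs => rw [s2_exp a c f]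
  refine Finset.sum_congr rfl fun I hI => ?_
  rw [s2_mem] at hI
  obtain ⟨h1, h2⟩ := hf I hI
  rw [map_mul, hP, hM I fun j => ⟨h2 j, ?_⟩]
  have h3 : (I j).2.2 ≤ wd I := Finset.single_le_sum (f := fun l => (I l).2.2) (fun _ _ => Nat.zero_le _) (Finset.mem_univ j)
  omega

/-- The values. -/
theorem s1_ev [NumberField K] (ι : K →+* ℂ) {L : PeriodPair} {e : ℂ} (z₀ : ℂ) (v : Fin n → ℂ)
    (s : Fin n → ℂ × ℂ × ℂ) (h1 : ∀ j, (s j).1 = xf L e (v j)) (h2 : ∀ j, (s j).1 * (s j).2.1 = yf L (v j))
    (E : LL n a c (Polynomial K) →+* ℂ)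
    (hE : ∀ r : Polynomial K, E (algebraMap (Polynomial K) (LL n a c (Polynomial K)) r) = Polynomial.eval₂RingHom ι z₀ r)
    (hE' : ∀ I : Fin n → Ix, E (mon a c (Polynomial K) I) = ∏ j, (ι c ^ (-(I j).1).toNat *
        ((s j).1 ^ (I j).1 * (s j).2.1 ^ ((I j).2.1 : ℕ) * (s j).2.2 ^ (I j).2.2)))
    (Q : MvPolynomial (Option (Fin n × Fin 2)) K) : E (s1_psi a c Q) = evS ι L e z₀ v Q := by
  have hsingle : ∀ (j : Fin n) (i : Ix), E (mon1 a c (Polynomial K) j i) = ι c ^ (-i.1).toNat *
        ((s j).1 ^ i.1 * (s j).2.1 ^ (i.2.1 : ℕ) * (s j).2.2 ^ i.2.2) := by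
    intro j i
    rw [← e1g_upd, hE', Finset.prod_eq_single j]
    · rw [Function.update_self]
    · intro l _ hl
      rw [Function.update_of_ne hl]
      simp
    · intro h
      exact absurd (Finset.mem_univ j) h
  have hx : ∀ j, E (gx a c (Polynomial K) j) = (s j).1 := by
    intro j
    have h := hsingle j (((1 : ℕ) : ℤ), 0, 0)
    rw [s2_x, pow_one] at h
    rw [h]
    simp
  have hy : ∀ j, E (gy a c (Polynomial K) j) = (s j).1 * (s j).2.1 := by
    intro j
    have h := hsingle j (((1 : ℕ) : ℤ), 1, 0)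
    rw [s2_y, pow_one] at h
    unfold gy
    rw [h]
    simp
  induction Q using MvPolynomial.induction_on with
  | C r =>
    rw [s1_psi_C, IsScalarTower.algebraMap_apply K (Polynomial K) (LL n a c (Polynomial K)), hE]
    unfold evS
    simp
  | add p q hp hq => rw [map_add, map_add, map_add, hp, hq]
  | mul_X q i hq =>
    rw [map_mul, map_mul, map_mul, hq]
    congr 1
    match i with
    | none =>
      rw [s1_psi_z, hE]
      unfold evS
      simp
    | some (j, 0) =>
      rw [s1_psi_x, hx, h1]
      unfold evS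
      simp
    | some (j, 1) =>
      rw [s1_psi_y, hy, h2]
      unfold evS
      simp

end H47E
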