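import Pool.Agent.Lib.H47E.S1
import Pool.Agent.Lib.H47E.E1c

/-!
# H47E, S1B: the ring of functions regular outside the origin is differentially simple, conclusion (helper28)
-/

set_option autoImplicit false

namespace H47E

open MvPolynomial

variable {n : ℕ} {K : Type} [Field K] [NumberField K] (a c : K) [Fact (c ≠ 0)]

/-- An element which vanishes at all points is zero. -/
theorem s1_zero (ι : K →+* ℂ) {L : PeriodPair} {e : ℂ} (N : Norm L e (ι a) (ι c)) (Q : MvPolynomial (Option (Fin n × Fin 2)) K)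
    (h : ∀ (z₀ : ℂ) (v : Fin n → ℂ), (∀ j, v j ∉ L.lattice) → evS ι L e z₀ v Q = 0) : s1_psi a c Q = 0 := by
  classical
  obtain ⟨f, hf⟩ : ∃ f, f = s1_psi a c Q := ⟨_, rfl⟩
  have hTA : TA a c 0 f := by
    rw [hf]
    exact s1_mem a c Q
  have hli := e1b_prod _ (e1a_indep ℂ (ι a) (ι c)) n
  -- all coordinates vanish at all z₀
  have hz : ∀ (z₀ : ℂ) (I : Fin n → Ix), Polynomial.eval₂RingHom ι z₀ (crd a c f I) = 0 := by
    intro z₀ I
    by_cases hI : crd a c f I = 0
    · rw [hI, map_zero]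
    refine linearIndependent_iff'.1 hli ((LB a c (Polynomial K)).repr f).support
      (fun I => Polynomial.eval₂RingHom ι z₀ (crd a c f I)) ?_ I ((s2_mem a c f I).2 hI)
    funext s
    have hv : ∀ j, ∃ v : ℂ, v ∉ L.lattice ∧ xf L e v = (s j).1.1 ∧ yf L v = (s j).1.1 * (s j).1.2.1 := by
      intro j
      refine unif N _ _ ?_
      obtain ⟨h1, h2⟩ := (s j).2
      rw [mul_pow, h2]
      field_simp
      ring
    choose v hv1 hv2 hv3 using hv
    obtain ⟨E, hE, hE'⟩ := e1c_ev a c (Polynomial K) (n := n) (Polynomial.eval₂RingHom ι z₀) (fun j => (s j).1) (fun j => by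
      obtain ⟨h1, h2⟩ := (s j).2
      refine ⟨h1, ?_⟩
      have e1 : Polynomial.eval₂RingHom ι z₀ (algebraMap K (Polynomial K) c) = ι c := by
        show Polynomial.eval₂ ι z₀ (Polynomial.C c) = ι c
        rw [Polynomial.eval₂_C]
      have e2 : Polynomial.eval₂RingHom ι z₀ (algebraMap K (Polynomial K) a) = ι a := by
        show Polynomial.eval₂ ι z₀ (Polynomial.C a) = ι a
        rw [Polynomial.eval₂_C]
      rw [e1, e2]
      exact h2)
    have e1 : Polynomial.eval₂RingHom ι z₀ (algebraMap K (Polynomial K) c) = ι c := by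
      show Polynomial.eval₂ ι z₀ (Polynomial.C c) = ι c
      rw [Polynomial.eval₂_C]
    have hE2 : ∀ I : Fin n → Ix, E (mon a c (Polynomial K) I) = ∏ j, (ι c ^ (-(I j).1).toNat *
        (((s j).1).1 ^ (I j).1 * ((s j).1).2.1 ^ ((I j).2.1 : ℕ) * ((s j).1).2.2 ^ (I j).2.2)) := by
      intro I
      rw [hE', e1]
    have h3 := s1_ev a c ι z₀ v (fun j => (s j).1) (fun j => (hv2 j).symm) (fun j => (hv3 j).symm) E hE hE2 Q
    rw [h z₀ v hv1, ← hf] at h3
    have h4 := s2_exp a c f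
    have h5 := congrArg E h4
    rw [h3, map_sum] at h5
    rw [Finset.sum_apply, Pi.zero_apply]
    refine Eq.trans ?_ h5.symm
    refine Finset.sum_congr rfl fun J hJ => ?_
    rw [s2_mem] at hJ
    rw [Pi.smul_apply, smul_eq_mul, map_mul, hE, hE2]
    congr 1
    refine Finset.prod_congr rfl fun j _ => ?_
    have h6 : (-(J j).1).toNat = 0 := by
      have h7 := (hTA J hJ).2 j
      unfold tA at h7
      omega
    rw [h6, pow_zero, one_mul]
  rw [← hf]
  have hc0 : ∀ I, crd a c f I = 0 := by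
    intro I
    by_contra hne
    have h1 : (crd a c f I).map ι ≠ 0 := by
      rw [Ne, Polynomial.map_eq_zero_iff ι.injective]
      exact hne
    have h2 : (crd a c f I).map ι = 0 := by
      refine Polynomial.funext fun z₀ => ?_
      have h3 := hz z₀ I
      rw [Polynomial.eval_zero, Polynomial.eval_map]
      exact h3
    exact h1 h2
  rw [s2_exp a c f]
  refine Finset.sum_eq_zero fun I _ => ?_
  rw [hc0, map_zero, zero_mul]

/-- S1. -/
theorem s1_simple (ι : K →+* ℂ) {L : PeriodPair} (hL : CM L) {e : ℂ} (N : Norm L e (ι a) (ι c)) (p : Fin n → K)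
    (hp : KInd L (fun j => ι (p j))) : DSimple (dOz (n := n) a c p) := by
  intro J hJ ⟨f, hf, hf0⟩
  obtain ⟨Q, hQ⟩ := s1_surj a c (f := (f : LL n a c (Polynomial K))) f.2
  let Ψ : MvPolynomial (Option (Fin n × Fin 2)) K →+* Oz n a c := (s1_psi a c).codRestrict (Oz n a c) (s1_mem a c)
  have hΨ : ∀ P, ((Ψ P : Oz n a c) : LL n a c (Polynomial K)) = s1_psi a c P := fun P => rfl
  have hΨQ : Ψ Q = f := Subtype.ext hQ
  obtain ⟨z₀, v, hv, hne⟩ : ∃ (z₀ : ℂ) (v : Fin n → ℂ), (∀ j, v j ∉ L.lattice) ∧ evS ι L e z₀ v Q ≠ 0 := by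
    by_contra hcon
    apply hf0
    apply Subtype.ext
    rw [← hΨQ, hΨ]
    refine s1_zero a c ι N Q fun z₀ v hv => ?_
    by_contra h
    exact hcon ⟨z₀, v, hv, h⟩
  have h1 := dsimple ι hL N p hp (J.comap Ψ) (fun P hP => ?_) (fun j => ?_) Q ?_ z₀ v hv hne
  · rw [Ideal.mem_comap, map_one] at h1
    exact h1
  · rw [Ideal.mem_comap] at hP ⊢
    have h2 : Ψ (dS a c p P) = dOz a c p (Ψ P) := Subtype.ext (s1_der a c p P)
    rw [h2]
    exact hJ _ hP
  · rw [Ideal.mem_comap]
    have h2 : Ψ (MvPolynomial.X (some (j, 1)) ^ 2 - (MvPolynomial.X (some (j, 0)) ^ 3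
      + MvPolynomial.C a * MvPolynomial.X (some (j, 0)) ^ 2 + MvPolynomial.C c * MvPolynomial.X (some (j, 0)))) = 0 := by
      apply Subtype.ext
      rw [hΨ, map_sub, map_pow, map_add, map_add, map_mul, map_mul, map_pow, map_pow, s1_psi_C, s1_psi_C, s1_psi_x, s1_psi_y, rel_y,
        sub_self]
      rfl
    rw [h2]
    exact J.zero_mem
  · rw [Ideal.mem_comap, hΨQ]
    exact hf

end H47E
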