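import Pool.Agent.Lib.H47E.E3c

/-!
# H47E, S2: constants and primitives in the ring of functions regular outside the origin (PROOF.md, section 6, S2) (helper28)
-/

set_option autoImplicit false

namespace H47E

open MvPolynomial

/-- The Leibniz rule for products over a finset. -/
theorem s2_leib {R A : Type} [CommRing R] [CommRing A] [Algebra R A] (D : Derivation R A A) {ι : Type} [DecidableEq ι] (s : Finset ι)
    (f : ι → A) : D (∏ i ∈ s, f i) = ∑ i ∈ s, (∏ j ∈ s.erase i, f j) * D (f i) := by
  induction s using Finset.induction_on with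
  | empty => rw [Finset.prod_empty, Derivation.map_one_eq_zero, Finset.sum_empty]
  | insert b s hb ih =>
    rw [Finset.prod_insert hb, D.leibniz, ih, Finset.sum_insert hb, Finset.erase_insert hb, smul_eq_mul, smul_eq_mul, add_comm,
      Finset.mul_sum]
    congr 1
    refine Finset.sum_congr rfl fun i hi => ?_
    have hne : b ≠ i := fun h => hb (h ▸ hi)
    rw [Finset.erase_insert_of_ne hne, Finset.prod_insert fun h => hb (Finset.mem_of_mem_erase h), mul_assoc]

/-- The index of weight one more. -/
def sh (i : Ix) : Ix := (i.1 + ((i.2.1 : ℕ) : ℤ), 1 - i.2.1, 0)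

section one

variable {n : ℕ} {K : Type} [Field K] (a c : K) {k : Type} [CommRing k] [Algebra K k]

theorem s2_x (j : Fin n) (i : ℕ) : mon1 a c k j ((i : ℤ), 0, 0) = gx a c k j ^ i := by
  unfold mon1
  simp

theorem s2_y (j : Fin n) (i : ℕ) : mon1 a c k j ((i : ℤ), 1, 0) = gx a c k j ^ i * gt a c k j := by
  unfold mon1
  simp

/-- The derivative of a monomial in one direction. -/
theorem s2_one (dk : Derivation K k k) (p : Fin n → K) (j : Fin n) (i : Ix) (hi : tA i) (h0 : i.2.2 = 0) :
    ∃ (b₁ b₂ : K) (i₁ i₂ : Ix), wt i₁ ≤ wt i ∧ wt i₂ ≤ wt i ∧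
      der a c dk p (mon1 a c k j i) = algebraMap K (LL n a c k) (p j * (wt i : K)) * mon1 a c k j (sh i) +
        algebraMap K (LL n a c k) b₁ * mon1 a c k j i₁ + algebraMap K (LL n a c k) b₂ * mon1 a c k j i₂ := by
  obtain ⟨m, e, κ⟩ := i
  simp only at h0
  subst h0
  unfold tA at hi
  simp only at hi
  obtain ⟨q, rfl⟩ : ∃ q : ℕ, m = (q : ℤ) := ⟨m.toNat, by omega⟩
  have hgen : ∀ q : ℕ, der a c dk p (gx a c k j ^ (q + 1)) =
      algebraMap K (LL n a c k) (p j) * (2 * ((q : LL n a c k) + 1)) * (gx a c k j ^ (q + 1) * gt a c k j) := by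
    intro q
    rw [Derivation.leibniz_pow, der_x, smul_eq_mul, nsmul_eq_mul, Nat.add_sub_cancel]
    unfold gy
    push_cast
    ring
  have he : e = 0 ∨ e = 1 := by omega
  rcases he with rfl | rfl
  · refine ⟨0, 0, (q, 0, 0), (q, 0, 0), le_rfl, le_rfl, ?_⟩
    have e1 : sh ((q : ℤ), (0 : Fin 2), 0) = ((q : ℤ), (1 : Fin 2), 0) := by
      unfold sh
      simp
    have e2 : ((wt ((q : ℤ), (0 : Fin 2), 0) : ℤ) : K) = 2 * (q : K) := by
      unfold wt
      simp
    rw [e1, e2, s2_x, s2_y, map_zero, zero_mul, add_zero, add_zero]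
    rcases Nat.eq_zero_or_pos q with rfl | hq
    · rw [pow_zero, Derivation.map_one_eq_zero, Nat.cast_zero, mul_zero, mul_zero, map_zero, zero_mul]
    · obtain ⟨q, rfl⟩ : ∃ q', q = q' + 1 := ⟨q - 1, by omega⟩
      rw [hgen, map_mul, map_mul, map_ofNat, map_natCast]
      push_cast
      ring
  · have hq : 1 ≤ q := by
      have h2 : ((1 : Fin 2) : ℕ) = 1 := rfl
      rw [h2] at hi
      omega
    obtain ⟨q, rfl⟩ : ∃ q', q = q' + 1 := ⟨q - 1, by omega⟩
    refine ⟨p j * (2 * ((q : K) + 1)) * a, p j * (2 * (q : K) + 1) * c, (((q + 1 : ℕ) : ℤ), 0, 0), ((q : ℤ), 0, 0), ?_, ?_, ?_⟩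
    · unfold wt
      simp
    · unfold wt
      simp only [Fin.isValue, Nat.cast_add, Nat.cast_one, Fin.coe_ofNat_eq_mod]
      omega
    have e1 : sh (((q + 1 : ℕ) : ℤ), (1 : Fin 2), 0) = (((q + 2 : ℕ) : ℤ), (0 : Fin 2), 0) := by
      unfold sh
      refine Prod.ext ?_ rfl
      simp only [Fin.isValue, Nat.cast_add, Nat.cast_one, Fin.coe_ofNat_eq_mod]
      omega
    have e2 : ((wt (((q + 1 : ℕ) : ℤ), (1 : Fin 2), 0) : ℤ) : K) = 2 * (q : K) + 3 := by
      unfold wt
      simp only [Fin.isValue, Nat.cast_add, Nat.cast_one, Fin.coe_ofNat_eq_mod]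
      push_cast
      norm_num
      ring
    rw [e1, e2, s2_x, s2_x, s2_x, s2_y, Derivation.leibniz, hgen, der_t, smul_eq_mul, smul_eq_mul]
    have r1 := rel_a a c k j
    have r2 := rel_c a c k j
    simp only [map_mul, map_add, map_ofNat, map_natCast, map_one]
    linear_combination (algebraMap K (LL n a c k) (p j) * (2 * ((q : LL n a c k) + 1)) * gx a c k j ^ (q + 1)) * r1
      + (algebraMap K (LL n a c k) (p j) * (2 * (q : LL n a c k) + 1) * gx a c k j ^ q) * r2

end one

theorem s2_smul {n : ℕ} {K : Type} [Field K] (a c : K) {k : Type} [CommRing k] [Algebra K k] (r : k) (m : LL n a c k) :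
    r • m = algebraMap k (LL n a c k) r * m := by
  exact Algebra.smul_def r m

section crd

variable {n : ℕ} {K : Type} [Field K] (a c : K) {k : Type} [CommRing k] [Algebra K k] [IsDomain k] [CharZero k] [Fact (c ≠ 0)]

theorem s2_crd_mon (I J : Fin n → Ix) [Decidable (I = J)] : crd a c (mon a c k I) J = if I = J then 1 else 0 := by
  classical
  unfold crd
  rw [← LB_apply, Module.Basis.repr_self, Finsupp.single_apply]

theorem s2_crd_add (x y : LL n a c k) (J : Fin n → Ix) : crd a c (x + y) J = crd a c x J + crd a c y J := by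
  unfold crd
  rw [map_add, Finsupp.add_apply]

theorem s2_crd_smul (r : k) (x : LL n a c k) (J : Fin n → Ix) : crd a c (algebraMap k (LL n a c k) r * x) J = r * crd a c x J := by
  unfold crd
  rw [← Algebra.smul_def, map_smul, Finsupp.smul_apply, smul_eq_mul]

theorem s2_crd_smulK (r : K) (x : LL n a c k) (J : Fin n → Ix) :
    crd a c (algebraMap K (LL n a c k) r * x) J = algebraMap K k r * crd a c x J := by
  rw [IsScalarTower.algebraMap_apply K k (LL n a c k), s2_crd_smul]

theorem s2_crd_zero (J : Fin n → Ix) : crd a c (0 : LL n a c k) J = 0 := by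
  unfold crd
  rw [map_zero, Finsupp.zero_apply]

theorem s2_crd_sum {β : Type} (s : Finset β) (f : β → LL n a c k) (J : Fin n → Ix) :
    crd a c (∑ i ∈ s, f i) J = ∑ i ∈ s, crd a c (f i) J := by
  classical
  induction s using Finset.induction_on with
  | empty => rw [Finset.sum_empty, Finset.sum_empty, s2_crd_zero]
  | insert b s hb ih => rw [Finset.sum_insert hb, Finset.sum_insert hb, s2_crd_add, ih]

/-- Expansion. -/
theorem s2_exp (m : LL n a c k) : m = ∑ I ∈ ((LB a c k).repr m).support, algebraMap k (LL n a c k) (crd a c m I) * mon a c k I := by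
  have h := (LB a c k).linearCombination_repr m
  rw [Finsupp.linearCombination_apply, Finsupp.sum] at h
  conv_lhs => rw [← h]
  refine Finset.sum_congr rfl fun I _ => ?_
  rw [LB_apply]
  exact s2_smul a c _ _

theorem s2_mem (m : LL n a c k) (I : Fin n → Ix) : I ∈ ((LB a c k).repr m).support ↔ crd a c m I ≠ 0 := Finsupp.mem_support_iff

theorem s2_prod (I : Fin n → Ix) (l : Fin n) (i : Ix) :
    (∏ j ∈ Finset.univ.erase l, mon1 a c k j (I j)) * mon1 a c k l i = mon a c k (Function.update I l i) := by
  unfold mon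
  rw [← Finset.mul_prod_erase Finset.univ (fun j => mon1 a c k j (Function.update I l i j)) (Finset.mem_univ l), Function.update_self,
    mul_comm]
  congr 1
  refine Finset.prod_congr rfl fun j hj => ?_
  rw [Function.update_of_ne (Finset.ne_of_mem_erase hj)]

/-- The coordinates of the derivative of a monomial, large weight in one direction. -/
theorem s2_der (dk : Derivation K k k) (p : Fin n → K) (j : Fin n) (I J : Fin n → Ix) (hI : ∀ l, tA (I l) ∧ (I l).2.2 = 0)
    (hJ : wt (I j) < wt (J j)) [Decidable (Function.update I j (sh (I j)) = J)] :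
    crd a c (der a c dk p (mon a c k I)) J =
      if Function.update I j (sh (I j)) = J then algebraMap K k (p j * (wt (I j) : K)) else 0 := by
  classical
  unfold mon
  rw [s2_leib, s2_crd_sum, Finset.sum_eq_single j]
  · obtain ⟨b₁, b₂, i₁, i₂, h1, h2, h3⟩ := s2_one a c dk p j (I j) (hI j).1 (hI j).2
    have e : (∏ l ∈ Finset.univ.erase j, mon1 a c k l (I l)) * der a c dk p (mon1 a c k j (I j)) =
        algebraMap K (LL n a c k) (p j * (wt (I j) : K)) * mon a c k (Function.update I j (sh (I j))) +
        algebraMap K (LL n a c k) b₁ * mon a c k (Function.update I j i₁) +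
        algebraMap K (LL n a c k) b₂ * mon a c k (Function.update I j i₂) := by
      rw [h3, ← s2_prod, ← s2_prod, ← s2_prod]
      ring
    rw [e, s2_crd_add, s2_crd_add, s2_crd_smulK, s2_crd_smulK, s2_crd_smulK, s2_crd_mon, s2_crd_mon, s2_crd_mon]
    have n1 : ¬ Function.update I j i₁ = J := by
      rintro rfl
      rw [Function.update_self] at hJ
      omega
    have n2 : ¬ Function.update I j i₂ = J := by
      rintro rfl
      rw [Function.update_self] at hJ
      omega
    rw [if_neg n1, if_neg n2, mul_zero, mul_zero, add_zero, add_zero, mul_ite, mul_one, mul_zero]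
  · intro l _ hl
    obtain ⟨b₁, b₂, i₁, i₂, h1, h2, h3⟩ := s2_one a c dk p l (I l) (hI l).1 (hI l).2
    have e : (∏ j ∈ Finset.univ.erase l, mon1 a c k j (I j)) * der a c dk p (mon1 a c k l (I l)) =
        algebraMap K (LL n a c k) (p l * (wt (I l) : K)) * mon a c k (Function.update I l (sh (I l))) +
        algebraMap K (LL n a c k) b₁ * mon a c k (Function.update I l i₁) +
        algebraMap K (LL n a c k) b₂ * mon a c k (Function.update I l i₂) := by
      rw [h3, ← s2_prod, ← s2_prod, ← s2_prod]
      ring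
    have hne : ∀ i : Ix, Function.update I l i ≠ J := by
      rintro i rfl
      rw [Function.update_of_ne (Ne.symm hl)] at hJ
      exact lt_irrefl _ hJ
    rw [e, s2_crd_add, s2_crd_add, s2_crd_smulK, s2_crd_smulK, s2_crd_smulK, s2_crd_mon, s2_crd_mon, s2_crd_mon, if_neg (hne _),
      if_neg (hne _), if_neg (hne _), mul_zero, mul_zero, mul_zero, add_zero, add_zero]
  · intro h
    exact absurd (Finset.mem_univ j) h

theorem s2_wt0 {i : Ix} (h : tA i) (h0 : i.2.2 = 0) : wt i = 0 → i = (0, 0, 0) := by
  obtain ⟨m, e, κ⟩ := i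
  simp only at h0
  subst h0
  unfold tA at h
  unfold wt
  simp only at h ⊢
  intro h1
  have h2 : (e : ℕ) = 0 := by omega
  have h3 : m = 0 := by omega
  have h4 : e = 0 := Fin.ext h2
  rw [h3, h4]

theorem s2_wtpos {i : Ix} (h : tA i) (h0 : i.2.2 = 0) : 0 ≤ wt i ∧ wt i ≠ 1 := by
  obtain ⟨m, e, κ⟩ := i
  simp only at h0
  subst h0
  unfold tA at h
  unfold wt
  simp only at h ⊢
  omega

theorem s2_shwt {i : Ix} (h0 : i.2.2 = 0) : wt (sh i) = wt i + 1 := by
  obtain ⟨m, e, κ⟩ := i
  simp only at h0
  subst h0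
  have he : e = 0 ∨ e = 1 := by omega
  rcases he with rfl | rfl
  · unfold wt sh
    simp
  · unfold wt sh
    simp
    ring

theorem s2_shinj {i i' : Ix} (h0 : i.2.2 = 0) (h0' : i'.2.2 = 0) (h : sh i = sh i') : i = i' := by
  obtain ⟨m, e, κ⟩ := i
  obtain ⟨m', e', κ'⟩ := i'
  simp only at h0 h0'
  subst h0 h0'
  unfold sh at h
  simp only [Prod.mk.injEq] at h
  obtain ⟨h1, h2, -⟩ := h
  have h3 : e = e' := by
    have := congrArg (fun x => 1 - x) h2
    simpa using this
  subst h3
  have h4 : m = m' := by omega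
  rw [h4]

/-- S2: a function regular outside the origin whose derivative has small weights does not depend on the directions. -/
theorem s2_main (dk : Derivation K k k) (p : Fin n → K) (j : Fin n) (hp : p j ≠ 0) [CharZero K] {f : LL n a c k} (hf : TA a c 0 f)
    (hD : ∀ J, crd a c (der a c dk p f) J ≠ 0 → wt (J j) ≤ 2) (I : Fin n → Ix) (hI : crd a c f I ≠ 0) : I j = (0, 0, 0) := by
  classical
  have hty : ∀ I, crd a c f I ≠ 0 → ∀ l, tA (I l) ∧ (I l).2.2 = 0 := by
    intro I hI l
    obtain ⟨h1, h2⟩ := hf I hI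
    refine ⟨h2 l, ?_⟩
    have h3 : (I l).2.2 ≤ wd I := Finset.single_le_sum (f := fun l => (I l).2.2) (fun _ _ => Nat.zero_le _) (Finset.mem_univ l)
    omega
  obtain ⟨I₀, hI₀, hmax⟩ := Finset.exists_max_image ((LB a c k).repr f).support (fun I => wt (I j)) ⟨I, (s2_mem a c f I).2 hI⟩
  rw [s2_mem] at hI₀
  have hmI := hmax I ((s2_mem a c f I).2 hI)
  obtain ⟨t1, t2⟩ := hty I hI j
  obtain ⟨u1, u2⟩ := hty I₀ hI₀ j
  refine s2_wt0 t1 t2 ?_
  by_contra hne
  have h1 := s2_wtpos t1 t2
  have h2 := s2_wtpos u1 u2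
  have h3 : 2 ≤ wt (I₀ j) := by omega
  obtain ⟨J, hJ⟩ : ∃ J, J = Function.update I₀ j (sh (I₀ j)) := ⟨_, rfl⟩
  have hwJ : wt (J j) = wt (I₀ j) + 1 := by
    rw [hJ, Function.update_self, s2_shwt u2]
  have hcr : crd a c (der a c dk p f) J = crd a c f I₀ * algebraMap K k (p j * (wt (I₀ j) : K)) := by
    conv_lhs => rw [s2_exp a c f]
    rw [map_sum, s2_crd_sum, Finset.sum_eq_single I₀]
    · rw [Derivation.leibniz, smul_eq_mul, smul_eq_mul, der_alg, s2_crd_add, s2_crd_smul, mul_comm (mon a c k I₀), s2_crd_smul,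
        s2_crd_mon, if_neg, mul_zero, add_zero, s2_der a c dk p j I₀ J (hty I₀ hI₀) (by omega), if_pos hJ.symm]
      intro h
      rw [← h] at hwJ
      omega
    · intro I' hI' hne'
      rw [s2_mem] at hI'
      have h4 := hmax I' ((s2_mem a c f I').2 hI')
      rw [Derivation.leibniz, smul_eq_mul, smul_eq_mul, der_alg, s2_crd_add, s2_crd_smul, mul_comm (mon a c k I'), s2_crd_smul,
        s2_crd_mon, if_neg, mul_zero, add_zero, s2_der a c dk p j I' J (hty I' hI') (by omega), if_neg, mul_zero]
      · intro h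
        apply hne'
        rw [hJ] at h
        funext l
        by_cases hl : l = j
        · rw [hl]
          have h5 := congrFun h j
          rw [Function.update_self, Function.update_self] at h5
          exact s2_shinj (hty I' hI' j).2 u2 h5
        · have h5 := congrFun h l
          rwa [Function.update_of_ne hl, Function.update_of_ne hl] at h5
      · intro h
        rw [← h] at hwJ
        omega
    · intro h
      exact absurd ((s2_mem a c f I₀).2 hI₀) h
  have hne2 : crd a c (der a c dk p f) J ≠ 0 := by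
    rw [hcr]
    refine mul_ne_zero hI₀ ?_
    rw [Ne, FaithfulSMul.algebraMap_eq_zero_iff]
    refine mul_ne_zero hp ?_
    rw [Ne, Int.cast_eq_zero]
    omega
  have h6 := hD J hne2
  omega

end crd

section final

variable {n : ℕ} {K : Type} [Field K] [CharZero K] (a c : K) [Fact (c ≠ 0)]

/-- If all weights are zero the element is a polynomial in z. -/
theorem s2_poly {f : LL n a c (Polynomial K)} (h : ∀ I, crd a c f I ≠ 0 → I = fun _ => (0, 0, 0)) :
    f = algebraMap (Polynomial K) (LL n a c (Polynomial K)) (crd a c f fun _ => (0, 0, 0)) := by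
  have h1 := e1h_sum a c f {fun _ => (0, 0, 0)} fun I hI => Finset.mem_singleton.2 (h I hI)
  rw [Finset.sum_singleton, (e1h_one a c (k := Polynomial K) (n := n)).2.2] at h1
  exact h1.trans ((s2_smul a c _ _).trans (mul_one _))

/-- S2: constants. -/
theorem s2_const (p : Fin n → K) (hp : ∀ j, p j ≠ 0) {f : LL n a c (Polynomial K)} (hf : TA a c 0 f) (hD : derz a c p f = 0) :
    ∃ r : K, f = algebraMap K (LL n a c (Polynomial K)) r := by
  have h1 := s2_poly a c (f := f) fun I hI => funext fun j => s2_main a c _ p j (hp j) hf (fun J hJ => by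
    have h2 : crd a c (derz a c p f) J = 0 := by rw [hD, s2_crd_zero]
    exact absurd h2 hJ) I hI
  obtain ⟨q, hq⟩ : ∃ q, q = crd a c f fun _ => (0, 0, 0) := ⟨_, rfl⟩
  rw [← hq] at h1
  rw [h1, derz, der_alg] at hD
  have h3 : Polynomial.derivative q = 0 := by
    have h4 : crd a c (algebraMap (Polynomial K) (LL n a c (Polynomial K)) (Polynomial.derivative' q)) (fun _ => (0, 0, 0)) =
        crd a c (0 : LL n a c (Polynomial K)) fun _ => (0, 0, 0) := by rw [hD]
    rw [s2_crd_zero, ← mul_one (algebraMap (Polynomial K) _ _), s2_crd_smul, (e1h_one a c (k := Polynomial K) (n := n)).2.1, if_pos rfl,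
      mul_one] at h4
    exact h4
  refine ⟨q.coeff 0, ?_⟩
  rw [h1, Polynomial.eq_C_of_derivative_eq_zero h3, Polynomial.coeff_C_zero, IsScalarTower.algebraMap_apply K (Polynomial K)]
  rfl

/-- S2: no combination of the functions x_j is a derivative. -/
theorem s2_comb (p : Fin n → K) (hp : ∀ j, p j ≠ 0) {f : LL n a c (Polynomial K)} (hf : TA a c 0 f) (γ : Fin n → K)
    (hD : derz a c p f = ∑ j, algebraMap K (LL n a c (Polynomial K)) (γ j) * gx a c (Polynomial K) j) (j : Fin n) : γ j = 0 := by
  classical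
  let ix : Fin n → (Fin n → Ix) := fun j => Function.update (fun _ => (0, 0, 0)) j (1, 0, 0)
  have hgx : ∀ j, gx a c (Polynomial K) j = mon a c (Polynomial K) (ix j) := by
    intro j
    rw [e1g_upd]
    unfold mon1 gx
    simp
  have hcr : ∀ J, crd a c (derz a c p f) J = ∑ j, algebraMap K (Polynomial K) (γ j) * if ix j = J then 1 else 0 := by
    intro J
    rw [hD, s2_crd_sum]
    refine Finset.sum_congr rfl fun j _ => ?_
    rw [s2_crd_smulK, hgx, s2_crd_mon]
  have h1 := s2_poly a c (f := f) fun I hI => funext fun j => s2_main a c _ p j (hp j) hf (fun J hJ => by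
    have h2 : crd a c (derz a c p f) J ≠ 0 := hJ
    rw [hcr] at h2
    obtain ⟨l, -, hl⟩ := Finset.exists_ne_zero_of_sum_ne_zero h2
    have h3 : ix l = J := by
      by_contra h
      rw [if_neg h, mul_zero] at hl
      exact hl rfl
    rw [← h3]
    show wt (Function.update (fun _ => ((0, 0, 0) : Ix)) l (1, 0, 0) j) ≤ 2
    by_cases hjl : j = l
    · rw [hjl, Function.update_self]
      unfold wt
      simp
    · rw [Function.update_of_ne hjl]
      unfold wt
      simp) I hI
  have h2 := hcr (ix j)
  rw [h1, derz, der_alg, ← mul_one (algebraMap (Polynomial K) _ _), s2_crd_smul, (e1h_one a c (k := Polynomial K) (n := n)).2.1,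
    if_neg, mul_zero, Finset.sum_eq_single j, if_pos rfl, mul_one] at h2
  · exact (FaithfulSMul.algebraMap_eq_zero_iff K (Polynomial K)).1 h2.symm
  · intro l _ hl
    rw [if_neg, mul_zero]
    intro h
    have h3 := congrFun h l
    simp only [ix] at h3
    rw [Function.update_self, Function.update_of_ne hl] at h3
    simp at h3
  · intro h
    exact absurd (Finset.mem_univ j) h
  · intro h
    have h3 := congrFun h j
    simp only [ix] at h3
    rw [Function.update_self] at h3
    simp at h3

end final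

end H47E
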