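import Mathlib
import Pool.Agent.Lib.H47E.S3

/-!
# H47E, S4A: stable submodules of a polynomial ring over a differentially simple ring (PROOF.md, section 6, S4) (helper28)
-/

set_option autoImplicit false

namespace H47E

open MvPolynomial

section coefficient

variable {R : Type} [CommRing R] {D : Derivation ℤ R R} {σ : Type} {s : σ → R}
  {E : Derivation ℤ (MvPolynomial σ R) (MvPolynomial σ R)} (hC : ∀ r, E (C r) = C (D r)) (hX : ∀ j, E (X j) = C (s j))

theorem s4_sum {R : Type} [CommRing R] {A : Type} [CommRing A] [Algebra R A] {ι : Type} (S : Finset ι) (f : ι → Derivation R A A) (m : A) :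
    (∑ j ∈ S, f j) m = ∑ j ∈ S, f j m := by
  classical
  induction S using Finset.induction_on with
  | empty => rw [Finset.sum_empty, Finset.sum_empty, Derivation.zero_apply]
  | insert a S ha ih => rw [Finset.sum_insert ha, Finset.sum_insert ha, Derivation.add_apply, ih]

theorem s4_pder [Fintype σ] (s : σ → R) (m : MvPolynomial σ R) :
    mkDerivation R (fun j => (C (s j) : MvPolynomial σ R)) m = ∑ j, C (s j) * pderiv j m := by
  classical
  have h : mkDerivation R (fun j => (C (s j) : MvPolynomial σ R)) = ∑ j, (C (s j) : MvPolynomial σ R) • pderiv j := by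
    refine derivation_ext fun i => ?_
    rw [mkDerivation_X, s4_sum, Finset.sum_eq_single i]
    · rw [Derivation.smul_apply, pderiv_X_self, smul_eq_mul, mul_one]
    · intro j _ hj
      rw [Derivation.smul_apply, pderiv_X_of_ne hj.symm, smul_zero]
    · intro h
      exact absurd (Finset.mem_univ i) h
  rw [h, s4_sum]
  rfl

include hC hX

theorem s4_mono (κ : σ →₀ ℕ) (r : R) : E (monomial κ r) = monomial κ (D r) + mkDerivation R (fun j => C (s j)) (monomial κ r) := by
  have h1 : Set.EqOn E ((mkDerivation R (fun j => (C (s j) : MvPolynomial σ R))).restrictScalars ℤ) (Set.range X) := by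
    rintro _ ⟨j, rfl⟩
    show E (X j) = mkDerivation R (fun j => (C (s j) : MvPolynomial σ R)) (X j)
    rw [hX, mkDerivation_X]
  have h2 := Derivation.eqOn_adjoin h1
  have h3 : (monomial κ (1 : R)) ∈ Algebra.adjoin ℤ (Set.range (X : σ → MvPolynomial σ R)) := by
    have h4 : (monomial κ (1 : R)) = κ.prod fun j n => X j ^ n := by
      rw [monomial_eq, C_1, one_mul]
    rw [h4]
    exact Subalgebra.prod_mem _ fun j _ => Subalgebra.pow_mem _ (Algebra.subset_adjoin (Set.mem_range_self j)) _
  have h4 : E (monomial κ 1) = mkDerivation R (fun j => (C (s j) : MvPolynomial σ R)) (monomial κ 1) := h2 h3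
  have h5 : monomial κ r = C r * monomial κ 1 := by rw [C_mul_monomial, mul_one]
  rw [h5, E.leibniz, h4, hC, smul_eq_mul, smul_eq_mul, mul_comm (monomial κ 1), C_mul_monomial, mul_one, add_comm]
  congr 1
  rw [C_mul', C_mul', Derivation.map_smul]

theorem s4_coeff [Fintype σ] (m : MvPolynomial σ R) (κ : σ →₀ ℕ) :
    coeff κ (E m) = D (coeff κ m) + ∑ j, ((κ j : R) + 1) * coeff (κ + Finsupp.single j 1) m * s j := by
  classical
  induction m using MvPolynomial.induction_on' with
  | add p q hp hq =>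
    rw [map_add, coeff_add, hp, hq, coeff_add, map_add]
    have h : ∀ j, ((κ j : R) + 1) * coeff (κ + Finsupp.single j 1) (p + q) * s j =
        ((κ j : R) + 1) * coeff (κ + Finsupp.single j 1) p * s j + ((κ j : R) + 1) * coeff (κ + Finsupp.single j 1) q * s j := by
      intro j
      rw [coeff_add]
      ring
    rw [Finset.sum_congr rfl fun j _ => h j, Finset.sum_add_distrib]
    ring
  | monomial n a =>
    rw [s4_mono hC hX, coeff_add, s4_pder, coeff_sum]
    congr 1
    · rw [coeff_monomial, coeff_monomial]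
      split_ifs
      · rfl
      · rw [map_zero]
    · refine Finset.sum_congr rfl fun j _ => ?_
      rw [coeff_C_mul, coeff_pderiv]
      ring

end coefficient

/-- S4, abstract form. `s j` are elements such that no nontrivial combination with constant coefficients is a derivative. -/
theorem s4a {R : Type} [CommRing R] (hQ : ∀ (k : ℕ) (r : R), ((k : R) + 1) * r = 0 → r = 0) {D : Derivation ℤ R R} (hD : DSimple D) {σ : Type} [Fintype σ] {s : σ → R}
    (hs : ∀ (f : R) (c : σ → R), (∀ j, D (c j) = 0) → D f = ∑ j, c j * s j → ∀ j, c j = 0)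
    {E : Derivation ℤ (MvPolynomial σ R) (MvPolynomial σ R)} (hC : ∀ r, E (C r) = C (D r)) (hX : ∀ j, E (X j) = C (s j))
    (M : Submodule R (MvPolynomial σ R)) (hM : ∀ m ∈ M, E m ∈ M) (hne : ∃ m ∈ M, m ≠ 0) : (1 : MvPolynomial σ R) ∈ M := by
  classical
  let P : ℕ → Prop := fun q => ∃ m ∈ M, m ≠ 0 ∧ ∀ κ : σ →₀ ℕ, q < κ.degree → coeff κ m = 0
  have hex : ∃ q, P q := by
    obtain ⟨m, hm, h0⟩ := hne
    refine ⟨m.totalDegree, m, hm, h0, fun κ hκ => ?_⟩
    by_contra h3
    have h4 := le_totalDegree (mem_support_iff.2 h3)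
    have h5 : κ.sum (fun _ e => e) = κ.degree := rfl
    omega
  obtain ⟨q, hq⟩ : ∃ q, q = Nat.find hex := ⟨_, rfl⟩
  have hPq : P q := hq ▸ Nat.find_spec hex
  have hmin : ∀ k < q, ¬ P k := fun k hk => Nat.find_min hex (hq ▸ hk)
  obtain ⟨m₀, hm₀, h0, hdeg⟩ := hPq
  -- the degree does not grow
  have hgr : ∀ (m : MvPolynomial σ R) (κ : σ →₀ ℕ), (∀ κ : σ →₀ ℕ, q < κ.degree → coeff κ m = 0) → q ≤ κ.degree →
      coeff κ (E m) = D (coeff κ m) := by
    intro m κ h1 h2
    rw [s4_coeff hC hX, Finset.sum_eq_zero, add_zero]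
    intro j _
    rw [h1 (κ + Finsupp.single j 1), mul_zero, zero_mul]
    rw [map_add, Finsupp.degree_single]
    omega
  -- the top forms
  let ι := {κ : σ →₀ ℕ // κ.degree = q}
  have hfin : Finite ι := by
    refine Finite.of_injective (fun κ : ι => fun j : σ => (⟨κ.1 j, ?_⟩ : Fin (q + 1))) ?_
    · have h1 : κ.1 j ≤ κ.1.degree := Finsupp.le_degree j κ.1
      rw [κ.2] at h1
      omega
    · intro κ κ' h
      apply Subtype.ext
      ext j
      have h1 := congrFun h j
      exact congrArg Fin.val h1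
  let T : Submodule R (ι → R) :=
    { carrier := {t | ∃ m ∈ M, (∀ κ : σ →₀ ℕ, q < κ.degree → coeff κ m = 0) ∧ t = fun κ => coeff κ.1 m}
      add_mem' := by
        rintro _ _ ⟨m, h1, h2, rfl⟩ ⟨m', h3, h4, rfl⟩
        exact ⟨m + m', M.add_mem h1 h3, fun κ hκ => by rw [coeff_add, h2 κ hκ, h4 κ hκ, add_zero], rfl⟩
      zero_mem' := ⟨0, M.zero_mem, fun _ _ => coeff_zero _, rfl⟩
      smul_mem' := by
        rintro r _ ⟨m, h1, h2, rfl⟩
        exact ⟨r • m, M.smul_mem r h1, fun κ hκ => by rw [coeff_smul, h2 κ hκ, smul_zero], rfl⟩ }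
  have hT : ∀ t ∈ T, (fun i => D (t i)) ∈ T := by
    rintro _ ⟨m, h1, h2, rfl⟩
    refine ⟨E m, hM m h1, fun κ hκ => ?_, ?_⟩
    · rw [hgr m κ h2 hκ.le, h2 κ hκ, map_zero]
    · funext κ
      exact (hgr m κ.1 h2 κ.2.ge).symm
  have hT0 : ∃ t ∈ T, t ≠ 0 := by
    refine ⟨_, ⟨m₀, hm₀, hdeg, rfl⟩, fun h => ?_⟩
    rcases Nat.eq_zero_or_pos q with hq0 | hq0
    · apply h0
      ext κ
      rw [coeff_zero]
      rcases Nat.eq_zero_or_pos κ.degree with h1 | h1
      · exact congrFun h ⟨κ, by omega⟩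
      · exact hdeg κ (by omega)
    · apply hmin (q - 1) (by omega)
      refine ⟨m₀, hm₀, h0, fun κ hκ => ?_⟩
      rcases (show q ≤ κ.degree by omega).eq_or_lt with h1 | h1
      · exact congrFun h ⟨κ, h1.symm⟩
      · exact hdeg κ h1
  obtain ⟨_, ⟨m, h1, h2, rfl⟩, h3, h4⟩ := s3 hD T hT hT0
  obtain ⟨κ₀, hκ₀⟩ : ∃ κ : ι, coeff κ.1 m ≠ 0 := by
    by_contra h
    push Not at h
    exact h3 (funext h)
  have hD4 : ∀ κ : σ →₀ ℕ, κ.degree = q → D (coeff κ m) = 0 := fun κ hκ => h4 ⟨κ, hκ⟩
  -- E m = 0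
  have hEm : E m = 0 := by
    by_contra hne'
    rcases Nat.eq_zero_or_pos q with hq0 | hq0
    · apply hne'
      ext κ
      rw [coeff_zero, hgr m κ h2 (by omega)]
      rcases Nat.eq_zero_or_pos κ.degree with h5 | h5
      · exact hD4 κ (by omega)
      · rw [h2 κ (by omega), map_zero]
    · apply hmin (q - 1) (by omega)
      refine ⟨E m, hM m h1, hne', fun κ hκ => ?_⟩
      rw [hgr m κ h2 (by omega)]
      rcases (show q ≤ κ.degree by omega).eq_or_lt with h5 | h5
      · exact hD4 κ h5.symm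
      · rw [h2 κ h5, map_zero]
  rcases Nat.eq_zero_or_pos q with hq0 | hq0
  · -- degree 0
    have hm : m = C (coeff 0 m) := by
      ext κ
      rw [coeff_C]
      split_ifs with h5
      · rw [← h5]
      · refine h2 κ ?_
        rw [hq0]
        rcases Nat.eq_zero_or_pos κ.degree with h6 | h6
        · exact absurd ((Finsupp.degree_eq_zero_iff κ).1 h6).symm h5
        · exact h6
    have hJ : (1 : R) ∈ Submodule.comap (Algebra.linearMap R (MvPolynomial σ R)) M := by
      refine hD (Submodule.comap (Algebra.linearMap R (MvPolynomial σ R)) M) (fun f hf => ?_) ⟨coeff 0 m, ?_, ?_⟩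
      · rw [Submodule.mem_comap] at hf ⊢
        have h5 : (Algebra.linearMap R (MvPolynomial σ R)) (D f) = E ((Algebra.linearMap R (MvPolynomial σ R)) f) := (hC f).symm
        rw [h5]
        exact hM _ hf
      · rw [Submodule.mem_comap]
        have h5 : (Algebra.linearMap R (MvPolynomial σ R)) (coeff 0 m) = m := hm.symm
        rw [h5]
        exact h1
      · have h5 : κ₀.1 = 0 := (Finsupp.degree_eq_zero_iff κ₀.1).1 (by rw [κ₀.2, hq0])
        rw [← h5]
        exact hκ₀
    rw [Submodule.mem_comap] at hJ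
    have h5 : (Algebra.linearMap R (MvPolynomial σ R)) 1 = 1 := map_one (algebraMap R (MvPolynomial σ R))
    rwa [h5] at hJ
  · -- positive degree: contradiction
    exfalso
    obtain ⟨j₀, hj₀⟩ : ∃ j, κ₀.1 j ≠ 0 := by
      by_contra h
      push Not at h
      have h5 : κ₀.1 = 0 := Finsupp.ext h
      have h6 := κ₀.2
      rw [h5, map_zero] at h6
      omega
    obtain ⟨κ', hκ'⟩ : ∃ κ' : σ →₀ ℕ, κ' + Finsupp.single j₀ 1 = κ₀.1 := by
      refine ⟨κ₀.1 - Finsupp.single j₀ 1, ?_⟩
      ext j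
      rw [Finsupp.add_apply, Finsupp.tsub_apply]
      by_cases h : j₀ = j
      · rw [← h, Finsupp.single_eq_same]
        omega
      · rw [Finsupp.single_eq_of_ne' h]
        omega
    have hdeg' : κ'.degree + 1 = q := by
      have h5 := κ₀.2
      rw [← hκ', map_add, Finsupp.degree_single] at h5
      exact h5
    have h5 := s4_coeff hC hX m κ'
    rw [hEm, coeff_zero] at h5
    have h6 := hs (-(coeff κ' m)) (fun j => ((κ' j : R) + 1) * coeff (κ' + Finsupp.single j 1) m) (fun j => ?_) ?_ j₀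
    · have h7 : ((κ' j₀ : R) + 1) * coeff (κ' + Finsupp.single j₀ 1) m = 0 := h6
      rw [hκ'] at h7
      exact hκ₀ (hQ _ _ h7)
    · have h7 : D (coeff (κ' + Finsupp.single j 1) m) = 0 := by
        refine hD4 _ ?_
        rw [map_add, Finsupp.degree_single]
        exact hdeg'
      have h8 : ((κ' j : R) + 1) = ((κ' j + 1 : ℕ) : R) := by push_cast; ring
      rw [h8, ← nsmul_eq_mul, map_nsmul, h7, smul_zero]
    · rw [map_neg]
      exact neg_eq_of_add_eq_zero_right h5.symm

end H47E
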