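import Pool.Agent.Lib.H47E.S1B
import Pool.Agent.Lib.H47E.S4A

/-!
# H47E, S4: stable submodules of the ring of functions regular outside the origin contain 1 (PROOF.md, section 6, S4) (helper28)
-/

set_option autoImplicit false

namespace H47E

open MvPolynomial

/-- A derivation of a polynomial ring with given values. -/
theorem s4_exists {R : Type} [CommRing R] (D : Derivation ℤ R R) {σ : Type} (s : σ → R) :
    ∃ E : Derivation ℤ (MvPolynomial σ R) (MvPolynomial σ R), (∀ r, E (C r) = C (D r)) ∧ ∀ j, E (X j) = C (s j) := by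
  let φ : R →+* TrivSqZeroExt (MvPolynomial σ R) (MvPolynomial σ R) :=
    { toFun := fun r => TrivSqZeroExt.inl (C r) + TrivSqZeroExt.inr (C (D r))
      map_one' := by
        rw [Derivation.map_one_eq_zero, map_zero, TrivSqZeroExt.inr_zero, add_zero, C_1, TrivSqZeroExt.inl_one]
      map_mul' := fun x y => by
        refine TrivSqZeroExt.ext ?_ ?_
        · simp only [TrivSqZeroExt.fst_add, TrivSqZeroExt.fst_inl, TrivSqZeroExt.fst_inr, TrivSqZeroExt.fst_mul, add_zero, map_mul]
        · simp only [TrivSqZeroExt.snd_add, TrivSqZeroExt.snd_inl, TrivSqZeroExt.snd_inr, TrivSqZeroExt.snd_mul, zero_add,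
            TrivSqZeroExt.fst_add, TrivSqZeroExt.fst_inl, TrivSqZeroExt.fst_inr, add_zero, Derivation.leibniz, smul_eq_mul,
            MulOpposite.smul_eq_mul_unop, MulOpposite.unop_op, map_add, map_mul]
          ring
      map_zero' := by
        rw [map_zero, map_zero, map_zero, TrivSqZeroExt.inr_zero, add_zero, TrivSqZeroExt.inl_zero]
      map_add' := fun x y => by
        refine TrivSqZeroExt.ext ?_ ?_
        · simp only [TrivSqZeroExt.fst_add, TrivSqZeroExt.fst_inl, TrivSqZeroExt.fst_inr, add_zero, map_add]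
        · simp only [TrivSqZeroExt.snd_add, TrivSqZeroExt.snd_inl, TrivSqZeroExt.snd_inr, zero_add, map_add] }
  let h : MvPolynomial σ R →+* TrivSqZeroExt (MvPolynomial σ R) (MvPolynomial σ R) := eval₂Hom φ fun j => TrivSqZeroExt.inl (X j) + TrivSqZeroExt.inr (C (s j))
  have hhC : ∀ r, h (C r) = TrivSqZeroExt.inl (C r) + TrivSqZeroExt.inr (C (D r)) := fun r => eval₂Hom_C _ _ r
  have hhX : ∀ j, h (X j) = TrivSqZeroExt.inl (X j) + TrivSqZeroExt.inr (C (s j)) := fun j => eval₂Hom_X' _ _ j
  have hf : ∀ m, (h m).fst = m := by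
    intro m
    induction m using MvPolynomial.induction_on with
    | C r => rw [hhC, TrivSqZeroExt.fst_add, TrivSqZeroExt.fst_inl, TrivSqZeroExt.fst_inr, add_zero]
    | add p q hp hq => rw [map_add, TrivSqZeroExt.fst_add, hp, hq]
    | mul_X p i hp =>
      rw [map_mul, TrivSqZeroExt.fst_mul, hp, hhX, TrivSqZeroExt.fst_add, TrivSqZeroExt.fst_inl, TrivSqZeroExt.fst_inr, add_zero]
  refine ⟨Derivation.mk' (AddMonoidHom.toIntLinearMap
    { toFun := fun m => (h m).snd
      map_zero' := by rw [map_zero, TrivSqZeroExt.snd_zero]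
      map_add' := fun x y => by rw [map_add, TrivSqZeroExt.snd_add] }) fun x y => ?_, fun r => ?_, fun j => ?_⟩
  · show (h (x * y)).snd = x • (h y).snd + y • (h x).snd
    rw [map_mul, TrivSqZeroExt.snd_mul, hf, hf, MulOpposite.smul_eq_mul_unop, MulOpposite.unop_op, smul_eq_mul, smul_eq_mul,
      mul_comm (h x).snd]
  · show (h (C r)).snd = C (D r)
    rw [hhC, TrivSqZeroExt.snd_add, TrivSqZeroExt.snd_inl, TrivSqZeroExt.snd_inr, zero_add]
  · show (h (X j)).snd = C (s j)
    rw [hhX, TrivSqZeroExt.snd_add, TrivSqZeroExt.snd_inl, TrivSqZeroExt.snd_inr, zero_add]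

variable {n : ℕ} {K : Type} [Field K]

section

variable [CharZero K] (a c : K) [Fact (c ≠ 0)]

/-- The elements of type A are polynomials in the `w_j`. -/
noncomputable def s4_phi (n : ℕ) (a c : K) [Fact (c ≠ 0)] : MvPolynomial (Fin n) (Oz n a c) →+* LL n a c (Polynomial K) :=
  eval₂Hom (Oz n a c).subtype fun j => gw a c (Polynomial K) j

theorem s4_phi_C (f : Oz n a c) : s4_phi n a c (C f) = (f : LL n a c (Polynomial K)) := by
  unfold s4_phi
  simp

theorem s4_phi_X (j : Fin n) : s4_phi n a c (X j) = gw a c (Polynomial K) j := by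
  unfold s4_phi
  simp

theorem s4_surj {κ : ℕ} {m : LL n a c (Polynomial K)} (hm : TA a c κ m) : ∃ P, s4_phi n a c P = m := by
  classical
  have hmon : ∀ (r : Polynomial K) (I : Fin n → Ix), (∀ j, tA (I j)) →
      ∃ P, s4_phi n a c P = algebraMap (Polynomial K) (LL n a c (Polynomial K)) r * mon a c (Polynomial K) I := by
    intro r I hI
    have h0 : algebraMap (Polynomial K) (LL n a c (Polynomial K)) r * mon a c (Polynomial K) (fun j => ((I j).1, (I j).2.1, 0)) ∈
        Oz n a c := by
      intro J hJ
      rw [s2_crd_smul, s2_crd_mon] at hJ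
      have h1 : (fun j => ((I j).1, (I j).2.1, 0)) = J := by
        by_contra h
        rw [if_neg h, mul_zero] at hJ
        exact hJ rfl
      rw [← h1]
      exact ⟨by simp [wd], fun j => hI j⟩
    refine ⟨C ⟨_, h0⟩ * ∏ j, X j ^ (I j).2.2, ?_⟩
    rw [map_mul, s4_phi_C, map_prod]
    show algebraMap (Polynomial K) (LL n a c (Polynomial K)) r * mon a c (Polynomial K) (fun j => ((I j).1, (I j).2.1, 0)) * _ = _
    rw [mul_assoc]
    congr 1
    unfold mon
    rw [← Finset.prod_mul_distrib]
    refine Finset.prod_congr rfl fun j _ => ?_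
    rw [map_pow, s4_phi_X]
    unfold mon1
    rw [pow_zero, mul_one]
  choose! P hP using hmon
  refine ⟨∑ I ∈ ((LB a c (Polynomial K)).repr m).support, P (crd a c m I) I, ?_⟩
  rw [map_sum]
  conv_rhs => rw [s2_exp a c m]
  refine Finset.sum_congr rfl fun I hI => ?_
  rw [s2_mem] at hI
  exact hP _ I (hm I hI).2

end

/-- S4. -/
theorem s4 [NumberField K] (ι : K →+* ℂ) {L : PeriodPair} (hL : CM L) {e : ℂ} {a c : K} [Fact (c ≠ 0)] (N : Norm L e (ι a) (ι c))
    (p : Fin n → K) (hp : KInd L (fun j => ι (p j))) (M : AddSubgroup (LL n a c (Polynomial K))) (hA : ∀ m ∈ M, ∃ κ, TA a c κ m)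
    (hO : ∀ f, TA a c 0 f → ∀ m ∈ M, f * m ∈ M) (hd : ∀ m ∈ M, derz a c p m ∈ M) (hne : ∃ m ∈ M, m ≠ 0) :
    (1 : LL n a c (Polynomial K)) ∈ M := by
  classical
  -- the p j are not zero
  have hpj : ∀ j, p j ≠ 0 := by
    intro j hj
    have h1 := hp (Pi.single j 1) (fun l z hz => ⟨1, one_ne_zero, ?_⟩) ?_
    · have h2 := congrFun h1 j
      rw [Pi.single_eq_same] at h2
      exact one_ne_zero h2
    · by_cases hl : l = j
      · rw [hl, Pi.single_eq_same, Int.cast_one, one_mul, one_mul]
        exact hz
      · rw [Pi.single_eq_of_ne hl, zero_mul, mul_zero]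
        exact L.lattice.zero_mem
    · refine Finset.sum_eq_zero fun l _ => ?_
      by_cases hl : l = j
      · show (Pi.single j 1 : Fin n → ℂ) l * ι (p l) = 0
        rw [hl, hj, map_zero, mul_zero]
      · rw [Pi.single_eq_of_ne hl, zero_mul]
  let D := dOz (n := n) a c p
  have hxO : ∀ j, -(algebraMap K (LL n a c (Polynomial K)) (p j) * gx a c (Polynomial K) j) ∈ Oz n a c := by
    intro j
    have h1 := s1_mem a c (-(C (p j) * X (some (j, 0))) : MvPolynomial (Option (Fin n × Fin 2)) K)
    rwa [map_neg, map_mul, s1_psi_C, s1_psi_x] at h1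
  let s : Fin n → Oz n a c := fun j => ⟨_, hxO j⟩
  obtain ⟨E, hC, hX⟩ := s4_exists D s
  -- compatibility
  have hE : ∀ P, s4_phi n a c (E P) = derz a c p (s4_phi n a c P) := by
    intro P
    induction P using MvPolynomial.induction_on with
    | C r => rw [hC, s4_phi_C, s4_phi_C, dOz_coe]
    | add P Q hP hQ => rw [map_add, map_add, map_add, map_add, hP, hQ]
    | mul_X P j hP =>
      rw [Derivation.leibniz, map_add, map_mul, Derivation.leibniz, smul_eq_mul, smul_eq_mul, smul_eq_mul, smul_eq_mul, map_mul,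
        map_mul, hP, hX, s4_phi_X, s4_phi_C, derz, der_w]
  let M' : Submodule (Oz n a c) (MvPolynomial (Fin n) (Oz n a c)) :=
    { carrier := {P | s4_phi n a c P ∈ M}
      add_mem' := fun {x y} hx hy => by
        show s4_phi n a c (x + y) ∈ M
        rw [map_add]
        exact M.add_mem hx hy
      zero_mem' := by
        show s4_phi n a c 0 ∈ M
        rw [map_zero]
        exact M.zero_mem
      smul_mem' := fun r x hx => by
        show s4_phi n a c (r • x) ∈ M
        rw [smul_eq_C_mul, map_mul, s4_phi_C]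
        exact hO _ r.2 _ hx }
  have h1 : (1 : MvPolynomial (Fin n) (Oz n a c)) ∈ M' := by
    refine s4a ?_ (s1_simple a c ι hL N p hp) ?_ hC hX M' ?_ ?_
    · intro k r hr
      apply Subtype.ext
      have h2 : ((k : LL n a c (Polynomial K)) + 1) * (r : LL n a c (Polynomial K)) = 0 := by
        have h3 := congrArg (fun x : Oz n a c => (x : LL n a c (Polynomial K))) hr
        push_cast at h3
        exact h3
      have h4 : ∀ I, crd a c (r : LL n a c (Polynomial K)) I = 0 := by
        intro I
        have h5 : ((k : LL n a c (Polynomial K)) + 1) = algebraMap (Polynomial K) (LL n a c (Polynomial K)) ((k : Polynomial K) + 1) := by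
          rw [map_add, map_natCast, map_one]
        have h6 : crd a c (((k : LL n a c (Polynomial K)) + 1) * (r : LL n a c (Polynomial K))) I = 0 := by
          rw [h2, s2_crd_zero]
        rw [h5, s2_crd_smul] at h6
        exact (mul_eq_zero.1 h6).resolve_left (Nat.cast_add_one_ne_zero k)
      rw [s2_exp a c (r : LL n a c (Polynomial K))]
      refine (Finset.sum_eq_zero fun I _ => ?_).trans rfl
      rw [h4, map_zero, zero_mul]
    · intro f γ hγ hf j
      have h2 : ∀ j, ∃ r : K, (γ j : LL n a c (Polynomial K)) = algebraMap K (LL n a c (Polynomial K)) r := fun j =>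
        s2_const a c p hpj (γ j).2 (by
          have h3 := hγ j
          rw [← dOz_coe, h3]
          rfl)
      choose g hg using h2
      have h3 : derz a c p (f : LL n a c (Polynomial K)) =
          ∑ j, algebraMap K (LL n a c (Polynomial K)) (-(g j * p j)) * gx a c (Polynomial K) j := by
        rw [← dOz_coe, hf]
        rw [show (((∑ j, γ j * s j : Oz n a c)) : LL n a c (Polynomial K)) = ∑ j, ((γ j * s j : Oz n a c) : LL n a c (Polynomial K)) from
          map_sum (Oz n a c).subtype _ _]
        refine Finset.sum_congr rfl fun j _ => ?_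
        rw [Subring.coe_mul, hg]
        show algebraMap K (LL n a c (Polynomial K)) (g j) * -(algebraMap K (LL n a c (Polynomial K)) (p j) * gx a c (Polynomial K) j) = _
        rw [map_neg, map_mul]
        ring
      have h4 := s2_comb a c p hpj f.2 (fun j => -(g j * p j)) h3 j
      have h5 : g j = 0 := by
        have h6 : -(g j * p j) = 0 := h4
        rw [neg_eq_zero] at h6
        exact (mul_eq_zero.1 h6).resolve_right (hpj j)
      apply Subtype.ext
      rw [hg, h5, map_zero]
      rfl
    · intro P hP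
      show s4_phi n a c (E P) ∈ M
      rw [hE]
      exact hd _ hP
    · obtain ⟨m, hm, h0⟩ := hne
      obtain ⟨κ, hκ⟩ := hA m hm
      obtain ⟨P, hP⟩ := s4_surj a c hκ
      refine ⟨P, ?_, ?_⟩
      · show s4_phi n a c P ∈ M
        rw [hP]
        exact hm
      · rintro rfl
        rw [map_zero] at hP
        exact h0 hP.symm
  have h2 : s4_phi n a c 1 ∈ M := h1
  rwa [map_one] at h2

end H47E
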