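import Pool.Agent.Lib.H47E.E3c
import Pool.Agent.Lib.H47E.D
import Pool.Agent.Lib.H47E.S4

/-!
# H47E, S4c: a nonzero stable submodule of the type A elements contains 1 (helper28)
-/

set_option autoImplicit false

namespace H47E

/-- S4, in `LL n a c K[z]`. -/
theorem s4c {K : Type} [Field K] [NumberField K] (ι : K →+* ℂ) {L : PeriodPair} (hL : CM L) {e : ℂ} {a c : K} [Fact (c ≠ 0)]
    (N : Norm L e (ι a) (ι c)) {n : ℕ} (p : Fin n → K) (hp : KInd L (fun j => ι (p j)))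
    (M : AddSubgroup (LL n a c (Polynomial K))) (hA : ∀ m ∈ M, ∃ κ, TA a c κ m)
    (hO : ∀ f, TA a c 0 f → ∀ m ∈ M, f * m ∈ M) (hd : ∀ m ∈ M, derz a c p m ∈ M) (hne : ∃ m ∈ M, m ≠ 0) :
    (1 : LL n a c (Polynomial K)) ∈ M := s4 ι hL N p hp M hA hO hd hne

end H47E
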