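import Mathlib
import Pool.Agent.Lib.H47E.R

/-!
# H47E, module Z: the zero estimate S5, Z1, Z2, ZEH (PROOF.md, section 6), abstract form (helper13)
-/

set_option autoImplicit false

namespace H47E

open Finset Polynomial

/-! ## Linear algebra -/

theorem det_natDegree_le {K S : Type} [Field K] [Fintype S] [DecidableEq S] (N : Matrix S S K[X]) (D₀ : ℕ)
    (h : ∀ i j, (N i j).natDegree ≤ D₀) : N.det.natDegree ≤ Fintype.card S * D₀ := by
  rw [Matrix.det_apply]
  refine natDegree_sum_le_of_forall_le _ _ fun σ _ => ?_
  have h1 : (∏ i, N (σ i) i).natDegree ≤ Fintype.card S * D₀ := by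
    refine (natDegree_prod_le _ _).trans ?_
    refine (sum_le_sum fun i _ => h (σ i) i).trans ?_
    rw [sum_const, card_univ, smul_eq_mul]
  rcases Int.units_eq_one_or (Equiv.Perm.sign σ) with h2 | h2
  · rw [h2, one_smul]; exact h1
  · rw [h2, Units.neg_smul, one_smul, natDegree_neg]; exact h1

/-- Cramer's rule with a bound for the degree. -/
theorem cramer {K κ S : Type} [Field K] [Fintype κ] [Fintype S] [DecidableEq S] (V : κ → S → K[X]) (D₀ : ℕ)
    (hV : ∀ k s, (V k s).natDegree ≤ D₀) (e : S) (q : K[X]) (hq : q ≠ 0) (c : κ → K[X])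
    (hc : ∀ s, ∑ k, c k * V k s = if s = e then q else 0) :
    ∃ Δ : K[X], Δ ≠ 0 ∧ Δ.natDegree ≤ Fintype.card S * D₀ ∧ ∃ c' : κ → K[X], ∀ s, ∑ k, c' k * V k s = if s = e then Δ else 0 := by
  classical
  let F := FractionRing K[X]
  let f : K[X] →+* F := algebraMap K[X] F
  have hf : Function.Injective f := IsFractionRing.injective K[X] F
  let W : κ → S → F := fun k s => f (V k s)
  let E : S → S → F := fun s => Pi.single s 1
  obtain ⟨s, hs1, hs2, hs3⟩ := exists_linearIndependent F (Set.range W)
  have hst : s ⊆ Set.range W ∪ Set.range E := hs1.trans Set.subset_union_left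
  obtain ⟨t, ht1, ht2, ht3, ht4'⟩ := exists_linearIndepOn_id_extension (linearIndependent_subtype_iff.1 hs3) hst
  have ht4 : LinearIndependent F ((↑) : t → (S → F)) := linearIndependent_subtype_iff.2 ht4'
  have htop : Submodule.span F t = ⊤ := by
    rw [eq_top_iff]
    rintro x -
    have : x = ∑ i, x i • E i := by
      ext j
      simp [E, Pi.single_apply]
    rw [this]
    exact Submodule.sum_mem _ fun i _ => Submodule.smul_mem _ _ (ht3 (Or.inr ⟨i, rfl⟩))
  let bt : Module.Basis t F (S → F) := Module.Basis.mk ht4 (by rw [Subtype.range_coe, htop])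
  have : Fintype t := FiniteDimensional.fintypeBasisIndex bt
  have hcard : Fintype.card t = Fintype.card S := by
    rw [← Module.finrank_eq_card_basis bt, Module.finrank_pi]
  let φ : S ≃ t := Fintype.equivOfCardEq hcard.symm
  -- preimages of the rows
  have hpre : ∀ y : t, ∃ N : S → K[X], (∀ j, (N j).natDegree ≤ D₀) ∧ (∀ j, f (N j) = (y : S → F) j) ∧
      ((y : S → F) ∈ s → ∃ k, N = V k) := by
    intro y
    by_cases hy : (y : S → F) ∈ s
    · obtain ⟨k, hk⟩ := hs1 hy
      exact ⟨V k, hV k, fun j => by rw [← hk], fun _ => ⟨k, rfl⟩⟩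
    · rcases ht1 y.2 with ⟨k, hk⟩ | ⟨i, hi⟩
      · exact ⟨V k, hV k, fun j => by rw [← hk], fun h => absurd h hy⟩
      · refine ⟨Pi.single i 1, fun j => ?_, fun j => ?_, fun h => absurd h hy⟩
        · by_cases hij : j = i
          · subst hij; rw [Pi.single_eq_same]; simp
          · rw [Pi.single_eq_of_ne hij]; simp
        · rw [← hi]
          by_cases hij : j = i
          · subst hij; simp [E]
          · simp [E, Pi.single_eq_of_ne hij]
  choose N hN1 hN2 hN3 using hpre
  let Nm : Matrix S S K[X] := fun i => N (φ i)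
  have hmap : Nm.map f = fun i => (φ i : S → F) := by
    ext i j
    exact hN2 (φ i) j
  have hdet : Nm.det ≠ 0 := by
    intro h0
    have h1 : (Nm.map f).det = 0 := by
      have := RingHom.map_det f Nm
      rw [h0, map_zero] at this
      exact this.symm
    have h2 : LinearIndependent F (Nm.map f).row := by
      have : (Nm.map f).row = fun i => (φ i : S → F) := by
        funext i; exact congrFun hmap i
      rw [this]
      exact ht4.comp φ φ.injective
    rw [Matrix.linearIndependent_rows_iff_isUnit, Matrix.isUnit_iff_isUnit_det, h1] at h2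
    exact not_isUnit_zero h2
  -- the coefficients
  let al : S → K[X] := fun i => Nm.adjugate e i
  have hal : ∀ j, ∑ i, al i * Nm i j = if j = e then Nm.det else 0 := by
    intro j
    have h1 := congrFun (congrFun (Matrix.adjugate_mul Nm) e) j
    rw [Matrix.mul_apply] at h1
    rw [h1, Matrix.smul_apply, Matrix.one_apply]
    by_cases hj : j = e
    · rw [if_pos hj, if_pos hj.symm, smul_eq_mul, mul_one]
    · rw [if_neg hj, if_neg (Ne.symm hj), smul_zero]
  -- the unit vector is in the span of `s`
  have hq' : f q ≠ 0 := fun h => hq (hf (by rw [h, map_zero]))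
  have hes : E e ∈ Submodule.span F s := by
    rw [hs2]
    have h1 : E e = ∑ k, ((f q)⁻¹ * f (c k)) • W k := by
      funext j
      have h2 := congrArg f (hc j)
      rw [map_sum] at h2
      simp only [Finset.sum_apply, Pi.smul_apply, smul_eq_mul, mul_assoc, ← mul_sum]
      have h3 : ∑ k, f (c k) * W k j = f (if j = e then q else 0) := by
        rw [← h2]
        exact sum_congr rfl fun k _ => by rw [map_mul]
      rw [h3]
      by_cases hj : j = e
      · subst hj; simp [E, inv_mul_cancel₀ hq']
      · rw [if_neg hj, map_zero, mul_zero]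
        simp [E, Pi.single_eq_of_ne hj]
    rw [h1]
    exact Submodule.sum_mem _ fun k _ => Submodule.smul_mem _ _ (Submodule.subset_span ⟨k, rfl⟩)
  -- the coefficients at the other vectors vanish
  have hzero : ∀ i, (φ i : S → F) ∉ s → al i = 0 := by
    intro i hi
    have h1 : ∑ i, f (al i) • (φ i : S → F) = f Nm.det • E e := by
      funext j
      simp only [Finset.sum_apply, Pi.smul_apply, smul_eq_mul]
      have h2 := congrArg f (hal j)
      rw [map_sum] at h2
      rw [show ∑ i, f (al i) * (φ i : S → F) j = ∑ i, f (al i * Nm i j) from sum_congr rfl fun i _ => by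
        rw [map_mul]; congr 1; exact (hN2 (φ i) j).symm, h2]
      by_cases hj : j = e
      · subst hj; simp [E]
      · rw [if_neg hj, map_zero]; simp [E, Pi.single_eq_of_ne hj]
    have h2 : ∀ x ∈ Submodule.span F s, bt.repr x (φ i) = 0 := by
      intro x hx
      induction hx using Submodule.span_induction with
      | mem x hx =>
        have h3 : bt.repr x = Finsupp.single ⟨x, ht2 hx⟩ 1 := by
          rw [← Module.Basis.repr_self bt ⟨x, ht2 hx⟩, Module.Basis.mk_apply]
        rw [h3, Finsupp.single_apply, if_neg]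
        intro h4
        apply hi
        rw [← h4]
        exact hx
      | zero => simp
      | add x y _ _ hx hy => rw [map_add, Finsupp.add_apply, hx, hy, add_zero]
      | smul a x _ hx => rw [map_smul, Finsupp.smul_apply, hx, smul_zero]
    have h3 : bt.repr (∑ i, f (al i) • (φ i : S → F)) (φ i) = f (al i) := by
      have h4 : ∑ i, f (al i) • (φ i : S → F) = ∑ y : t, f (al (φ.symm y)) • bt y := by
        rw [← Equiv.sum_comp φ]
        exact sum_congr rfl fun i _ => by rw [Equiv.symm_apply_apply, Module.Basis.mk_apply]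
      rw [h4, Module.Basis.repr_sum_self, Equiv.symm_apply_apply]
    rw [h1, map_smul, Finsupp.smul_apply, h2 _ hes, smul_zero] at h3
    exact hf (by rw [← h3, map_zero])
  refine ⟨Nm.det, hdet, det_natDegree_le Nm D₀ fun i j => hN1 _ j, ?_⟩
  choose κ' hκ' using fun (i : S) (hi : (φ i : S → F) ∈ s) => hN3 (φ i) hi
  refine ⟨fun k => ∑ i, if hi : (φ i : S → F) ∈ s then (if κ' i hi = k then al i else 0) else 0, fun j => ?_⟩
  rw [← hal j]
  simp only [sum_mul]
  rw [sum_comm]
  refine sum_congr rfl fun i _ => ?_
  by_cases hi : (φ i : S → F) ∈ s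
  · simp only [dif_pos hi, ite_mul, zero_mul, sum_ite_eq, mem_univ, if_true]
    show al i * V (κ' i hi) j = al i * N (φ i) j
    rw [← hκ' i hi]
  · simp only [dif_neg hi, zero_mul, sum_const_zero, hzero i hi]

end H47E
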