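import Mathlib
import Pool.Agent.Lib.H47E.Z

/-!
# H47E, module Z: the zero estimate S5, Z1 (PROOF.md, section 6), abstract form (helper13)
-/

set_option autoImplicit false

namespace H47E

open Finset Polynomial

variable {K A J β : Type} [Field K] [CommRing A] [Algebra K[X] A] [Fintype J]

namespace GB

/-- Type A in all directions, `w`-degree at most `k`. -/
def TA (g : GB K[X] A J β) (k : ℕ) (x : A) : Prop := g.M univ ∅ 0 k x

/-- `x` is a combination of `s 0, …, s i` with coefficients of type A and `w`-degree at most `k`. -/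
def In (g : GB K[X] A J β) (k : ℕ) (s : ℕ → A) (i : ℕ) (x : A) : Prop :=
  ∃ a : ℕ → A, (∀ l, g.TA k (a l)) ∧ x = ∑ l ∈ range (i + 1), a l * s l

/-- The ground facts: the derivation, the simplicity (S4), constants of structure. -/
structure Base (g : GB K[X] A J β) where
  /-- the basis element 1 -/
  b₀ : β
  one : g.B b₀ = 1
  ty₀ : ∀ j, g.ty b₀ j
  wt₀ : ∀ j, g.wt b₀ j ≤ 0
  wd₀ : g.wd b₀ = 0
  cst : ∀ x y z, (g.B.repr (g.B x * g.B y) z).natDegree = 0
  /-- the derivation -/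
  del : A → A
  add : ∀ x y, del (x + y) = del x + del y
  mul : ∀ x y, del (x * y) = del x * y + x * del y
  pol : ∀ q : K[X], del (algebraMap K[X] A q) = algebraMap K[X] A (derivative q)
  tyd : ∀ k x, g.TA k x → g.TA k (del x)
  fin : ∀ d k, {z | g.Pr univ univ d k z}.Finite
  simple : ∀ S : AddSubgroup A, (∀ x ∈ S, ∃ k, g.TA k x) → (∀ a x, g.TA 0 a → x ∈ S → a * x ∈ S) → (∀ x ∈ S, del x ∈ S) → S ≠ ⊥ → (1 : A) ∈ S

variable {g : GB K[X] A J β}

theorem ta_zero (k : ℕ) : g.TA k 0 := g.sup_zero _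

theorem ta_add {k : ℕ} {x y : A} (hx : g.TA k x) (hy : g.TA k y) : g.TA k (x + y) := g.sup_add hx hy

theorem ta_neg {k : ℕ} {x : A} (hx : g.TA k x) : g.TA k (-x) := g.sup_neg hx

theorem ta_mono {k k' : ℕ} (h : k ≤ k') {x : A} (hx : g.TA k x) : g.TA k' x := g.m_mono hx (Subset.refl _) (Subset.refl _) le_rfl h

theorem ta_mul {k k' k'' : ℕ} (h : k + k' ≤ k'') {x y : A} (hx : g.TA k x) (hy : g.TA k' y) : g.TA k'' (x * y) :=
  g.m_mul hx hy (Subset.refl _) (Subset.refl _) (Subset.refl _) (Subset.refl _) le_rfl h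

theorem ta_smul {k : ℕ} {x : A} (hx : g.TA k x) (r : K[X]) : g.TA k (r • x) := g.sup_smul hx r

theorem ta_of_m {SB : Finset J} {d : ℤ} {k : ℕ} {x : A} (hx : g.M univ SB d k x) : g.TA k x := fun z hz =>
  ⟨(hx z hz).1, (hx z hz).2.1, fun j hj => absurd hj (notMem_empty j)⟩

theorem ta_sum {k : ℕ} {κ : Type} (s : Finset κ) (f : κ → A) (h : ∀ i ∈ s, g.TA k (f i)) : g.TA k (∑ i ∈ s, f i) := g.sup_sum s f h

theorem in_add {k : ℕ} {s : ℕ → A} {i : ℕ} {x y : A} (hx : g.In k s i x) (hy : g.In k s i y) : g.In k s i (x + y) := by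
  obtain ⟨a, ha, rfl⟩ := hx
  obtain ⟨b, hb, rfl⟩ := hy
  exact ⟨fun l => a l + b l, fun l => ta_add (ha l) (hb l), by rw [← sum_add_distrib]; exact sum_congr rfl fun l _ => by ring⟩

theorem in_zero (k : ℕ) (s : ℕ → A) (i : ℕ) : g.In k s i 0 := ⟨fun _ => 0, fun _ => ta_zero k, by simp⟩

theorem in_mul {k k' k'' : ℕ} (h : k' + k ≤ k'') {s : ℕ → A} {i : ℕ} {c x : A} (hc : g.TA k' c) (hx : g.In k s i x) : g.In k'' s i (c * x) := by
  obtain ⟨a, ha, rfl⟩ := hx
  exact ⟨fun l => c * a l, fun l => ta_mul h hc (ha l), by rw [mul_sum]; exact sum_congr rfl fun l _ => by ring⟩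

theorem in_smul {k : ℕ} {s : ℕ → A} {i : ℕ} {x : A} (r : K[X]) (hx : g.In k s i x) : g.In k s i (r • x) := by
  obtain ⟨a, ha, rfl⟩ := hx
  exact ⟨fun l => r • a l, fun l => ta_smul (ha l) r, by rw [smul_sum]; exact sum_congr rfl fun l _ => by rw [smul_mul_assoc]⟩

theorem in_neg {k : ℕ} {s : ℕ → A} {i : ℕ} {x : A} (hx : g.In k s i x) : g.In k s i (-x) := by
  obtain ⟨a, ha, rfl⟩ := hx
  exact ⟨fun l => -a l, fun l => ta_neg (ha l), by rw [← sum_neg_distrib]; exact sum_congr rfl fun l _ => by ring⟩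

theorem in_sum {k : ℕ} {s : ℕ → A} {i : ℕ} {κ : Type} (t : Finset κ) (f : κ → A) (h : ∀ l ∈ t, g.In k s i (f l)) :
    g.In k s i (∑ l ∈ t, f l) := by
  classical
  induction t using Finset.induction_on with
  | empty => simpa using in_zero k s i
  | insert a t ha ih =>
    rw [sum_insert ha]
    exact in_add (h a (mem_insert_self _ _)) (ih fun l hl => h l (mem_insert_of_mem hl))

theorem in_mono {k k' : ℕ} (hk : k ≤ k') {s : ℕ → A} {i i' : ℕ} (h : i ≤ i') {x : A} (hx : g.In k s i x) : g.In k' s i' x := by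
  obtain ⟨a, ha, rfl⟩ := hx
  refine ⟨fun l => if l ≤ i then a l else 0, fun l => ?_, ?_⟩
  · by_cases hl : l ≤ i
    · simp only [if_pos hl]; exact ta_mono hk (ha l)
    · simp only [if_neg hl]; exact ta_zero _
  · rw [← sum_subset (range_mono (Nat.succ_le_succ h) : range (i + 1) ⊆ range (i' + 1))]
    · exact sum_congr rfl fun l hl => by simp only [if_pos (Nat.lt_succ_iff.1 (mem_range.1 hl))]
    · intro l _ hl
      simp only [if_neg (fun h' => hl (mem_range.2 (Nat.lt_succ_iff.2 h'))), zero_mul]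

theorem in_self (Bs : Base g) (s : ℕ → A) (i : ℕ) : g.In 0 s i (s i) := by
  classical
  refine ⟨fun l => if l = i then 1 else 0, fun l => ?_, ?_⟩
  · by_cases hl : l = i
    · simp only [if_pos hl]
      intro z hz
      rw [← Bs.one, Module.Basis.repr_self, Finsupp.single_apply] at hz
      have : Bs.b₀ = z := by
        by_contra h
        exact hz (if_neg h)
      rw [← this]
      exact ⟨by rw [Bs.wd₀], fun j _ => Bs.ty₀ j, fun j hj => absurd hj (notMem_empty j)⟩
    · simp only [if_neg hl]; exact ta_zero _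
  · rw [sum_eq_single i]
    · simp
    · intro l _ hl; simp only [if_neg hl, zero_mul]
    · intro h; exact absurd (mem_range.2 (Nat.lt_succ_self i)) h

theorem in_trans {k : ℕ} {s t : ℕ → A} {i : ℕ} (h : ∀ l ≤ i, g.In 0 s l (t l)) {x : A} (hx : g.In k t i x) : g.In k s i x := by
  obtain ⟨a, ha, rfl⟩ := hx
  refine in_sum _ _ fun l hl => in_mul (by omega) (ha l) (in_mono le_rfl ?_ (h l ?_))
  · exact Nat.lt_succ_iff.1 (mem_range.1 hl)
  · exact Nat.lt_succ_iff.1 (mem_range.1 hl)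

theorem del_zero (Bs : Base g) : Bs.del 0 = 0 := by
  have := Bs.add 0 0
  rw [add_zero] at this
  exact left_eq_add.1 this

theorem del_sum (Bs : Base g) {κ : Type} (t : Finset κ) (f : κ → A) : Bs.del (∑ l ∈ t, f l) = ∑ l ∈ t, Bs.del (f l) := by
  classical
  induction t using Finset.induction_on with
  | empty => simpa using del_zero Bs
  | insert a t ha ih => rw [sum_insert ha, sum_insert ha, Bs.add, ih]

theorem in_del (Bs : Base g) {k : ℕ} {P : A} {i : ℕ} {x : A} (hx : g.In k (fun l => Bs.del^[l] P) i x) :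
    g.In k (fun l => Bs.del^[l] P) (i + 1) (Bs.del x) := by
  obtain ⟨a, ha, rfl⟩ := hx
  rw [del_sum]
  refine in_sum _ _ fun l hl => ?_
  rw [Bs.mul]
  refine in_add (in_mul (by omega) (Bs.tyd _ _ (ha l)) (in_mono le_rfl ?_ (in_self Bs (fun l => Bs.del^[l] P) l))) ?_
  · have := mem_range.1 hl; omega
  · rw [← Function.iterate_succ_apply' Bs.del l P]
    refine in_mul (by omega) (ha l) (in_mono le_rfl ?_ (in_self Bs (fun l => Bs.del^[l] P) (l + 1)))
    have := mem_range.1 hl; omega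

theorem in_del_iter (Bs : Base g) {k : ℕ} {P : A} {i : ℕ} {x : A} (hx : g.In k (fun l => Bs.del^[l] P) i x) (o : ℕ) :
    g.In k (fun l => Bs.del^[l] P) (i + o) (Bs.del^[o] x) := by
  induction o with
  | zero => simpa using hx
  | succ o ih => rw [Function.iterate_succ_apply']; exact in_del Bs ih

theorem del_pol (Bs : Base g) (q : K[X]) (o : ℕ) : Bs.del^[o] (algebraMap K[X] A q) = algebraMap K[X] A (derivative^[o] q) := by
  induction o with
  | zero => rfl
  | succ o ih => rw [Function.iterate_succ_apply', Function.iterate_succ_apply', ih, Bs.pol]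

/-- The number of the basis elements. -/
noncomputable def Base.nt (Bs : Base g) (d : ℤ) (k : ℕ) : ℕ := (Bs.fin d k).toFinset.card

/-- Torsion freeness. -/
theorem smul_ne (g : GB K[X] A J β) (q : K[X]) (hq : q ≠ 0) {x : A} (h : q • x = 0) : x = 0 := by
  have h1 : g.B.repr x = 0 := by
    have h2 : q • g.B.repr x = 0 := by rw [← map_smul, h, map_zero]
    ext1 z
    have h3 := DFunLike.congr_fun h2 z
    rw [Finsupp.smul_apply, smul_eq_mul, Finsupp.zero_apply] at h3
    rw [Finsupp.zero_apply]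
    exact (mul_eq_zero.1 h3).resolve_left hq
  exact (LinearEquiv.map_eq_zero_iff _).1 h1

theorem ta_of_smul (q : K[X]) (hq : q ≠ 0) {k : ℕ} {x : A} (h : g.TA k (q • x)) : g.TA k x := by
  intro z hz
  refine h z ?_
  rw [map_smul, Finsupp.smul_apply, smul_eq_mul]
  exact mul_ne_zero hq hz

/-- S5 (first stop). -/
theorem s5 (Bs : Base g) {d : ℤ} {k : ℕ} (P : A) (hP : P ≠ 0) (G : ℕ → A) (hG : ∀ i, g.M univ univ d k (G i))
    (h1 : ∀ i, g.In 0 (fun l => Bs.del^[l] P) i (G i)) (h2 : ∀ i, g.In 0 G i (Bs.del^[i] P)) :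
    ∃ q : K[X], q ≠ 0 ∧ g.In 0 G (Bs.nt d k) (algebraMap K[X] A q) := by
  classical
  set S : Finset β := (Bs.fin d k).toFinset with hS
  have hGS : ∀ i z, z ∉ S → g.B.repr (G i) z = 0 := by
    intro i z hz
    by_contra h
    exact hz ((Bs.fin d k).mem_toFinset.2 (hG i z h))
  -- a relation
  obtain ⟨c, hc, hc0⟩ : ∃ c : Fin (S.card + 1) → K[X], ∑ i, c i • G i = 0 ∧ c ≠ 0 := by
    let L : (Fin (S.card + 1) → K[X]) →ₗ[K[X]] (S → K[X]) :=
      { toFun := fun c z => g.B.repr (∑ i, c i • G i) z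
        map_add' := fun c c' => by
          funext z
          simp only [Pi.add_apply, add_smul, sum_add_distrib, map_add, Finsupp.add_apply]
        map_smul' := fun r c => by
          funext z
          simp only [Pi.smul_apply, smul_assoc, ← smul_sum, map_smul, Finsupp.smul_apply, RingHom.id_apply] }
    have hL : ¬ Function.Injective L := by
      intro h
      have h' := card_le_of_injective K[X] L h
      simp at h'
    rw [← LinearMap.ker_eq_bot, Submodule.eq_bot_iff] at hL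
    push Not at hL
    obtain ⟨c, hc, hc0⟩ := hL
    refine ⟨c, ?_, hc0⟩
    apply (LinearEquiv.map_eq_zero_iff g.B.repr).1
    ext1 z
    by_cases hz : z ∈ S
    · exact congrFun (LinearMap.mem_ker.1 hc) ⟨z, hz⟩
    · rw [map_sum, Finsupp.finsetSum_apply, Finsupp.zero_apply]
      exact sum_eq_zero fun i _ => by rw [map_smul, Finsupp.smul_apply, hGS i z hz, smul_zero]
  -- the last index which occurs
  obtain ⟨i₀, hi₀, hmax⟩ : ∃ i₀ : Fin (S.card + 1), c i₀ ≠ 0 ∧ ∀ i, i₀ < i → c i = 0 := by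
    have hne : (univ.filter fun i => c i ≠ 0).Nonempty := by
      obtain ⟨i, hi⟩ := Function.ne_iff.1 hc0
      exact ⟨i, mem_filter.2 ⟨mem_univ _, hi⟩⟩
    refine ⟨(univ.filter fun i => c i ≠ 0).max' hne, (mem_filter.1 (max'_mem _ hne)).2, fun i hi => ?_⟩
    by_contra h
    exact absurd (le_max' _ i (mem_filter.2 ⟨mem_univ _, h⟩)) (not_le.2 hi)
  have hrel : c i₀ • G i₀ = -∑ l ∈ range (i₀ : ℕ), (if h : l < S.card + 1 then c ⟨l, h⟩ else 0) • G l := by
    have h3 : ∑ i, c i • G i = ∑ l ∈ range ((i₀ : ℕ) + 1), (if h : l < S.card + 1 then c ⟨l, h⟩ else 0) • G l := by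
      rw [sum_subset (range_mono (Nat.succ_le_of_lt i₀.2 : (i₀ : ℕ) + 1 ≤ S.card + 1) : range ((i₀ : ℕ) + 1) ⊆ range (S.card + 1)),
        Finset.sum_range]
      · exact sum_congr rfl fun i _ => by rw [dif_pos i.2]
      · intro l hl hl'
        rw [dif_pos (mem_range.1 hl), hmax ⟨l, mem_range.1 hl⟩ (not_lt.1 (fun h => hl' (mem_range.2 h))), zero_smul]
    rw [h3, sum_range_succ, dif_pos i₀.2] at hc
    exact eq_neg_of_add_eq_zero_right hc
  have hG0 : G 0 ≠ 0 := by
    intro h0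
    obtain ⟨a, _, ha⟩ := h2 0
    rw [zero_add, sum_range_one, h0, mul_zero] at ha
    exact hP ha
  obtain ⟨i, hi⟩ : ∃ i, (i₀ : ℕ) = i + 1 := by
    cases h : (i₀ : ℕ) with
    | zero =>
      rw [h, range_zero, sum_empty, neg_zero] at hrel
      exact absurd (smul_ne g _ hi₀ hrel) hG0
    | succ i => exact ⟨i, rfl⟩
  have hle : i ≤ S.card := by have := i₀.2; omega
  -- the module
  have hstep : g.In 0 G i (c i₀ • G (i + 1)) := by
    rw [← hi, hrel, hi]
    refine in_neg (in_sum _ _ fun l hl => in_smul _ (in_mono le_rfl ?_ (in_self Bs G l)))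
    exact Nat.lt_succ_iff.1 (mem_range.1 hl)
  let Sat : AddSubgroup A :=
    { carrier := {m | ∃ q : K[X], q ≠ 0 ∧ g.In 0 G i (q • m)}
      add_mem' := by
        rintro x y ⟨q, hq, hx⟩ ⟨r, hr, hy⟩
        refine ⟨q * r, mul_ne_zero hq hr, ?_⟩
        rw [smul_add, mul_comm q r, mul_smul, mul_comm r q, mul_smul]
        exact in_add (in_smul _ hx) (in_smul _ hy)
      zero_mem' := ⟨1, one_ne_zero, by rw [smul_zero]; exact in_zero _ _ _⟩
      neg_mem' := by
        rintro x ⟨q, hq, hx⟩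
        exact ⟨q, hq, by rw [smul_neg]; exact in_neg hx⟩ }
  have hdel : ∀ m, g.In 0 G i m → Bs.del m ∈ Sat := by
    intro m hm
    have h3 : g.In 0 G (i + 1) (Bs.del m) := in_trans (fun l _ => h2 l) (in_del Bs (in_trans (fun l _ => h1 l) hm))
    obtain ⟨a, ha, h4⟩ := h3
    refine ⟨c i₀, hi₀, ?_⟩
    rw [h4, sum_range_succ, smul_add, smul_sum, ← mul_smul_comm]
    refine in_add (in_sum _ _ fun l hl => ?_) (in_mul (by omega) (ha _) hstep)
    exact in_smul _ (in_mul (by omega) (ha l) (in_mono le_rfl (Nat.lt_succ_iff.1 (mem_range.1 hl)) (in_self Bs G l)))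
  have h5 : (1 : A) ∈ Sat := by
    refine Bs.simple Sat ?_ ?_ ?_ ?_
    · rintro x ⟨q, hq, a, ha, hx⟩
      refine ⟨k, ta_of_smul q hq ?_⟩
      rw [hx]
      exact ta_sum _ _ fun l _ => ta_mul (by omega) (ha l) (ta_of_m (hG l))
    · rintro a x ha ⟨q, hq, hx⟩
      exact ⟨q, hq, by rw [← mul_smul_comm]; exact in_mul (by omega) ha hx⟩
    · rintro x ⟨q, hq, hx⟩
      obtain ⟨r, hr, h6⟩ := hdel _ hx
      have h7 : Bs.del (q • x) = derivative q • x + q • Bs.del x := by
        rw [Algebra.smul_def, Bs.mul, Bs.pol, ← Algebra.smul_def, ← Algebra.smul_def]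
      refine ⟨q * (r * q), mul_ne_zero hq (mul_ne_zero hr hq), ?_⟩
      have h8 : (q * (r * q)) • Bs.del x = q • (r • Bs.del (q • x)) - (r * derivative q) • (q • x) := by
        rw [h7]
        simp only [smul_add, smul_smul]
        rw [show q * (r * derivative q) = r * derivative q * q by ring]
        abel
      rw [h8, sub_eq_add_neg]
      exact in_add (in_smul _ h6) (in_neg (in_smul _ hx))
    · intro h6
      have h7 : G 0 ∈ Sat := ⟨1, one_ne_zero, by rw [one_smul]; exact in_mono le_rfl (Nat.zero_le _) (in_self Bs G 0)⟩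
      rw [h6] at h7
      exact hG0 (AddSubgroup.mem_bot.1 h7)
  obtain ⟨q, hq, h6⟩ := h5
  refine ⟨q, hq, ?_⟩
  rw [Algebra.algebraMap_eq_smul_one]
  exact in_mono le_rfl hle h6

end GB

end H47E
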