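import Mathlib
import Pool.Agent.Lib.H47E.Z1

/-!
# H47E, module Z: the zero estimate Z1, Z2, ZEH (PROOF.md, section 6), abstract form (helper13)
-/

set_option autoImplicit false

namespace H47E

open Finset Polynomial

variable {K A J β : Type} [Field K] [CommRing A] [Algebra K[X] A] [Fintype J] [DecidableEq J]

namespace GB

variable {g : GB K[X] A J β}

/-- The families of PROOF.md, section 5 (E6), for `P`: `PI I = x_I ^ nu2 tau_I(P)`, `GI I i = [u ^ i] G_(P_I)`, `v I i = x_I ^ nu' tau_I(GI I i)`. -/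
structure Fam (Bs : Base g) (b cw D₀ : ℕ) (P : A) where
  PI : Finset J → A
  GI : Finset J → ℕ → A
  v : Finset J → ℕ → A
  tau : Finset J → A →ₐ[K[X]] A
  xn : Finset J → A
  xinv : Finset J → A
  hx : ∀ I, xinv I * xn I = 1
  hv : ∀ I i, v I i = xn I * tau I (GI I i)
  ne : ∀ I, PI I ≠ 0
  g1 : ∀ I i, g.In 0 (fun l => Bs.del^[l] (PI I)) i (GI I i)
  g2 : ∀ I i, g.In 0 (GI I) i (Bs.del^[i] (PI I))
  g3 : ∀ I i, g.In 0 (fun l => Bs.del^[l] P) i (v I i)
  wG : ∀ I i, g.M univ univ b cw (GI I i)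
  wv : ∀ I i, g.M univ univ b cw (v I i)
  wa : ∀ I k a, g.TA k a → g.M Iᶜ I (-(b : ℤ) + (cw + k : ℕ)) k (xinv I * tau I a)
  dg : ∀ I i z, (g.B.repr (v I i) z).natDegree ≤ D₀

/-- R for the family: the input is an identity for every `I`. -/
theorem reg (Bs : Base g) {b cw D₀ : ℕ} {P : A} (F : Fam Bs b cw D₀ P) (k T : ℕ) (q : Finset J → K[X])
    (h : ∀ I, g.In k (F.GI I) T (algebraMap K[X] A (q I))) :
    ∃ m : Finset J × Fin (T + 1) → A, ∑ i, F.v i.1 i.2 * m i = algebraMap K[X] A ((∏ I, q I) ^ 2 ^ Fintype.card J) ∧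
      ∀ i, g.M univ univ ((2 * Fintype.card J * b + 2 ^ (Fintype.card J + 1) * (k + cw) + Fintype.card J + 2 ^ Fintype.card J * (cw + k) : ℕ) : ℤ)
        (2 ^ Fintype.card J * (k + cw)) (m i) := by
  classical
  refine g.regular (fun i : Finset J × Fin (T + 1) => F.v i.1 i.2) b cw (cw + k) k (∏ I, q I) (fun i => F.wv _ _) (fun I => ?_) ?_
  · obtain ⟨a, ha, h1⟩ := h I
    refine ⟨fun i => if i.1 = I then (∏ I' ∈ univ.erase I, q I') • (F.xinv I * F.tau I (a i.2)) else 0, ?_, fun i => ?_⟩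
    · rw [Fintype.sum_prod_type, sum_eq_single I]
      · simp only [if_pos, smul_mul_assoc, ← smul_sum]
        have h2 : ∀ l : ℕ, F.xinv I * F.tau I (a l) * F.v I l = F.tau I (a l * F.GI I l) := fun l => by
          rw [F.hv, map_mul, show F.xinv I * F.tau I (a l) * (F.xn I * F.tau I (F.GI I l)) =
            (F.xinv I * F.xn I) * (F.tau I (a l) * F.tau I (F.GI I l)) by ring, F.hx, one_mul]
        have h3 : ∑ l : Fin (T + 1), F.xinv I * F.tau I (a l) * F.v I l = algebraMap K[X] A (q I) := by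
          rw [← Finset.sum_range fun l => F.xinv I * F.tau I (a l) * F.v I l]
          simp only [h2]
          rw [← map_sum, ← h1, AlgHom.commutes]
        rw [h3, Algebra.smul_def, ← map_mul, ← prod_erase_mul univ q (mem_univ I)]
      · intro I' _ hI'
        exact sum_eq_zero fun l _ => by simp only [if_neg hI', zero_mul]
      · intro h; exact absurd (mem_univ _) h
    · by_cases hi : i.1 = I
      · simp only [if_pos hi]
        exact g.sup_smul (F.wa I k _ (ha _)) _
      · simp only [if_neg hi]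
        exact g.sup_zero _
  · intro z hz
    rw [← Bs.one, Module.Basis.repr_self, Finsupp.single_apply] at hz
    have : Bs.b₀ = z := by
      by_contra h
      exact hz (if_neg h)
    rw [← this]
    exact ⟨by rw [Bs.wd₀], fun j _ => Bs.ty₀ j, fun j _ => Bs.wt₀ j⟩

/-- The degrees of the coordinates. -/
theorem dg_mul (Bs : Base g) {D₀ : ℕ} {x : A} (hx : ∀ z, (g.B.repr x z).natDegree ≤ D₀) (y z : β) : (g.B.repr (x * g.B y) z).natDegree ≤ D₀ := by
  have h1 : x * g.B y = ∑ i ∈ (g.B.repr x).support, g.B.repr x i • (g.B i * g.B y) := by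
    conv_lhs => rw [← g.B.linearCombination_repr x]
    rw [Finsupp.linearCombination_apply, Finsupp.sum, sum_mul]
    exact sum_congr rfl fun i _ => by rw [smul_mul_assoc]
  rw [h1, map_sum, Finsupp.finsetSum_apply]
  refine natDegree_sum_le_of_forall_le _ _ fun i _ => ?_
  rw [map_smul, Finsupp.smul_apply, smul_eq_mul]
  refine natDegree_mul_le.trans ?_
  rw [Bs.cst, add_zero]
  exact hx i

/-- The final weight and degree bounds in terms of `n`, `b`, `cw`, `k`. -/
def dd (n b cw k : ℕ) : ℕ := 2 * n * b + 2 ^ (n + 1) * (k + cw) + n + 2 ^ n * (cw + k)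

/-- The same for the degree. -/
def kd (n cw k : ℕ) : ℕ := 2 ^ n * (k + cw)

/-- The expansion of the identity in coordinates. -/
theorem expand (Bs : Base g) {b cw D₀ : ℕ} {P : A} (F : Fam Bs b cw D₀ P) (k T : ℕ) (r : K[X]) (m : Finset J × Fin (T + 1) → A)
    (h1 : ∑ i, F.v i.1 i.2 * m i = algebraMap K[X] A r)
    (h2 : ∀ i, g.M univ univ (dd (Fintype.card J) b cw k : ℤ) (kd (Fintype.card J) cw k) (m i)) :
    ∃ c : (Finset J × Fin (T + 1)) × (Bs.fin (dd (Fintype.card J) b cw k : ℤ) (kd (Fintype.card J) cw k)).toFinset → K[X],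
      ∑ i, c i • (F.v i.1.1 i.1.2 * g.B i.2) = algebraMap K[X] A r := by
  classical
  refine ⟨fun i => g.B.repr (m i.1) i.2, ?_⟩
  rw [Fintype.sum_prod_type, ← h1]
  refine sum_congr rfl fun i _ => ?_
  simp only [← mul_smul_comm, ← mul_sum]
  congr 1
  conv_rhs => rw [← g.B.linearCombination_repr (m i)]
  rw [Finsupp.linearCombination_apply, Finsupp.sum]
  rw [sum_coe_sort _ (fun z => g.B.repr (m i) z • g.B z)]
  symm
  refine sum_subset (fun z hz => (Set.Finite.mem_toFinset _).2 (h2 i z (Finsupp.mem_support_iff.1 hz))) fun z _ hz => ?_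
  rw [Finsupp.notMem_support_iff.1 hz, zero_smul]

/-- Z1 (generic identity). -/
theorem z1 (Bs : Base g) {b cw D₀ : ℕ} {P : A} (F : Fam Bs b cw D₀ P) :
    ∃ Δ : K[X], Δ ≠ 0 ∧ Δ.natDegree ≤ Bs.nt (dd (Fintype.card J) b cw 0 + b : ℕ) (kd (Fintype.card J) cw 0 + cw) * D₀ ∧
      g.In (kd (Fintype.card J) cw 0) (fun l => Bs.del^[l] P) (Bs.nt b cw) (algebraMap K[X] A Δ) := by
  classical
  choose q hq hq' using fun I => s5 Bs (F.PI I) (F.ne I) (F.GI I) (F.wG I) (F.g1 I) (F.g2 I)
  obtain ⟨m, hm1, hm2⟩ := reg Bs F 0 (Bs.nt b cw) q hq'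
  obtain ⟨c, hc⟩ := expand Bs F 0 (Bs.nt b cw) _ m hm1 hm2
  set r : K[X] := (∏ I, q I) ^ 2 ^ Fintype.card J with hr
  have hr0 : r ≠ 0 := pow_ne_zero _ (prod_ne_zero_iff.2 fun I _ => hq I)
  let S := (Bs.fin ((dd (Fintype.card J) b cw 0 + b : ℕ) : ℤ) (kd (Fintype.card J) cw 0 + cw)).toFinset
  have hb₀ : Bs.b₀ ∈ S := (Set.Finite.mem_toFinset _).2 ⟨by rw [Bs.wd₀]; omega, fun j _ => Bs.ty₀ j, fun j _ => (Bs.wt₀ j).trans (by positivity)⟩
  -- the supports
  have hsup : ∀ (I : Finset J) (i : ℕ) (y : (Bs.fin (dd (Fintype.card J) b cw 0 : ℤ) (kd (Fintype.card J) cw 0)).toFinset) (z : β), z ∉ S →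
      g.B.repr (F.v I i * g.B y) z = 0 := by
    intro I i y z hz
    by_contra h
    refine hz ((Set.Finite.mem_toFinset _).2 ?_)
    have h1 : g.M univ univ (dd (Fintype.card J) b cw 0 : ℤ) (kd (Fintype.card J) cw 0) (g.B (y : β)) := by
      intro z' hz'
      rw [Module.Basis.repr_self, Finsupp.single_apply] at hz'
      have : (y : β) = z' := by
        by_contra h
        exact hz' (if_neg h)
      rw [← this]
      have h3 := (Set.Finite.mem_toFinset _).1 y.2
      exact h3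
    exact g.m_mul (F.wv I i) h1 (Subset.refl _) (Subset.refl _) (Subset.refl _) (Subset.refl _) (by push_cast; omega) (by omega) z h
  obtain ⟨Δ, hΔ, hΔ', c', hc'⟩ := cramer (fun (i : (Finset J × Fin (Bs.nt b cw + 1)) ×
      (Bs.fin (dd (Fintype.card J) b cw 0 : ℤ) (kd (Fintype.card J) cw 0)).toFinset) (z : S) => g.B.repr (F.v i.1.1 i.1.2 * g.B i.2) z) D₀
    (fun i z => dg_mul Bs (F.dg _ _) _ _) ⟨Bs.b₀, hb₀⟩ r hr0 c (fun z => by
      have h1 := DFunLike.congr_fun (congrArg g.B.repr hc) (z : β)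
      rw [map_sum, Finsupp.finsetSum_apply, Algebra.algebraMap_eq_smul_one, ← Bs.one, map_smul, Module.Basis.repr_self, Finsupp.smul_apply,
        Finsupp.single_apply] at h1
      simp only [map_smul, Finsupp.smul_apply, smul_eq_mul] at h1
      rw [h1]
      by_cases hz : z = ⟨Bs.b₀, hb₀⟩
      · rw [if_pos hz, if_pos (by rw [hz]), mul_one]
      · rw [if_neg hz, if_neg (fun h => hz (Subtype.ext h.symm)), mul_zero])
  refine ⟨Δ, hΔ, ?_, ?_⟩
  · rwa [Fintype.card_coe] at hΔ'
  · have h1 : algebraMap K[X] A Δ = ∑ i, c' i • (F.v i.1.1 i.1.2 * g.B i.2) := by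
      apply g.B.repr.injective
      ext1 z
      rw [map_sum, Finsupp.finsetSum_apply, Algebra.algebraMap_eq_smul_one, ← Bs.one, map_smul, Module.Basis.repr_self, Finsupp.smul_apply,
        Finsupp.single_apply]
      simp only [map_smul, Finsupp.smul_apply, smul_eq_mul]
      by_cases hz : z ∈ S
      · rw [hc' ⟨z, hz⟩]
        by_cases hz' : z = Bs.b₀
        · subst hz'; simp
        · rw [if_neg (fun h => hz' (congrArg Subtype.val h)), if_neg (fun h => hz' h.symm), mul_zero]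
      · rw [if_neg (fun h => hz (by rw [← h]; exact hb₀)), mul_zero]
        exact (sum_eq_zero fun i _ => by rw [hsup _ _ _ z hz, mul_zero]).symm
    rw [h1]
    refine in_sum _ _ fun i _ => in_smul _ ?_
    rw [mul_comm]
    refine in_mul (k' := kd (Fintype.card J) cw 0) (by omega) ?_ (in_mono le_rfl (Nat.lt_succ_iff.1 i.1.2.2) (F.g3 _ _))
    intro z' hz'
    rw [Module.Basis.repr_self, Finsupp.single_apply] at hz'
    have : (i.2 : β) = z' := by
      by_contra h
      exact hz' (if_neg h)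
    rw [← this]
    have h2 := (Set.Finite.mem_toFinset _).1 i.2.2
    exact ⟨h2.1, h2.2.1, fun j hj => absurd hj (notMem_empty j)⟩

end GB

end H47E
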