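import Mathlib
import Pool.Agent.Lib.H47E.Z2

/-!
# H47E, module Z: the zero estimate Z2, ZEH (PROOF.md, section 6), abstract form (helper13)
-/

set_option autoImplicit false

namespace H47E

open Finset Polynomial

/-- The pigeonhole principle for the orders of vanishing. -/
theorem pigeon {K κ : Type} [Field K] [CharZero K] [Fintype κ] (Δ : κ → K[X]) (N : ℕ) (hΔ : ∀ i, (Δ i).natDegree ≤ N) (m₀ : ℕ) (hm₀ : 1 ≤ m₀) :
    ∃ m : ℕ, 1 ≤ m ∧ m ≤ m₀ ∧ ∀ i, (Δ i).rootMultiplicity (m : K) ≤ Fintype.card κ * N / m₀ := by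
  classical
  by_contra h
  push Not at h
  have h1 : ∀ m ∈ Icc 1 m₀, Fintype.card κ * N / m₀ + 1 ≤ ∑ i, (Δ i).rootMultiplicity (m : K) := by
    intro m hm
    obtain ⟨i, hi⟩ := h m (mem_Icc.1 hm).1 (mem_Icc.1 hm).2
    exact (Nat.succ_le_of_lt hi).trans (single_le_sum (f := fun i => (Δ i).rootMultiplicity (m : K)) (fun _ _ => Nat.zero_le _) (mem_univ i))
  have h2 : ∀ i, ∑ m ∈ Icc 1 m₀, (Δ i).rootMultiplicity (m : K) ≤ N := by
    intro i
    refine le_trans ?_ ((card_roots' (Δ i)).trans (hΔ i))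
    have h3 : ∑ m ∈ Icc 1 m₀, (Δ i).rootMultiplicity (m : K) = ∑ x ∈ (Icc 1 m₀).image (fun m : ℕ => (m : K)), (Δ i).roots.count x := by
      rw [sum_image fun x _ y _ h => Nat.cast_injective h]
      exact sum_congr rfl fun m _ => (count_roots _).symm
    rw [h3]
    rw [← Multiset.sum_count_eq_card (s := (Icc 1 m₀).image (fun m : ℕ => (m : K)) ∪ (Δ i).roots.toFinset) fun a ha =>
      mem_union_right _ (Multiset.mem_toFinset.2 ha)]
    exact sum_le_sum_of_subset subset_union_left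
  have h3 := sum_le_sum h1
  rw [sum_const, Nat.card_Icc, sum_comm, smul_eq_mul] at h3
  have h4 := h3.trans (sum_le_sum fun i _ => h2 i)
  rw [sum_const, card_univ, smul_eq_mul] at h4
  have h5 : Fintype.card κ * N < m₀ * (Fintype.card κ * N / m₀ + 1) := by
    have := Nat.lt_mul_div_succ (Fintype.card κ * N) (show 0 < m₀ by omega)
    exact this
  rw [Nat.add_sub_cancel] at h4
  omega

variable {K A J β : Type} [Field K] [CharZero K] [CommRing A] [Algebra K[X] A] [Fintype J] [DecidableEq J]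

namespace GB

variable {g : GB K[X] A J β}

/-- ZEH: the final form of the zero estimate. -/
theorem zeh (Bs : Base g) {b b' cw D₀ : ℕ} {P : A} (F : Fam Bs b cw D₀ P) (F' : ∀ I, Fam Bs b' cw D₀ (F.PI I)) (m₀ : ℕ) (hm₀ : 1 ≤ m₀) :
    ∃ m : ℕ, 1 ≤ m ∧ m ≤ m₀ ∧ (fun z => (g.B.repr (1 : A) z).eval (m : K)) ∈ Submodule.span K {r : β → K | ∃ (I : Finset J) (i : ℕ) (μ : β),
      i ≤ Bs.nt b' cw + D₀ * (2 ^ Fintype.card J * Bs.nt (dd (Fintype.card J) b' cw 0 + b' : ℕ) (kd (Fintype.card J) cw 0 + cw)) / m₀ ∧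
      g.Pr univ univ (dd (Fintype.card J) b cw (kd (Fintype.card J) cw 0) : ℤ) (kd (Fintype.card J) cw (kd (Fintype.card J) cw 0)) μ ∧
      r = fun z => (g.B.repr (F.v I i * g.B μ) z).eval (m : K)} := by
  classical
  choose Δ hΔ hΔ1 hΔ2 using fun I => z1 Bs (F' I)
  set N := Bs.nt (dd (Fintype.card J) b' cw 0 + b' : ℕ) (kd (Fintype.card J) cw 0 + cw) with hN
  set k' := kd (Fintype.card J) cw 0 with hk'
  obtain ⟨m, hm1, hm2, hm3⟩ := pigeon Δ (N * D₀) hΔ1 m₀ hm₀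
  rw [Fintype.card_finset, show 2 ^ Fintype.card J * (N * D₀) = D₀ * (2 ^ Fintype.card J * N) by ring] at hm3
  refine ⟨m, hm1, hm2, ?_⟩
  set o := D₀ * (2 ^ Fintype.card J * N) / m₀ with ho
  let q : Finset J → K[X] := fun I => derivative^[(Δ I).rootMultiplicity (m : K)] (Δ I)
  have hq0 : ∀ I, (q I).eval (m : K) ≠ 0 := by
    intro I
    show (derivative^[(Δ I).rootMultiplicity (m : K)] (Δ I)).eval (m : K) ≠ 0
    rw [eval_iterate_derivative_rootMultiplicity]
    exact smul_ne_zero (Nat.factorial_ne_zero _) (eval_divByMonic_pow_rootMultiplicity_ne_zero _ (hΔ I))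
  have hq : ∀ I, g.In k' (F.GI I) (Bs.nt b' cw + o) (algebraMap K[X] A (q I)) := by
    intro I
    have h1 := in_del_iter Bs (hΔ2 I) ((Δ I).rootMultiplicity (m : K))
    rw [del_pol] at h1
    exact in_mono le_rfl (Nat.add_le_add_left (hm3 I) _) (in_trans (fun l _ => F.g2 I l) h1)
  obtain ⟨mm, h1, h2⟩ := reg Bs F k' (Bs.nt b' cw + o) q hq
  obtain ⟨c, hc⟩ := expand Bs F k' (Bs.nt b' cw + o) _ mm h1 h2
  set r : K[X] := (∏ I, q I) ^ 2 ^ Fintype.card J with hr
  have hr0 : r.eval (m : K) ≠ 0 := by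
    rw [hr, eval_pow, eval_prod]
    exact pow_ne_zero _ (prod_ne_zero_iff.2 fun I _ => hq0 I)
  have h3 : (fun z => (g.B.repr (1 : A) z).eval (m : K)) =
      ∑ i, ((r.eval (m : K))⁻¹ * (c i).eval (m : K)) • fun z => (g.B.repr (F.v i.1.1 i.1.2 * g.B i.2) z).eval (m : K) := by
    funext z
    have h4 := congrArg (eval (m : K)) (DFunLike.congr_fun (congrArg g.B.repr hc) z)
    rw [map_sum, Finsupp.finsetSum_apply, Algebra.algebraMap_eq_smul_one, map_smul, Finsupp.smul_apply, eval_finsetSum, smul_eq_mul,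
      eval_mul] at h4
    simp only [map_smul, Finsupp.smul_apply, smul_eq_mul, eval_mul] at h4
    simp only [Finset.sum_apply, Pi.smul_apply, smul_eq_mul, mul_assoc, ← mul_sum]
    rw [h4, ← mul_assoc, inv_mul_cancel₀ hr0, one_mul]
  rw [h3]
  refine Submodule.sum_mem _ fun i _ => Submodule.smul_mem _ _ (Submodule.subset_span ⟨i.1.1, i.1.2, i.2, Nat.lt_succ_iff.1 i.1.2.2, ?_, rfl⟩)
  have h5 := (Set.Finite.mem_toFinset _).1 i.2.2
  exact h5

end GB

end H47E
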