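import Mathlib
import Pool.Agent.Lib.H47E.Z3
import Pool.Agent.Lib.H47E.E2
import Pool.Agent.Lib.H47E.E2d

/-!
# H47E, module Z: the ring `LL n a c K[X]` as an instance of `GB` (helper13)
-/

set_option autoImplicit false

namespace H47E

open Finset Polynomial

variable {n : ℕ} {K : Type} [Field K] [CharZero K] (a c : K) [Fact (c ≠ 0)]

/-- The instance. -/
noncomputable def gbi (n : ℕ) : GB K[X] (LL n a c K[X]) (Fin n) (Fin n → Ix) where
  B := LB a c K[X]
  wt := fun I j => wt (I j)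
  ty := fun I j => tA (I j)
  wd := wd
  mul := fun x y z h => by
    obtain ⟨h1, h2, h3⟩ := (LB_good a c K[X]).mul x y z h
    exact ⟨h2, h3, h1⟩
  split := fun x j h => by
    have h1 : (x j).2.2 ≤ wd x := single_le_sum (f := fun j => (x j).2.2) (fun _ _ => Nat.zero_le _) (mem_univ j)
    have h2 := (x j).2.1.2
    simp only [tA, not_le] at h
    simp only [wt]
    omega

theorem gbi_TA {k : ℕ} {x : LL n a c K[X]} : (gbi a c n).TA k x ↔ TA a c k x := by
  constructor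
  · intro h I hI
    obtain ⟨h1, h2, -⟩ := h I hI
    exact ⟨h1, fun j => h2 j (mem_univ j)⟩
  · intro h I hI
    obtain ⟨h1, h2⟩ := h I hI
    exact ⟨h1, fun j _ => h2 j, fun j hj => absurd hj (notMem_empty j)⟩

theorem gbi_TG {d k : ℕ} {x : LL n a c K[X]} : (gbi a c n).M univ univ d k x ↔ TG a c d k x := by
  constructor
  · intro h I hI
    obtain ⟨h1, h2, h3⟩ := h I hI
    exact ⟨h1, fun j => ⟨h2 j (mem_univ j), h3 j (mem_univ j)⟩⟩
  · intro h I hI
    obtain ⟨h1, h2⟩ := h I hI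
    exact ⟨h1, fun j _ => (h2 j).1, fun j _ => (h2 j).2⟩

theorem gbi_MS {S : Finset (Fin n)} {d : ℤ} {k : ℕ} {x : LL n a c K[X]} (h : x ∈ MS (LB a c K[X]) (sAB S) d k) :
    (gbi a c n).M Sᶜ S d k x := by
  intro I hI
  obtain ⟨h1, h2⟩ := h I hI
  refine ⟨h1, fun j hj => ?_, fun j hj => ?_⟩
  · have := h2 j
    rw [sAB, if_neg (mem_compl.1 hj)] at this
    exact this
  · have := h2 j
    rw [sAB, if_pos hj] at this
    exact this

/-- The indices in one direction. -/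
def ix1 (d : ℕ) : Set Ix := {i | tA i ∧ wt i ≤ d}

theorem ix1_inj (d : ℕ) : Set.InjOn (fun i : Ix => (⟨(2 * i.1 + (i.2.1 : ℕ)).toNat, i.2.2⟩ : ℕ × ℕ)) (ix1 d) := by
  rintro ⟨i, e, k⟩ ⟨h1, h2⟩ ⟨i', e', k'⟩ ⟨h1', h2'⟩ h
  simp only [tA, wt] at h1 h2 h1' h2'
  simp only [Prod.mk.injEq] at h
  obtain ⟨h3, rfl⟩ := h
  have he := e.2
  have he' := e'.2
  have h4 : i = i' ∧ (e : ℕ) = e' := by omega
  obtain ⟨rfl, h5⟩ := h4
  rw [Fin.ext h5]

theorem ix1_maps (d : ℕ) : Set.MapsTo (fun i : Ix => (⟨(2 * i.1 + (i.2.1 : ℕ)).toNat, i.2.2⟩ : ℕ × ℕ)) (ix1 d)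
    (Finset.range (d + 1) ×ˢ Finset.range (d + 1) : Finset (ℕ × ℕ)) := by
  rintro ⟨i, e, k⟩ ⟨h1, h2⟩
  simp only [tA, wt] at h1 h2
  rw [mem_coe, mem_product, mem_range, mem_range]
  constructor <;> simp only <;> omega

theorem ix1_fin (d : ℕ) : (ix1 d).Finite :=
  Set.Finite.of_injOn (ix1_maps d) (ix1_inj d) (Finset.finite_toSet _)

theorem ix1_card (d : ℕ) : (ix1_fin d).toFinset.card ≤ (d + 1) ^ 2 := by
  have h := card_le_card_of_injOn (s := (ix1_fin d).toFinset) (t := Finset.range (d + 1) ×ˢ Finset.range (d + 1)) _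
    (fun i hi => ix1_maps d ((Set.Finite.mem_toFinset _).1 hi))
    (fun i hi i' hi' h => ix1_inj d ((Set.Finite.mem_toFinset _).1 hi) ((Set.Finite.mem_toFinset _).1 hi') h)
  rwa [card_product, card_range, ← pow_two] at h

theorem gbi_sub (d : ℤ) (k : ℕ) : {z | (gbi a c n).Pr univ univ d k z} ⊆
    (Fintype.piFinset fun _ : Fin n => (ix1_fin d.toNat).toFinset : Finset (Fin n → Ix)) := by
  rintro I ⟨-, h2, h3⟩
  rw [mem_coe, Fintype.mem_piFinset]
  intro j
  have h4 : tA (I j) := h2 j (mem_univ j)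
  have h5 : wt (I j) ≤ d := h3 j (mem_univ j)
  rw [Set.Finite.mem_toFinset]
  refine ⟨h4, ?_⟩
  omega

theorem gbi_fin (d : ℤ) (k : ℕ) : {z | (gbi a c n).Pr univ univ d k z}.Finite := (Finset.finite_toSet _).subset (gbi_sub a c d k)

theorem gbi_card (d : ℕ) (k : ℕ) : (gbi_fin (n := n) a c (d : ℤ) k).toFinset.card ≤ (d + 1) ^ (2 * n) := by
  have h1 : (gbi_fin (n := n) a c (d : ℤ) k).toFinset ⊆ Fintype.piFinset fun _ : Fin n => (ix1_fin d).toFinset := by
    intro I hI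
    have := gbi_sub a c (d : ℤ) k ((Set.Finite.mem_toFinset _).1 hI)
    rw [Int.toNat_natCast] at this
    exact this
  refine (card_le_card h1).trans ?_
  rw [Fintype.card_piFinset, prod_const, card_univ, Fintype.card_fin, pow_mul]
  exact Nat.pow_le_pow_left (ix1_card d) n

theorem gbi_cst (x y z : Fin n → Ix) : ((gbi a c n).B.repr ((gbi a c n).B x * (gbi a c n).B y) z).natDegree = 0 := by
  classical
  have h0 : ∀ x : Fin n → Ix, DG a c 0 (LB a c K[X] x) := fun x z => by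
    rw [crd, Module.Basis.repr_self, Finsupp.single_apply]
    split
    · exact (natDegree_one (R := K)).le
    · exact (natDegree_zero (R := K)).le
  have h := e2d_mul a c (h0 x) (h0 y) z
  exact Nat.le_zero.1 h

end H47E
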