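import Pool.Agent.Lib.H47E.Z3
import Pool.Agent.Lib.H47E.E7
import Pool.Agent.Lib.H47E.E6
import Pool.Agent.Lib.H47E.E1j
import Pool.Agent.Lib.H47E.A
import Pool.Agent.Lib.H47E.S4c

/-!
# H47E, module Z: the final form of the zero estimate
-/

set_option autoImplicit false

namespace H47E

/-- The constant `T`. -/
def zT (n v0 k0 : ℕ) : ℕ := cnt n (bb (nu1 v0 k0) k0) k0

/-- The constant `Nt`. -/
def zN (n v0 k0 : ℕ) : ℕ :=
  2 ^ n * cnt n (GB.dd n (bb (nu1 v0 k0) k0) k0 0 + bb (nu1 v0 k0) k0) (GB.kd n k0 0 + k0)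

/-- The weights of the multipliers `mon μ`. -/
def zd (n v0 k0 : ℕ) : ℕ := GB.dd n (bb v0 k0) k0 (GB.kd n k0 0)

/-- The degrees of the multipliers `mon μ`. -/
def zk (n k0 : ℕ) : ℕ := GB.kd n k0 (GB.kd n k0 0)

/-- Numerical bounds. -/
theorem z5_num (n : ℕ) : ∃ B : ℕ, ∀ v0 k0 : ℕ, zN n v0 k0 ≤ B * (v0 + k0 + 1) ^ (2 * n) ∧
    zd n v0 k0 + bb v0 k0 ≤ B * (v0 + k0 + 1) ∧ zk n k0 + k0 ≤ B * (v0 + k0 + 1) := by
  have hb : ∀ v0 k0, bb v0 k0 ≤ 6 * (v0 + k0 + 1) := fun v0 k0 => by unfold bb nup nu1; omega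
  have hb' : ∀ v0 k0, bb (nu1 v0 k0) k0 ≤ 14 * (v0 + k0 + 1) := fun v0 k0 => by unfold bb nup nu1; omega
  have h1 : ∀ k0, GB.kd n k0 0 + k0 = (2 ^ n + 1) * k0 := fun k0 => by unfold GB.kd; ring
  have h2 : ∀ v0 k0, GB.dd n (bb (nu1 v0 k0) k0) k0 0 + bb (nu1 v0 k0) k0 ≤ (28 * n + 3 * 2 ^ n + n + 14) * (v0 + k0 + 1) := by
    intro v0 k0
    have h := hb' v0 k0
    have e1 : 2 * n * bb (nu1 v0 k0) k0 ≤ 2 * n * (14 * (v0 + k0 + 1)) := Nat.mul_le_mul_left _ h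
    have e2 : 2 ^ n * k0 ≤ 2 ^ n * (v0 + k0 + 1) := Nat.mul_le_mul_left _ (by omega)
    have e3 : n * 1 ≤ n * (v0 + k0 + 1) := Nat.mul_le_mul_left _ (by omega)
    have e4 : GB.dd n (bb (nu1 v0 k0) k0) k0 0 = 2 * n * bb (nu1 v0 k0) k0 + 3 * (2 ^ n * k0) + n := by unfold GB.dd; ring
    rw [e4]
    nlinarith
  refine ⟨max (2 ^ n * ((28 * n + 3 * 2 ^ n + n + 16) * (2 ^ n + 1)) ^ n)
    (max (2 * n * 6 + 3 * 2 ^ n * (2 ^ n + 1) + n + 6) ((2 ^ n + 1) * (2 ^ n + 1))), fun v0 k0 => ⟨?_, ?_, ?_⟩⟩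
  · refine le_trans ?_ (Nat.mul_le_mul_right _ (le_max_left _ _))
    unfold zN cnt
    rw [h1]
    have e : (GB.dd n (bb (nu1 v0 k0) k0) k0 0 + bb (nu1 v0 k0) k0 + 2) * ((2 ^ n + 1) * k0 + 1) ≤
        ((28 * n + 3 * 2 ^ n + n + 16) * (2 ^ n + 1)) * (v0 + k0 + 1) ^ 2 := by
      have e1 : GB.dd n (bb (nu1 v0 k0) k0) k0 0 + bb (nu1 v0 k0) k0 + 2 ≤ (28 * n + 3 * 2 ^ n + n + 16) * (v0 + k0 + 1) := by
        have := h2 v0 k0
        nlinarith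
      have e2 : (2 ^ n + 1) * k0 + 1 ≤ (2 ^ n + 1) * (v0 + k0 + 1) := by
        have : 1 ≤ 2 ^ n := Nat.one_le_two_pow
        nlinarith
      calc _ ≤ ((28 * n + 3 * 2 ^ n + n + 16) * (v0 + k0 + 1)) * ((2 ^ n + 1) * (v0 + k0 + 1)) := Nat.mul_le_mul e1 e2
        _ = _ := by ring
    calc _ ≤ 2 ^ n * (((28 * n + 3 * 2 ^ n + n + 16) * (2 ^ n + 1)) * (v0 + k0 + 1) ^ 2) ^ n :=
          Nat.mul_le_mul_left _ (Nat.pow_le_pow_left e n)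
      _ = _ := by rw [mul_pow _ ((v0 + k0 + 1) ^ 2), ← pow_mul, mul_assoc]
  · refine le_trans ?_ (Nat.mul_le_mul_right _ (le_trans (le_max_left _ _) (le_max_right _ _)))
    have h := hb v0 k0
    have e1 : 2 * n * bb v0 k0 ≤ 2 * n * (6 * (v0 + k0 + 1)) := Nat.mul_le_mul_left _ h
    have e2 : (2 ^ n * (2 ^ n + 1)) * k0 ≤ (2 ^ n * (2 ^ n + 1)) * (v0 + k0 + 1) := Nat.mul_le_mul_left _ (by omega)
    have e3 : n * 1 ≤ n * (v0 + k0 + 1) := Nat.mul_le_mul_left _ (by omega)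
    have e4 : zd n v0 k0 = 2 * n * bb v0 k0 + 3 * ((2 ^ n * (2 ^ n + 1)) * k0) + n := by unfold zd GB.dd GB.kd; ring
    rw [e4]
    nlinarith
  · refine le_trans ?_ (Nat.mul_le_mul_right _ (le_trans (le_max_right _ _) (le_max_right _ _)))
    have e4 : zk n k0 + k0 = (2 ^ n * (2 ^ n + 1) + 1) * k0 := by unfold zk GB.kd; ring
    rw [e4]
    have : 2 ^ n * (2 ^ n + 1) + 1 ≤ (2 ^ n + 1) * (2 ^ n + 1) := by
      have : 1 ≤ 2 ^ n := Nat.one_le_two_pow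
      nlinarith
    exact Nat.mul_le_mul this (by omega)

open PowerSeries

variable {n : ℕ} {K : Type} [Field K] [CharZero K] {a c : K} [Fact (c ≠ 0)] (S : Ser K a c) (p : Fin n → K)

/-- The array `H^p`: the coordinates of `v_I(mon l)(u) mon μ`, `κ = (I, μ)`. -/
noncomputable def Hs (v0 k0 : ℕ) (κ : Finset (Fin n) × (Fin n → Ix)) (l b : Fin n → Ix) : K⟦X⟧ :=
  scrd a c (vv S p (0 : Derivation K K K) v0 k0 κ.1 (mon a c K l) * C (mon a c K κ.2)) b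

/-- The auxiliary polynomial `∑ p' (α, l) z ^ α mon l`. -/
noncomputable def PP (a c : K) (v0 k0 : ℕ) {D₀ : ℕ} (p' : Fin D₀ → {l : Fin n → Ix // l ∈ IxG n v0 k0} → ℤ) : LL n a c (Polynomial K) :=
  ∑ α : Fin D₀, ∑ l, ((p' α l : Polynomial K) * Polynomial.X ^ (α : ℕ)) • mon a c (Polynomial K) l.1

end H47E
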