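import Pool.Agent.Lib.H47E.Z5

/-!
# H47E, chunk Z5a: the auxiliary polynomial
-/

set_option autoImplicit false

namespace H47E

open PowerSeries

variable {n : ℕ} {K : Type} [Field K] [CharZero K] {a c : K} [Fact (c ≠ 0)]

theorem z5a_crd (v0 k0 : ℕ) {D₀ : ℕ} (p' : Fin D₀ → {l : Fin n → Ix // l ∈ IxG n v0 k0} → ℤ) (I : Fin n → Ix) :
    crd a c (PP a c v0 k0 p') I = ∑ α : Fin D₀, ∑ l : {l : Fin n → Ix // l ∈ IxG n v0 k0},
      ((p' α l : Polynomial K) * Polynomial.X ^ (α : ℕ)) * (if l.1 = I then 1 else 0) := by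
  have h1 : crd a c (PP a c v0 k0 p') I = ∑ α : Fin D₀, crd a c (∑ l : {l : Fin n → Ix // l ∈ IxG n v0 k0},
      ((p' α l : Polynomial K) * Polynomial.X ^ (α : ℕ)) • mon a c (Polynomial K) l.1) I := by
    unfold PP crd
    rw [map_sum, Finsupp.finsetSum_apply]
  rw [h1]
  refine Finset.sum_congr rfl fun α _ => ?_
  rw [e2d_crd_sum]
  refine Finset.sum_congr rfl fun l _ => ?_
  rw [e1h_crd_mon]

theorem z5a_mem (v0 k0 : ℕ) {D₀ : ℕ} (p' : Fin D₀ → {l : Fin n → Ix // l ∈ IxG n v0 k0} → ℤ) (I : {l : Fin n → Ix // l ∈ IxG n v0 k0}) :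
    crd a c (PP a c v0 k0 p') I.1 = ∑ α : Fin D₀, (p' α I : Polynomial K) * Polynomial.X ^ (α : ℕ) := by
  rw [z5a_crd]
  refine Finset.sum_congr rfl fun α _ => ?_
  rw [Finset.sum_eq_single I]
  · rw [if_pos rfl, mul_one]
  · intro l _ hl
    rw [if_neg fun h => hl (Subtype.ext h), mul_zero]
  · intro h
    exact absurd (Finset.mem_univ I) h

theorem z5a_notMem (v0 k0 : ℕ) {D₀ : ℕ} (p' : Fin D₀ → {l : Fin n → Ix // l ∈ IxG n v0 k0} → ℤ) (I : Fin n → Ix)
    (hI : I ∉ IxG n v0 k0) : crd a c (PP a c v0 k0 p') I = 0 := by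
  rw [z5a_crd]
  refine Finset.sum_eq_zero fun α _ => Finset.sum_eq_zero fun l _ => ?_
  rw [if_neg, mul_zero]
  intro h
  exact hI (h ▸ l.2)

/-- Elementary facts on `PP`.

Proof. The coordinate of `PP` at `l ∈ IxG` is `∑_α p' (α, l) z ^ α`, at the other indices it is `0` (`LB_apply`, `Module.Basis.repr_self`). -/
theorem z5a_PP (v0 k0 : ℕ) {D₀ : ℕ} (p' : Fin D₀ → {l : Fin n → Ix // l ∈ IxG n v0 k0} → ℤ) (hp' : p' ≠ 0) :
    PP a c v0 k0 p' ≠ 0 ∧ TG a c v0 k0 (PP a c v0 k0 p') ∧ DG a c D₀ (PP a c v0 k0 p') := by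
  refine ⟨?_, ?_, ?_⟩
  · intro h0
    apply hp'
    funext α I
    have h1 := z5a_mem (a := a) (c := c) v0 k0 p' I
    rw [h0, e1h_crd_zero] at h1
    have h2 : Polynomial.coeff (∑ β : Fin D₀, (p' β I : Polynomial K) * Polynomial.X ^ (β : ℕ)) (α : ℕ) = (p' α I : K) := by
      rw [Polynomial.finsetSum_coeff, Finset.sum_eq_single α]
      · rw [← Polynomial.C_eq_intCast, Polynomial.coeff_C_mul, Polynomial.coeff_X_pow, if_pos rfl, mul_one]
      · intro β _ hβ
        rw [← Polynomial.C_eq_intCast, Polynomial.coeff_C_mul, Polynomial.coeff_X_pow, if_neg fun h => hβ (Fin.ext h.symm), mul_zero]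
      · intro h
        exact absurd (Finset.mem_univ α) h
    rw [← h1, Polynomial.coeff_zero] at h2
    exact_mod_cast h2.symm
  · intro I hI
    by_contra h
    exact hI (z5a_notMem v0 k0 p' I fun h' => h ((mem_IxG I).1 h'))
  · intro I
    by_cases hI : I ∈ IxG n v0 k0
    · rw [z5a_mem v0 k0 p' ⟨I, hI⟩]
      refine Polynomial.natDegree_sum_le_of_forall_le _ _ fun α _ => ?_
      rw [← Polynomial.C_eq_intCast]
      exact (Polynomial.natDegree_C_mul_X_pow_le _ _).trans α.2.le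
    · rw [z5a_notMem v0 k0 p' I hI, Polynomial.natDegree_zero]
      exact Nat.zero_le _

end H47E
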