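import Pool.Agent.Lib.H47E.Z5

/-!
# H47E, chunk Z5b: the row formula
-/

set_option autoImplicit false

namespace H47E

open PowerSeries

section Aux

variable {n : ℕ} {K : Type} [Field K] [CharZero K] (a c : K) (p : Fin n → K)

/-- The exponential of `z`. -/
theorem z5b_expX : expD (der a c (Polynomial.derivative' : Derivation K (Polynomial K) (Polynomial K)) p)
      (algebraMap (Polynomial K) (LL n a c (Polynomial K)) Polynomial.X) =
    C (algebraMap (Polynomial K) (LL n a c (Polynomial K)) Polynomial.X) + X := by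
  obtain ⟨D, hD⟩ : ∃ D, D = der a c (Polynomial.derivative' : Derivation K (Polynomial K) (Polynomial K)) p := ⟨_, rfl⟩
  have h1 : D (algebraMap (Polynomial K) (LL n a c (Polynomial K)) Polynomial.X) = 1 := by
    have h2 : Polynomial.derivative' (Polynomial.X : Polynomial K) = 1 := Polynomial.derivative_X
    rw [hD, der_alg, h2, map_one]
  rw [← hD]
  ext i
  rw [expD_coeff, map_add, coeff_C, coeff_X]
  match i with
  | 0 => simp
  | 1 => simp [h1]
  | (i + 2) =>
    have h3 : (⇑D)^[i] 0 = 0 := by
      induction i with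
      | zero => rfl
      | succ i ih => rw [Function.iterate_succ_apply, map_zero, ih]
    rw [Function.iterate_succ_apply, Function.iterate_succ_apply, h1, Derivation.map_one_eq_zero, h3]
    simp

/-- The exponential commutes with the base change. -/
theorem z5b_exp_bc (φ : K →ₐ[K] Polynomial K) (m : LL n a c K) :
    expD (der a c (Polynomial.derivative' : Derivation K (Polynomial K) (Polynomial K)) p) (bc a c K φ m) =
      PowerSeries.map (bc a c K φ) (expD (der a c (0 : Derivation K K K) p) m) := by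
  have h : ∀ r : K, Polynomial.derivative' (φ r) = φ ((0 : Derivation K K K) r) := by
    intro r
    have h1 : φ r = Polynomial.C r := φ.commutes r
    have h2 : Polynomial.derivative' (Polynomial.C r : Polynomial K) = 0 := Polynomial.derivative_C
    rw [h1, h2, Derivation.zero_apply, map_zero]
  have hit : ∀ (i : ℕ) (x : LL n a c K),
      (⇑(der a c (Polynomial.derivative' : Derivation K (Polynomial K) (Polynomial K)) p))^[i] (bc a c K φ x) =
        bc a c K φ ((⇑(der a c (0 : Derivation K K K) p))^[i] x) := by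
    intro i
    induction i with
    | zero => intro x; rfl
    | succ i ih =>
      intro x
      rw [Function.iterate_succ_apply, Function.iterate_succ_apply, e3b_bc a c 0 Polynomial.derivative' φ h, ih]
  ext i
  rw [coeff_map, expD_coeff, expD_coeff, hit, Algebra.smul_def, Algebra.smul_def, map_mul, e3b_bcK]

end Aux

section Th

variable {n : ℕ} {K : Type} [Field K] [CharZero K] (a c : K) [Fact (c ≠ 0)]

/-- The functional: coordinate `b`, evaluated at `z = m`. -/
noncomputable def z5b_Th (m : ℕ) (b : Fin n → Ix) : LL n a c (Polynomial K) →+ K where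
  toFun x := (crd a c x b).eval (m : K)
  map_zero' := by rw [e1h_crd_zero, Polynomial.eval_zero]
  map_add' x y := by rw [e1h_crd_add, Polynomial.eval_add]

theorem z5b_Th_alg (m : ℕ) (b : Fin n → Ix) (q : Polynomial K) (x : LL n a c (Polynomial K)) :
    z5b_Th a c m b (algebraMap (Polynomial K) (LL n a c (Polynomial K)) q * x) = q.eval (m : K) * z5b_Th a c m b x := by
  change (crd a c (algebraMap (Polynomial K) (LL n a c (Polynomial K)) q * x) b).eval (m : K) =
    q.eval (m : K) * (crd a c x b).eval (m : K)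
  rw [← Algebra.smul_def, e1h_crd_smul, Polynomial.eval_mul]

theorem z5b_Th_bc (m : ℕ) (b : Fin n → Ix) (φ : K →ₐ[K] Polynomial K) (y : LL n a c K) :
    z5b_Th a c m b (bc a c K φ y) = crd a c y b := by
  change (crd a c (bc a c K φ y) b).eval (m : K) = crd a c y b
  have h1 : φ (crd a c y b) = Polynomial.C (crd a c y b) := φ.commutes _
  rw [(e1h_bc a c φ y b).1, h1, Polynomial.eval_C]

theorem z5b_Th_coeff (m : ℕ) (b : Fin n → Ix) (φ : K →ₐ[K] Polynomial K) (Q : (Polynomial K)⟦X⟧) (F : (LL n a c K)⟦X⟧)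
    (i : ℕ) : z5b_Th a c m b (coeff i (PowerSeries.map (algebraMap (Polynomial K) (LL n a c (Polynomial K))) Q *
      PowerSeries.map (bc a c K φ) F)) =
      coeff i (PowerSeries.map (Polynomial.evalRingHom (m : K)) Q * scrd a c F b) := by
  rw [coeff_mul, coeff_mul, map_sum]
  refine Finset.sum_congr rfl fun x _ => ?_
  rw [coeff_map, coeff_map, coeff_map, z5b_Th_alg, z5b_Th_bc, scrd, coeff_mk]
  rfl

end Th

variable {n : ℕ} {K : Type} [Field K] [CharZero K] {a c : K} [Fact (c ≠ 0)] (S : Ser K a c) (p : Fin n → K)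

/-- The row formula: the coordinates at `z = m` of `v_(I, i)(PP) mon μ` are the rows of the abstract arithmetic theorem.

Proof. `e7_formula` for `k = K[z]`: `vv I P = thI * Exp P`; `Exp` is a ring homomorphism, `Exp(C r) = C r` for `r ∈ K`, `Exp(z) = z + u` (`expD_coeff`,
`der_alg`), `Exp(mon l over K[z]) = map bc (Exp(mon l over K))` (`e3b_bc`, `bc` for `φ : K → K[z]`, `e1h_bc`), `thI = map bc thI` (`e7_bc`); so
`coeff i (vv I PP) * mon μ = ∑_(α, l) ∑_(s + t = i) (p' (α, l) [u ^ s] (z + u) ^ α) • bc (coeff t (vv_K I (mon l)) * mon μ)`, take the coordinates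
(`e1h_bc`: they are `C` of the coordinates over `K`) and evaluate at `z = m`; `row` is
`coeff i (∑ ∑ C (p' α l) (C m + X) ^ α * H κ l b)`. -/
theorem z5b_row (v0 k0 : ℕ) {D₀ : ℕ} (p' : Fin D₀ → {l : Fin n → Ix // l ∈ IxG n v0 k0} → ℤ) (m : ℕ)
    (I : Finset (Fin n)) (μ b : Fin n → Ix) (i : ℕ) :
    (crd a c (coeff i (vv S p Polynomial.derivative' v0 k0 I (PP a c v0 k0 p')) * mon a c (Polynomial K) μ) b).eval (m : K) =
      row (fun κ (l : {l : Fin n → Ix // l ∈ IxG n v0 k0}) b => Hs S p v0 k0 κ l.1 b) p' m (I, μ) i b := by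
  obtain ⟨φ, hφ⟩ : ∃ φ : K →ₐ[K] Polynomial K, φ = Algebra.ofId K (Polynomial K) := ⟨_, rfl⟩
  have hQ : ∀ (z : ℤ) (α : ℕ), expD (der a c (Polynomial.derivative' : Derivation K (Polynomial K) (Polynomial K)) p)
      (algebraMap (Polynomial K) (LL n a c (Polynomial K)) ((z : Polynomial K) * Polynomial.X ^ α)) =
      PowerSeries.map (algebraMap (Polynomial K) (LL n a c (Polynomial K)))
        ((z : (Polynomial K)⟦X⟧) * (C Polynomial.X + X) ^ α) := by
    intro z α
    rw [map_mul, map_intCast, map_pow, map_mul, map_intCast, map_pow, z5b_expX, map_mul, map_intCast, map_pow, map_add,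
      PowerSeries.map_C, PowerSeries.map_X]
  have hvv : vv S p Polynomial.derivative' v0 k0 I (PP a c v0 k0 p') =
      ∑ α : Fin D₀, ∑ l : {l : Fin n → Ix // l ∈ IxG n v0 k0},
        PowerSeries.map (algebraMap (Polynomial K) (LL n a c (Polynomial K)))
          (((p' α l : ℤ) : (Polynomial K)⟦X⟧) * (C Polynomial.X + X) ^ (α : ℕ)) *
        PowerSeries.map (bc a c K φ) (vv S p (0 : Derivation K K K) v0 k0 I (mon a c K l.1)) := by
    rw [e7_formula, ← e7_bc S p φ v0 k0 I, PP, map_sum, Finset.mul_sum]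
    refine Finset.sum_congr rfl fun α _ => ?_
    rw [map_sum, Finset.mul_sum]
    refine Finset.sum_congr rfl fun l _ => ?_
    have e : (((p' α l : ℤ) : Polynomial K) * Polynomial.X ^ (α : ℕ)) • mon a c (Polynomial K) l.1 =
        algebraMap (Polynomial K) (LL n a c (Polynomial K)) (((p' α l : ℤ) : Polynomial K) * Polynomial.X ^ (α : ℕ)) *
          mon a c (Polynomial K) l.1 :=
      Algebra.smul_def (((p' α l : ℤ) : Polynomial K) * Polynomial.X ^ (α : ℕ)) (mon a c (Polynomial K) l.1)
    rw [e, map_mul (expD (der a c Polynomial.derivative' p)), hQ, ← e1h_bc_mon a c φ l.1, z5b_exp_bc,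
      e7_formula, map_mul (PowerSeries.map (bc a c K φ))]
    ring
  have hmu : coeff i (vv S p Polynomial.derivative' v0 k0 I (PP a c v0 k0 p')) * mon a c (Polynomial K) μ =
      ∑ α : Fin D₀, ∑ l : {l : Fin n → Ix // l ∈ IxG n v0 k0},
        coeff i (PowerSeries.map (algebraMap (Polynomial K) (LL n a c (Polynomial K)))
          (((p' α l : ℤ) : (Polynomial K)⟦X⟧) * (C Polynomial.X + X) ^ (α : ℕ)) *
        PowerSeries.map (bc a c K φ) (vv S p (0 : Derivation K K K) v0 k0 I (mon a c K l.1) * C (mon a c K μ))) := by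
    rw [← coeff_mul_C, hvv, Finset.sum_mul, map_sum]
    refine Finset.sum_congr rfl fun α _ => ?_
    rw [Finset.sum_mul, map_sum]
    refine Finset.sum_congr rfl fun l _ => ?_
    rw [map_mul (PowerSeries.map (bc a c K φ)), PowerSeries.map_C, e1h_bc_mon, mul_assoc]
  have h1 : (crd a c (coeff i (vv S p Polynomial.derivative' v0 k0 I (PP a c v0 k0 p')) * mon a c (Polynomial K) μ) b).eval (m : K) =
      z5b_Th a c m b (coeff i (vv S p Polynomial.derivative' v0 k0 I (PP a c v0 k0 p')) * mon a c (Polynomial K) μ) := rfl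
  rw [h1, hmu, map_sum]
  unfold row
  rw [map_sum]
  refine Finset.sum_congr rfl fun α _ => ?_
  rw [map_sum, map_sum]
  refine Finset.sum_congr rfl fun l _ => ?_
  have e2 : PowerSeries.map (Polynomial.evalRingHom (m : K))
      (((p' α l : ℤ) : (Polynomial K)⟦X⟧) * (C Polynomial.X + X) ^ (α : ℕ)) =
      C ((p' α l : ℤ) : K) * (C (m : K) + X) ^ (α : ℕ) := by
    rw [map_mul, map_intCast, map_pow, map_add, PowerSeries.map_C, PowerSeries.map_X, map_intCast,
      Polynomial.coe_evalRingHom, Polynomial.eval_X]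
  rw [z5b_Th_coeff, e2]
  rfl

end H47E
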