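import Pool.Agent.Lib.H47E.Z4
import Pool.Agent.Lib.H47E.E7

/-!
# H47E, chunk Z6a: the families and the derivatives
-/

set_option autoImplicit false

namespace H47E

open Finset Polynomial

variable {n : ℕ} {K : Type} [Field K] [CharZero K] {a c : K} [Fact (c ≠ 0)] (S : Ser K a c) (p : Fin n → K)

/-- `In` for `gbi`, with ranges: `x ∈ ∑_(l ≤ i) (type A, degree ≤ k) s l`. -/
theorem z6a_in {k : ℕ} {s : ℕ → LL n a c K[X]} {i : ℕ} {x : LL n a c K[X]} :
    (gbi a c n).In k s i x ↔ ∃ f : ℕ → LL n a c K[X], (∀ l, TA a c k (f l)) ∧ x = ∑ l ∈ range (i + 1), f l * s l := by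
  unfold GB.In
  simp only [gbi_TA]

theorem z6a_delta (i l : ℕ) : TA a c 0 ((if l = i then 1 else 0 : LL n a c K[X])) := by
  split_ifs
  · have h := (e1h_one a c (k := K[X]) (n := n)).1
    exact fun I hI => ⟨(h I hI).1, fun j => ((h I hI).2 j).1⟩
  · exact fun I hI => absurd (by unfold crd; simp) hI

theorem z6a_sum (i : ℕ) (g : ℕ → LL n a c K[X]) :
    ∑ l ∈ range (i + 1), (if l = i then 1 else 0 : LL n a c K[X]) * g l = g i := by
  rw [sum_eq_single_of_mem i (mem_range.2 (Nat.lt_succ_self i))]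
  · rw [if_pos rfl, one_mul]
  · intro l _ hl
    rw [if_neg hl, zero_mul]

/-- `G_P` and the derivatives of `P` (`e5c_toD`, `e5c_toG` with `f l = 1` for `l = i` and `0` for `l ≠ i`). -/
theorem z6a_g12 (ν : ℕ) (P : LL n a c K[X]) (i : ℕ) :
    (gbi a c n).In 0 (fun l => (der a c derivative' p)^[l] P) i (PowerSeries.coeff i (GP S p derivative' ν P)) ∧
    (gbi a c n).In 0 (fun l => PowerSeries.coeff l (GP S p derivative' ν P)) i ((der a c derivative' p)^[i] P) := by
  constructor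
  · rw [z6a_in]
    obtain ⟨f, hf, h⟩ := e5c_toD (κ := 0) S p derivative' ν P (i + 1) (fun l => if l = i then 1 else 0) (z6a_delta i)
    refine ⟨f, hf, ?_⟩
    rw [← h]
    exact (z6a_sum i fun l => PowerSeries.coeff l (GP S p derivative' ν P)).symm
  · rw [z6a_in]
    obtain ⟨f, hf, h⟩ := e5c_toG (κ := 0) S p derivative' ν P (i + 1) (fun l => if l = i then 1 else 0) (z6a_delta i)
    refine ⟨f, hf, ?_⟩
    rw [← h]
    exact (z6a_sum i fun l => (der a c derivative' p)^[l] P).symm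

/-- The formula `v_I(P) = th_I Exp(P)` gives `v_(I, i)(P)` as a combination of the `D ^ l P`, `l ≤ i` (`e7_formula`, `e7_th`, `expD_coeff`). -/
theorem z6a_g3 (v0 k0 : ℕ) (I : Finset (Fin n)) (P : LL n a c K[X]) (i : ℕ) :
    (gbi a c n).In 0 (fun l => (der a c derivative' p)^[l] P) i (PowerSeries.coeff i (vv S p derivative' v0 k0 I P)) := by
  rw [z6a_in]
  obtain ⟨f, hf, h⟩ := e5c_conv (κ := 0) (vv S p derivative' v0 k0 I P) (thI S p K[X] v0 k0 I)
    (expD (der a c derivative' p) P) (e7_th S p v0 k0 I) (e7_formula S p derivative' v0 k0 I P) (i + 1)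
    (fun l => if l = i then 1 else 0) (z6a_delta i)
  refine ⟨fun l => ((l.factorial : K))⁻¹ • f l, fun l => e5c_smul _ (hf l), ?_⟩
  have h1 := z6a_sum i fun l => PowerSeries.coeff l (vv S p derivative' v0 k0 I P)
  rw [h] at h1
  rw [← h1]
  refine sum_congr rfl fun l _ => ?_
  rw [expD_coeff, mul_smul_comm, smul_mul_assoc]

end H47E
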