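import Pool.Agent.Lib.H47E.E7

/-!
# H47E, chunk Z6b: degrees in `z`
-/

set_option autoImplicit false

namespace H47E

open Finset Polynomial

section Aux

variable {n₁ : ℕ} {K₁ : Type} [Field K₁] [CharZero K₁] (a₁ c₁ : K₁) [Fact (c₁ ≠ 0)]

theorem z6b_zero (d : ℕ) : DG a₁ c₁ d (0 : LL n₁ a₁ c₁ K₁[X]) := by
  intro I
  rw [e1h_crd_zero, Polynomial.natDegree_zero]
  exact Nat.zero_le _

theorem z6b_sum {β : Type} (s : Finset β) (f : β → LL n₁ a₁ c₁ K₁[X]) {d : ℕ} (h : ∀ i ∈ s, DG a₁ c₁ d (f i)) :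
    DG a₁ c₁ d (∑ i ∈ s, f i) := by
  classical
  induction s using Finset.induction_on with
  | empty =>
    rw [Finset.sum_empty]
    exact z6b_zero a₁ c₁ d
  | insert i s hi ih =>
    rw [Finset.sum_insert hi]
    exact e2d_add a₁ c₁ (h i (Finset.mem_insert_self i s)) (ih fun l hl => h l (Finset.mem_insert_of_mem hl))

theorem z6b_mul0 {d : ℕ} {m m' : LL n₁ a₁ c₁ K₁[X]} (h : DG a₁ c₁ 0 m) (h' : DG a₁ c₁ d m') : DG a₁ c₁ d (m * m') := by
  have := e2d_mul a₁ c₁ h h'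
  rwa [zero_add] at this

theorem z6b_bc (m : LL n₁ a₁ c₁ K₁) : DG a₁ c₁ 0 (bc a₁ c₁ K₁ (Algebra.ofId K₁ K₁[X]) m) := by
  intro I
  rw [(e1h_bc a₁ c₁ (Algebra.ofId K₁ K₁[X]) m I).1]
  exact (Polynomial.natDegree_C _).le

theorem z6b_alg (x : K₁) : DG a₁ c₁ 0 (algebraMap K₁ (LL n₁ a₁ c₁ K₁[X]) x) := by
  rw [← e3b_bcK a₁ c₁ (Algebra.ofId K₁ K₁[X])]
  exact z6b_bc a₁ c₁ _

theorem z6b_it (p₁ : Fin n₁ → K₁) {P : LL n₁ a₁ c₁ K₁[X]} {d : ℕ} (hP : DG a₁ c₁ d P) (i : ℕ) :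
    DG a₁ c₁ d ((der a₁ c₁ derivative' p₁)^[i] P) := by
  induction i with
  | zero => exact hP
  | succ i ih =>
    rw [Function.iterate_succ_apply']
    exact e3c_deg a₁ c₁ p₁ ih

end Aux

variable {n : ℕ} {K : Type} [Field K] [CharZero K] {a c : K} [Fact (c ≠ 0)] (S : Ser K a c) (p : Fin n → K)

/-- The degrees in `z` of the coordinates of `v_(I, i)(P)` are at most those of `P`.

Proof. `v_(I, i)(P) = ∑_(l ≤ i) coeff (i - l) thI * D ^ l P / l!` (`e7_formula`), `D` does not increase the degrees (`e3c_deg`), and the coefficients of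
`thI` are in `DG 0` (`e7_bc` for `K → K[z]` and `e1h_bc`: the coordinates of `bc m` are constants); `e2d_mul`. -/
theorem z6b_deg (v0 k0 : ℕ) (I : Finset (Fin n)) {P : LL n a c K[X]} {d : ℕ} (hP : DG a c d P) (i : ℕ) :
    DG a c d (PowerSeries.coeff i (vv S p derivative' v0 k0 I P)) := by
  rw [e7_formula, PowerSeries.coeff_mul]
  refine z6b_sum a c _ _ fun x _ => z6b_mul0 a c ?_ ?_
  · rw [← e7_bc S p (Algebra.ofId K K[X]) v0 k0 I, PowerSeries.coeff_map]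
    exact z6b_bc a c _
  · rw [expD_coeff, Algebra.smul_def]
    exact z6b_mul0 a c (z6b_alg a c _) (z6b_it a c p hP _)

/-- The degrees of `P_I`: `e2d_tau`, `e2d_mul`, `e2d_const`. -/
theorem z6b_degPI (v0 : ℕ) (I : Finset (Fin n)) {P : LL n a c K[X]} {d : ℕ} (hP : DG a c d P) : DG a c d (PI a c v0 I P) := by
  unfold PI
  refine z6b_mul0 a c (e2d_prod0 a c _ _ fun j _ => e2d_pow0 a c (e2d_const a c (fun _ => (0, 0, 0)) 0 (j, 0)).2.2 _) (e2d_tau a c I hP)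

end H47E
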