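import Pool.Agent.Lib.H47E.Z5
import Pool.Agent.Lib.H47E.Z6a
import Pool.Agent.Lib.H47E.Z6b

/-!
# H47E, module Z: the structures `Base` and `Fam` for the families `v_(I, i)(P)`
-/

set_option autoImplicit false

namespace H47E

open Finset Polynomial

section Fam

variable {n : ℕ} {K : Type} [Field K] [CharZero K] {a c : K} [Fact (c ≠ 0)] (S : Ser K a c) (p : Fin n → K)

/-- `tau` as a `K[z]`-algebra homomorphism. -/
noncomputable def tauA (a c : K) (I : Finset (Fin n)) : LL n a c K[X] →ₐ[K[X]] LL n a c K[X] :=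
  { tau a c K[X] I with commutes' := fun r => e2a_alg a c K[X] I r }

/-- The inverse of `x_I ^ nup`: `(c⁻¹ xb_I) ^ nup`. -/
noncomputable def xnv (a c : K) (v0 k0 : ℕ) (I : Finset (Fin n)) : LL n a c K[X] :=
  algebraMap K (LL n a c K[X]) (c⁻¹ ^ (nup v0 k0 * I.card)) * ∏ j ∈ I, gb a c K[X] j ^ nup v0 k0

theorem z6_xnv (v0 k0 : ℕ) (I : Finset (Fin n)) : xnv a c v0 k0 I * ∏ j ∈ I, gx a c K[X] j ^ nup v0 k0 = 1 := by
  have hc : c ≠ 0 := Fact.out
  have h1 : ∏ j ∈ I, gb a c K[X] j ^ nup v0 k0 * gx a c K[X] j ^ nup v0 k0 =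
      algebraMap K (LL n a c K[X]) (c ^ (nup v0 k0 * I.card)) := by
    have h2 : ∀ j ∈ I, gb a c K[X] j ^ nup v0 k0 * gx a c K[X] j ^ nup v0 k0 =
        algebraMap K (LL n a c K[X]) c ^ nup v0 k0 := fun j _ => by
      rw [← mul_pow, mul_comm (gb a c K[X] j), rel_c]
    rw [prod_congr rfl h2, prod_const, ← pow_mul, map_pow]
  unfold xnv
  rw [mul_assoc, ← prod_mul_distrib, h1, ← map_mul, ← mul_pow, inv_mul_cancel₀ hc, one_pow, map_one]

end Fam

variable {K : Type} [Field K] [NumberField K] (ι : K →+* ℂ) {L : PeriodPair} (hL : CM L) {e : ℂ} {a c : K} [Fact (c ≠ 0)]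
  (N : Norm L e (ι a) (ι c)) {n : ℕ} (p : Fin n → K) (hp : KInd L (fun j => ι (p j)))

/-- The ground facts. -/
noncomputable def gbase (ι : K →+* ℂ) {L : PeriodPair} (hL : CM L) {e : ℂ} {a c : K} [Fact (c ≠ 0)]
    (N : Norm L e (ι a) (ι c)) {n : ℕ} (p : Fin n → K) (hp : KInd L (fun j => ι (p j))) : GB.Base (gbi a c n) where
  b₀ := fun _ => (0, 0, 0)
  one := (LB_good a c K[X]).one
  ty₀ := fun j => by show tA (0, 0, 0); unfold tA; simp
  wt₀ := fun j => by show wt (0, 0, 0) ≤ 0; unfold wt; simp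
  wd₀ := by show wd _ = 0; unfold wd; simp
  cst := gbi_cst a c
  del := der a c derivative' p
  add := fun x y => map_add _ x y
  mul := fun x y => by rw [Derivation.leibniz, smul_eq_mul, smul_eq_mul]; ring
  pol := fun q => der_alg a c derivative' p q
  tyd := fun k x hx => (gbi_TA a c).2 (e3c_TA a c derivative' p ((gbi_TA a c).1 hx))
  fin := gbi_fin a c
  simple := fun M h1 h2 h3 h4 => by
    refine s4c ι hL N p hp M (fun m hm => ?_) (fun f hf m hm => h2 f m ((gbi_TA a c).2 hf) hm) h3 ?_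
    · obtain ⟨k, hk⟩ := h1 m hm
      exact ⟨k, (gbi_TA a c).1 hk⟩
    · by_contra h
      push Not at h
      exact h4 ((AddSubgroup.eq_bot_iff_forall M).2 h)

variable (S : Ser K a c)

/-- The family of `P`. -/
noncomputable def gfam (v0 k0 D₀ : ℕ) (P : LL n a c K[X]) (hP : P ≠ 0) (hT : TG a c v0 k0 P) (hD : DG a c D₀ P) :
    GB.Fam (gbase ι hL N p hp) (bb v0 k0) k0 D₀ P where
  PI := fun I => PI a c v0 I P
  GI := fun I i => PowerSeries.coeff i (GP S p derivative' (nu1 v0 k0) (PI a c v0 I P))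
  v := fun I i => PowerSeries.coeff i (vv S p derivative' v0 k0 I P)
  tau := fun I => tauA a c I
  xn := fun I => ∏ j ∈ I, gx a c K[X] j ^ nup v0 k0
  xinv := fun I => xnv a c v0 k0 I
  hx := fun I => z6_xnv v0 k0 I
  hv := fun I i => by
    unfold vv
    rw [PowerSeries.coeff_C_mul, PowerSeries.coeff_map]
    rfl
  ne := fun I => e5b_PI_ne hP I
  g1 := fun I i => (z6a_g12 S p _ _ i).1
  g2 := fun I i => (z6a_g12 S p _ _ i).2
  g3 := fun I i => z6a_g3 S p v0 k0 I P i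
  wG := fun I i => by
    refine (gbi_TG a c).2 fun J hJ => ?_
    obtain ⟨h1, h2⟩ := e5b_GP S p derivative' (e5b_PI hT I) i J hJ
    refine ⟨h1, fun j => ⟨(h2 j).1, (h2 j).2.trans ?_⟩⟩
    unfold bb nup
    push_cast
    omega
  wv := fun I i => (gbi_TG a c).2 (e5b_vv S p derivative' hT I i)
  wa := fun I k x hx => by
    have h1 := e2_AB a c I ((gbi_TA a c).1 hx) (nup v0 k0)
    have h2 := (MS (LB a c K[X]) (sAB I) (-(2 * nup v0 k0) + k) k).smul_mem (algebraMap K K[X] (c⁻¹ ^ (nup v0 k0 * I.card))) h1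
    have h3 : xnv a c v0 k0 I * tauA a c I x = algebraMap K K[X] (c⁻¹ ^ (nup v0 k0 * I.card)) •
        ((∏ j ∈ I, gb a c K[X] j ^ nup v0 k0) * tau a c K[X] I x) := by
      refine Eq.trans ?_ (Algebra.smul_def (algebraMap K K[X] (c⁻¹ ^ (nup v0 k0 * I.card)))
        ((∏ j ∈ I, gb a c K[X] j ^ nup v0 k0) * tau a c K[X] I x)).symm
      rw [← IsScalarTower.algebraMap_apply K K[X] (LL n a c K[X]), ← mul_assoc]
      rfl
    have h4 : (-(bb v0 k0 : ℤ) + (k0 + k : ℕ)) = -(2 * nup v0 k0) + k := by unfold bb; push_cast; ring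
    rw [h3, h4]
    exact gbi_MS a c h2
  dg := fun I i z => z6b_deg S p v0 k0 I hD i z

end H47E
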