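import Pool.Agent.Lib.H47E.Z6
import Pool.Agent.Lib.H47E.Z5a
import Pool.Agent.Lib.H47E.Z5b

/-!
# H47E, module Z: the zero estimate in the form of the abstract arithmetic theorem
-/

set_option autoImplicit false

namespace H47E

open Finset Polynomial

variable {K : Type} [Field K] [NumberField K] (ι : K →+* ℂ) {L : PeriodPair} (hL : CM L) {e : ℂ} {a c : K} [Fact (c ≠ 0)]
  (N : Norm L e (ι a) (ι c)) {n : ℕ} (p : Fin n → K) (hp : KInd L (fun j => ι (p j))) (S : Ser K a c)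

/-- The number of indices. -/
theorem z7_nt (d k : ℕ) : (gbase ι hL N p hp).nt (d : ℤ) k ≤ cnt n d k := by
  refine le_trans (Finset.card_le_card fun I hI => ?_) (e1j_card n d k)
  have h := (Set.Finite.mem_toFinset _).1 hI
  obtain ⟨h1, h2, h3⟩ := h
  exact (mem_IxG I).2 ⟨h1, fun j => ⟨h2 j (mem_univ j), h3 j (mem_univ j)⟩⟩

/-- The index of the monomial `1`. -/
theorem z7_zero (n d k : ℕ) : (fun _ : Fin n => ((0, 0, 0) : Ix)) ∈ IxG n d k := by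
  rw [mem_IxG]
  refine ⟨by unfold wd; simp, fun j => ⟨by unfold tA; simp, by unfold wt; simp⟩⟩

include ι hL N hp in
/-- THE ZERO ESTIMATE. -/
theorem z7_zeh (v0 k0 D₀ : ℕ) (p' : Fin D₀ → {l : Fin n → Ix // l ∈ IxG n v0 k0} → ℤ) (hp' : p' ≠ 0) (m₀ : ℕ) (hm₀ : 1 ≤ m₀) :
    ∃ m, 1 ≤ m ∧ m ≤ m₀ ∧
      (Pi.single ⟨fun _ => (0, 0, 0), z7_zero n _ _⟩ 1 : {b : Fin n → Ix // b ∈ IxG n (zd n v0 k0 + bb v0 k0) (zk n k0 + k0)} → K) ∈
        Submodule.span K {r | ∃ (κ : Finset (Fin n) × {μ : Fin n → Ix // μ ∈ IxG n (zd n v0 k0) (zk n k0)}) (i : ℕ),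
          i ≤ zT n v0 k0 + D₀ * zN n v0 k0 / m₀ ∧
          r = row (fun (κ : Finset (Fin n) × {μ : Fin n → Ix // μ ∈ IxG n (zd n v0 k0) (zk n k0)})
            (l : {l : Fin n → Ix // l ∈ IxG n v0 k0})
            (b : {b : Fin n → Ix // b ∈ IxG n (zd n v0 k0 + bb v0 k0) (zk n k0 + k0)}) =>
              Hs S p v0 k0 (κ.1, κ.2.1) l.1 b.1) p' m κ i} := by
  classical
  obtain ⟨h1, h2, h3⟩ := z5a_PP (a := a) (c := c) v0 k0 p' hp'
  set P := PP a c v0 k0 p' with hPdef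
  have hF : ∃ F : GB.Fam (gbase ι hL N p hp) (bb v0 k0) k0 D₀ P, (∀ I, F.PI I = PI a c v0 I P) ∧
      ∀ I i, F.v I i = PowerSeries.coeff i (vv S p derivative' v0 k0 I P) :=
    ⟨gfam ι hL N p hp S v0 k0 D₀ P h1 h2 h3, fun I => rfl, fun I i => rfl⟩
  obtain ⟨F, hFI, hFv⟩ := hF
  have F' : ∀ I, GB.Fam (gbase ι hL N p hp) (bb (nu1 v0 k0) k0) k0 D₀ (F.PI I) := fun I => by
    rw [hFI]
    exact gfam ι hL N p hp S (nu1 v0 k0) k0 D₀ (PI a c v0 I P) (e5b_PI_ne h1 I) (e5b_PI h2 I) (z6b_degPI v0 I h3)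
  obtain ⟨m, hm1, hm2, hm3⟩ := GB.zeh (gbase ι hL N p hp) F F' m₀ hm₀
  refine ⟨m, hm1, hm2, ?_⟩
  -- restriction to the finite set of indices
  let res : ((Fin n → Ix) → K) →ₗ[K] ({b : Fin n → Ix // b ∈ IxG n (zd n v0 k0 + bb v0 k0) (zk n k0 + k0)} → K) :=
    LinearMap.funLeft K K (fun b => b.1)
  have h4 := Submodule.mem_map_of_mem (f := res) hm3
  rw [Submodule.map_span] at h4
  have h5 : res (fun z => (((gbi a c n).B.repr (1 : LL n a c K[X]) z).eval (m : K))) =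
      Pi.single ⟨fun _ => (0, 0, 0), z7_zero n _ _⟩ 1 := by
    funext b
    show (crd a c (1 : LL n a c K[X]) b.1).eval (m : K) = _
    rw [(e1h_one a c (k := K[X]) (n := n)).2.1 b.1]
    by_cases hb : b = ⟨fun _ => (0, 0, 0), z7_zero n _ _⟩
    · rw [hb, Pi.single_eq_same, if_pos rfl, Polynomial.eval_one]
    · rw [Pi.single_eq_of_ne hb, if_neg (fun h => hb (Subtype.ext h)), Polynomial.eval_zero]
  rw [h5] at h4
  refine Submodule.span_mono ?_ h4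
  rintro r ⟨r', ⟨I, i, μ, hi, hμ, rfl⟩, rfl⟩
  rw [Fintype.card_fin] at hi hμ
  have hμ' : μ ∈ IxG n (zd n v0 k0) (zk n k0) := by
    obtain ⟨g1, g2, g3⟩ := hμ
    exact (mem_IxG μ).2 ⟨g1, fun j => ⟨g2 j (mem_univ j), g3 j (mem_univ j)⟩⟩
  refine ⟨(I, ⟨μ, hμ'⟩), i, hi.trans ?_, ?_⟩
  · refine Nat.add_le_add (z7_nt ι hL N p hp _ _) (Nat.div_le_div_right (Nat.mul_le_mul_left _ (Nat.mul_le_mul_left _ ?_)))
    exact z7_nt ι hL N p hp _ _
  · funext b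
    show ((crd a c (F.v I i * (gbi a c n).B μ) b.1)).eval (m : K) = _
    rw [hFv]
    have h6 : (gbi a c n).B μ = mon a c K[X] μ := LB_apply a c K[X] μ
    rw [h6]
    exact z5b_row S p v0 k0 p' m I μ b.1 i

end H47E
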